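import Pool.Agent.H1.ED.D0

/-!
# EW: ellipses and one measurement, contrast near one: definitions

An ellipse is given by its center `c`, a radius `r > 0` and `μ : ℂ`, `‖μ‖ < 1`: it is the image of the unit disk under the real affine map
`zz c r μ v = c + r (v + μ v̄)`, its semi-axes are `r (1 ± ‖μ‖)`. `vv` is the inverse map. `QQ` is a quadratic polynomial, negative in the ellipse,
zero on its boundary; the coefficient of `‖z‖²` in `QQ` is `1`, so the difference of two `QQ` is harmonic: it is the real part of `aa`.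
-/

set_option autoImplicit false

namespace EW1

open Complex Set Filter Topology MeasureTheory
open scoped ComplexConjugate ContDiff Real

/-- the affine parametrization -/
noncomputable def zz (c : ℂ) (r : ℝ) (μ v : ℂ) : ℂ := c + r * (v + μ * conj v)

/-- its inverse -/
noncomputable def vv (c : ℂ) (r : ℝ) (μ z : ℂ) : ℂ := ((z - c) - μ * conj (z - c)) / ((r * (1 - ‖μ‖ ^ 2) : ℝ) : ℂ)

/-- the ellipse, scaled by the factor `σ` about its center -/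
def Dp (c : ℂ) (r : ℝ) (μ : ℂ) (σ : ℝ) : Set ℂ := {z | ‖vv c r μ z‖ < σ}

/-- the constant of `QQ` -/
noncomputable def kap (r : ℝ) (μ : ℂ) : ℝ := r ^ 2 * (1 - ‖μ‖ ^ 2) ^ 2 / (1 + ‖μ‖ ^ 2)

/-- the quadratic polynomial of the ellipse -/
noncomputable def QQ (c : ℂ) (r : ℝ) (μ z : ℂ) : ℝ := kap r μ * (‖vv c r μ z‖ ^ 2 - 1)

/-- coefficients of `QQ`: `QQ = ‖z‖² - 2 Re (conj (nu μ) z²) - 2 Re (gg c μ z) + hh c r μ` -/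
noncomputable def nu (μ : ℂ) : ℂ := μ / ((1 + ‖μ‖ ^ 2 : ℝ) : ℂ)

noncomputable def gg (c μ : ℂ) : ℂ := conj c - 2 * conj (nu μ) * c

noncomputable def hh (c : ℂ) (r : ℝ) (μ : ℂ) : ℝ := ‖c‖ ^ 2 - 2 * (conj (nu μ) * c ^ 2).re - kap r μ

/-- the holomorphic polynomial with real part `QQ c₂ r₂ μ₂ - QQ c₁ r₁ μ₁` -/
noncomputable def aa (c₁ : ℂ) (r₁ : ℝ) (μ₁ c₂ : ℂ) (r₂ : ℝ) (μ₂ z : ℂ) : ℂ :=
  -(2 * conj (nu μ₂ - nu μ₁) * z ^ 2) - 2 * (gg c₂ μ₂ - gg c₁ μ₁) * z + ((hh c₂ r₂ μ₂ - hh c₁ r₁ μ₁ : ℝ) : ℂ)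

/-- the parameter set: bounded centers, radii in `[r₀, R]`, eccentricity bounded -/
def PS (r₀ R μ₀ : ℝ) (c : ℂ) (r : ℝ) (μ : ℂ) : Prop := ‖c‖ ≤ R ∧ r₀ ≤ r ∧ r ≤ R ∧ ‖μ‖ ≤ μ₀

/-- distance of two parameters -/
noncomputable def dd (c₁ : ℂ) (r₁ : ℝ) (μ₁ c₂ : ℂ) (r₂ : ℝ) (μ₂ : ℂ) : ℝ := ‖c₁ - c₂‖ + |r₁ - r₂| + ‖μ₁ - μ₂‖

/-- the complex derivative `∂F/∂z̄` of a real differentiable function -/
noncomputable def dbar (F : ℂ → ℂ) (z : ℂ) : ℂ := (fderiv ℝ F z 1 + I * fderiv ℝ F z I) / 2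

/-- Faber coefficient of the field `F` (with factor `n`): `w = ρ e^(it)` -/
noncomputable def fc (c : ℂ) (r : ℝ) (μ : ℂ) (F : ℂ → ℂ) (ρ : ℝ) (n : ℕ) : ℂ :=
  (∫ t in (0 : ℝ)..(2 * π), F (c + r * (ρ * exp (t * I) + μ * (ρ * exp (t * I))⁻¹)) *
    (r * (ρ * exp (t * I) - μ * (ρ * exp (t * I))⁻¹)) * (ρ * exp (t * I))⁻¹ ^ n) / (2 * π)

/-- the term of the error form -/
noncomputable def rt (l : ℝ) (μ A M : ℂ) (n : ℕ) : ℂ :=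
  ((1 - ‖μ‖ ^ (2 * n) : ℝ) : ℂ) * A * (l * μ ^ n * M + l ^ 2 * ‖μ‖ ^ (2 * n) * conj M) / (n * ((1 - l ^ 2 * ‖μ‖ ^ (2 * n) : ℝ) : ℂ))

/-- the error form: `((k+1)/2) ∫_D conj(F) A = ∫_D conj(m) A + RR`, `l = (k-1)/(k+1)` -/
noncomputable def RR (c : ℂ) (r : ℝ) (μ : ℂ) (l : ℝ) (A M : ℂ → ℂ) (ρ : ℝ) : ℂ :=
  π * ∑' n : ℕ, rt l μ (fc c r μ A ρ (n + 1)) (fc c r μ M ρ (n + 1)) (n + 1)

/-- polynomials for the elimination: `Ut` is a trigonometric polynomial on `‖v‖ = 1`, `Vt` is `μ² Ut (μ/v)` there -/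
noncomputable def Ut (e₀ : ℝ) (e₁ e₂ v : ℂ) : ℂ := e₂ * v ^ 2 + e₁ * v + e₀ + conj e₁ * conj v + conj e₂ * conj v ^ 2

noncomputable def Vt (μ : ℂ) (e₀ : ℝ) (e₁ e₂ v : ℂ) : ℂ :=
  conj e₂ * v ^ 2 + conj e₁ * μ * v + e₀ * μ ^ 2 + e₁ * μ ^ 3 * conj v + e₂ * μ ^ 4 * conj v ^ 2

/-- Faber sum: a polynomial in `ζ` with `Fb (w + μ/w) = s₀ + ∑ s_j (w^j + μ^j w^(-j))` -/
noncomputable def Fb (μ : ℂ) (s : Fin 5 → ℂ) (ζ : ℂ) : ℂ :=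
  s 0 + s 1 * ζ + s 2 * (ζ ^ 2 - 2 * μ) + s 3 * (ζ ^ 3 - 3 * μ * ζ) + s 4 * (ζ ^ 4 - 4 * μ * ζ ^ 2 + 2 * μ ^ 2)

/-- the coefficients of the product `Ut * Vt` on `‖v‖ = 1` -/
noncomputable def sj (μ : ℂ) (e₀ : ℝ) (e₁ e₂ : ℂ) : Fin 5 → ℂ :=
  ![e₂ ^ 2 * μ ^ 4 + e₁ ^ 2 * μ ^ 3 + e₀ ^ 2 * μ ^ 2 + conj e₁ ^ 2 * μ + conj e₂ ^ 2,
    e₂ * e₁ * μ ^ 3 + e₁ * e₀ * μ ^ 2 + e₀ * conj e₁ * μ + conj e₁ * conj e₂,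
    e₂ * e₀ * μ ^ 2 + e₁ * conj e₁ * μ + e₀ * conj e₂,
    e₂ * conj e₁ * μ + e₁ * conj e₂,
    e₂ * conj e₂]

/-- the quotient in `Fb (v + μ v̄) = Ut * Vt + (1 - ‖v‖²) Wt` -/
noncomputable def Wt (μ : ℂ) (e₀ : ℝ) (e₁ e₂ v : ℂ) : ℂ :=
  (e₂ * (e₁ * μ ^ 3) * v + e₂ * (e₂ * μ ^ 4) * (v * conj v + 1) + e₁ * (e₁ * μ ^ 3) + e₁ * (e₂ * μ ^ 4) * conj v +
    conj e₁ * (conj e₁ * μ) + conj e₁ * conj e₂ * v + conj e₂ * (conj e₁ * μ) * conj v +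
    conj e₂ * conj e₂ * (v * conj v + 1)) -
  (sj μ e₀ e₁ e₂ 2 * (2 * μ) + sj μ e₀ e₁ e₂ 3 * (3 * μ * (v + μ * conj v)) +
    sj μ e₀ e₁ e₂ 4 * (4 * μ * v ^ 2 + 4 * μ ^ 3 * conj v ^ 2 + 2 * μ ^ 2 * (3 * (v * conj v) - 1)))

/-- the main term: `∫ |U| ‖m‖²` over the symmetric difference of the two ellipses, `U` the difference of the `QQ` -/
noncomputable def NN (c₁ : ℂ) (r₁ : ℝ) (μ₁ c₂ : ℂ) (r₂ : ℝ) (μ₂ : ℂ) (m : ℂ → ℂ) : ℝ :=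
  ∫ z in (Dp c₁ r₁ μ₁ 1 \ Dp c₂ r₂ μ₂ 1) ∪ (Dp c₂ r₂ μ₂ 1 \ Dp c₁ r₁ μ₁ 1), |QQ c₂ r₂ μ₂ z - QQ c₁ r₁ μ₁ z| * ‖m z‖ ^ 2

end EW1
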