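import Pool.Agent.H1.EW.D0

/-!
# EW: the data of the elimination
-/

set_option autoImplicit false

namespace EW1

open Complex Set Filter Topology MeasureTheory
open scoped ComplexConjugate ContDiff Real

/-- `y` vanishes on the boundary of the second ellipse and equals the entire function `P` on the boundary of the first one -/
structure Su (R C : ℝ) (c₁ : ℂ) (r₁ : ℝ) (μ₁ c₂ : ℂ) (r₂ : ℝ) (μ₂ : ℂ) (P y Z V : ℂ → ℂ) : Prop where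
  P_diff : Differentiable ℂ P
  y_smooth : ContDiff ℝ ∞ y
  Z_smooth : ContDiff ℝ ∞ Z
  V_smooth : ContDiff ℝ ∞ V
  y_eq : ∀ z, y z = QQ c₂ r₂ μ₂ z * V z
  yP_eq : ∀ z, y z - P z = QQ c₁ r₁ μ₁ z * Z z
  P_le : ∀ z, ‖z‖ ≤ 3 * R → ‖P z‖ ≤ C
  V_le : ∀ z, ‖z‖ ≤ 3 * R → dd c₁ r₁ μ₁ c₂ r₂ μ₂ * ‖V z‖ ≤ C
  Z_le : ∀ z, ‖z‖ ≤ 3 * R → dd c₁ r₁ μ₁ c₂ r₂ μ₂ * ‖Z z‖ ≤ C
  dy_le : ∀ z, ‖z‖ ≤ 3 * R → dd c₁ r₁ μ₁ c₂ r₂ μ₂ * ‖dbar y z‖ ≤ C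

end EW1
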