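import Pool.Agent.H1.EW.D0

/-!
ROW EW/Ga. Elementary facts about `zz`, `vv`, `Dp`, `QQ`, `aa` (`0 < r`, `‖μ‖ < 1`). `vv c r μ` is real affine, inverse of `zz c r μ` (`v + μ v̄ - μ conj (v + μ v̄) = (1 - ‖μ‖²) v`).
`QQ_eq`: with `w = z - c`: `‖w - μ w̄‖² = (1 + ‖μ‖²)‖w‖² - 2 Re (μ̄ w²)`, so `QQ = ‖w‖² - 2 Re (conj (nu μ) w²) - kap r μ`; expand `w = z - c`.
-/

set_option autoImplicit false

namespace EW1

open Complex Set Filter Topology MeasureTheory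
open scoped ComplexConjugate ContDiff Real

private theorem Ga_mu (μ : ℂ) : μ * conj μ = ((‖μ‖ ^ 2 : ℝ) : ℂ) := by
  rw [Complex.mul_conj, Complex.normSq_eq_norm_sq]

private theorem Ga_pos {μ : ℂ} (hμ : ‖μ‖ < 1) : 0 < 1 - ‖μ‖ ^ 2 := by
  have h0 := norm_nonneg μ
  nlinarith

private theorem Ga_S {r : ℝ} (hr : 0 < r) {μ : ℂ} (hμ : ‖μ‖ < 1) :
    ((r * (1 - ‖μ‖ ^ 2) : ℝ) : ℂ) ≠ 0 := by
  rw [Ne, Complex.ofReal_eq_zero]
  exact (mul_pos hr (Ga_pos hμ)).ne'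

theorem zz_vv {c : ℂ} {r : ℝ} (hr : 0 < r) {μ : ℂ} (hμ : ‖μ‖ < 1) (z : ℂ) : zz c r μ (vv c r μ z) = z := by
  have hS := Ga_S hr hμ
  have hm := Ga_mu μ
  have hc : conj (z - c - μ * conj (z - c)) = conj (z - c) - conj μ * (z - c) := by
    rw [map_sub (starRingEnd ℂ) (z - c) (μ * conj (z - c)), map_mul, Complex.conj_conj]
  unfold zz vv
  rw [map_div₀, Complex.conj_ofReal, hc]
  have h1 : (z - c - μ * conj (z - c)) / ((r * (1 - ‖μ‖ ^ 2) : ℝ) : ℂ) +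
      μ * ((conj (z - c) - conj μ * (z - c)) / ((r * (1 - ‖μ‖ ^ 2) : ℝ) : ℂ)) =
      (z - c) * (1 - ((‖μ‖ ^ 2 : ℝ) : ℂ)) / ((r * (1 - ‖μ‖ ^ 2) : ℝ) : ℂ) := by
    rw [← hm]
    ring
  rw [h1]
  have h2 : (r : ℂ) * ((z - c) * (1 - ((‖μ‖ ^ 2 : ℝ) : ℂ)) / ((r * (1 - ‖μ‖ ^ 2) : ℝ) : ℂ)) = z - c := by
    have h3 : (r : ℂ) * ((z - c) * (1 - ((‖μ‖ ^ 2 : ℝ) : ℂ)) / ((r * (1 - ‖μ‖ ^ 2) : ℝ) : ℂ)) =
        (z - c) * (((r * (1 - ‖μ‖ ^ 2) : ℝ) : ℂ) / ((r * (1 - ‖μ‖ ^ 2) : ℝ) : ℂ)) := by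
      push_cast
      ring
    rw [h3, div_self hS, mul_one]
  rw [h2]
  ring

theorem vv_zz {c : ℂ} {r : ℝ} (hr : 0 < r) {μ : ℂ} (hμ : ‖μ‖ < 1) (v : ℂ) : vv c r μ (zz c r μ v) = v := by
  have hS := Ga_S hr hμ
  have hm := Ga_mu μ
  unfold zz vv
  rw [add_sub_cancel_left, map_mul, Complex.conj_ofReal, map_add, map_mul, Complex.conj_conj]
  rw [div_eq_iff hS]
  push_cast
  have hm' : μ * conj μ = (‖μ‖ : ℂ) ^ 2 := by
    rw [hm]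
    push_cast
    ring
  linear_combination (-(r : ℂ) * v) * hm'

theorem vv_cont (c : ℂ) (r : ℝ) (μ : ℂ) : Continuous (vv c r μ) := by
  unfold vv
  exact ((continuous_id.sub continuous_const).sub (continuous_const.mul
    (Complex.continuous_conj.comp (continuous_id.sub continuous_const)))).div_const _

theorem Dp_open (c : ℂ) (r : ℝ) (μ : ℂ) (σ : ℝ) : IsOpen (Dp c r μ σ) := by
  exact isOpen_lt (vv_cont c r μ).norm continuous_const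

private theorem Ga_aff (c : ℂ) (r : ℝ) (μ x y : ℂ) (a b : ℝ) (hab : a + b = 1) :
    vv c r μ (a • x + b • y) = a • vv c r μ x + b • vv c r μ y := by
  have hab' : (a : ℂ) + (b : ℂ) = 1 := by
    rw [← Complex.ofReal_add, hab, Complex.ofReal_one]
  unfold vv
  simp only [Complex.real_smul, map_sub, map_add, map_mul, Complex.conj_ofReal, div_eq_mul_inv]
  generalize (((r * (1 - ‖μ‖ ^ 2) : ℝ) : ℂ))⁻¹ = t
  linear_combination ((c - μ * conj c) * t) * hab'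

theorem Dp_convex (c : ℂ) (r : ℝ) (μ : ℂ) (σ : ℝ) : Convex ℝ (Dp c r μ σ) := by
  intro x hx y hy a b ha hb hab
  show ‖vv c r μ (a • x + b • y)‖ < σ
  rw [Ga_aff c r μ x y a b hab]
  have h1 : vv c r μ x ∈ Metric.ball (0 : ℂ) σ := mem_ball_zero_iff.2 hx
  have h2 : vv c r μ y ∈ Metric.ball (0 : ℂ) σ := mem_ball_zero_iff.2 hy
  exact mem_ball_zero_iff.1 (convex_ball (0 : ℂ) σ h1 h2 ha hb hab)

theorem Dp_mono (c : ℂ) (r : ℝ) (μ : ℂ) {σ σ' : ℝ} (h : σ ≤ σ') : Dp c r μ σ ⊆ Dp c r μ σ' := by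
  intro z hz
  exact lt_of_lt_of_le hz h

private theorem Ga_norm {c : ℂ} {r : ℝ} (hr : 0 < r) {μ : ℂ} (hμ : ‖μ‖ < 1) (z : ℂ) :
    ‖z - c‖ ≤ 2 * r * ‖vv c r μ z‖ := by
  have h1 := zz_vv (c := c) hr hμ z
  have h2 : z - c = r * (vv c r μ z + μ * conj (vv c r μ z)) := by
    conv_lhs => rw [← h1]
    unfold zz
    ring
  have h0 := norm_nonneg (vv c r μ z)
  rw [h2, norm_mul, Complex.norm_real, Real.norm_eq_abs, abs_of_pos hr]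
  have h3 : ‖vv c r μ z + μ * conj (vv c r μ z)‖ ≤ 2 * ‖vv c r μ z‖ := by
    refine (norm_add_le _ _).trans ?_
    rw [norm_mul, Complex.norm_conj]
    nlinarith
  nlinarith

theorem Dp_ball {c : ℂ} {r : ℝ} (hr : 0 < r) {μ : ℂ} (hμ : ‖μ‖ < 1) {σ : ℝ} : Dp c r μ σ ⊆ Metric.ball c (2 * r * σ) := by
  intro z hz
  rw [Metric.mem_ball, Complex.dist_eq]
  refine lt_of_le_of_lt (Ga_norm hr hμ z) ?_
  have h1 : ‖vv c r μ z‖ < σ := hz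
  exact mul_lt_mul_of_pos_left h1 (by positivity)

theorem cDp_compact {c : ℂ} {r : ℝ} (hr : 0 < r) {μ : ℂ} (hμ : ‖μ‖ < 1) (σ : ℝ) : IsCompact {z | ‖vv c r μ z‖ ≤ σ} := by
  apply Metric.isCompact_of_isClosed_isBounded
  · exact isClosed_le (vv_cont c r μ).norm continuous_const
  · refine Metric.isBounded_closedBall.subset (?_ : _ ⊆ Metric.closedBall c (2 * r * σ))
    intro z hz
    rw [Metric.mem_closedBall, Complex.dist_eq]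
    refine (Ga_norm hr hμ z).trans ?_
    exact mul_le_mul_of_nonneg_left hz (by positivity)

theorem kap_pos {r : ℝ} (hr : 0 < r) {μ : ℂ} (hμ : ‖μ‖ < 1) : 0 < kap r μ := by
  have h1 := Ga_pos hμ
  unfold kap
  positivity

theorem QQ_zz {c : ℂ} {r : ℝ} (hr : 0 < r) {μ : ℂ} (hμ : ‖μ‖ < 1) (v : ℂ) :
    QQ c r μ (zz c r μ v) = kap r μ * (‖v‖ ^ 2 - 1) := by
  unfold QQ
  rw [vv_zz hr hμ]

theorem QQ_neg_iff {c : ℂ} {r : ℝ} (hr : 0 < r) {μ : ℂ} (hμ : ‖μ‖ < 1) (z : ℂ) : QQ c r μ z < 0 ↔ z ∈ Dp c r μ 1 := by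
  have hk := kap_pos hr hμ
  have h0 := norm_nonneg (vv c r μ z)
  unfold QQ
  constructor
  · intro h
    show ‖vv c r μ z‖ < 1
    by_contra h1
    push Not at h1
    have h2 : 0 ≤ ‖vv c r μ z‖ ^ 2 - 1 := by nlinarith
    have h3 := mul_nonneg hk.le h2
    linarith
  · intro h
    have h1 : ‖vv c r μ z‖ < 1 := h
    have h2 : ‖vv c r μ z‖ ^ 2 - 1 < 0 := by nlinarith
    exact mul_neg_of_pos_of_neg hk h2

private theorem Ga_QQ {c : ℂ} {r : ℝ} (hr : 0 < r) {μ : ℂ} (hμ : ‖μ‖ < 1) (z : ℂ) :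
    QQ c r μ z = ‖(z - c) - μ * conj (z - c)‖ ^ 2 / (1 + ‖μ‖ ^ 2) - kap r μ := by
  have h1 := Ga_pos hμ
  have h2 : ‖vv c r μ z‖ = ‖(z - c) - μ * conj (z - c)‖ / (r * (1 - ‖μ‖ ^ 2)) := by
    unfold vv
    rw [norm_div, Complex.norm_real, Real.norm_eq_abs, abs_of_pos (mul_pos hr h1)]
  unfold QQ
  rw [h2]
  unfold kap
  have h3 : r ≠ 0 := hr.ne'
  have h4 : 1 - ‖μ‖ ^ 2 ≠ 0 := h1.ne'
  have h5 : 1 + ‖μ‖ ^ 2 ≠ 0 := by positivity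
  field_simp
  try ring

private theorem Ga_sq (z : ℂ) : ‖z‖ ^ 2 = z.re ^ 2 + z.im ^ 2 := by
  rw [← Complex.normSq_eq_norm_sq, Complex.normSq_apply]
  ring

theorem QQ_eq {c : ℂ} {r : ℝ} (hr : 0 < r) {μ : ℂ} (hμ : ‖μ‖ < 1) (z : ℂ) :
    QQ c r μ z = ‖z‖ ^ 2 - 2 * (conj (nu μ) * z ^ 2).re - 2 * (gg c μ * z).re + hh c r μ := by
  rw [Ga_QQ hr hμ]
  have h5 : 1 + ‖μ‖ ^ 2 ≠ 0 := by positivity
  have hre : (nu μ).re = μ.re / (1 + ‖μ‖ ^ 2) := by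
    unfold nu
    rw [Complex.div_ofReal_re]
  have him : (nu μ).im = μ.im / (1 + ‖μ‖ ^ 2) := by
    unfold nu
    rw [Complex.div_ofReal_im]
  have hS : ‖μ‖ ^ 2 = μ.re ^ 2 + μ.im ^ 2 := Ga_sq μ
  have hre' : (nu μ).re * (1 + ‖μ‖ ^ 2) = μ.re := by
    rw [hre, div_mul_cancel₀ _ h5]
  have him' : (nu μ).im * (1 + ‖μ‖ ^ 2) = μ.im := by
    rw [him, div_mul_cancel₀ _ h5]
  have key : ‖(z - c) - μ * conj (z - c)‖ ^ 2 = (‖z‖ ^ 2 - 2 * (conj (nu μ) * z ^ 2).re -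
      2 * (gg c μ * z).re + ‖c‖ ^ 2 - 2 * (conj (nu μ) * c ^ 2).re) * (1 + ‖μ‖ ^ 2) := by
    rw [hS] at hre' him' ⊢
    rw [Ga_sq ((z - c) - μ * conj (z - c)), Ga_sq z, Ga_sq c]
    unfold gg
    simp only [pow_two, Complex.mul_re, Complex.mul_im, Complex.sub_re, Complex.sub_im,
      Complex.conj_re, Complex.conj_im, Complex.re_ofNat, Complex.im_ofNat, map_sub]
    linear_combination (2 * (z.re ^ 2 - z.im ^ 2) + 2 * (c.re ^ 2 - c.im ^ 2) - 4 * (c.re * z.re - c.im * z.im)) * hre' +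
      (4 * z.re * z.im + 4 * c.re * c.im - 4 * (c.im * z.re + c.re * z.im)) * him'
  unfold hh
  rw [key]
  field_simp
  ring

theorem QQ_contDiff (c : ℂ) (r : ℝ) (μ : ℂ) : ContDiff ℝ ∞ (fun z => QQ c r μ z) := by
  have h1 : ContDiff ℝ ∞ (fun z : ℂ => z - c) := contDiff_id.sub contDiff_const
  have h2 : ContDiff ℝ ∞ (fun z : ℂ => conj (z - c)) := (Complex.conjCLE : ℂ ≃L[ℝ] ℂ).contDiff.comp h1
  have h3 : ContDiff ℝ ∞ (fun z : ℂ => vv c r μ z) := by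
    unfold vv
    exact (h1.sub (contDiff_const.mul h2)).div_const _
  unfold QQ
  exact contDiff_const.mul ((h3.norm_sq ℝ).sub contDiff_const)

theorem aa_re {c₁ c₂ : ℂ} {r₁ r₂ : ℝ} (hr₁ : 0 < r₁) (hr₂ : 0 < r₂) {μ₁ μ₂ : ℂ} (hμ₁ : ‖μ₁‖ < 1) (hμ₂ : ‖μ₂‖ < 1) (z : ℂ) :
    (aa c₁ r₁ μ₁ c₂ r₂ μ₂ z).re = QQ c₂ r₂ μ₂ z - QQ c₁ r₁ μ₁ z := by
  rw [QQ_eq hr₁ hμ₁, QQ_eq hr₂ hμ₂]
  unfold aa
  simp only [pow_two, Complex.mul_re, Complex.mul_im, Complex.sub_re, Complex.sub_im, Complex.add_re,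
    Complex.neg_re, Complex.conj_re, Complex.conj_im, Complex.re_ofNat, Complex.im_ofNat, map_sub,
    Complex.ofReal_re]
  ring

end EW1
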