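import Pool.Agent.H1.ED.Fo
import Pool.Agent.H1.EW.Ga

/-!
ROW EW/Fa. The ellipse `De z₀ b x` of `ED` in the parameters `(c, r, μ) = (z₀, ‖b‖ e^x, b²/(‖b‖ e^x)²)`. `E z₀ b ζ = z₀ + r (w + μ/w)` with `w = b e^ζ/r`; on the line `Re ζ = x`: `‖w‖ = 1`, so `E = zz z₀ r μ w` there.
* `mu_norm`: `‖μ‖ = e^(-2x)`.
* `vv_E`: for `w = b e^ζ/r`, `vv (E ζ) = (w + μ/w - μ conj (w + μ/w))/(1-‖μ‖²)`. `De_Dp`: `lv z < lx b x ↔ ‖vv z‖ < 1`: both sets are the interior of the same curve. Direct algebra: for `z = zz v`, i.e. `z - z₀ = r (v + μ v̄)`,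
  use `exists_E` (`z = E ζ`, `ξ = Re ζ ≥ 0`, `w = b e^ζ/r`, `‖w‖ = e^(ξ-x)`) and compute `‖w + μ/w - μ conj(w + μ/w)‖² - (1-‖μ‖²)²`: with `t = ‖w‖²`, `μ = ‖μ‖ u`, it is `(t-1) (...)` of the sign of `t - 1` for `t ≥ ‖μ‖`; or:
  the level sets: `‖vv (E ζ)‖ = 1` for `ξ = x`, continuity and connectedness of `{0 ≤ ξ < x}`, `{ξ > x}` (image of a convex set) and `‖vv‖ = 1` only for `z = zz v`, `‖v‖ = 1`, i.e. `z = E ζ`, `ξ = x` (`v = b e^ζ/r`).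
* `fc_Fc`: substitution: `w = ρ e^(it)`, `b e^ζ/r = w` for `ζ = (x + log ρ) + i (t - arg b)`; periodicity; `dE b ζ = r (w - μ/w)`; `e^(-nζ) = (b/(r w))^n`; independence of the level: `Fc_const_in`.
-/

set_option autoImplicit false

namespace EW1

open Complex Set Filter Topology MeasureTheory
open scoped ComplexConjugate ContDiff Real

open ED1

theorem mu_norm {b : ℂ} (hb : b ≠ 0) (x : ℝ) : ‖b ^ 2 / ((‖b‖ * Real.exp x : ℝ) : ℂ) ^ 2‖ = Real.exp (-(2 * x)) := by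
  have hb' : ‖b‖ ≠ 0 := norm_ne_zero_iff.2 hb
  have hx : Real.exp x ≠ 0 := (Real.exp_pos x).ne'
  rw [norm_div, norm_pow, norm_pow, Complex.norm_real, Real.norm_of_nonneg (by positivity)]
  have h1 : Real.exp (-(2 * x)) = (Real.exp x ^ 2)⁻¹ := by
    rw [Real.exp_neg, two_mul, Real.exp_add]; ring
  rw [h1]
  field_simp

/-- the norm of `vv` in elliptic coordinates -/
theorem vv_E_sq (z₀ : ℂ) {b : ℂ} (hb : b ≠ 0) {x : ℝ} (hx : 0 < x) (ζ : ℂ) :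
    ‖vv z₀ (‖b‖ * Real.exp x) (b ^ 2 / ((‖b‖ * Real.exp x : ℝ) : ℂ) ^ 2) (E z₀ b ζ)‖ ^ 2 =
      (Real.cosh ζ.re / Real.cosh x) ^ 2 * Real.cos ζ.im ^ 2 +
        (Real.sinh ζ.re / Real.sinh x) ^ 2 * Real.sin ζ.im ^ 2 := by
  have hb' : 0 < ‖b‖ := norm_pos_iff.2 hb
  have hX : 0 < Real.exp x := Real.exp_pos x
  have hc : 0 < Real.cosh x := Real.cosh_pos x
  have hs : 0 < Real.sinh x := Real.sinh_pos_iff.2 hx
  set X := Real.exp x with hXdef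
  have hm : ‖b ^ 2 / ((‖b‖ * X : ℝ) : ℂ) ^ 2‖ = (X ^ 2)⁻¹ := by
    rw [hXdef, mu_norm hb x, Real.exp_neg, two_mul, Real.exp_add]; ring
  have hC : Real.cosh x = (X + X⁻¹) / 2 := by rw [Real.cosh_eq, Real.exp_neg]
  have hS : Real.sinh x = (X - X⁻¹) / 2 := by rw [Real.sinh_eq, Real.exp_neg]
  have hmu : b ^ 2 / ((‖b‖ * X : ℝ) : ℂ) ^ 2 * conj b = b * (((X ^ 2)⁻¹ : ℝ) : ℂ) := by
    have h1 : b * conj b = ((‖b‖ ^ 2 : ℝ) : ℂ) := by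
      rw [Complex.mul_conj, Complex.normSq_eq_norm_sq]
    have h2 : b ^ 2 / ((‖b‖ * X : ℝ) : ℂ) ^ 2 * conj b = b * (b * conj b) / ((‖b‖ * X : ℝ) : ℂ) ^ 2 := by
      ring
    rw [h2, h1]
    have h3 : ((‖b‖ : ℝ) : ℂ) ≠ 0 := by exact_mod_cast hb'.ne'
    have h4 : ((X : ℝ) : ℂ) ≠ 0 := by exact_mod_cast hX.ne'
    push_cast
    field_simp
  have hq : E z₀ b ζ - z₀ - b ^ 2 / ((‖b‖ * X : ℝ) : ℂ) ^ 2 * conj (E z₀ b ζ - z₀) =
      b * ((((1 - (X ^ 2)⁻¹) * (2 * Real.cosh ζ.re * Real.cos ζ.im) : ℝ) : ℂ) +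
        (((1 + (X ^ 2)⁻¹) * (2 * Real.sinh ζ.re * Real.sin ζ.im) : ℝ) : ℂ) * I) := by
    have h1 : E z₀ b ζ - z₀ = b * (((2 * Real.cosh ζ.re * Real.cos ζ.im : ℝ) : ℂ) +
        ((2 * Real.sinh ζ.re * Real.sin ζ.im : ℝ) : ℂ) * I) := by
      rw [E_eq, add_sub_cancel_left]
      congr 1
      apply Complex.ext
      · simp only [Complex.add_re, Complex.mul_re, Complex.ofReal_re, Complex.ofReal_im, Complex.I_re,
          Complex.I_im, Complex.exp_re, Complex.neg_re, Complex.neg_im, Real.cos_neg]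
        rw [Real.cosh_eq]; ring
      · simp only [Complex.add_im, Complex.mul_im, Complex.ofReal_re, Complex.ofReal_im, Complex.I_re,
          Complex.I_im, Complex.exp_im, Complex.neg_re, Complex.neg_im, Real.sin_neg]
        rw [Real.sinh_eq]; ring
    rw [h1, map_mul, map_add, map_mul, Complex.conj_ofReal, Complex.conj_ofReal, Complex.conj_I,
      ← mul_assoc, hmu]
    push_cast
    ring
  have hden : 1 - ‖b ^ 2 / ((‖b‖ * X : ℝ) : ℂ) ^ 2‖ ^ 2 = 1 - ((X ^ 2)⁻¹) ^ 2 := by rw [hm]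
  have h5 : X ^ 2 * (1 - ((X ^ 2)⁻¹) ^ 2) = 4 * Real.cosh x * Real.sinh x := by
    rw [hC, hS]; field_simp; ring
  have h6 : 0 < X ^ 2 * (1 - ((X ^ 2)⁻¹) ^ 2) := by rw [h5]; positivity
  have h7 : 0 < 1 - ((X ^ 2)⁻¹) ^ 2 := by
    by_contra hcon
    have := mul_nonpos_of_nonneg_of_nonpos (sq_nonneg X) (not_lt.1 hcon)
    linarith
  have hm1 : 0 < 1 - (X ^ 2)⁻¹ := by
    have h8 : 1 - ((X ^ 2)⁻¹) ^ 2 = (1 - (X ^ 2)⁻¹) * (1 + (X ^ 2)⁻¹) := by ring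
    rw [h8] at h7
    exact (pos_iff_pos_of_mul_pos h7).2 (by positivity)
  have hm2 : 0 < 1 + (X ^ 2)⁻¹ := by positivity
  have k1 : X * (1 - ((X ^ 2)⁻¹) ^ 2) = (1 - (X ^ 2)⁻¹) * (2 * Real.cosh x) := by
    rw [hC]; field_simp; ring
  have k2 : X * (1 - ((X ^ 2)⁻¹) ^ 2) = (1 + (X ^ 2)⁻¹) * (2 * Real.sinh x) := by
    rw [hS]; field_simp; ring
  unfold vv
  rw [hq, norm_div, norm_mul, Complex.norm_real, hden, Real.norm_of_nonneg (by positivity), div_pow,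
    mul_pow, Complex.sq_norm (_ + _), Complex.normSq_add_mul_I]
  set m : ℝ := (X ^ 2)⁻¹ with hmdef
  have e1 : (‖b‖ * X * (1 - m ^ 2)) ^ 2 = ‖b‖ ^ 2 * (X * (1 - m ^ 2)) ^ 2 := by ring
  rw [e1, mul_div_mul_left _ _ (by positivity), add_div]
  congr 1
  · rw [k1]
    have := hm1.ne'
    field_simp
  · rw [k2]
    have := hm2.ne'
    field_simp

private theorem Fa_r (b : ℂ) (hb : b ≠ 0) (x : ℝ) : 0 < ‖b‖ * Real.exp x :=
  mul_pos (norm_pos_iff.2 hb) (Real.exp_pos x)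

private theorem Fa_cmp {p q c s : ℝ} (hcs : c ^ 2 + s ^ 2 = 1) :
    (p < 1 → q < 1 → 0 ≤ p → 0 ≤ q → p ^ 2 * c ^ 2 + q ^ 2 * s ^ 2 < 1) ∧
      (1 ≤ p → 1 ≤ q → 1 ≤ p ^ 2 * c ^ 2 + q ^ 2 * s ^ 2) ∧
      (1 < p → 1 < q → 1 < p ^ 2 * c ^ 2 + q ^ 2 * s ^ 2) ∧
      (p ≤ 1 → q ≤ 1 → 0 ≤ p → 0 ≤ q → p ^ 2 * c ^ 2 + q ^ 2 * s ^ 2 ≤ 1) := by
  have hc := sq_nonneg c
  have hs := sq_nonneg s
  refine ⟨fun hp hq hp0 hq0 => ?_, fun hp hq => ?_, fun hp hq => ?_, fun hp hq hp0 hq0 => ?_⟩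
  · have h1 : p ^ 2 < 1 := by nlinarith
    have h2 : q ^ 2 < 1 := by nlinarith
    rcases eq_or_lt_of_le hc with h3 | h3
    · have h4 : s ^ 2 = 1 := by linarith
      rw [← h3, h4]; linarith
    · nlinarith
  · have h1 : 1 ≤ p ^ 2 := by nlinarith
    have h2 : 1 ≤ q ^ 2 := by nlinarith
    nlinarith
  · have h1 : 1 < p ^ 2 := by nlinarith
    have h2 : 1 < q ^ 2 := by nlinarith
    rcases eq_or_lt_of_le hc with h3 | h3
    · have h4 : s ^ 2 = 1 := by linarith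
      rw [← h3, h4]; linarith
    · nlinarith
  · have h1 : p ^ 2 ≤ 1 := by nlinarith
    have h2 : q ^ 2 ≤ 1 := by nlinarith
    nlinarith

private theorem Fa_lt (z₀ : ℂ) {b : ℂ} (hb : b ≠ 0) {x : ℝ} (hx : 0 < x) {ζ : ℂ} (hζ : 0 ≤ ζ.re) :
    (‖vv z₀ (‖b‖ * Real.exp x) (b ^ 2 / ((‖b‖ * Real.exp x : ℝ) : ℂ) ^ 2) (E z₀ b ζ)‖ < 1 ↔ ζ.re < x) ∧
    (‖vv z₀ (‖b‖ * Real.exp x) (b ^ 2 / ((‖b‖ * Real.exp x : ℝ) : ℂ) ^ 2) (E z₀ b ζ)‖ ≤ 1 ↔ ζ.re ≤ x) := by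
  have key := vv_E_sq z₀ hb hx ζ
  have hc : 0 < Real.cosh x := Real.cosh_pos x
  have hs : 0 < Real.sinh x := Real.sinh_pos_iff.2 hx
  have hs0 : 0 ≤ Real.sinh ζ.re := Real.sinh_nonneg_iff.2 hζ
  have hc0 : 0 ≤ Real.cosh ζ.re := (Real.cosh_pos _).le
  have hcs : Real.cos ζ.im ^ 2 + Real.sin ζ.im ^ 2 = 1 := Real.cos_sq_add_sin_sq _
  obtain ⟨c1, c2, c3, c4⟩ := Fa_cmp (p := Real.cosh ζ.re / Real.cosh x)
    (q := Real.sinh ζ.re / Real.sinh x) hcs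
  have hcosh : ∀ {u w : ℝ}, 0 ≤ u → 0 ≤ w → (Real.cosh u < Real.cosh w ↔ u < w) := by
    intro u w hu hw
    rw [Real.cosh_lt_cosh, abs_of_nonneg hu, abs_of_nonneg hw]
  have hcosh' : ∀ {u w : ℝ}, 0 ≤ u → 0 ≤ w → (Real.cosh u ≤ Real.cosh w ↔ u ≤ w) := by
    intro u w hu hw
    rw [Real.cosh_le_cosh, abs_of_nonneg hu, abs_of_nonneg hw]
  have hn := norm_nonneg (vv z₀ (‖b‖ * Real.exp x) (b ^ 2 / ((‖b‖ * Real.exp x : ℝ) : ℂ) ^ 2) (E z₀ b ζ))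
  constructor
  · constructor
    · intro h
      by_contra hcon
      have hcon' := not_lt.1 hcon
      have h1 := c2 ((one_le_div hc).2 ((hcosh' hx.le hζ).2 hcon')) ((one_le_div hs).2 (Real.sinh_le_sinh.2 hcon'))
      rw [← key] at h1
      nlinarith
    · intro h
      have h1 := c1 ((div_lt_one hc).2 ((hcosh hζ hx.le).2 h)) ((div_lt_one hs).2 (Real.sinh_lt_sinh.2 h))
        (by positivity) (by positivity)
      rw [← key] at h1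
      nlinarith
  · constructor
    · intro h
      by_contra hcon
      have hcon' := not_le.1 hcon
      have h1 := c3 ((one_lt_div hc).2 ((hcosh hx.le hζ).2 hcon')) ((one_lt_div hs).2 (Real.sinh_lt_sinh.2 hcon'))
      rw [← key] at h1
      nlinarith
    · intro h
      have h1 := c4 ((div_le_one hc).2 ((hcosh' hζ hx.le).2 h)) ((div_le_one hs).2 (Real.sinh_le_sinh.2 h))
        (by positivity) (by positivity)
      rw [← key] at h1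
      nlinarith

theorem De_Dp (z₀ : ℂ) {b : ℂ} (hb : b ≠ 0) {x : ℝ} (hx : 0 < x) :
    De z₀ b x = Dp z₀ (‖b‖ * Real.exp x) (b ^ 2 / ((‖b‖ * Real.exp x : ℝ) : ℂ) ^ 2) 1 := by
  ext z
  obtain ⟨ζ, hζ, -, -, rfl⟩ := exists_E hb z₀ z
  rw [E_mem_De hb hx.le, abs_of_nonneg hζ, ← (Fa_lt z₀ hb hx hζ).1]
  rfl

theorem cDe_cDp (z₀ : ℂ) {b : ℂ} (hb : b ≠ 0) {x : ℝ} (hx : 0 < x) :
    {z | lv z₀ b z ≤ lx b x} = {z | ‖vv z₀ (‖b‖ * Real.exp x) (b ^ 2 / ((‖b‖ * Real.exp x : ℝ) : ℂ) ^ 2) z‖ ≤ 1} := by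
  ext z
  obtain ⟨ζ, hζ, -, -, rfl⟩ := exists_E hb z₀ z
  show lv z₀ b (E z₀ b ζ) ≤ lx b x ↔ _
  rw [lv_E, ← not_lt, lx_lt hb hx.le hζ, not_lt]
  exact (Fa_lt z₀ hb hx hζ).2.symm

theorem fc_Fc (z₀ : ℂ) {b : ℂ} (hb : b ≠ 0) {x : ℝ} (hx : 0 < x) {F : ℂ → ℂ} (hF : DifferentiableOn ℂ F (De z₀ b x)) (n : ℕ)
    {s ρ : ℝ} (hs : 0 < s ∧ s < x) (hρ : Real.exp (-x) < ρ ∧ ρ < 1) :
    fc z₀ (‖b‖ * Real.exp x) (b ^ 2 / ((‖b‖ * Real.exp x : ℝ) : ℂ) ^ 2) F ρ n =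
      (((‖b‖ * Real.exp x : ℝ) : ℂ) / b) ^ n * Fc z₀ b F s n / (2 * π) := by
  have hρ0 : 0 < ρ := (Real.exp_pos _).trans hρ.1
  have hlog1 : -x < Real.log ρ := (Real.lt_log_iff_exp_lt hρ0).2 hρ.1
  have hlog2 : Real.log ρ < 0 := Real.log_neg hρ0 hρ.2
  set y : ℝ := x + Real.log ρ with hy
  have hconst : Fc z₀ b F s n = Fc z₀ b F y n :=
    Fc_const_in hb hF n (by rw [abs_of_pos hs.1]; exact hs.2) (by rw [abs_of_pos (by linarith)]; linarith)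
  rw [hconst]
  set r : ℝ := ‖b‖ * Real.exp x with hr
  have hrp : 0 < r := Fa_r b hb x
  have hrc : (r : ℂ) ≠ 0 := by exact_mod_cast hrp.ne'
  set θ : ℝ := arg b with hθ
  have hbθ : b = ‖b‖ * exp (θ * I) := (Complex.norm_mul_exp_arg_mul_I b).symm
  -- the point `w`
  have hw : ∀ t : ℝ, (ρ : ℂ) * exp (t * I) = b * exp (y + ((t - θ : ℝ) : ℂ) * I) / r := by
    intro t
    rw [eq_div_iff hrc]
    have h1 : (b : ℂ) * exp (y + ((t - θ : ℝ) : ℂ) * I) =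
        ‖b‖ * (exp (θ * I) * exp (y + ((t - θ : ℝ) : ℂ) * I)) := by
      rw [← mul_assoc, ← hbθ]
    have h2 : exp (θ * I) * exp (y + ((t - θ : ℝ) : ℂ) * I) = exp x * ρ * exp (t * I) := by
      have h3 : (ρ : ℂ) = exp (Real.log ρ : ℂ) := by
        rw [← Complex.ofReal_exp, Real.exp_log hρ0]
      rw [h3, ← Complex.exp_add, ← Complex.exp_add, ← Complex.exp_add]
      congr 1
      rw [hy]; push_cast; ring
    rw [h1, h2, hr]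
    push_cast
    ring
  set g : ℝ → ℂ := fun t => (((r : ℝ) : ℂ) / b) ^ n *
    (F (E z₀ b (y + t * I)) * dE b (y + t * I) * exp (-((n : ℤ) * (y + t * I)))) with hg
  have hint : ∀ t : ℝ, F (z₀ + r * (ρ * exp (t * I) + b ^ 2 / (r : ℂ) ^ 2 * (ρ * exp (t * I))⁻¹)) *
      (r * (ρ * exp (t * I) - b ^ 2 / (r : ℂ) ^ 2 * (ρ * exp (t * I))⁻¹)) * (ρ * exp (t * I))⁻¹ ^ n = g (t - θ) := by
    intro t
    rw [hw t, hg]
    simp only
    set Z : ℂ := y + ((t - θ : ℝ) : ℂ) * I with hZ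
    have he : exp Z ≠ 0 := Complex.exp_ne_zero Z
    have e1 : z₀ + r * (b * exp Z / r + b ^ 2 / (r : ℂ) ^ 2 * (b * exp Z / r)⁻¹) = E z₀ b Z := by
      rw [E_eq, Complex.exp_neg]; field_simp
    have e2 : r * (b * exp Z / r - b ^ 2 / (r : ℂ) ^ 2 * (b * exp Z / r)⁻¹) = dE b Z := by
      rw [dE, Complex.exp_neg]; field_simp
    have e3 : (b * exp Z / r)⁻¹ ^ n = (r / b) ^ n * exp (-((n : ℤ) * Z)) := by
      have h1 : exp (-((n : ℤ) * Z)) = (exp Z)⁻¹ ^ n := by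
        rw [← Complex.exp_neg, ← Complex.exp_nat_mul]; congr 1; push_cast; ring
      rw [h1, ← mul_pow]; congr 1; field_simp
    rw [e1, e2, e3]
    ring
  have hper : Function.Periodic g (2 * π) := by
    intro t
    simp only [hg]
    have h1 : (y : ℂ) + ((t + 2 * π : ℝ) : ℂ) * I = (y + t * I) + 2 * π * I := by push_cast; ring
    rw [h1, E_per, dE_per]
    have h2 : -(((n : ℤ) : ℂ) * ((y + t * I) + 2 * π * I)) = -(((n : ℤ) : ℂ) * (y + t * I)) + ((-(n : ℤ) : ℤ) : ℂ) * (2 * π * I) := by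
      push_cast; ring
    rw [h2, Complex.exp_add, Complex.exp_int_mul_two_pi_mul_I, mul_one]
  have hshift : (∫ t in (0 : ℝ)..(2 * π), g (t - θ)) = ∫ t in (0 : ℝ)..(2 * π), g t := by
    rw [intervalIntegral.integral_comp_sub_right (fun t => g t) θ]
    have := hper.intervalIntegral_add_eq (0 - θ) 0
    rw [show 0 - θ + 2 * π = 2 * π - θ by ring, zero_add] at this
    exact this
  unfold fc Fc
  simp only [hint]
  rw [hshift, hg]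
  simp only
  rw [intervalIntegral.integral_const_mul]

end EW1
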