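import Pool.Agent.H1.EW.Ga

/-!
ROW EW/Gb. Uniform bounds on the parameter set (`0 < r₀ ≤ R`, `0 ≤ μ₀ < 1`). All functions are explicit; the denominators `r (1 - ‖μ‖²)` are at least `r₀ (1 - μ₀²)`.
`kap ≥ r₀² (1 - μ₀²)²/2`. `QQ_lip`: `QQ = kap (‖vv‖² - 1)`, `vv` is Lipschitz with constant `2/(r₀ (1-μ₀²))`. `Dp_sub`: `‖z - c‖ < 2 r ≤ 2 R`.
`vol_QQ`: `{|QQ| ≤ s} = vv⁻¹ {v : |‖v‖² - 1| ≤ s/kap}`; `vv` is a real affine map with determinant `(1 - ‖μ‖²)/(r (1 - ‖μ‖²))² = 1/(r² (1 - ‖μ‖²))` (`MeasureTheory.Measure.addHaar_preimage_linearMap`,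
or `zz` and `addHaar_image_linearMap`), so the volume is `r² (1 - ‖μ‖²)` times the area of the annulus, which is at most `2π s/kap`.
-/

set_option autoImplicit false

namespace EW1

open Complex Set Filter Topology MeasureTheory
open scoped ComplexConjugate ContDiff Real

/-- facts on the squares of the eccentricity parameter -/
theorem Gb_sq {μ₀ : ℝ} (h1 : μ₀ < 1) {μ : ℂ} (hμ : ‖μ‖ ≤ μ₀) :
    0 < 1 - μ₀ ^ 2 ∧ 1 - μ₀ ^ 2 ≤ 1 - ‖μ‖ ^ 2 ∧ 1 - ‖μ‖ ^ 2 ≤ 1 ∧ 0 ≤ μ₀ := by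
  have h0 : 0 ≤ ‖μ‖ := norm_nonneg μ
  have h2 : 0 ≤ μ₀ := h0.trans hμ
  refine ⟨by nlinarith, by nlinarith, by nlinarith, h2⟩

theorem kap_lb {r₀ R μ₀ : ℝ} (hr₀ : 0 < r₀) (h0 : 0 ≤ μ₀) (h1 : μ₀ < 1) : ∃ C : ℝ, 0 < C ∧
    ∀ (c : ℂ) (r : ℝ) (μ : ℂ), PS r₀ R μ₀ c r μ → C ≤ kap r μ := by
  have hp : 0 < 1 - μ₀ ^ 2 := by nlinarith
  refine ⟨r₀ ^ 2 * (1 - μ₀ ^ 2) ^ 2 / 2, by positivity, ?_⟩
  rintro c r μ ⟨-, hr, -, hμ⟩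
  obtain ⟨-, h3, h4, -⟩ := Gb_sq h1 hμ
  unfold kap
  have h5 : r₀ ^ 2 * (1 - μ₀ ^ 2) ^ 2 ≤ r ^ 2 * (1 - ‖μ‖ ^ 2) ^ 2 := by
    gcongr
  have h6 : 1 + ‖μ‖ ^ 2 ≤ 2 := by nlinarith
  have h7 : 0 < 1 + ‖μ‖ ^ 2 := by positivity
  calc r₀ ^ 2 * (1 - μ₀ ^ 2) ^ 2 / 2 ≤ r ^ 2 * (1 - ‖μ‖ ^ 2) ^ 2 / 2 := by gcongr
    _ ≤ r ^ 2 * (1 - ‖μ‖ ^ 2) ^ 2 / (1 + ‖μ‖ ^ 2) := by
        apply div_le_div_of_nonneg_left _ h7 h6
        positivity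

theorem Gb_kap_le {r₀ R μ₀ : ℝ} (hr₀ : 0 < r₀) (h1 : μ₀ < 1) {c : ℂ} {r : ℝ} {μ : ℂ} (h : PS r₀ R μ₀ c r μ) :
    kap r μ ≤ R ^ 2 := by
  obtain ⟨-, hr, hR, hμ⟩ := h
  obtain ⟨h2, h3, h4, -⟩ := Gb_sq h1 hμ
  have h7 : 0 < 1 + ‖μ‖ ^ 2 := by positivity
  have hr' : 0 < r := hr₀.trans_le hr
  unfold kap
  rw [div_le_iff₀ h7]
  have h8 : (1 - ‖μ‖ ^ 2) ^ 2 ≤ 1 := by
    have h9 : 0 ≤ 1 - ‖μ‖ ^ 2 := h2.le.trans h3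
    nlinarith
  have h10 : r ^ 2 ≤ R ^ 2 := by gcongr
  calc r ^ 2 * (1 - ‖μ‖ ^ 2) ^ 2 ≤ R ^ 2 * 1 := by gcongr
    _ ≤ R ^ 2 * (1 + ‖μ‖ ^ 2) := by
        have h11 : 0 ≤ ‖μ‖ ^ 2 := by positivity
        gcongr
        linarith

theorem kap_ub {r₀ R μ₀ : ℝ} (hr₀ : 0 < r₀) (h1 : μ₀ < 1) : ∃ C : ℝ, 0 < C ∧
    ∀ (c : ℂ) (r : ℝ) (μ : ℂ), PS r₀ R μ₀ c r μ → kap r μ ≤ C := by
  refine ⟨R ^ 2 + 1, by positivity, fun c r μ h => ?_⟩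
  have := Gb_kap_le hr₀ h1 h
  linarith

theorem vv_lip {r₀ R μ₀ : ℝ} (hr₀ : 0 < r₀) (h0 : 0 ≤ μ₀) (h1 : μ₀ < 1) : ∃ C : ℝ, 0 < C ∧
    ∀ (c : ℂ) (r : ℝ) (μ : ℂ), PS r₀ R μ₀ c r μ → ∀ z z' : ℂ, ‖vv c r μ z - vv c r μ z'‖ ≤ C * ‖z - z'‖ := by
  have hp : 0 < 1 - μ₀ ^ 2 := by nlinarith
  refine ⟨2 / (r₀ * (1 - μ₀ ^ 2)), by positivity, ?_⟩
  rintro c r μ ⟨-, hr, -, hμ⟩ z z'
  obtain ⟨-, h3, h4, -⟩ := Gb_sq h1 hμ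
  have hr' : 0 < r := hr₀.trans_le hr
  have hq : 0 < 1 - ‖μ‖ ^ 2 := hp.trans_le h3
  have e : vv c r μ z - vv c r μ z' = ((z - z') - μ * conj (z - z')) / ((r * (1 - ‖μ‖ ^ 2) : ℝ) : ℂ) := by
    unfold vv
    rw [← sub_div]
    congr 1
    simp only [map_sub]
    ring
  rw [e, norm_div, Complex.norm_real, Real.norm_eq_abs, abs_of_pos (by positivity)]
  have h5 : ‖(z - z') - μ * conj (z - z')‖ ≤ 2 * ‖z - z'‖ := by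
    calc ‖(z - z') - μ * conj (z - z')‖ ≤ ‖z - z'‖ + ‖μ * conj (z - z')‖ := norm_sub_le _ _
      _ = ‖z - z'‖ + ‖μ‖ * ‖z - z'‖ := by rw [norm_mul, RCLike.norm_conj]
      _ ≤ ‖z - z'‖ + 1 * ‖z - z'‖ := by
          gcongr
          linarith
      _ = 2 * ‖z - z'‖ := by ring
  calc ‖(z - z') - μ * conj (z - z')‖ / (r * (1 - ‖μ‖ ^ 2)) ≤ (2 * ‖z - z'‖) / (r₀ * (1 - μ₀ ^ 2)) := by
        gcongr
    _ = 2 / (r₀ * (1 - μ₀ ^ 2)) * ‖z - z'‖ := by ring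

theorem Dp_sub {r₀ R μ₀ : ℝ} (hr₀ : 0 < r₀) (h1 : μ₀ < 1) {c : ℂ} {r : ℝ} {μ : ℂ} (h : PS r₀ R μ₀ c r μ) {z : ℂ}
    (hz : ‖vv c r μ z‖ ≤ 1) : ‖z‖ ≤ 3 * R := by
  obtain ⟨hc, hr, hR, hμ⟩ := h
  have hr' : 0 < r := hr₀.trans_le hr
  have hμ' : ‖μ‖ < 1 := hμ.trans_lt h1
  have h2 := zz_vv (c := c) hr' hμ' z
  rw [← h2]
  unfold zz
  set v := vv c r μ z with hv
  have h3 : ‖v + μ * conj v‖ ≤ 2 := by
    calc ‖v + μ * conj v‖ ≤ ‖v‖ + ‖μ * conj v‖ := norm_add_le _ _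
      _ = ‖v‖ + ‖μ‖ * ‖v‖ := by rw [norm_mul, RCLike.norm_conj]
      _ ≤ 1 + 1 * 1 := by gcongr
      _ = 2 := by norm_num
  calc ‖c + r * (v + μ * conj v)‖ ≤ ‖c‖ + ‖(r : ℂ) * (v + μ * conj v)‖ := norm_add_le _ _
    _ = ‖c‖ + r * ‖v + μ * conj v‖ := by
        rw [norm_mul, Complex.norm_real, Real.norm_eq_abs, abs_of_pos hr']
    _ ≤ R + R * 2 := by
        have : 0 ≤ R := hr'.le.trans hR
        gcongr
    _ = 3 * R := by ring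

theorem Gb_vv_c (c : ℂ) (r : ℝ) (μ : ℂ) : vv c r μ c = 0 := by
  unfold vv
  simp

theorem QQ_lip {r₀ R μ₀ : ℝ} (hr₀ : 0 < r₀) (hR : r₀ ≤ R) (h0 : 0 ≤ μ₀) (h1 : μ₀ < 1) : ∃ C : ℝ, 0 < C ∧
    ∀ (c : ℂ) (r : ℝ) (μ : ℂ), PS r₀ R μ₀ c r μ → ∀ z z' : ℂ, ‖z‖ ≤ 3 * R → ‖z'‖ ≤ 3 * R →
      |QQ c r μ z| ≤ C ∧ |QQ c r μ z - QQ c r μ z'| ≤ C * ‖z - z'‖ := by
  obtain ⟨L, hL, hvL⟩ := vv_lip (R := R) hr₀ h0 h1
  have hRp : 0 < R := hr₀.trans_le hR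
  set B : ℝ := L * (4 * R) with hB
  have hBp : 0 < B := by positivity
  refine ⟨R ^ 2 * (B ^ 2 + 1) + R ^ 2 * (2 * B * L), by positivity, ?_⟩
  intro c r μ h z z' hz hz'
  have hk := Gb_kap_le hr₀ h1 h
  have hk0 : 0 < kap r μ := kap_pos (hr₀.trans_le h.2.1) (h.2.2.2.trans_lt h1)
  have hb : ∀ w : ℂ, ‖w‖ ≤ 3 * R → ‖vv c r μ w‖ ≤ B := by
    intro w hw
    have h2 := hvL c r μ h w c
    rw [Gb_vv_c, sub_zero] at h2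
    have h3 : ‖w - c‖ ≤ 4 * R := by
      calc ‖w - c‖ ≤ ‖w‖ + ‖c‖ := norm_sub_le _ _
        _ ≤ 3 * R + R := add_le_add hw h.1
        _ = 4 * R := by ring
    exact h2.trans (mul_le_mul_of_nonneg_left h3 hL.le)
  have h4 := hb z hz
  have h5 := hb z' hz'
  have n4 : 0 ≤ ‖vv c r μ z‖ := norm_nonneg _
  have n5 : 0 ≤ ‖vv c r μ z'‖ := norm_nonneg _
  constructor
  · unfold QQ
    rw [abs_mul, abs_of_pos hk0]
    have h6 : |‖vv c r μ z‖ ^ 2 - 1| ≤ B ^ 2 + 1 := by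
      rw [abs_le]
      constructor <;> nlinarith
    calc kap r μ * |‖vv c r μ z‖ ^ 2 - 1| ≤ R ^ 2 * (B ^ 2 + 1) := by gcongr
      _ ≤ R ^ 2 * (B ^ 2 + 1) + R ^ 2 * (2 * B * L) := by
          have : 0 ≤ R ^ 2 * (2 * B * L) := by positivity
          linarith
  · have e : QQ c r μ z - QQ c r μ z' =
        kap r μ * ((‖vv c r μ z‖ + ‖vv c r μ z'‖) * (‖vv c r μ z‖ - ‖vv c r μ z'‖)) := by
      unfold QQ
      ring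
    rw [e, abs_mul, abs_of_pos hk0, abs_mul, abs_of_nonneg (add_nonneg n4 n5)]
    have h7 : |‖vv c r μ z‖ - ‖vv c r μ z'‖| ≤ L * ‖z - z'‖ :=
      (abs_norm_sub_norm_le _ _).trans (hvL c r μ h z z')
    calc kap r μ * ((‖vv c r μ z‖ + ‖vv c r μ z'‖) * |‖vv c r μ z‖ - ‖vv c r μ z'‖|)
        ≤ R ^ 2 * ((B + B) * (L * ‖z - z'‖)) := by gcongr
      _ = R ^ 2 * (2 * B * L) * ‖z - z'‖ := by ring
      _ ≤ (R ^ 2 * (B ^ 2 + 1) + R ^ 2 * (2 * B * L)) * ‖z - z'‖ := by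
          have : 0 ≤ R ^ 2 * (B ^ 2 + 1) := by positivity
          gcongr
          linarith

/-- the linear part of `zz` -/
noncomputable def GbA (r : ℝ) (μ : ℂ) : ℂ →ₗ[ℝ] ℂ where
  toFun v := r * (v + μ * conj v)
  map_add' x y := by
    simp only [map_add]
    ring
  map_smul' t x := by
    simp only [Complex.real_smul, map_mul, Complex.conj_ofReal, RingHom.id_apply]
    ring

theorem Gb_det (r : ℝ) (μ : ℂ) : LinearMap.det (GbA r μ) = r ^ 2 * (1 - ‖μ‖ ^ 2) := by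
  rw [← LinearMap.det_toMatrix Complex.basisOneI, Matrix.det_fin_two, ← Complex.normSq_eq_norm_sq,
    Complex.normSq_apply]
  simp [LinearMap.toMatrix_apply, GbA, Complex.coe_basisOneI]
  ring

theorem Gb_annulus {t : ℝ} (ht : 0 ≤ t) :
    volume {v : ℂ | |‖v‖ ^ 2 - 1| ≤ t} ≤ ENNReal.ofReal (2 * π * t) := by
  have h1 : {v : ℂ | |‖v‖ ^ 2 - 1| ≤ t} ⊆ Metric.closedBall 0 (Real.sqrt (1 + t)) \ Metric.ball 0 (Real.sqrt (1 - t)) := by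
    intro v hv
    have h2 := abs_le.1 (show |‖v‖ ^ 2 - 1| ≤ t from hv)
    constructor
    · rw [mem_closedBall_zero_iff]
      exact Real.le_sqrt_of_sq_le (by linarith)
    · rw [mem_ball_zero_iff, not_lt]
      exact Real.sqrt_le_iff.2 ⟨norm_nonneg _, by linarith⟩
  refine (measure_mono h1).trans ?_
  have h3 : Metric.ball (0 : ℂ) (Real.sqrt (1 - t)) ⊆ Metric.closedBall 0 (Real.sqrt (1 + t)) :=
    Metric.ball_subset_closedBall.trans (Metric.closedBall_subset_closedBall (Real.sqrt_le_sqrt (by linarith)))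
  rw [measure_sdiff h3 Metric.isOpen_ball.measurableSet.nullMeasurableSet (by
    rw [Complex.volume_ball]
    exact ENNReal.mul_ne_top (by simp) (by simp))]
  rw [Complex.volume_closedBall, Complex.volume_ball]
  have e1 : ∀ x : ℝ, ENNReal.ofReal (Real.sqrt x) ^ 2 * (NNReal.pi : ENNReal) = ENNReal.ofReal (π * max x 0) := by
    intro x
    rw [← ENNReal.ofReal_pow (Real.sqrt_nonneg x), mul_comm π, ENNReal.ofReal_mul (le_max_right x 0)]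
    congr 1
    · rcases le_total 0 x with hx | hx
      · rw [Real.sq_sqrt hx, max_eq_left hx]
      · rw [Real.sqrt_eq_zero_of_nonpos hx, max_eq_right hx]
        simp
    · rw [← NNReal.coe_real_pi, ENNReal.ofReal_coe_nnreal]
  rw [e1, e1, ← ENNReal.ofReal_sub _ (by positivity)]
  apply ENNReal.ofReal_le_ofReal
  have h4 : 1 - t ≤ max (1 - t) 0 := le_max_left _ _
  rw [max_eq_left (show (0 : ℝ) ≤ 1 + t by linarith)]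
  have := Real.pi_pos
  nlinarith

theorem vol_QQ {r₀ R μ₀ : ℝ} (hr₀ : 0 < r₀) (hR : r₀ ≤ R) (h0 : 0 ≤ μ₀) (h1 : μ₀ < 1) : ∃ C : ℝ, 0 < C ∧
    ∀ (c : ℂ) (r : ℝ) (μ : ℂ), PS r₀ R μ₀ c r μ → ∀ s : ℝ, 0 ≤ s →
      volume {z : ℂ | |QQ c r μ z| ≤ s} ≤ ENNReal.ofReal (C * s) := by
  obtain ⟨k, hk, hkl⟩ := kap_lb (R := R) hr₀ h0 h1
  have hRp : 0 < R := hr₀.trans_le hR
  refine ⟨R ^ 2 * (2 * π / k), by positivity, ?_⟩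
  intro c r μ h s hs
  have hr : 0 < r := hr₀.trans_le h.2.1
  have hμ : ‖μ‖ < 1 := h.2.2.2.trans_lt h1
  have hk0 : 0 < kap r μ := kap_pos hr hμ
  have e : {z : ℂ | |QQ c r μ z| ≤ s} = (fun x => c + x) '' (GbA r μ '' {v : ℂ | |‖v‖ ^ 2 - 1| ≤ s / kap r μ}) := by
    ext z
    constructor
    · intro hz
      refine ⟨_, ⟨vv c r μ z, ?_, rfl⟩, zz_vv hr hμ z⟩
      have h2 : |QQ c r μ z| ≤ s := hz
      unfold QQ at h2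
      rw [abs_mul, abs_of_pos hk0] at h2
      show |‖vv c r μ z‖ ^ 2 - 1| ≤ s / kap r μ
      rw [le_div_iff₀ hk0]
      linarith
    · rintro ⟨_, ⟨v, hv, rfl⟩, rfl⟩
      show |QQ c r μ (zz c r μ v)| ≤ s
      rw [QQ_zz hr hμ, abs_mul, abs_of_pos hk0]
      have h2 : |‖v‖ ^ 2 - 1| ≤ s / kap r μ := hv
      rw [le_div_iff₀ hk0] at h2
      linarith
  rw [e, image_add_left, measure_preimage_add, Measure.addHaar_image_linearMap, Gb_det]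
  have hs' : 0 ≤ s / kap r μ := by positivity
  refine (mul_le_mul_right (Gb_annulus hs') _).trans ?_
  rw [← ENNReal.ofReal_mul (abs_nonneg _)]
  apply ENNReal.ofReal_le_ofReal
  obtain ⟨h2, h3, h4, -⟩ := Gb_sq h1 h.2.2.2
  have h5 : 0 ≤ 1 - ‖μ‖ ^ 2 := h2.le.trans h3
  have h6 : |r ^ 2 * (1 - ‖μ‖ ^ 2)| ≤ R ^ 2 := by
    rw [abs_of_nonneg (by positivity)]
    calc r ^ 2 * (1 - ‖μ‖ ^ 2) ≤ R ^ 2 * 1 := by
          have := h.2.2.1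
          gcongr
      _ = R ^ 2 := mul_one _
  have h7 := hkl c r μ h
  calc |r ^ 2 * (1 - ‖μ‖ ^ 2)| * (2 * π * (s / kap r μ)) ≤ R ^ 2 * (2 * π * (s / k)) := by
        gcongr
    _ = R ^ 2 * (2 * π / k) * s := by ring

end EW1
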