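import Pool.Agent.H1.EW.Ga
import Pool.Agent.H1.EW.Gb

/-!
ROW EW/Fb. Bounds of the Faber coefficients `fc`, uniform on the parameter set. `0 ≤ μ₀ < ρ² < 1`, `(ρ² + μ₀)/(ρ (1 + μ₀)) < σ`.
* `crv`: `ζ = w + μ/w`, `‖w‖ = ρ`: `1/w = w̄/ρ²`, `ζ - μ ζ̄ = w (1 - ‖μ‖²/ρ²) + μ w̄ (1/ρ² - 1)`, so `‖vv‖ ≤ ρ ((1 - ‖μ‖²/ρ²) + ‖μ‖ (1/ρ² - 1))/(1 - ‖μ‖²) = (ρ² + ‖μ‖)/(ρ (1 + ‖μ‖))`, increasing in `‖μ‖`.
* `fc_le`: the integrand is at most `S * R (ρ + 1/ρ) * ρ⁻ⁿ` (`intervalIntegral.norm_integral_le_of_norm_le_const`).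
* `fc_lip`: choose `(ρ²+μ₀)/(ρ(1+μ₀)) < σ' < σ`; `z₁(t), z₂(t)` the two points; `‖z₁ - z₂‖ ≤ C dd`; for small `dd` both are in `Dp c₁ r₁ μ₁ σ'` (`vv_lip`), convex; Cauchy estimate: `‖F'‖ ≤ C S` on `Dp c₁ r₁ μ₁ σ'`
  (balls of uniform radius in `Dp c₁ r₁ μ₁ σ`; `Complex.norm_deriv_le_of_forall_mem_sphere_norm_le`), mean value inequality (`Convex.norm_image_sub_le_of_norm_deriv_le`); the factors `r (w - μ/w)` are Lipschitz.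
-/

set_option autoImplicit false

namespace EW1

open Complex Set Filter Topology MeasureTheory
open scoped ComplexConjugate ContDiff Real

theorem crv {μ₀ ρ : ℝ} (h0 : 0 ≤ μ₀) (h1 : μ₀ < ρ ^ 2) (hρ : 0 < ρ) (hρ1 : ρ < 1) {c : ℂ} {r : ℝ} (hr : 0 < r) {μ : ℂ}
    (hμ : ‖μ‖ ≤ μ₀) {w : ℂ} (hw : ‖w‖ = ρ) : ‖vv c r μ (c + r * (w + μ * w⁻¹))‖ ≤ (ρ ^ 2 + μ₀) / (ρ * (1 + μ₀)) := by
  have ha0 : 0 ≤ ‖μ‖ := norm_nonneg μ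
  have hρ2 : ρ ^ 2 < 1 := by nlinarith
  have ha1 : ‖μ‖ < 1 := by linarith
  have haρ : ‖μ‖ < ρ ^ 2 := hμ.trans_lt h1
  have hq : 0 < 1 - ‖μ‖ ^ 2 := by nlinarith
  have hw0 : w ≠ 0 := by
    intro h
    rw [h, norm_zero] at hw
    exact hρ.ne hw
  have hwc : w * conj w = ((ρ ^ 2 : ℝ) : ℂ) := by
    rw [Complex.mul_conj, Complex.normSq_eq_norm_sq, hw]
  have hρC : (ρ : ℂ) ≠ 0 := by exact_mod_cast hρ.ne'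
  have hinv : w⁻¹ = conj w / ((ρ ^ 2 : ℝ) : ℂ) := by
    have hρ2C : ((ρ ^ 2 : ℝ) : ℂ) ≠ 0 := by
      push_cast
      exact pow_ne_zero 2 hρC
    rw [eq_div_iff hρ2C, ← hwc, ← mul_assoc, inv_mul_cancel₀ hw0, one_mul]
  have hrC : (r : ℂ) ≠ 0 := by exact_mod_cast hr.ne'
  have hqC : ((1 - ‖μ‖ ^ 2 : ℝ) : ℂ) ≠ 0 := by exact_mod_cast hq.ne'
  have hμc : μ * conj μ = ((‖μ‖ ^ 2 : ℝ) : ℂ) := by
    rw [Complex.mul_conj, Complex.normSq_eq_norm_sq]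
  have e : vv c r μ (c + r * (w + μ * w⁻¹)) =
      (((1 - ‖μ‖ ^ 2 / ρ ^ 2 : ℝ) : ℂ) * w + μ * (((1 / ρ ^ 2 - 1 : ℝ) : ℂ) * conj w)) / ((1 - ‖μ‖ ^ 2 : ℝ) : ℂ) := by
    unfold vv
    have e1 : c + r * (w + μ * w⁻¹) - c = r * (w + μ * (conj w / ((ρ ^ 2 : ℝ) : ℂ))) := by
      rw [hinv]
      ring
    rw [e1]
    have e2 : (r : ℂ) * (w + μ * (conj w / ((ρ ^ 2 : ℝ) : ℂ))) -
        μ * conj ((r : ℂ) * (w + μ * (conj w / ((ρ ^ 2 : ℝ) : ℂ)))) =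
        r * (((1 - ‖μ‖ ^ 2 / ρ ^ 2 : ℝ) : ℂ) * w + μ * (((1 / ρ ^ 2 - 1 : ℝ) : ℂ) * conj w)) := by
      simp only [map_mul, map_add, map_div₀, Complex.conj_ofReal, Complex.conj_conj]
      push_cast
      push_cast at hμc
      linear_combination (-(r : ℂ) * w / (ρ : ℂ) ^ 2) * hμc
    rw [e2]
    push_cast
    push_cast at hqC
    field_simp
  rw [e, norm_div, Complex.norm_real, Real.norm_eq_abs, abs_of_pos hq, div_le_div_iff₀ hq (by positivity)]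
  have hn1 : 0 ≤ 1 - ‖μ‖ ^ 2 / ρ ^ 2 := by
    rw [sub_nonneg, div_le_one (by positivity)]
    nlinarith
  have hn2 : 0 ≤ 1 / ρ ^ 2 - 1 := by
    rw [sub_nonneg, le_div_iff₀ (by positivity)]
    linarith
  have h2 : ‖((1 - ‖μ‖ ^ 2 / ρ ^ 2 : ℝ) : ℂ) * w + μ * (((1 / ρ ^ 2 - 1 : ℝ) : ℂ) * conj w)‖ ≤
      (1 - ‖μ‖ ^ 2 / ρ ^ 2) * ρ + ‖μ‖ * ((1 / ρ ^ 2 - 1) * ρ) := by
    refine (norm_add_le _ _).trans (le_of_eq ?_)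
    rw [norm_mul, norm_mul, norm_mul, RCLike.norm_conj, hw, Complex.norm_real, Complex.norm_real, Real.norm_eq_abs,
      Real.norm_eq_abs, abs_of_nonneg hn1, abs_of_nonneg hn2]
  have h3 : (1 - ‖μ‖ ^ 2 / ρ ^ 2) * ρ + ‖μ‖ * ((1 / ρ ^ 2 - 1) * ρ) = (ρ ^ 2 + ‖μ‖) * (1 - ‖μ‖) / ρ := by
    field_simp
    ring
  rw [h3] at h2
  calc _ ≤ (ρ ^ 2 + ‖μ‖) * (1 - ‖μ‖) / ρ * (ρ * (1 + μ₀)) := by gcongr
    _ = (1 - ‖μ‖) * ((ρ ^ 2 + ‖μ‖) * (1 + μ₀)) := by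
        field_simp
    _ ≤ (1 - ‖μ‖) * ((ρ ^ 2 + μ₀) * (1 + ‖μ‖)) := by
        have : 0 ≤ 1 - ‖μ‖ := by linarith
        apply mul_le_mul_of_nonneg_left _ this
        nlinarith
    _ = (ρ ^ 2 + μ₀) * (1 - ‖μ‖ ^ 2) := by ring

/-- the point of the circle of radius `ρ` -/
noncomputable def fbw (ρ t : ℝ) : ℂ := ρ * exp (t * I)

theorem fbw_norm {ρ : ℝ} (hρ : 0 < ρ) (t : ℝ) : ‖fbw ρ t‖ = ρ := by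
  unfold fbw
  rw [norm_mul, Complex.norm_exp_ofReal_mul_I, mul_one, Complex.norm_real, Real.norm_eq_abs, abs_of_pos hρ]

theorem fbw_ne {ρ : ℝ} (hρ : 0 < ρ) (t : ℝ) : fbw ρ t ≠ 0 := by
  intro h
  have := fbw_norm hρ t
  rw [h, norm_zero] at this
  exact hρ.ne this

theorem fbw_cont (ρ : ℝ) : Continuous (fbw ρ) := by
  unfold fbw
  fun_prop

theorem fb_fc (c : ℂ) (r : ℝ) (μ : ℂ) (F : ℂ → ℂ) (ρ : ℝ) (n : ℕ) : fc c r μ F ρ n =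
    (∫ t in (0 : ℝ)..(2 * π), F (c + r * (fbw ρ t + μ * (fbw ρ t)⁻¹)) * (r * (fbw ρ t - μ * (fbw ρ t)⁻¹)) *
      (fbw ρ t)⁻¹ ^ n) / (2 * π) := rfl

theorem fb_g {r R ρ μ₀ : ℝ} (hr : 0 ≤ r) (hrR : r ≤ R) (hρ : 0 < ρ) (h1 : μ₀ ≤ 1) {μ : ℂ} (hμ : ‖μ‖ ≤ μ₀) (t : ℝ) :
    ‖(r : ℂ) * (fbw ρ t - μ * (fbw ρ t)⁻¹)‖ ≤ R * (ρ + ρ⁻¹) := by
  rw [norm_mul, Complex.norm_real, Real.norm_eq_abs, abs_of_nonneg hr]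
  have h2 : ‖fbw ρ t - μ * (fbw ρ t)⁻¹‖ ≤ ρ + ρ⁻¹ := by
    refine (norm_sub_le _ _).trans ?_
    rw [norm_mul, norm_inv, fbw_norm hρ]
    have : ‖μ‖ * ρ⁻¹ ≤ 1 * ρ⁻¹ := by
      gcongr
      linarith
    linarith
  have hR : 0 ≤ R := hr.trans hrR
  gcongr

theorem fb_bd {c : ℂ} {r : ℝ} {μ : ℂ} {F : ℂ → ℂ} {ρ A S : ℝ} (hρ : 0 < ρ) (hA0 : 0 ≤ A) (n : ℕ)
    (hA : ∀ t : ℝ, ‖(r : ℂ) * (fbw ρ t - μ * (fbw ρ t)⁻¹)‖ ≤ A)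
    (hS : ∀ t : ℝ, ‖F (c + r * (fbw ρ t + μ * (fbw ρ t)⁻¹))‖ ≤ S) : ‖fc c r μ F ρ n‖ ≤ A * S * ρ⁻¹ ^ n := by
  rw [fb_fc, norm_div]
  have hS0 : 0 ≤ S := (norm_nonneg _).trans (hS 0)
  have h1 : ‖∫ t in (0 : ℝ)..(2 * π), F (c + r * (fbw ρ t + μ * (fbw ρ t)⁻¹)) * (r * (fbw ρ t - μ * (fbw ρ t)⁻¹)) *
      (fbw ρ t)⁻¹ ^ n‖ ≤ (S * A * ρ⁻¹ ^ n) * |2 * π - 0| := by
    refine intervalIntegral.norm_integral_le_of_norm_le_const fun t _ => ?_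
    rw [norm_mul, norm_mul, norm_pow, norm_inv, fbw_norm hρ]
    have := hA t
    have := hS t
    gcongr
  have h2 : ‖(2 * π : ℂ)‖ = 2 * π := by
    rw [norm_mul, Complex.norm_real, Real.norm_eq_abs, abs_of_pos Real.pi_pos]
    norm_num
  have h3 : (0 : ℝ) < 2 * π := by positivity
  rw [h2, div_le_iff₀ h3]
  rw [sub_zero, abs_of_pos h3] at h1
  calc _ ≤ _ := h1
    _ = _ := by ring

theorem fc_le {r₀ R μ₀ ρ σ : ℝ} (hr₀ : 0 < r₀) (h0 : 0 ≤ μ₀) (h1 : μ₀ < ρ ^ 2) (hρ : 0 < ρ) (hρ1 : ρ < 1)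
    (hσ : (ρ ^ 2 + μ₀) / (ρ * (1 + μ₀)) < σ) : ∃ C : ℝ, 0 < C ∧
    ∀ (c : ℂ) (r : ℝ) (μ : ℂ), PS r₀ R μ₀ c r μ → ∀ (F : ℂ → ℂ) (S : ℝ), (∀ z ∈ Dp c r μ σ, ‖F z‖ ≤ S) →
      ∀ n : ℕ, ‖fc c r μ F ρ n‖ ≤ C * S * ρ⁻¹ ^ n := by
  have hμ₀ : μ₀ ≤ 1 := by nlinarith
  refine ⟨|R| * (ρ + ρ⁻¹) + 1, by positivity, ?_⟩
  rintro c r μ ⟨hc, hr, hrR, hμ⟩ F S hF n
  have hr' : 0 < r := hr₀.trans_le hr
  refine fb_bd hρ (by positivity) n (fun t => ?_) fun t => ?_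
  · have h2 := fb_g (ρ := ρ) hr'.le (hrR.trans (le_abs_self R)) hρ hμ₀ hμ t
    linarith
  · exact hF _ ((crv h0 h1 hρ hρ1 hr' hμ (fbw_norm hρ t)).trans_lt hσ)

theorem fc_lip {r₀ R μ₀ ρ σ : ℝ} (hr₀ : 0 < r₀) (hR : r₀ ≤ R) (h0 : 0 ≤ μ₀) (h1 : μ₀ < ρ ^ 2) (hρ : 0 < ρ) (hρ1 : ρ < 1)
    (hσ : (ρ ^ 2 + μ₀) / (ρ * (1 + μ₀)) < σ) : ∃ C δ₁ : ℝ, 0 < C ∧ 0 < δ₁ ∧
    ∀ (c₁ : ℂ) (r₁ : ℝ) (μ₁ c₂ : ℂ) (r₂ : ℝ) (μ₂ : ℂ), PS r₀ R μ₀ c₁ r₁ μ₁ → PS r₀ R μ₀ c₂ r₂ μ₂ →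
      dd c₁ r₁ μ₁ c₂ r₂ μ₂ ≤ δ₁ → ∀ (F : ℂ → ℂ) (S : ℝ), DifferentiableOn ℂ F (Dp c₁ r₁ μ₁ σ) → (∀ z ∈ Dp c₁ r₁ μ₁ σ, ‖F z‖ ≤ S) →
      ∀ n : ℕ, ‖fc c₁ r₁ μ₁ F ρ n‖ ≤ C * S * ρ⁻¹ ^ n ∧ ‖fc c₂ r₂ μ₂ F ρ n‖ ≤ C * S * ρ⁻¹ ^ n ∧
        ‖fc c₁ r₁ μ₁ F ρ n - fc c₂ r₂ μ₂ F ρ n‖ ≤ C * S * dd c₁ r₁ μ₁ c₂ r₂ μ₂ * ρ⁻¹ ^ n := by
  have hμ₀' : μ₀ < 1 := by nlinarith
  have hμ₀ : μ₀ ≤ 1 := hμ₀'.le
  have hRp : 0 < R := hr₀.trans_le hR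
  obtain ⟨L, hL, hvL⟩ := vv_lip (R := R) hr₀ h0 hμ₀'
  set τ : ℝ := (ρ ^ 2 + μ₀) / (ρ * (1 + μ₀)) with hτ
  set K : ℝ := 1 + ρ + ρ⁻¹ + R * ρ⁻¹ with hK
  set A : ℝ := R * (ρ + ρ⁻¹) with hA
  have hKp : 0 < K := by positivity
  have hAp : 0 < A := by positivity
  have hστ : 0 < σ - τ := by linarith
  set ε : ℝ := (σ - τ) / (4 * L) with hε
  have hεp : 0 < ε := by positivity
  have hLε : L * ε = (σ - τ) / 4 := by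
    rw [hε]
    field_simp
  refine ⟨A + K * A / ε + K, ε / K, by positivity, by positivity, ?_⟩
  intro c₁ r₁ μ₁ c₂ r₂ μ₂ hP₁ hP₂ hdd F S hFd hFS n
  have hr₁ : 0 < r₁ := hr₀.trans_le hP₁.2.1
  have hr₂ : 0 < r₂ := hr₀.trans_le hP₂.2.1
  set d : ℝ := dd c₁ r₁ μ₁ c₂ r₂ μ₂ with hd
  have hdc : ‖c₁ - c₂‖ + |r₁ - r₂| + ‖μ₁ - μ₂‖ = d := rfl
  have n1 : 0 ≤ ‖c₁ - c₂‖ := norm_nonneg _
  have n2 : 0 ≤ |r₁ - r₂| := abs_nonneg _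
  have n3 : 0 ≤ ‖μ₁ - μ₂‖ := norm_nonneg _
  have hd0 : 0 ≤ d := by linarith
  have hKd : K * d ≤ ε := by
    rw [le_div_iff₀ hKp] at hdd
    linarith
  -- the two curves
  set z₁ : ℝ → ℂ := fun t => c₁ + r₁ * (fbw ρ t + μ₁ * (fbw ρ t)⁻¹) with hz₁
  set z₂ : ℝ → ℂ := fun t => c₂ + r₂ * (fbw ρ t + μ₂ * (fbw ρ t)⁻¹) with hz₂
  set g₁ : ℝ → ℂ := fun t => r₁ * (fbw ρ t - μ₁ * (fbw ρ t)⁻¹) with hg₁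
  set g₂ : ℝ → ℂ := fun t => r₂ * (fbw ρ t - μ₂ * (fbw ρ t)⁻¹) with hg₂
  have hwn : ∀ t, ‖fbw ρ t‖ = ρ := fbw_norm hρ
  have hμ₁ : ‖μ₁‖ ≤ 1 := hP₁.2.2.2.trans hμ₀
  have hg₁A : ∀ t, ‖g₁ t‖ ≤ A := fun t => fb_g hr₁.le hP₁.2.2.1 hρ hμ₀ hP₁.2.2.2 t
  have hg₂A : ∀ t, ‖g₂ t‖ ≤ A := fun t => fb_g hr₂.le hP₂.2.2.1 hρ hμ₀ hP₂.2.2.2 t
  have hsum : ∀ t : ℝ, ∀ s : ℂ, ‖s‖ ≤ 1 → ‖((r₁ : ℂ) - r₂) * (fbw ρ t + s * (μ₁ * (fbw ρ t)⁻¹)) +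
      r₂ * (s * ((μ₁ - μ₂) * (fbw ρ t)⁻¹))‖ ≤ |r₁ - r₂| * (ρ + ρ⁻¹) + R * ρ⁻¹ * ‖μ₁ - μ₂‖ := by
    intro t s hs
    refine (norm_add_le _ _).trans ?_
    rw [norm_mul, norm_mul, norm_mul, norm_mul, norm_inv, hwn, Complex.norm_real, Real.norm_eq_abs, abs_of_pos hr₂]
    have e1 : ‖((r₁ : ℂ) - r₂)‖ = |r₁ - r₂| := by
      rw [← Complex.ofReal_sub, Complex.norm_real, Real.norm_eq_abs]
    rw [e1]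
    have e2 : ‖fbw ρ t + s * (μ₁ * (fbw ρ t)⁻¹)‖ ≤ ρ + ρ⁻¹ := by
      refine (norm_add_le _ _).trans ?_
      rw [norm_mul, norm_mul, norm_inv, hwn]
      have : ‖s‖ * (‖μ₁‖ * ρ⁻¹) ≤ 1 * (1 * ρ⁻¹) := by gcongr
      linarith
    have e3 : r₂ * (‖s‖ * (‖μ₁ - μ₂‖ * ρ⁻¹)) ≤ R * (1 * (‖μ₁ - μ₂‖ * ρ⁻¹)) := by
      have := hP₂.2.2.1
      gcongr
    have e4 : |r₁ - r₂| * ‖fbw ρ t + s * (μ₁ * (fbw ρ t)⁻¹)‖ ≤ |r₁ - r₂| * (ρ + ρ⁻¹) := by gcongr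
    calc _ ≤ |r₁ - r₂| * (ρ + ρ⁻¹) + R * (1 * (‖μ₁ - μ₂‖ * ρ⁻¹)) := add_le_add e4 e3
      _ = _ := by ring
  have hρi : 0 < ρ⁻¹ := by positivity
  have hKd2 : ‖c₁ - c₂‖ + (|r₁ - r₂| * (ρ + ρ⁻¹) + R * ρ⁻¹ * ‖μ₁ - μ₂‖) ≤ K * d := by
    have f1 : ‖c₁ - c₂‖ * 1 ≤ ‖c₁ - c₂‖ * K := by
      apply mul_le_mul_of_nonneg_left _ n1
      have : 0 < R * ρ⁻¹ := by positivity
      linarith
    have f2 : |r₁ - r₂| * (ρ + ρ⁻¹) ≤ |r₁ - r₂| * K := by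
      apply mul_le_mul_of_nonneg_left _ n2
      have : 0 < R * ρ⁻¹ := by positivity
      linarith
    have f3 : ‖μ₁ - μ₂‖ * (R * ρ⁻¹) ≤ ‖μ₁ - μ₂‖ * K := by
      apply mul_le_mul_of_nonneg_left _ n3
      linarith
    rw [← hdc]
    linarith
  have hz12 : ∀ t, ‖z₁ t - z₂ t‖ ≤ K * d := by
    intro t
    have e : z₁ t - z₂ t = (c₁ - c₂) + (((r₁ : ℂ) - r₂) * (fbw ρ t + 1 * (μ₁ * (fbw ρ t)⁻¹)) +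
        r₂ * (1 * ((μ₁ - μ₂) * (fbw ρ t)⁻¹))) := by
      simp only [hz₁, hz₂]
      ring
    rw [e]
    refine (norm_add_le _ _).trans ?_
    have := hsum t 1 (by simp)
    linarith
  have hg12 : ∀ t, ‖g₁ t - g₂ t‖ ≤ K * d := by
    intro t
    have e : g₁ t - g₂ t = ((r₁ : ℂ) - r₂) * (fbw ρ t + (-1) * (μ₁ * (fbw ρ t)⁻¹)) +
        r₂ * ((-1) * ((μ₁ - μ₂) * (fbw ρ t)⁻¹)) := by
      simp only [hg₁, hg₂]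
      ring
    rw [e]
    have := hsum t (-1) (by simp)
    linarith
  set σ' : ℝ := (σ + τ) / 2 with hσ'
  have hz₁D : ∀ t, ‖vv c₁ r₁ μ₁ (z₁ t)‖ ≤ τ := fun t => crv h0 h1 hρ hρ1 hr₁ hP₁.2.2.2 (hwn t)
  have hz₁σ' : ∀ t, z₁ t ∈ Dp c₁ r₁ μ₁ σ' := fun t => by
    show ‖vv c₁ r₁ μ₁ (z₁ t)‖ < σ'
    have := hz₁D t
    rw [hσ']
    linarith
  have hz₂σ' : ∀ t, z₂ t ∈ Dp c₁ r₁ μ₁ σ' := fun t => by
    show ‖vv c₁ r₁ μ₁ (z₂ t)‖ < σ'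
    have e1 := hz₁D t
    have e2 := hvL c₁ r₁ μ₁ hP₁ (z₂ t) (z₁ t)
    have e3 : ‖z₂ t - z₁ t‖ ≤ ε := by
      rw [norm_sub_rev]
      exact (hz12 t).trans hKd
    have e4 : ‖vv c₁ r₁ μ₁ (z₂ t)‖ ≤ ‖vv c₁ r₁ μ₁ (z₁ t)‖ + ‖vv c₁ r₁ μ₁ (z₂ t) - vv c₁ r₁ μ₁ (z₁ t)‖ := by
      have := norm_add_le (vv c₁ r₁ μ₁ (z₁ t)) (vv c₁ r₁ μ₁ (z₂ t) - vv c₁ r₁ μ₁ (z₁ t))
      rwa [add_sub_cancel] at this
    have e5 : L * ‖z₂ t - z₁ t‖ ≤ L * ε := by gcongr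
    rw [hσ']
    linarith
  have hσσ' : σ' ≤ σ := by rw [hσ']; linarith
  have hmono := Dp_mono c₁ r₁ μ₁ hσσ'
  have hF₁ : ∀ t, ‖F (z₁ t)‖ ≤ S := fun t => hFS _ (hmono (hz₁σ' t))
  have hF₂ : ∀ t, ‖F (z₂ t)‖ ≤ S := fun t => hFS _ (hmono (hz₂σ' t))
  have hS0 : 0 ≤ S := (norm_nonneg _).trans (hF₁ 0)
  -- Cauchy estimate
  have hball : ∀ z ∈ Dp c₁ r₁ μ₁ σ', Metric.closedBall z ε ⊆ Dp c₁ r₁ μ₁ σ := by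
    intro z hz z' hz'
    have e1 : ‖vv c₁ r₁ μ₁ z‖ < σ' := hz
    have e2 := hvL c₁ r₁ μ₁ hP₁ z' z
    have e3 : ‖z' - z‖ ≤ ε := mem_closedBall_iff_norm.1 hz'
    have e4 : ‖vv c₁ r₁ μ₁ z'‖ ≤ ‖vv c₁ r₁ μ₁ z‖ + ‖vv c₁ r₁ μ₁ z' - vv c₁ r₁ μ₁ z‖ := by
      have := norm_add_le (vv c₁ r₁ μ₁ z) (vv c₁ r₁ μ₁ z' - vv c₁ r₁ μ₁ z)
      rwa [add_sub_cancel] at this
    have e5 : L * ‖z' - z‖ ≤ L * ε := by gcongr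
    show ‖vv c₁ r₁ μ₁ z'‖ < σ
    rw [hσ'] at e1
    linarith
  have hDo := Dp_open c₁ r₁ μ₁ σ
  have hderiv : ∀ z ∈ Dp c₁ r₁ μ₁ σ', ‖deriv F z‖ ≤ S / ε := by
    intro z hz
    refine Complex.norm_deriv_le_of_forall_mem_sphere_norm_le hεp ?_ ?_
    · exact (hFd.mono (Metric.closure_ball_subset_closedBall.trans (hball z hz))).diffContOnCl
    · intro z' hz'
      exact hFS z' (hball z hz (Metric.sphere_subset_closedBall hz'))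
  have hFlip : ∀ t, ‖F (z₁ t) - F (z₂ t)‖ ≤ S / ε * (K * d) := by
    intro t
    have e1 := (Dp_convex c₁ r₁ μ₁ σ').norm_image_sub_le_of_norm_deriv_le
      (fun z hz => (hFd z (hmono hz)).differentiableAt (hDo.mem_nhds (hmono hz))) hderiv (hz₂σ' t) (hz₁σ' t)
    have e2 := hz12 t
    exact e1.trans (by gcongr)
  have hpn : 0 ≤ ρ⁻¹ ^ n := by positivity
  refine ⟨?_, ?_, ?_⟩
  · have e1 := fb_bd (c := c₁) (F := F) hρ hAp.le n hg₁A hF₁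
    have e2 : A * S * ρ⁻¹ ^ n ≤ (A + K * A / ε + K) * S * ρ⁻¹ ^ n := by
      have : A ≤ A + K * A / ε + K := by
        have : 0 < K * A / ε := by positivity
        linarith
      gcongr
    exact e1.trans e2
  · have e1 := fb_bd (c := c₂) (F := F) hρ hAp.le n hg₂A hF₂
    have e2 : A * S * ρ⁻¹ ^ n ≤ (A + K * A / ε + K) * S * ρ⁻¹ ^ n := by
      have : A ≤ A + K * A / ε + K := by
        have : 0 < K * A / ε := by positivity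
        linarith
      gcongr
    exact e1.trans e2
  · have hwc := fbw_cont ρ
    have hwi : Continuous fun t => (fbw ρ t)⁻¹ := hwc.inv₀ (fbw_ne hρ)
    have hz₁c : Continuous z₁ := by
      simp only [hz₁]
      exact continuous_const.add (continuous_const.mul (hwc.add (continuous_const.mul hwi)))
    have hz₂c : Continuous z₂ := by
      simp only [hz₂]
      exact continuous_const.add (continuous_const.mul (hwc.add (continuous_const.mul hwi)))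
    have hg₁c : Continuous g₁ := by
      simp only [hg₁]
      exact continuous_const.mul (hwc.sub (continuous_const.mul hwi))
    have hg₂c : Continuous g₂ := by
      simp only [hg₂]
      exact continuous_const.mul (hwc.sub (continuous_const.mul hwi))
    have hc₁ : Continuous fun t => F (z₁ t) * g₁ t * (fbw ρ t)⁻¹ ^ n :=
      ((hFd.continuousOn.comp_continuous hz₁c fun t => hmono (hz₁σ' t)).mul hg₁c).mul (hwi.pow n)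
    have hc₂ : Continuous fun t => F (z₂ t) * g₂ t * (fbw ρ t)⁻¹ ^ n :=
      ((hFd.continuousOn.comp_continuous hz₂c fun t => hmono (hz₂σ' t)).mul hg₂c).mul (hwi.pow n)
    have e : fc c₁ r₁ μ₁ F ρ n - fc c₂ r₂ μ₂ F ρ n =
        (∫ t in (0 : ℝ)..(2 * π), (F (z₁ t) * g₁ t * (fbw ρ t)⁻¹ ^ n - F (z₂ t) * g₂ t * (fbw ρ t)⁻¹ ^ n)) / (2 * π) := by
      rw [intervalIntegral.integral_sub (hc₁.intervalIntegrable _ _) (hc₂.intervalIntegrable _ _), sub_div, fb_fc, fb_fc]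
    rw [e, norm_div]
    have h2 : ‖(2 * π : ℂ)‖ = 2 * π := by
      rw [norm_mul, Complex.norm_real, Real.norm_eq_abs, abs_of_pos Real.pi_pos]
      norm_num
    have h3 : (0 : ℝ) < 2 * π := by positivity
    rw [h2, div_le_iff₀ h3]
    have h4 : ‖∫ t in (0 : ℝ)..(2 * π), (F (z₁ t) * g₁ t * (fbw ρ t)⁻¹ ^ n - F (z₂ t) * g₂ t * (fbw ρ t)⁻¹ ^ n)‖ ≤
        ((S / ε * (K * d) * A + S * (K * d)) * ρ⁻¹ ^ n) * |2 * π - 0| := by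
      refine intervalIntegral.norm_integral_le_of_norm_le_const fun t _ => ?_
      have e1 : F (z₁ t) * g₁ t * (fbw ρ t)⁻¹ ^ n - F (z₂ t) * g₂ t * (fbw ρ t)⁻¹ ^ n =
          ((F (z₁ t) - F (z₂ t)) * g₁ t + F (z₂ t) * (g₁ t - g₂ t)) * (fbw ρ t)⁻¹ ^ n := by ring
      rw [e1, norm_mul, norm_pow, norm_inv, hwn]
      apply mul_le_mul_of_nonneg_right _ hpn
      refine (norm_add_le _ _).trans ?_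
      have k1 := hFlip t
      have k2 := hg₁A t
      have k3 := hF₂ t
      have k4 := hg12 t
      have k5 : ‖(F (z₁ t) - F (z₂ t)) * g₁ t‖ ≤ S / ε * (K * d) * A := by
        rw [norm_mul]
        gcongr
      have k6 : ‖F (z₂ t) * (g₁ t - g₂ t)‖ ≤ S * (K * d) := by
        rw [norm_mul]
        gcongr
      linarith
    rw [sub_zero, abs_of_pos h3] at h4
    refine h4.trans ?_
    have k5 : 0 ≤ A * S * d * ρ⁻¹ ^ n * (2 * π) := by positivity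
    calc (S / ε * (K * d) * A + S * (K * d)) * ρ⁻¹ ^ n * (2 * π)
        ≤ (S / ε * (K * d) * A + S * (K * d)) * ρ⁻¹ ^ n * (2 * π) + A * S * d * ρ⁻¹ ^ n * (2 * π) := by linarith
      _ = (A + K * A / ε + K) * S * d * ρ⁻¹ ^ n * (2 * π) := by ring

end EW1
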