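import Pool.Agent.H1.EW.D0

/-!
ROW EW/Fd. Bounds of the terms `rt`, `n ≥ 1`, `l² ≤ 1/4`, `‖μ‖ ≤ μ₀ < 1`. Denominator: `n (1 - l² ‖μ‖^(2n)) ≥ (3/4) n`.
`rt_lip`: telescoping; `‖μ₁^n - μ₂^n‖ ≤ n μ₀^(n-1) ‖μ₁ - μ₂‖`, `|‖μ₁‖^(2n) - ‖μ₂‖^(2n)| ≤ 2n μ₀^(2n-1) ‖μ₁ - μ₂‖`; every term of the difference has a factor `|l|` and a factor `μ₀^(n-1)` (times a number at most `C n`), the denominator gives `1/n`.
-/

set_option autoImplicit false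

namespace EW1

open Complex Set Filter Topology MeasureTheory
open scoped ComplexConjugate ContDiff Real

private theorem pow_lip {F : Type} [NormedField F] (x y : F) (r : ℝ) (hx : ‖x‖ ≤ r) (hy : ‖y‖ ≤ r) (n : ℕ) :
    ‖x ^ n - y ^ n‖ ≤ n * r ^ (n - 1) * ‖x - y‖ := by
  have hr : 0 ≤ r := (norm_nonneg x).trans hx
  rw [← geom_sum₂_mul, norm_mul]
  refine mul_le_mul_of_nonneg_right ?_ (norm_nonneg _)
  refine (norm_sum_le _ _).trans ?_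
  have h : ∀ i ∈ Finset.range n, ‖x ^ i * y ^ (n - 1 - i)‖ ≤ r ^ (n - 1) := by
    intro i hi
    have hi' : i ≤ n - 1 := by have := Finset.mem_range.1 hi; omega
    rw [norm_mul, norm_pow, norm_pow]
    calc ‖x‖ ^ i * ‖y‖ ^ (n - 1 - i) ≤ r ^ i * r ^ (n - 1 - i) :=
          mul_le_mul (pow_le_pow_left₀ (norm_nonneg _) hx _) (pow_le_pow_left₀ (norm_nonneg _) hy _)
            (by positivity) (by positivity)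
      _ = r ^ (n - 1) := by rw [← pow_add]; congr 1; omega
  refine (Finset.sum_le_sum h).trans ?_
  simp

/-- the real factor -/
private noncomputable def al (l w : ℝ) : ℝ := (1 - w) / (1 - l ^ 2 * w)

private theorem al_bd {l w : ℝ} (hl : l ^ 2 ≤ 1 / 4) (h0 : 0 ≤ w) (h1 : w ≤ 1) : 0 ≤ al l w ∧ al l w ≤ 1 := by
  have hq : 0 < 1 - l ^ 2 * w := by nlinarith [sq_nonneg l]
  constructor
  · unfold al; exact div_nonneg (by linarith) hq.le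
  · unfold al; rw [div_le_one hq]; nlinarith [sq_nonneg l]

private theorem al_lip {l w₁ w₂ : ℝ} (hl : l ^ 2 ≤ 1 / 4) (h0 : 0 ≤ w₁) (h1 : w₁ ≤ 1) (h0' : 0 ≤ w₂) (h1' : w₂ ≤ 1) :
    |al l w₁ - al l w₂| ≤ 2 * |w₁ - w₂| := by
  have hq₁ : 3 / 4 ≤ 1 - l ^ 2 * w₁ := by nlinarith [sq_nonneg l]
  have hq₂ : 3 / 4 ≤ 1 - l ^ 2 * w₂ := by nlinarith [sq_nonneg l]
  have hne₁ : 1 - l ^ 2 * w₁ ≠ 0 := by linarith
  have hne₂ : 1 - l ^ 2 * w₂ ≠ 0 := by linarith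
  have e : al l w₁ - al l w₂ = ((1 - l ^ 2) / ((1 - l ^ 2 * w₁) * (1 - l ^ 2 * w₂))) * (w₂ - w₁) := by
    unfold al
    rw [div_sub_div _ _ hne₁ hne₂, div_mul_eq_mul_div]
    congr 1
    ring
  rw [e, abs_mul, abs_sub_comm w₂ w₁]
  refine mul_le_mul_of_nonneg_right ?_ (abs_nonneg _)
  have hp : 9 / 16 ≤ (1 - l ^ 2 * w₁) * (1 - l ^ 2 * w₂) := by nlinarith
  rw [abs_of_nonneg (div_nonneg (by nlinarith [sq_nonneg l]) (by linarith)), div_le_iff₀ (by linarith)]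
  nlinarith [sq_nonneg l]

private noncomputable def BB (l w : ℝ) (u M : ℂ) : ℂ := l * u * M + l ^ 2 * w * conj M

private theorem rt_eq (l : ℝ) (μ A M : ℂ) (n : ℕ) (hn : 1 ≤ n) (hl : l ^ 2 ≤ 1 / 4) (hμ : ‖μ‖ ≤ 1) :
    rt l μ A M n = ((al l (‖μ‖ ^ (2 * n)) : ℝ) : ℂ) * A * BB l (‖μ‖ ^ (2 * n)) (μ ^ n) M / n := by
  have hw : ‖μ‖ ^ (2 * n) ≤ 1 := pow_le_one₀ (norm_nonneg _) hμ
  have hw0 : 0 ≤ ‖μ‖ ^ (2 * n) := by positivity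
  have hq : (1 - l ^ 2 * ‖μ‖ ^ (2 * n) : ℝ) ≠ 0 := by nlinarith [sq_nonneg l]
  have hqc : ((1 - l ^ 2 * ‖μ‖ ^ (2 * n) : ℝ) : ℂ) ≠ 0 := by exact_mod_cast hq
  have hnc : (n : ℂ) ≠ 0 := by exact_mod_cast (by omega : n ≠ 0)
  unfold rt al BB
  rw [Complex.ofReal_div]
  have e : ((‖μ‖ ^ (2 * n) : ℝ) : ℂ) = (‖μ‖ : ℂ) ^ (2 * n) := by push_cast; rfl
  rw [e]
  field_simp

private theorem BB_le {l w r m : ℝ} {u M : ℂ} (hl : |l| ≤ 1 / 2) (hw0 : 0 ≤ w) (hw : w ≤ r) (hu : ‖u‖ ≤ r)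
    (hM : ‖M‖ ≤ m) : ‖BB l w u M‖ ≤ 3 / 2 * |l| * r * m := by
  have hr : 0 ≤ r := (norm_nonneg u).trans hu
  have hm : 0 ≤ m := (norm_nonneg M).trans hM
  have h1 : ‖(l : ℂ) * u * M‖ ≤ |l| * r * m := by
    rw [norm_mul, norm_mul, Complex.norm_real, Real.norm_eq_abs]
    gcongr
  have h2 : ‖(l : ℂ) ^ 2 * w * conj M‖ ≤ |l| * (1 / 2) * r * m := by
    rw [norm_mul, norm_mul, norm_pow, Complex.norm_real, Complex.norm_real, Real.norm_eq_abs, Real.norm_eq_abs,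
      Complex.norm_conj, abs_of_nonneg hw0, sq]
    gcongr
  unfold BB
  refine (norm_add_le _ _).trans ?_
  linarith

theorem rt_le {l : ℝ} (hl : l ^ 2 ≤ 1 / 4) {μ : ℂ} (hμ : ‖μ‖ < 1) (A M : ℂ) {n : ℕ} (hn : 1 ≤ n) :
    ‖rt l μ A M n‖ ≤ 2 * |l| * ‖μ‖ ^ n * ‖A‖ * ‖M‖ := by
  have hl2 : |l| ≤ 1 / 2 := by
    rw [← sq_abs] at hl
    nlinarith [abs_nonneg l]
  rw [rt_eq l μ A M n hn hl hμ.le]
  have hw0 : 0 ≤ ‖μ‖ ^ (2 * n) := by positivity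
  have hw1 : ‖μ‖ ^ (2 * n) ≤ 1 := pow_le_one₀ (norm_nonneg _) hμ.le
  have hwr : ‖μ‖ ^ (2 * n) ≤ ‖μ‖ ^ n := pow_le_pow_of_le_one (norm_nonneg _) hμ.le (by omega)
  have hu : ‖μ ^ n‖ ≤ ‖μ‖ ^ n := by rw [norm_pow]
  have hB := BB_le (M := M) hl2 hw0 hwr hu le_rfl
  have ha := al_bd hl hw0 hw1
  have hn' : (1 : ℝ) ≤ n := by exact_mod_cast hn
  rw [norm_div, norm_mul, norm_mul, Complex.norm_real, Real.norm_eq_abs, abs_of_nonneg ha.1, Complex.norm_natCast]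
  rw [div_le_iff₀ (by linarith)]
  have h1 : al l (‖μ‖ ^ (2 * n)) * ‖A‖ * ‖BB l (‖μ‖ ^ (2 * n)) (μ ^ n) M‖ ≤ 1 * ‖A‖ * (3 / 2 * |l| * ‖μ‖ ^ n * ‖M‖) := by
    gcongr
    exact ha.2
  refine h1.trans ?_
  have h2 : 0 ≤ |l| * ‖μ‖ ^ n * ‖A‖ * ‖M‖ := by positivity
  nlinarith

theorem rt_lip : ∃ C : ℝ, 0 < C ∧ ∀ (l μ₀ : ℝ), l ^ 2 ≤ 1 / 4 → 0 ≤ μ₀ → μ₀ < 1 → ∀ μ₁ μ₂ : ℂ, ‖μ₁‖ ≤ μ₀ → ‖μ₂‖ ≤ μ₀ →
    ∀ (a m d : ℝ) (A₁ A₂ M₁ M₂ : ℂ), ‖μ₁ - μ₂‖ ≤ d → ‖A₁‖ ≤ a → ‖A₂‖ ≤ a → ‖M₁‖ ≤ m → ‖M₂‖ ≤ m →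
      ‖A₁ - A₂‖ ≤ a * d → ‖M₁ - M₂‖ ≤ m * d → ∀ n : ℕ, 1 ≤ n →
        ‖rt l μ₁ A₁ M₁ n - rt l μ₂ A₂ M₂ n‖ ≤ C * |l| * μ₀ ^ (n - 1) * a * m * d := by
  refine ⟨12, by norm_num, ?_⟩
  intro l μ₀ hl hμ0 hμ1 μ₁ μ₂ h₁ h₂ a m d A₁ A₂ M₁ M₂ hd hA₁ hA₂ hM₁ hM₂ hA hM n hn
  have hl2 : |l| ≤ 1 / 2 := by
    rw [← sq_abs] at hl
    nlinarith [abs_nonneg l]
  have hd0 : 0 ≤ d := (norm_nonneg _).trans hd
  have ha0 : 0 ≤ a := (norm_nonneg _).trans hA₁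
  have hm0 : 0 ≤ m := (norm_nonneg _).trans hM₁
  have hn' : (1 : ℝ) ≤ n := by exact_mod_cast hn
  rw [rt_eq l μ₁ A₁ M₁ n hn hl (h₁.trans hμ1.le), rt_eq l μ₂ A₂ M₂ n hn hl (h₂.trans hμ1.le)]
  set w₁ := ‖μ₁‖ ^ (2 * n) with hw₁
  set w₂ := ‖μ₂‖ ^ (2 * n) with hw₂
  set q := μ₀ ^ (n - 1) with hq
  have hq0 : 0 ≤ q := by positivity
  have hq1 : q ≤ 1 := pow_le_one₀ hμ0 hμ1.le
  have hpq : μ₀ ^ n ≤ q := pow_le_pow_of_le_one hμ0 hμ1.le (by omega)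
  have hw₁0 : 0 ≤ w₁ := by positivity
  have hw₂0 : 0 ≤ w₂ := by positivity
  have hw₁q : w₁ ≤ q := (pow_le_pow_left₀ (norm_nonneg _) h₁ _).trans (pow_le_pow_of_le_one hμ0 hμ1.le (by omega))
  have hw₂q : w₂ ≤ q := (pow_le_pow_left₀ (norm_nonneg _) h₂ _).trans (pow_le_pow_of_le_one hμ0 hμ1.le (by omega))
  have hu₁ : ‖μ₁ ^ n‖ ≤ q := by rw [norm_pow]; exact (pow_le_pow_left₀ (norm_nonneg _) h₁ _).trans hpq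
  have hu₂ : ‖μ₂ ^ n‖ ≤ q := by rw [norm_pow]; exact (pow_le_pow_left₀ (norm_nonneg _) h₂ _).trans hpq
  have hu : ‖μ₁ ^ n - μ₂ ^ n‖ ≤ n * q * d :=
    (pow_lip μ₁ μ₂ μ₀ h₁ h₂ n).trans (mul_le_mul_of_nonneg_left hd (by positivity))
  have hw : |w₁ - w₂| ≤ 2 * n * q * d := by
    have h := pow_lip (‖μ₁‖ : ℝ) ‖μ₂‖ μ₀ (by simpa using h₁) (by simpa using h₂) (2 * n)
    rw [Real.norm_eq_abs, Real.norm_eq_abs] at h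
    have h3 : |‖μ₁‖ - ‖μ₂‖| ≤ d := (abs_norm_sub_norm_le _ _).trans hd
    have h4 : μ₀ ^ (2 * n - 1) ≤ q := pow_le_pow_of_le_one hμ0 hμ1.le (by omega)
    refine h.trans ?_
    push_cast
    gcongr
  have hal := al_lip hl hw₁0 (hw₁q.trans hq1) hw₂0 (hw₂q.trans hq1)
  have ha₂ := al_bd hl hw₂0 (hw₂q.trans hq1)
  have hB₁ := BB_le hl2 hw₁0 hw₁q hu₁ hM₁
  have hBB : ‖BB l w₁ (μ₁ ^ n) M₁ - BB l w₂ (μ₂ ^ n) M₂‖ ≤ 4 * |l| * n * q * m * d := by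
    have e : BB l w₁ (μ₁ ^ n) M₁ - BB l w₂ (μ₂ ^ n) M₂ = l * (μ₁ ^ n - μ₂ ^ n) * M₁ + l * μ₂ ^ n * (M₁ - M₂) +
        l ^ 2 * ((w₁ - w₂ : ℝ) : ℂ) * conj M₁ + l ^ 2 * w₂ * conj (M₁ - M₂) := by
      unfold BB
      push_cast
      rw [map_sub]
      ring
    rw [e]
    have t1 : ‖(l : ℂ) * (μ₁ ^ n - μ₂ ^ n) * M₁‖ ≤ |l| * (n * q * d) * m := by
      rw [norm_mul, norm_mul, Complex.norm_real, Real.norm_eq_abs]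
      gcongr
    have t2 : ‖(l : ℂ) * μ₂ ^ n * (M₁ - M₂)‖ ≤ |l| * q * (m * d) := by
      rw [norm_mul, norm_mul, Complex.norm_real, Real.norm_eq_abs]
      gcongr
    have t3 : ‖(l : ℂ) ^ 2 * ((w₁ - w₂ : ℝ) : ℂ) * conj M₁‖ ≤ |l| * (1 / 2) * (2 * n * q * d) * m := by
      rw [norm_mul, norm_mul, norm_pow, Complex.norm_real, Complex.norm_real, Real.norm_eq_abs, Real.norm_eq_abs,
        Complex.norm_conj, sq]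
      gcongr
    have t4 : ‖(l : ℂ) ^ 2 * w₂ * conj (M₁ - M₂)‖ ≤ |l| * (1 / 2) * q * (m * d) := by
      rw [norm_mul, norm_mul, norm_pow, Complex.norm_real, Complex.norm_real, Real.norm_eq_abs, Real.norm_eq_abs,
        Complex.norm_conj, sq, abs_of_nonneg hw₂0]
      gcongr
    refine (norm_add_le _ _).trans ((add_le_add ((norm_add_le _ _).trans (add_le_add ((norm_add_le _ _).trans (add_le_add t1 t2)) t3)) t4).trans ?_)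
    have h0 : 0 ≤ |l| * q * m * d := by positivity
    nlinarith [mul_le_mul_of_nonneg_right hn' h0]
  have hnc : (n : ℂ) ≠ 0 := by exact_mod_cast (by omega : n ≠ 0)
  rw [← sub_div, norm_div, Complex.norm_natCast, div_le_iff₀ (by linarith)]
  have e : ((al l w₁ : ℝ) : ℂ) * A₁ * BB l w₁ (μ₁ ^ n) M₁ - ((al l w₂ : ℝ) : ℂ) * A₂ * BB l w₂ (μ₂ ^ n) M₂ =
      ((al l w₁ - al l w₂ : ℝ) : ℂ) * A₁ * BB l w₁ (μ₁ ^ n) M₁ + ((al l w₂ : ℝ) : ℂ) * (A₁ - A₂) * BB l w₁ (μ₁ ^ n) M₁ +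
        ((al l w₂ : ℝ) : ℂ) * A₂ * (BB l w₁ (μ₁ ^ n) M₁ - BB l w₂ (μ₂ ^ n) M₂) := by
    push_cast
    ring
  rw [e]
  have s1 : ‖((al l w₁ - al l w₂ : ℝ) : ℂ) * A₁ * BB l w₁ (μ₁ ^ n) M₁‖ ≤ (2 * (2 * n * q * d)) * a * (3 / 2 * |l| * 1 * m) := by
    rw [norm_mul, norm_mul, Complex.norm_real, Real.norm_eq_abs]
    have h5 : ‖BB l w₁ (μ₁ ^ n) M₁‖ ≤ 3 / 2 * |l| * 1 * m := hB₁.trans (by gcongr)
    have h6 : |al l w₁ - al l w₂| ≤ 2 * (2 * n * q * d) := hal.trans (by gcongr)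
    gcongr
  have s2 : ‖((al l w₂ : ℝ) : ℂ) * (A₁ - A₂) * BB l w₁ (μ₁ ^ n) M₁‖ ≤ 1 * (a * d) * (3 / 2 * |l| * q * m) := by
    rw [norm_mul, norm_mul, Complex.norm_real, Real.norm_eq_abs, abs_of_nonneg ha₂.1]
    have := ha₂.2
    gcongr
  have s3 : ‖((al l w₂ : ℝ) : ℂ) * A₂ * (BB l w₁ (μ₁ ^ n) M₁ - BB l w₂ (μ₂ ^ n) M₂)‖ ≤ 1 * a * (4 * |l| * n * q * m * d) := by
    rw [norm_mul, norm_mul, Complex.norm_real, Real.norm_eq_abs, abs_of_nonneg ha₂.1]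
    have := ha₂.2
    gcongr
  refine (norm_add_le _ _).trans ((add_le_add ((norm_add_le _ _).trans (add_le_add s1 s2)) s3).trans ?_)
  have h0 : 0 ≤ |l| * q * a * m * d := by positivity
  nlinarith [mul_le_mul_of_nonneg_right hn' h0]

end EW1
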