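import Pool.Agent.H1.EW.Fb
import Pool.Agent.H1.EW.Fd

/-!
ROW EW/Fe. Bounds of the error form. Sum `rt_le`, `rt_lip` with `fc_le`, `fc_lip`: the terms are at most `C |l| SA SM (μ₀ ρ⁻²)^n`, geometric (`μ₀ < ρ²`). In `RR_lip` apply `rt_lip` with `a = C SA ρ⁻¹^n`, `m = C SM ρ⁻¹^n`, `d = C' dd` (enlarge the constants
so that `‖A₁ - A₂‖ ≤ a d`).
-/

set_option autoImplicit false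

namespace EW1

open Complex Set Filter Topology MeasureTheory
open scoped ComplexConjugate ContDiff Real

private theorem rt_geo {μ₀ ρ : ℝ} (h0 : 0 ≤ μ₀) (h1 : μ₀ < ρ ^ 2) (hρ : 0 < ρ) (hρ1 : ρ < 1) {l : ℝ}
    (hl : l ^ 2 ≤ 1 / 4) {μ : ℂ} (hμ : ‖μ‖ ≤ μ₀) {a m : ℝ} (A M : ℕ → ℂ)
    (hA : ∀ n : ℕ, ‖A n‖ ≤ a * ρ⁻¹ ^ n) (hM : ∀ n : ℕ, ‖M n‖ ≤ m * ρ⁻¹ ^ n) (n : ℕ) :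
    ‖rt l μ (A (n + 1)) (M (n + 1)) (n + 1)‖ ≤
      (2 * |l| * a * m * (μ₀ * ρ⁻¹ ^ 2)) * (μ₀ * ρ⁻¹ ^ 2) ^ n := by
  have hμ1 : ‖μ‖ < 1 := by
    have : ρ ^ 2 < 1 := by nlinarith
    linarith
  have e1 := rt_le hl hμ1 (A (n + 1)) (M (n + 1)) (n := n + 1) (by omega)
  have hA' := hA (n + 1)
  have hM' := hM (n + 1)
  have hμn : ‖μ‖ ^ (n + 1) ≤ μ₀ ^ (n + 1) := pow_le_pow_left₀ (norm_nonneg _) hμ _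
  have hl0 : 0 ≤ 2 * |l| := by positivity
  calc ‖rt l μ (A (n + 1)) (M (n + 1)) (n + 1)‖
      ≤ 2 * |l| * ‖μ‖ ^ (n + 1) * ‖A (n + 1)‖ * ‖M (n + 1)‖ := e1
    _ ≤ 2 * |l| * μ₀ ^ (n + 1) * (a * ρ⁻¹ ^ (n + 1)) * (m * ρ⁻¹ ^ (n + 1)) := by
        gcongr
        exact mul_nonneg (by positivity) (le_trans (norm_nonneg _) hA')
    _ = (2 * |l| * a * m * (μ₀ * ρ⁻¹ ^ 2)) * (μ₀ * ρ⁻¹ ^ 2) ^ n := by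
        rw [mul_pow, ← pow_mul, mul_comm 2 n, pow_mul]
        ring

private theorem q_lt {μ₀ ρ : ℝ} (h0 : 0 ≤ μ₀) (h1 : μ₀ < ρ ^ 2) (hρ : 0 < ρ) :
    0 ≤ μ₀ * ρ⁻¹ ^ 2 ∧ μ₀ * ρ⁻¹ ^ 2 < 1 := by
  refine ⟨by positivity, ?_⟩
  rw [inv_pow, ← div_eq_mul_inv, div_lt_one (by positivity)]
  exact h1

private theorem rt_sum {μ₀ ρ : ℝ} (h0 : 0 ≤ μ₀) (h1 : μ₀ < ρ ^ 2) (hρ : 0 < ρ) (hρ1 : ρ < 1) {l : ℝ}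
    (hl : l ^ 2 ≤ 1 / 4) {μ : ℂ} (hμ : ‖μ‖ ≤ μ₀) {a m : ℝ} (A M : ℕ → ℂ)
    (hA : ∀ n : ℕ, ‖A n‖ ≤ a * ρ⁻¹ ^ n) (hM : ∀ n : ℕ, ‖M n‖ ≤ m * ρ⁻¹ ^ n) :
    Summable (fun n : ℕ => rt l μ (A (n + 1)) (M (n + 1)) (n + 1)) ∧
    ‖∑' n : ℕ, rt l μ (A (n + 1)) (M (n + 1)) (n + 1)‖ ≤
      (2 * |l| * a * m * (μ₀ * ρ⁻¹ ^ 2)) * (1 - μ₀ * ρ⁻¹ ^ 2)⁻¹ := by
  obtain ⟨hq0, hq1⟩ := q_lt h0 h1 hρ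
  have hs : HasSum (fun n : ℕ => (2 * |l| * a * m * (μ₀ * ρ⁻¹ ^ 2)) * (μ₀ * ρ⁻¹ ^ 2) ^ n)
      ((2 * |l| * a * m * (μ₀ * ρ⁻¹ ^ 2)) * (1 - μ₀ * ρ⁻¹ ^ 2)⁻¹) :=
    (hasSum_geometric_of_lt_one hq0 hq1).mul_left _
  have hb := rt_geo h0 h1 hρ hρ1 hl hμ A M hA hM
  exact ⟨Summable.of_norm_bounded hs.summable hb, tsum_of_norm_bounded hs hb⟩

theorem RR_le {r₀ R μ₀ ρ σ : ℝ} (hr₀ : 0 < r₀) (h0 : 0 ≤ μ₀) (h1 : μ₀ < ρ ^ 2) (hρ : 0 < ρ) (hρ1 : ρ < 1)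
    (hσ : (ρ ^ 2 + μ₀) / (ρ * (1 + μ₀)) < σ) : ∃ C : ℝ, 0 < C ∧
    ∀ (c : ℂ) (r : ℝ) (μ : ℂ), PS r₀ R μ₀ c r μ → ∀ l : ℝ, l ^ 2 ≤ 1 / 4 → ∀ (A M : ℂ → ℂ) (SA SM : ℝ),
      (∀ z ∈ Dp c r μ σ, ‖A z‖ ≤ SA) → (∀ z ∈ Dp c r μ σ, ‖M z‖ ≤ SM) →
      Summable (fun n : ℕ => rt l μ (fc c r μ A ρ (n + 1)) (fc c r μ M ρ (n + 1)) (n + 1)) ∧
      ‖RR c r μ l A M ρ‖ ≤ C * |l| * SA * SM := by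
  obtain ⟨Cf, hCf, hfc⟩ := fc_le (r₀ := r₀) (R := R) hr₀ h0 h1 hρ hρ1 hσ
  obtain ⟨hq0, hq1⟩ := q_lt h0 h1 hρ
  have hqi : 0 < (1 - μ₀ * ρ⁻¹ ^ 2)⁻¹ := inv_pos.2 (by linarith)
  refine ⟨π * (2 * Cf ^ 2 * (μ₀ * ρ⁻¹ ^ 2)) * (1 - μ₀ * ρ⁻¹ ^ 2)⁻¹ + 1, by positivity, ?_⟩
  intro c r μ hPS l hl A M SA SM hA hM
  have hfA := hfc c r μ hPS A SA hA
  have hfM := hfc c r μ hPS M SM hM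
  have hSA : 0 ≤ SA := by
    have h2 := le_trans (norm_nonneg _) (hfA 0)
    rw [pow_zero, mul_one] at h2
    exact nonneg_of_mul_nonneg_right h2 hCf
  have hSM : 0 ≤ SM := by
    have h2 := le_trans (norm_nonneg _) (hfM 0)
    rw [pow_zero, mul_one] at h2
    exact nonneg_of_mul_nonneg_right h2 hCf
  obtain ⟨hs, hb⟩ := rt_sum h0 h1 hρ hρ1 hl hPS.2.2.2 (fc c r μ A ρ) (fc c r μ M ρ) hfA hfM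
  refine ⟨hs, ?_⟩
  unfold RR
  rw [norm_mul, Complex.norm_real, Real.norm_of_nonneg Real.pi_pos.le]
  calc π * ‖∑' n : ℕ, rt l μ (fc c r μ A ρ (n + 1)) (fc c r μ M ρ (n + 1)) (n + 1)‖
      ≤ π * ((2 * |l| * (Cf * SA) * (Cf * SM) * (μ₀ * ρ⁻¹ ^ 2)) * (1 - μ₀ * ρ⁻¹ ^ 2)⁻¹) :=
        mul_le_mul_of_nonneg_left hb Real.pi_pos.le
    _ = (π * (2 * Cf ^ 2 * (μ₀ * ρ⁻¹ ^ 2)) * (1 - μ₀ * ρ⁻¹ ^ 2)⁻¹) * |l| * SA * SM := by ring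
    _ ≤ (π * (2 * Cf ^ 2 * (μ₀ * ρ⁻¹ ^ 2)) * (1 - μ₀ * ρ⁻¹ ^ 2)⁻¹ + 1) * |l| * SA * SM := by
        gcongr
        linarith

theorem RR_lip {r₀ R μ₀ ρ σ : ℝ} (hr₀ : 0 < r₀) (hR : r₀ ≤ R) (h0 : 0 ≤ μ₀) (h1 : μ₀ < ρ ^ 2) (hρ : 0 < ρ) (hρ1 : ρ < 1)
    (hσ : (ρ ^ 2 + μ₀) / (ρ * (1 + μ₀)) < σ) : ∃ C δ₁ : ℝ, 0 < C ∧ 0 < δ₁ ∧
    ∀ (c₁ : ℂ) (r₁ : ℝ) (μ₁ c₂ : ℂ) (r₂ : ℝ) (μ₂ : ℂ), PS r₀ R μ₀ c₁ r₁ μ₁ → PS r₀ R μ₀ c₂ r₂ μ₂ →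
      dd c₁ r₁ μ₁ c₂ r₂ μ₂ ≤ δ₁ → ∀ l : ℝ, l ^ 2 ≤ 1 / 4 → ∀ (A M : ℂ → ℂ) (SA SM : ℝ),
      DifferentiableOn ℂ A (Dp c₁ r₁ μ₁ σ) → DifferentiableOn ℂ M (Dp c₁ r₁ μ₁ σ) →
      (∀ z ∈ Dp c₁ r₁ μ₁ σ, ‖A z‖ ≤ SA) → (∀ z ∈ Dp c₁ r₁ μ₁ σ, ‖M z‖ ≤ SM) →
      ‖RR c₁ r₁ μ₁ l A M ρ - RR c₂ r₂ μ₂ l A M ρ‖ ≤ C * |l| * SA * SM * dd c₁ r₁ μ₁ c₂ r₂ μ₂ := by
  obtain ⟨Cg, δ₁, hCg, hδ₁, hfc⟩ := fc_lip (r₀ := r₀) (R := R) hr₀ hR h0 h1 hρ hρ1 hσ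
  obtain ⟨Cr, hCr, hrt⟩ := rt_lip
  obtain ⟨hq0, hq1⟩ := q_lt h0 h1 hρ
  have hqi : 0 < (1 - μ₀ * ρ⁻¹ ^ 2)⁻¹ := inv_pos.2 (by linarith)
  have hμ01 : μ₀ < 1 := by
    have : ρ ^ 2 < 1 := by nlinarith
    linarith
  refine ⟨π * (Cr * Cg ^ 2 * ρ⁻¹ ^ 2) * (1 - μ₀ * ρ⁻¹ ^ 2)⁻¹, δ₁, by positivity, hδ₁, ?_⟩
  intro c₁ r₁ μ₁ c₂ r₂ μ₂ hP1 hP2 hdd l hl A M SA SM hdA hdM hA hM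
  have hfA := hfc c₁ r₁ μ₁ c₂ r₂ μ₂ hP1 hP2 hdd A SA hdA hA
  have hfM := hfc c₁ r₁ μ₁ c₂ r₂ μ₂ hP1 hP2 hdd M SM hdM hM
  obtain ⟨hs1, -⟩ := rt_sum h0 h1 hρ hρ1 hl hP1.2.2.2 (fc c₁ r₁ μ₁ A ρ) (fc c₁ r₁ μ₁ M ρ)
    (fun n => (hfA n).1) (fun n => (hfM n).1)
  obtain ⟨hs2, -⟩ := rt_sum h0 h1 hρ hρ1 hl hP2.2.2.2 (fc c₂ r₂ μ₂ A ρ) (fc c₂ r₂ μ₂ M ρ)
    (fun n => (hfA n).2.1) (fun n => (hfM n).2.1)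
  have hμd : ‖μ₁ - μ₂‖ ≤ dd c₁ r₁ μ₁ c₂ r₂ μ₂ := by
    unfold dd
    have h2 := norm_nonneg (c₁ - c₂)
    have h3 := abs_nonneg (r₁ - r₂)
    linarith
  obtain ⟨d, hd⟩ : ∃ d : ℝ, d = dd c₁ r₁ μ₁ c₂ r₂ μ₂ := ⟨_, rfl⟩
  rw [← hd] at hμd hfA hfM ⊢
  have hb : ∀ n : ℕ, ‖rt l μ₁ (fc c₁ r₁ μ₁ A ρ (n + 1)) (fc c₁ r₁ μ₁ M ρ (n + 1)) (n + 1) -
      rt l μ₂ (fc c₂ r₂ μ₂ A ρ (n + 1)) (fc c₂ r₂ μ₂ M ρ (n + 1)) (n + 1)‖ ≤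
      (Cr * |l| * (Cg * SA) * (Cg * SM) * d * ρ⁻¹ ^ 2) * (μ₀ * ρ⁻¹ ^ 2) ^ n := by
    intro n
    have hA1 := hfA (n + 1)
    have hM1 := hfM (n + 1)
    have key := hrt l μ₀ hl h0 hμ01 μ₁ μ₂ hP1.2.2.2 hP2.2.2.2 (Cg * SA * ρ⁻¹ ^ (n + 1))
      (Cg * SM * ρ⁻¹ ^ (n + 1)) d (fc c₁ r₁ μ₁ A ρ (n + 1)) (fc c₂ r₂ μ₂ A ρ (n + 1))
      (fc c₁ r₁ μ₁ M ρ (n + 1)) (fc c₂ r₂ μ₂ M ρ (n + 1)) hμd hA1.1 hA1.2.1 hM1.1 hM1.2.1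
      (hA1.2.2.trans (le_of_eq (by ring))) (hM1.2.2.trans (le_of_eq (by ring))) (n + 1) (by omega)
    refine key.trans (le_of_eq ?_)
    rw [Nat.add_sub_cancel, mul_pow, ← pow_mul, mul_comm 2 n, pow_mul]
    ring
  have hs : HasSum (fun n : ℕ => (Cr * |l| * (Cg * SA) * (Cg * SM) * d * ρ⁻¹ ^ 2) *
      (μ₀ * ρ⁻¹ ^ 2) ^ n)
      ((Cr * |l| * (Cg * SA) * (Cg * SM) * d * ρ⁻¹ ^ 2) * (1 - μ₀ * ρ⁻¹ ^ 2)⁻¹) :=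
    (hasSum_geometric_of_lt_one hq0 hq1).mul_left _
  have hT := tsum_of_norm_bounded hs hb
  rw [hs1.tsum_sub hs2] at hT
  unfold RR
  rw [← mul_sub, norm_mul, Complex.norm_real, Real.norm_of_nonneg Real.pi_pos.le]
  calc π * ‖(∑' n : ℕ, rt l μ₁ (fc c₁ r₁ μ₁ A ρ (n + 1)) (fc c₁ r₁ μ₁ M ρ (n + 1)) (n + 1)) -
        ∑' n : ℕ, rt l μ₂ (fc c₂ r₂ μ₂ A ρ (n + 1)) (fc c₂ r₂ μ₂ M ρ (n + 1)) (n + 1)‖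
      ≤ π * ((Cr * |l| * (Cg * SA) * (Cg * SM) * d * ρ⁻¹ ^ 2) * (1 - μ₀ * ρ⁻¹ ^ 2)⁻¹) :=
        mul_le_mul_of_nonneg_left hT Real.pi_pos.le
    _ = (π * (Cr * Cg ^ 2 * ρ⁻¹ ^ 2) * (1 - μ₀ * ρ⁻¹ ^ 2)⁻¹) * |l| * SA * SM * d := by ring

end EW1
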