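import Pool.Agent.H1.EW.D0

/-!
ROW EW/Gc. Lipschitz bounds of the coefficients, in both directions, uniform on the parameter set (`0 < r₀`, `0 ≤ μ₀ < 1`).
* `coef_le`: `nu`, `gg`, `hh` are Lipschitz on the parameter set (products and quotients of bounded Lipschitz functions; `kap`: denominators `≥ 1`).
* `dd_le`: the inverse. `nu`: `μ = 2 ν/(1 + √(1 - 4 ‖ν‖²))` with `ν = nu μ`, `‖ν‖ ≤ μ₀/(1+μ₀²) < 1/2`; or directly: `‖nu μ₁ - nu μ₂‖ ≥ c ‖μ₁ - μ₂‖` because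
  `(1+‖μ₁‖²)(1+‖μ₂‖²)(nu μ₁ - nu μ₂) = μ₁ - μ₂ + μ₁ ‖μ₂‖² - μ₂ ‖μ₁‖² = (μ₁ - μ₂) - μ₁ μ₂ conj (μ₁ - μ₂)` so it is at least `(1 - μ₀²) ‖μ₁ - μ₂‖`.
  `gg c μ = conj c - 2 conj (nu μ) c`: `‖Δc‖ (1 - 2‖ν‖) ≤ ‖Δg‖ + 2 ‖Δν‖ ‖c‖`. `kap r μ = ‖c‖² - 2 Re (..) - hh`: `|Δkap| ≤ |Δh| + C (‖Δc‖ + ‖Δν‖)`, and `kap r₁ μ₁ - kap r₂ μ₁ = (r₁² - r₂²) (..)`,
  `|r₁² - r₂²| ≥ 2 r₀ |r₁ - r₂|`.
-/

set_option autoImplicit false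

namespace EW1

open Complex Set Filter Topology MeasureTheory
open scoped ComplexConjugate ContDiff Real

lemma gc_id (a b : ℂ) : ((1 + ‖a‖ ^ 2 : ℝ) : ℂ) * ((1 + ‖b‖ ^ 2 : ℝ) : ℂ) * (nu a - nu b) =
    (a - b) - a * b * conj (a - b) := by
  have ha : ((1 + ‖a‖ ^ 2 : ℝ) : ℂ) ≠ 0 := by
    have : (0 : ℝ) < 1 + ‖a‖ ^ 2 := by positivity
    exact_mod_cast this.ne'
  have hb : ((1 + ‖b‖ ^ 2 : ℝ) : ℂ) ≠ 0 := by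
    have : (0 : ℝ) < 1 + ‖b‖ ^ 2 := by positivity
    exact_mod_cast this.ne'
  have h1 : ((1 + ‖a‖ ^ 2 : ℝ) : ℂ) = 1 + a * conj a := by
    push_cast; rw [Complex.mul_conj, Complex.normSq_eq_norm_sq]; push_cast; ring
  have h2 : ((1 + ‖b‖ ^ 2 : ℝ) : ℂ) = 1 + b * conj b := by
    push_cast; rw [Complex.mul_conj, Complex.normSq_eq_norm_sq]; push_cast; ring
  unfold nu
  have h3 : ((1 + ‖a‖ ^ 2 : ℝ) : ℂ) * ((1 + ‖b‖ ^ 2 : ℝ) : ℂ) *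
      (a / ((1 + ‖a‖ ^ 2 : ℝ) : ℂ) - b / ((1 + ‖b‖ ^ 2 : ℝ) : ℂ)) =
      a * ((1 + ‖b‖ ^ 2 : ℝ) : ℂ) - b * ((1 + ‖a‖ ^ 2 : ℝ) : ℂ) := by
    field_simp
  rw [h3, h1, h2, map_sub]
  ring

lemma gc_nu_le {μ₀ : ℝ} (_h0 : 0 ≤ μ₀) (h1 : μ₀ < 1) {a b : ℂ} (ha : ‖a‖ ≤ μ₀) (hb : ‖b‖ ≤ μ₀) :
    ‖nu a - nu b‖ ≤ 2 * ‖a - b‖ := by
  have h := congrArg norm (gc_id a b)
  rw [norm_mul, norm_mul, Complex.norm_real, Complex.norm_real] at h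
  rw [Real.norm_of_nonneg (by positivity), Real.norm_of_nonneg (by positivity)] at h
  have h2 : ‖(a - b) - a * b * conj (a - b)‖ ≤ ‖a - b‖ + ‖a‖ * ‖b‖ * ‖a - b‖ := by
    refine (norm_sub_le _ _).trans ?_
    rw [norm_mul, norm_mul, RCLike.norm_conj]
  have h3 : ‖a‖ * ‖b‖ ≤ 1 := by nlinarith [norm_nonneg a, norm_nonneg b]
  have h4 : 1 ≤ (1 + ‖a‖ ^ 2) * (1 + ‖b‖ ^ 2) := by nlinarith [sq_nonneg ‖a‖, sq_nonneg ‖b‖, mul_nonneg (sq_nonneg ‖a‖) (sq_nonneg ‖b‖)]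
  have h5 : ‖nu a - nu b‖ ≤ (1 + ‖a‖ ^ 2) * (1 + ‖b‖ ^ 2) * ‖nu a - nu b‖ :=
    le_mul_of_one_le_left (norm_nonneg _) h4
  have h6 : ‖a‖ * ‖b‖ * ‖a - b‖ ≤ 1 * ‖a - b‖ := mul_le_mul_of_nonneg_right h3 (norm_nonneg _)
  linarith

lemma gc_nu_ge {μ₀ : ℝ} (h0 : 0 ≤ μ₀) (h1 : μ₀ < 1) {a b : ℂ} (ha : ‖a‖ ≤ μ₀) (hb : ‖b‖ ≤ μ₀) :
    (1 - μ₀ ^ 2) * ‖a - b‖ ≤ 4 * ‖nu a - nu b‖ := by
  have h := congrArg norm (gc_id a b)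
  rw [norm_mul, norm_mul, Complex.norm_real, Complex.norm_real] at h
  rw [Real.norm_of_nonneg (by positivity), Real.norm_of_nonneg (by positivity)] at h
  have h2 : ‖a - b‖ - ‖a‖ * ‖b‖ * ‖a - b‖ ≤ ‖(a - b) - a * b * conj (a - b)‖ := by
    have := norm_sub_norm_le (a - b) (a * b * conj (a - b))
    rw [norm_mul, norm_mul, RCLike.norm_conj] at this
    exact this
  have h3 : ‖a‖ * ‖b‖ ≤ μ₀ ^ 2 := by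
    rw [sq]; exact mul_le_mul ha hb (norm_nonneg _) h0
  have h7 : ‖a‖ ^ 2 ≤ 1 := by nlinarith [norm_nonneg a]
  have h8 : ‖b‖ ^ 2 ≤ 1 := by nlinarith [norm_nonneg b]
  have h4 : (1 + ‖a‖ ^ 2) * (1 + ‖b‖ ^ 2) ≤ 4 := by nlinarith [sq_nonneg ‖a‖, sq_nonneg ‖b‖]
  have h5 : (1 + ‖a‖ ^ 2) * (1 + ‖b‖ ^ 2) * ‖nu a - nu b‖ ≤ 4 * ‖nu a - nu b‖ :=
    mul_le_mul_of_nonneg_right h4 (norm_nonneg _)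
  have h6 : ‖a‖ * ‖b‖ * ‖a - b‖ ≤ μ₀ ^ 2 * ‖a - b‖ := mul_le_mul_of_nonneg_right h3 (norm_nonneg _)
  linarith

lemma gc_nu_norm {μ₀ : ℝ} (_h0 : 0 ≤ μ₀) (h1 : μ₀ < 1) {a : ℂ} (ha : ‖a‖ ≤ μ₀) :
    ‖nu a‖ ≤ 1 ∧ (1 - μ₀) ^ 2 / 2 ≤ 1 - 2 * ‖nu a‖ := by
  have hn : ‖nu a‖ = ‖a‖ / (1 + ‖a‖ ^ 2) := by
    unfold nu
    rw [norm_div, Complex.norm_real, Real.norm_of_nonneg (by positivity)]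
  have hp : (0 : ℝ) < 1 + ‖a‖ ^ 2 := by positivity
  rw [hn]
  constructor
  · rw [div_le_one hp]; nlinarith [norm_nonneg a]
  · have h2 : 1 - 2 * (‖a‖ / (1 + ‖a‖ ^ 2)) = (1 - ‖a‖) ^ 2 / (1 + ‖a‖ ^ 2) := by
      field_simp; ring
    rw [h2, div_le_div_iff₀ two_pos hp]
    have h3 : (1 - μ₀) ^ 2 ≤ (1 - ‖a‖) ^ 2 := by
      apply pow_le_pow_left₀ (by linarith) (by linarith)
    have h4 : 1 + ‖a‖ ^ 2 ≤ 2 := by nlinarith [norm_nonneg a]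
    exact mul_le_mul h3 h4 hp.le (sq_nonneg _)

/-- `K = kap / r²` -/
lemma gc_K {a b : ℂ} (ha : ‖a‖ ≤ 1) (hb : ‖b‖ ≤ 1) :
    |(1 - ‖a‖ ^ 2) ^ 2 / (1 + ‖a‖ ^ 2) - (1 - ‖b‖ ^ 2) ^ 2 / (1 + ‖b‖ ^ 2)| ≤ 6 * ‖a - b‖ := by
  have hpa : (0 : ℝ) < 1 + ‖a‖ ^ 2 := by positivity
  have hpb : (0 : ℝ) < 1 + ‖b‖ ^ 2 := by positivity
  have h1 : (1 - ‖a‖ ^ 2) ^ 2 / (1 + ‖a‖ ^ 2) - (1 - ‖b‖ ^ 2) ^ 2 / (1 + ‖b‖ ^ 2) =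
      (‖a‖ - ‖b‖) * ((‖a‖ + ‖b‖) * (1 - 4 / ((1 + ‖a‖ ^ 2) * (1 + ‖b‖ ^ 2)))) := by
    field_simp; ring
  rw [h1, abs_mul, abs_mul]
  have h2 : |‖a‖ - ‖b‖| ≤ ‖a - b‖ := abs_norm_sub_norm_le a b
  have h3 : |‖a‖ + ‖b‖| ≤ 2 := by
    rw [abs_of_nonneg (by positivity)]; linarith
  have h4 : |1 - 4 / ((1 + ‖a‖ ^ 2) * (1 + ‖b‖ ^ 2))| ≤ 3 := by
    have h5 : 1 ≤ (1 + ‖a‖ ^ 2) * (1 + ‖b‖ ^ 2) := by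
      nlinarith [sq_nonneg ‖a‖, sq_nonneg ‖b‖, mul_nonneg (sq_nonneg ‖a‖) (sq_nonneg ‖b‖)]
    have h6 : 4 / ((1 + ‖a‖ ^ 2) * (1 + ‖b‖ ^ 2)) ≤ 4 := by
      rw [div_le_iff₀ (by positivity)]; linarith
    have h7 : 0 ≤ 4 / ((1 + ‖a‖ ^ 2) * (1 + ‖b‖ ^ 2)) := by positivity
    rw [abs_le]; constructor <;> linarith
  calc |‖a‖ - ‖b‖| * (|‖a‖ + ‖b‖| * |1 - 4 / ((1 + ‖a‖ ^ 2) * (1 + ‖b‖ ^ 2))|)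
      ≤ ‖a - b‖ * (2 * 3) := by
        apply mul_le_mul h2 _ (by positivity) (norm_nonneg _)
        exact mul_le_mul h3 h4 (abs_nonneg _) (by norm_num)
    _ = 6 * ‖a - b‖ := by ring

lemma gc_kap {R : ℝ} {a b : ℂ} {r s : ℝ} (ha : ‖a‖ ≤ 1) (hb : ‖b‖ ≤ 1) (hs0 : 0 ≤ s) (hs : s ≤ R) :
    |(kap r a - kap s b) - (r ^ 2 - s ^ 2) * ((1 - ‖a‖ ^ 2) ^ 2 / (1 + ‖a‖ ^ 2))| ≤
      6 * R ^ 2 * ‖a - b‖ := by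
  have h1 : (kap r a - kap s b) - (r ^ 2 - s ^ 2) * ((1 - ‖a‖ ^ 2) ^ 2 / (1 + ‖a‖ ^ 2)) =
      s ^ 2 * ((1 - ‖a‖ ^ 2) ^ 2 / (1 + ‖a‖ ^ 2) - (1 - ‖b‖ ^ 2) ^ 2 / (1 + ‖b‖ ^ 2)) := by
    unfold kap; ring
  rw [h1, abs_mul, abs_of_nonneg (sq_nonneg s)]
  have h2 := gc_K ha hb
  have h3 : s ^ 2 ≤ R ^ 2 := pow_le_pow_left₀ hs0 hs 2
  calc s ^ 2 * _ ≤ R ^ 2 * (6 * ‖a - b‖) := mul_le_mul h3 h2 (abs_nonneg _) (sq_nonneg _)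
    _ = 6 * R ^ 2 * ‖a - b‖ := by ring

lemma gc_gg {R : ℝ} {c d a b : ℂ} (hc : ‖c‖ ≤ R) :
    ‖(gg c a - gg d b) - conj (c - d)‖ ≤ 2 * R * ‖nu a - nu b‖ + 2 * ‖nu b‖ * ‖c - d‖ := by
  have h1 : (gg c a - gg d b) - conj (c - d) =
      -(2 * (conj (nu a - nu b) * c)) - 2 * (conj (nu b) * (c - d)) := by
    unfold gg
    simp only [map_sub]
    ring
  rw [h1]
  refine (norm_sub_le _ _).trans ?_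
  rw [norm_neg, norm_mul, norm_mul, norm_mul, norm_mul, RCLike.norm_conj, RCLike.norm_conj]
  simp only [Complex.norm_ofNat]
  have := mul_le_mul_of_nonneg_left hc (norm_nonneg (nu a - nu b))
  nlinarith

lemma gc_hh {R : ℝ} {c d a b : ℂ} {r s : ℝ} (hc : ‖c‖ ≤ R) (hd : ‖d‖ ≤ R) (hb : ‖nu b‖ ≤ 1) :
    |(hh c r a - hh d s b) + (kap r a - kap s b)| ≤ 6 * R * ‖c - d‖ + 2 * R ^ 2 * ‖nu a - nu b‖ := by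
  have hR : 0 ≤ R := (norm_nonneg c).trans hc
  have h1 : (hh c r a - hh d s b) + (kap r a - kap s b) =
      (‖c‖ - ‖d‖) * (‖c‖ + ‖d‖) -
        2 * (conj (nu a - nu b) * c ^ 2 + conj (nu b) * ((c - d) * (c + d))).re := by
    have h2 : conj (nu a - nu b) * c ^ 2 + conj (nu b) * ((c - d) * (c + d)) =
        conj (nu a) * c ^ 2 - conj (nu b) * d ^ 2 := by
      simp only [map_sub]; ring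
    rw [h2, Complex.sub_re]
    unfold hh
    ring
  rw [h1]
  have h3 : |(‖c‖ - ‖d‖) * (‖c‖ + ‖d‖)| ≤ ‖c - d‖ * (2 * R) := by
    rw [abs_mul]
    apply mul_le_mul (abs_norm_sub_norm_le c d) _ (abs_nonneg _) (norm_nonneg _)
    rw [abs_of_nonneg (by positivity)]; linarith
  have h4 : |(conj (nu a - nu b) * c ^ 2 + conj (nu b) * ((c - d) * (c + d))).re| ≤
      ‖nu a - nu b‖ * R ^ 2 + ‖c - d‖ * (2 * R) := by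
    refine (Complex.abs_re_le_norm _).trans ((norm_add_le _ _).trans ?_)
    rw [norm_mul, norm_mul, norm_mul, norm_pow, RCLike.norm_conj, RCLike.norm_conj]
    have h5 : ‖c + d‖ ≤ 2 * R := (norm_add_le _ _).trans (by linarith)
    have h6 : ‖c‖ ^ 2 ≤ R ^ 2 := pow_le_pow_left₀ (norm_nonneg _) hc 2
    have h7 : ‖nu a - nu b‖ * ‖c‖ ^ 2 ≤ ‖nu a - nu b‖ * R ^ 2 :=
      mul_le_mul_of_nonneg_left h6 (norm_nonneg _)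
    have h8 : ‖c - d‖ * ‖c + d‖ ≤ ‖c - d‖ * (2 * R) := mul_le_mul_of_nonneg_left h5 (norm_nonneg _)
    have h9 : ‖nu b‖ * (‖c - d‖ * ‖c + d‖) ≤ 1 * (‖c - d‖ * ‖c + d‖) :=
      mul_le_mul_of_nonneg_right hb (by positivity)
    linarith
  have h10 := abs_sub (((‖c‖ - ‖d‖) * (‖c‖ + ‖d‖)))
    (2 * (conj (nu a - nu b) * c ^ 2 + conj (nu b) * ((c - d) * (c + d))).re)
  rw [abs_mul 2, abs_two] at h10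
  linarith

theorem coef_le {r₀ R μ₀ : ℝ} (hr₀ : 0 < r₀) (hR : r₀ ≤ R) (h0 : 0 ≤ μ₀) (h1 : μ₀ < 1) : ∃ C : ℝ, 0 < C ∧
    ∀ (c₁ : ℂ) (r₁ : ℝ) (μ₁ c₂ : ℂ) (r₂ : ℝ) (μ₂ : ℂ), PS r₀ R μ₀ c₁ r₁ μ₁ → PS r₀ R μ₀ c₂ r₂ μ₂ →
      ‖nu μ₂ - nu μ₁‖ + ‖gg c₂ μ₂ - gg c₁ μ₁‖ + |hh c₂ r₂ μ₂ - hh c₁ r₁ μ₁| ≤ C * dd c₁ r₁ μ₁ c₂ r₂ μ₂ := by
  have hRp : 0 < R := lt_of_lt_of_le hr₀ hR
  refine ⟨5 + 10 * R + 10 * R ^ 2, by positivity, ?_⟩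
  rintro c₁ r₁ μ₁ c₂ r₂ μ₂ ⟨hc1, hr1, hr1', hm1⟩ ⟨hc2, hr2, hr2', hm2⟩
  have e1 := gc_nu_le h0 h1 hm2 hm1
  have e2 := gc_gg (a := μ₂) (b := μ₁) (d := c₁) hc2
  have e3 := gc_hh (a := μ₂) (b := μ₁) (r := r₂) (s := r₁) hc2 hc1 (gc_nu_norm h0 h1 hm1).1
  have e4 := gc_kap (r := r₂) (s := r₁) (hm2.trans h1.le) (hm1.trans h1.le) (by linarith) hr1'
  have e5 : ‖gg c₂ μ₂ - gg c₁ μ₁‖ ≤ ‖c₂ - c₁‖ + ‖(gg c₂ μ₂ - gg c₁ μ₁) - conj (c₂ - c₁)‖ := by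
    have := norm_add_le (conj (c₂ - c₁)) ((gg c₂ μ₂ - gg c₁ μ₁) - conj (c₂ - c₁))
    rw [add_sub_cancel, RCLike.norm_conj] at this
    exact this
  have e6 : |r₂ ^ 2 - r₁ ^ 2| ≤ 2 * R * |r₂ - r₁| := by
    have : r₂ ^ 2 - r₁ ^ 2 = (r₂ + r₁) * (r₂ - r₁) := by ring
    rw [this, abs_mul]
    apply mul_le_mul_of_nonneg_right _ (abs_nonneg _)
    rw [abs_of_nonneg (by linarith)]; linarith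
  set K : ℝ := (1 - ‖μ₂‖ ^ 2) ^ 2 / (1 + ‖μ₂‖ ^ 2) with hK
  have hK1 : K ≤ 1 := by
    rw [hK, div_le_one (by positivity)]
    have : ‖μ₂‖ ^ 2 ≤ 1 := by nlinarith [norm_nonneg μ₂]
    nlinarith [sq_nonneg ‖μ₂‖]
  have hK0 : 0 ≤ K := by positivity
  have e7 : |(r₂ ^ 2 - r₁ ^ 2) * K| ≤ 2 * R * |r₂ - r₁| := by
    rw [abs_mul, abs_of_nonneg hK0]
    calc |r₂ ^ 2 - r₁ ^ 2| * K ≤ |r₂ ^ 2 - r₁ ^ 2| * 1 := mul_le_mul_of_nonneg_left hK1 (abs_nonneg _)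
      _ ≤ _ := by rw [mul_one]; exact e6
  have e8 : |kap r₂ μ₂ - kap r₁ μ₁| ≤ 2 * R * |r₂ - r₁| + 6 * R ^ 2 * ‖μ₂ - μ₁‖ := by
    have := abs_add_le ((kap r₂ μ₂ - kap r₁ μ₁) - (r₂ ^ 2 - r₁ ^ 2) * K) ((r₂ ^ 2 - r₁ ^ 2) * K)
    rw [sub_add_cancel] at this
    linarith
  have e9 : |hh c₂ r₂ μ₂ - hh c₁ r₁ μ₁| ≤ |(hh c₂ r₂ μ₂ - hh c₁ r₁ μ₁) + (kap r₂ μ₂ - kap r₁ μ₁)| +
      |kap r₂ μ₂ - kap r₁ μ₁| := by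
    have := abs_sub ((hh c₂ r₂ μ₂ - hh c₁ r₁ μ₁) + (kap r₂ μ₂ - kap r₁ μ₁)) (kap r₂ μ₂ - kap r₁ μ₁)
    rw [add_sub_cancel_right] at this
    exact this
  have e10 : 2 * ‖nu μ₁‖ * ‖c₂ - c₁‖ ≤ 2 * ‖c₂ - c₁‖ := by
    have := mul_le_mul_of_nonneg_right (gc_nu_norm h0 h1 hm1).1 (norm_nonneg (c₂ - c₁))
    linarith
  unfold dd
  rw [norm_sub_rev c₁ c₂, abs_sub_comm r₁ r₂, norm_sub_rev μ₁ μ₂]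
  have p1 := norm_nonneg (c₂ - c₁)
  have p2 := abs_nonneg (r₂ - r₁)
  have p3 := norm_nonneg (μ₂ - μ₁)
  have p4 := norm_nonneg (nu μ₂ - nu μ₁)
  have q1 : (1 + 2 * R + 2 * R ^ 2) * ‖nu μ₂ - nu μ₁‖ ≤ (1 + 2 * R + 2 * R ^ 2) * (2 * ‖μ₂ - μ₁‖) :=
    mul_le_mul_of_nonneg_left e1 (by positivity)
  have q2 : 0 ≤ R * ‖c₂ - c₁‖ := by positivity
  have q3 : 0 ≤ R * |r₂ - r₁| := by positivity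
  have q4 : 0 ≤ R * ‖μ₂ - μ₁‖ := by positivity
  have q5 : 0 ≤ R ^ 2 * ‖c₂ - c₁‖ := by positivity
  have q6 : 0 ≤ R ^ 2 * |r₂ - r₁| := by positivity
  have q7 : 0 ≤ R ^ 2 * ‖μ₂ - μ₁‖ := by positivity
  nlinarith

theorem dd_le {r₀ R μ₀ : ℝ} (hr₀ : 0 < r₀) (hR : r₀ ≤ R) (h0 : 0 ≤ μ₀) (h1 : μ₀ < 1) : ∃ C : ℝ, 0 < C ∧
    ∀ (c₁ : ℂ) (r₁ : ℝ) (μ₁ c₂ : ℂ) (r₂ : ℝ) (μ₂ : ℂ), PS r₀ R μ₀ c₁ r₁ μ₁ → PS r₀ R μ₀ c₂ r₂ μ₂ →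
      dd c₁ r₁ μ₁ c₂ r₂ μ₂ ≤ C * (‖nu μ₂ - nu μ₁‖ + ‖gg c₂ μ₂ - gg c₁ μ₁‖ + |hh c₂ r₂ μ₂ - hh c₁ r₁ μ₁|) := by
  have hRp : 0 < R := lt_of_lt_of_le hr₀ hR
  have hm : 0 < 1 - μ₀ ^ 2 := by nlinarith
  have hm' : 0 < (1 - μ₀) ^ 2 := by
    have : 0 < 1 - μ₀ := by linarith
    positivity
  set M : ℝ := 4 / (1 - μ₀ ^ 2) with hM
  set P : ℝ := 2 / (1 - μ₀) ^ 2 * (1 + 2 * R) with hP
  set κ : ℝ := (1 - μ₀ ^ 2) ^ 2 / 2 with hκ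
  set Q : ℝ := 1 / (2 * r₀ * κ) * (1 + 6 * R * P + 2 * R ^ 2 + 6 * R ^ 2 * M) with hQ
  have hMp : 0 < M := by positivity
  have hPp : 0 < P := by positivity
  have hκp : 0 < κ := by positivity
  have hQp : 0 < Q := by positivity
  refine ⟨M + P + Q, by positivity, ?_⟩
  rintro c₁ r₁ μ₁ c₂ r₂ μ₂ ⟨hc1, hr1, hr1', hm1⟩ ⟨hc2, hr2, hr2', hm2⟩
  set S : ℝ := ‖nu μ₂ - nu μ₁‖ + ‖gg c₂ μ₂ - gg c₁ μ₁‖ + |hh c₂ r₂ μ₂ - hh c₁ r₁ μ₁| with hS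
  have p1 := norm_nonneg (nu μ₂ - nu μ₁)
  have p2 := norm_nonneg (gg c₂ μ₂ - gg c₁ μ₁)
  have p3 := abs_nonneg (hh c₂ r₂ μ₂ - hh c₁ r₁ μ₁)
  have hSnn : 0 ≤ S := by positivity
  have e1 := gc_nu_ge h0 h1 hm2 hm1
  have e2 := gc_gg (a := μ₂) (b := μ₁) (d := c₁) hc2
  have e3 := gc_hh (a := μ₂) (b := μ₁) (r := r₂) (s := r₁) hc2 hc1 (gc_nu_norm h0 h1 hm1).1
  have e4 := gc_kap (r := r₂) (s := r₁) (hm2.trans h1.le) (hm1.trans h1.le) (by linarith) hr1'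
  -- μ
  have f1 : ‖μ₂ - μ₁‖ ≤ M * S := by
    rw [hM, div_mul_eq_mul_div, le_div_iff₀ hm]
    nlinarith
  -- c
  have f2 : ‖c₂ - c₁‖ ≤ P * S := by
    have g1 : ‖c₂ - c₁‖ ≤ ‖gg c₂ μ₂ - gg c₁ μ₁‖ + ‖(gg c₂ μ₂ - gg c₁ μ₁) - conj (c₂ - c₁)‖ := by
      have := norm_sub_le (gg c₂ μ₂ - gg c₁ μ₁) ((gg c₂ μ₂ - gg c₁ μ₁) - conj (c₂ - c₁))
      rw [sub_sub_cancel, RCLike.norm_conj] at this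
      exact this
    have g2 := (gc_nu_norm h0 h1 hm1).2
    have g3 : (1 - μ₀) ^ 2 / 2 * ‖c₂ - c₁‖ ≤ (1 - 2 * ‖nu μ₁‖) * ‖c₂ - c₁‖ :=
      mul_le_mul_of_nonneg_right g2 (norm_nonneg _)
    have g4 : (1 - μ₀) ^ 2 / 2 * ‖c₂ - c₁‖ ≤ (1 + 2 * R) * S := by
      have : 0 ≤ R * ‖gg c₂ μ₂ - gg c₁ μ₁‖ := by positivity
      have : 0 ≤ R * |hh c₂ r₂ μ₂ - hh c₁ r₁ μ₁| := by positivity
      rw [hS]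
      nlinarith
    rw [hP]
    have g5 : 2 / (1 - μ₀) ^ 2 * (1 + 2 * R) * S = ((1 + 2 * R) * S) / ((1 - μ₀) ^ 2 / 2) := by
      field_simp
    rw [g5, le_div_iff₀ (by positivity)]
    linarith
  -- r
  set K : ℝ := (1 - ‖μ₂‖ ^ 2) ^ 2 / (1 + ‖μ₂‖ ^ 2) with hK
  have hKκ : κ ≤ K := by
    rw [hκ, hK, div_le_div_iff₀ two_pos (by positivity)]
    have h3 : (1 - μ₀ ^ 2) ^ 2 ≤ (1 - ‖μ₂‖ ^ 2) ^ 2 := by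
      apply pow_le_pow_left₀ hm.le
      have := pow_le_pow_left₀ (norm_nonneg μ₂) hm2 2
      linarith
    have h4 : 1 + ‖μ₂‖ ^ 2 ≤ 2 := by nlinarith [norm_nonneg μ₂]
    exact mul_le_mul h3 h4 (by positivity) (sq_nonneg _)
  have e6 : 2 * r₀ * |r₂ - r₁| ≤ |r₂ ^ 2 - r₁ ^ 2| := by
    have : r₂ ^ 2 - r₁ ^ 2 = (r₂ + r₁) * (r₂ - r₁) := by ring
    rw [this, abs_mul]
    apply mul_le_mul_of_nonneg_right _ (abs_nonneg _)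
    rw [abs_of_nonneg (by linarith)]; linarith
  have e7 : 2 * r₀ * κ * |r₂ - r₁| ≤ |(r₂ ^ 2 - r₁ ^ 2) * K| := by
    rw [abs_mul, abs_of_nonneg (hκp.le.trans hKκ)]
    calc 2 * r₀ * κ * |r₂ - r₁| = (2 * r₀ * |r₂ - r₁|) * κ := by ring
      _ ≤ |r₂ ^ 2 - r₁ ^ 2| * K := mul_le_mul e6 hKκ hκp.le (abs_nonneg _)
  have e8 : |(r₂ ^ 2 - r₁ ^ 2) * K| ≤ |kap r₂ μ₂ - kap r₁ μ₁| + 6 * R ^ 2 * ‖μ₂ - μ₁‖ := by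
    have := abs_sub (kap r₂ μ₂ - kap r₁ μ₁) ((kap r₂ μ₂ - kap r₁ μ₁) - (r₂ ^ 2 - r₁ ^ 2) * K)
    rw [sub_sub_cancel] at this
    linarith
  have e9 : |kap r₂ μ₂ - kap r₁ μ₁| ≤ |(hh c₂ r₂ μ₂ - hh c₁ r₁ μ₁) + (kap r₂ μ₂ - kap r₁ μ₁)| +
      |hh c₂ r₂ μ₂ - hh c₁ r₁ μ₁| := by
    have := abs_sub ((hh c₂ r₂ μ₂ - hh c₁ r₁ μ₁) + (kap r₂ μ₂ - kap r₁ μ₁)) (hh c₂ r₂ μ₂ - hh c₁ r₁ μ₁)
    rw [add_sub_cancel_left] at this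
    exact this
  have f3 : |r₂ - r₁| ≤ Q * S := by
    have g1 : 2 * r₀ * κ * |r₂ - r₁| ≤ (1 + 6 * R * P + 2 * R ^ 2 + 6 * R ^ 2 * M) * S := by
      have g2 : 6 * R * ‖c₂ - c₁‖ ≤ 6 * R * (P * S) := mul_le_mul_of_nonneg_left f2 (by positivity)
      have g3 : 6 * R ^ 2 * ‖μ₂ - μ₁‖ ≤ 6 * R ^ 2 * (M * S) :=
        mul_le_mul_of_nonneg_left f1 (by positivity)
      have g4 : ‖nu μ₂ - nu μ₁‖ ≤ S := by linarith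
      have g5 : 2 * R ^ 2 * ‖nu μ₂ - nu μ₁‖ ≤ 2 * R ^ 2 * S :=
        mul_le_mul_of_nonneg_left g4 (by positivity)
      have g6 : |hh c₂ r₂ μ₂ - hh c₁ r₁ μ₁| ≤ S := by linarith
      linarith
    have g7 : Q * S = ((1 + 6 * R * P + 2 * R ^ 2 + 6 * R ^ 2 * M) * S) / (2 * r₀ * κ) := by
      rw [hQ]; field_simp
    rw [g7, le_div_iff₀ (by positivity)]
    linarith
  unfold dd
  rw [norm_sub_rev c₁ c₂, abs_sub_comm r₁ r₂, norm_sub_rev μ₁ μ₂]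
  linarith

end EW1
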