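import Pool.Agent.H1.EW.Ga
import Pool.Agent.H1.EW.Gc

/-!
ROW EW/Gd. The difference of the quadratic polynomials in the coordinate `v` of the first ellipse. `aa z = a₂ z² + a₁ z + a₀`, `a₂ = -2 conj Δν`, `a₁ = -2 Δg`, `a₀ = Δh` (real); `z = c₁ + r₁ ζ`,
`ζ = v + μ₁ v̄`: `aa z = A₂ ζ² + A₁ ζ + A₀`, `A₂ = a₂ r₁²`, `A₁ = (2 a₂ c₁ + a₁) r₁`, `A₀ = a₂ c₁² + a₁ c₁ + a₀`. Real part: `e₂ = (A₂ + conj (A₂ μ₁²))/2`, `e₁ = (A₁ + conj (A₁ μ₁))/2`,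
`E = Re (2 μ₁ A₂)`, `e₀ = Re (2 μ₁ A₂) + Re A₀` (`aa_re`).
Upper bounds: `coef_le`. Lower bound: `‖e₂‖ ≥ ‖A₂‖ (1 - μ₀²)/2`, `‖e₁‖ ≥ ‖A₁‖ (1 - μ₀)/2`, so `‖a₂‖, ‖a₁‖`, then `|a₀| ≤ C (|e₀| + ‖e₁‖ + ‖e₂‖)`; `dd_le`.
`aa_le`: from `coef_le`.
-/

set_option autoImplicit false

namespace EW1

open Complex Set Filter Topology MeasureTheory
open scoped ComplexConjugate ContDiff Real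

/-- the algebraic identity -/
theorem trig_id (A₂ A₁ A₀ μ₁ v : ℂ) :
    (((A₂ * (v + μ₁ * conj v) ^ 2 + A₁ * (v + μ₁ * conj v) + A₀).re : ℝ) : ℂ) =
      Ut ((2 * μ₁ * A₂).re + A₀.re) ((A₁ + conj (A₁ * μ₁)) / 2) ((A₂ + conj (A₂ * μ₁ ^ 2)) / 2) v +
        ((2 * μ₁ * A₂).re : ℝ) * ((‖v‖ ^ 2 - 1 : ℝ) : ℂ) := by
  have hv : ((‖v‖ : ℝ) : ℂ) ^ 2 = v * conj v := (Complex.mul_conj' v).symm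
  unfold Ut
  rw [Complex.re_eq_add_conj]
  push_cast
  rw [Complex.re_eq_add_conj (2 * μ₁ * A₂), Complex.re_eq_add_conj A₀, hv]
  simp only [map_add, map_mul, map_pow, map_div₀, Complex.conj_conj, map_ofNat]
  ring

/-- half sum of a number and a smaller one -/
theorem half_ge {A B : ℂ} {μ₀ : ℝ} (hq : ‖B‖ ≤ μ₀ * ‖A‖) : (1 - μ₀) / 2 * ‖A‖ ≤ ‖(A + B) / 2‖ := by
  have h : ‖A‖ - ‖B‖ ≤ ‖A + B‖ := by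
    have := norm_sub_norm_le A (-B)
    simpa using this
  rw [norm_div, Complex.norm_two]
  linarith

theorem half_le {A B : ℂ} (hq : ‖B‖ ≤ ‖A‖) : ‖(A + B) / 2‖ ≤ ‖A‖ := by
  have h : ‖A + B‖ ≤ ‖A‖ + ‖B‖ := norm_add_le A B
  rw [norm_div, Complex.norm_two]
  linarith

/-- upper bounds, real numbers -/
theorem core_up {R x y w nA₂ e₁ e₂ e₀ E p : ℝ} (hR0 : 0 < R) (hx0 : 0 ≤ x) (hy0 : 0 ≤ y) (hw0 : 0 ≤ w)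
    (hA₂ : nA₂ ≤ x * R ^ 2) (he₂ : e₂ ≤ x * R ^ 2) (he₁ : e₁ ≤ (2 * x * R + y) * R) (hE : E ≤ 2 * nA₂)
    (hp : p ≤ x * R ^ 2 + y * R) (he₀ : e₀ ≤ E + p + w) :
    E ≤ (6 * R ^ 2 + 2 * R + 1) * (x + y + w) ∧ e₀ + e₁ + e₂ ≤ (6 * R ^ 2 + 2 * R + 1) * (x + y + w) := by
  have a1 : 0 ≤ x * R := mul_nonneg hx0 hR0.le
  have a2 : 0 ≤ y * R := mul_nonneg hy0 hR0.le
  have a3 : 0 ≤ w * R := mul_nonneg hw0 hR0.le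
  have a4 : 0 ≤ x * R ^ 2 := by positivity
  have a5 : 0 ≤ y * R ^ 2 := by positivity
  have a6 : 0 ≤ w * R ^ 2 := by positivity
  have e : (6 * R ^ 2 + 2 * R + 1) * (x + y + w) =
      6 * (x * R ^ 2) + 6 * (y * R ^ 2) + 6 * (w * R ^ 2) + 2 * (x * R) + 2 * (y * R) + 2 * (w * R) + x + y + w := by ring
  have e' : (2 * x * R + y) * R = 2 * (x * R ^ 2) + y * R := by ring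
  rw [e]
  rw [e'] at he₁
  constructor <;> linarith

/-- lower bounds, real numbers -/
theorem core_lo {r₀ R κ x y w nA₂ nA₁ n₁ n₂ s₀ E p : ℝ} (hr₀ : 0 < r₀) (hR0 : 0 < R) (hκ : 0 < κ) (hs₀ : 0 ≤ s₀)
    (hn₁ : 0 ≤ n₁) (hn₂ : 0 ≤ n₂) (hx0 : 0 ≤ x)
    (hA₂ : x * r₀ ^ 2 ≤ nA₂) (hA₂' : nA₂ ≤ x * R ^ 2) (hA₁ : r₀ * (y - 2 * x * R) ≤ nA₁)
    (he₂ : κ * nA₂ ≤ n₂) (he₁ : κ * nA₁ ≤ n₁) (hE : E ≤ 2 * nA₂) (hp : p ≤ x * R ^ 2 + y * R) (hw : w ≤ s₀ + E + p) :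
    x + y + w ≤ ((1 / (κ * r₀ ^ 2)) + (1 / (κ * r₀) + 2 * R * (1 / (κ * r₀ ^ 2))) +
      (1 + 3 * R ^ 2 * (1 / (κ * r₀ ^ 2)) + R * (1 / (κ * r₀) + 2 * R * (1 / (κ * r₀ ^ 2))))) * (s₀ + n₁ + n₂) := by
  set K₁ : ℝ := 1 / (κ * r₀ ^ 2) with hK₁
  set K₂ : ℝ := 1 / (κ * r₀) with hK₂
  have hK₁0 : 0 < K₁ := by rw [hK₁]; positivity
  have hK₂0 : 0 < K₂ := by rw [hK₂]; positivity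
  set S : ℝ := s₀ + n₁ + n₂ with hS
  have hxle : x ≤ K₁ * n₂ := by
    have h : κ * (x * r₀ ^ 2) ≤ n₂ := (mul_le_mul_of_nonneg_left hA₂ hκ.le).trans he₂
    rw [hK₁, div_mul_eq_mul_div, one_mul, le_div_iff₀ (by positivity)]
    linarith
  have hyle : y - 2 * x * R ≤ K₂ * n₁ := by
    have h : κ * (r₀ * (y - 2 * x * R)) ≤ n₁ := (mul_le_mul_of_nonneg_left hA₁ hκ.le).trans he₁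
    rw [hK₂, div_mul_eq_mul_div, one_mul, le_div_iff₀ (by positivity)]
    linarith
  have hx' : x ≤ K₁ * S := hxle.trans (mul_le_mul_of_nonneg_left (by linarith) hK₁0.le)
  have h5 : K₂ * n₁ ≤ K₂ * S := mul_le_mul_of_nonneg_left (by linarith) hK₂0.le
  have h6 : 2 * R * x ≤ 2 * R * (K₁ * S) := mul_le_mul_of_nonneg_left hx' (by positivity)
  have hy' : y ≤ (K₂ + 2 * R * K₁) * S := by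
    have : (K₂ + 2 * R * K₁) * S = K₂ * S + 2 * R * (K₁ * S) := by ring
    rw [this]; linarith
  have h7 : 3 * R ^ 2 * x ≤ 3 * R ^ 2 * (K₁ * S) := mul_le_mul_of_nonneg_left hx' (by positivity)
  have h8 : R * y ≤ R * ((K₂ + 2 * R * K₁) * S) := mul_le_mul_of_nonneg_left hy' hR0.le
  have hw' : w ≤ (1 + 3 * R ^ 2 * K₁ + R * (K₂ + 2 * R * K₁)) * S := by
    have : (1 + 3 * R ^ 2 * K₁ + R * (K₂ + 2 * R * K₁)) * S = S + 3 * R ^ 2 * (K₁ * S) + R * ((K₂ + 2 * R * K₁) * S) := by ring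
    rw [this]
    linarith
  calc x + y + w ≤ K₁ * S + (K₂ + 2 * R * K₁) * S + (1 + 3 * R ^ 2 * K₁ + R * (K₂ + 2 * R * K₁)) * S := by linarith
    _ = _ := by ring

/-- the trigonometric polynomial of a quadratic polynomial -/
theorem core {r₀ R μ₀ : ℝ} (hr₀ : 0 < r₀) (hR : r₀ ≤ R) (h0 : 0 ≤ μ₀) (h1 : μ₀ < 1) : ∃ M L : ℝ, 0 < M ∧ 0 < L ∧
    ∀ (a₂ a₁ c₁ μ₁ : ℂ) (a₀ r₁ : ℝ), ‖c₁‖ ≤ R → r₀ ≤ r₁ → r₁ ≤ R → ‖μ₁‖ ≤ μ₀ →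
      ∃ (e₀ E : ℝ) (e₁ e₂ : ℂ),
        (∀ v : ℂ, (((a₂ * zz c₁ r₁ μ₁ v ^ 2 + a₁ * zz c₁ r₁ μ₁ v + (a₀ : ℂ)).re : ℝ) : ℂ) =
          Ut e₀ e₁ e₂ v + E * ((‖v‖ ^ 2 - 1 : ℝ) : ℂ)) ∧
        |E| ≤ M * (‖a₂‖ + ‖a₁‖ + |a₀|) ∧
        |e₀| + ‖e₁‖ + ‖e₂‖ ≤ M * (‖a₂‖ + ‖a₁‖ + |a₀|) ∧
        ‖a₂‖ + ‖a₁‖ + |a₀| ≤ L * (|e₀| + ‖e₁‖ + ‖e₂‖) := by
  have hR0 : 0 < R := lt_of_lt_of_le hr₀ hR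
  have hκ0 : 0 < (1 - μ₀) / 2 := by linarith
  refine ⟨6 * R ^ 2 + 2 * R + 1, ((1 / ((1 - μ₀) / 2 * r₀ ^ 2)) + (1 / ((1 - μ₀) / 2 * r₀) + 2 * R * (1 / ((1 - μ₀) / 2 * r₀ ^ 2))) +
      (1 + 3 * R ^ 2 * (1 / ((1 - μ₀) / 2 * r₀ ^ 2)) + R * (1 / ((1 - μ₀) / 2 * r₀) + 2 * R * (1 / ((1 - μ₀) / 2 * r₀ ^ 2))))),
      by positivity, by positivity, ?_⟩
  intro a₂ a₁ c₁ μ₁ a₀ r₁ hcn₁ hr₁ hr₁' hμ₁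
  have hr₁0 : 0 < r₁ := lt_of_lt_of_le hr₀ hr₁
  have hμ₁1 : ‖μ₁‖ ≤ 1 := hμ₁.trans h1.le
  have hnr : ‖(r₁ : ℂ)‖ = r₁ := by rw [Complex.norm_real, Real.norm_of_nonneg hr₁0.le]
  obtain ⟨A₂, hA₂⟩ : ∃ A₂ : ℂ, A₂ = a₂ * (r₁ : ℂ) ^ 2 := ⟨_, rfl⟩
  obtain ⟨A₁, hA₁⟩ : ∃ A₁ : ℂ, A₁ = (2 * a₂ * c₁ + a₁) * r₁ := ⟨_, rfl⟩
  obtain ⟨A₀, hA₀⟩ : ∃ A₀ : ℂ, A₀ = a₂ * c₁ ^ 2 + a₁ * c₁ + (a₀ : ℂ) := ⟨_, rfl⟩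
  have hnA₂ : ‖A₂‖ = ‖a₂‖ * r₁ ^ 2 := by rw [hA₂, norm_mul, norm_pow, hnr]
  have hnA₂le : ‖A₂‖ ≤ ‖a₂‖ * R ^ 2 := by
    rw [hnA₂]
    exact mul_le_mul_of_nonneg_left (pow_le_pow_left₀ hr₁0.le hr₁' 2) (norm_nonneg _)
  have hnA₂ge : ‖a₂‖ * r₀ ^ 2 ≤ ‖A₂‖ := by
    rw [hnA₂]
    exact mul_le_mul_of_nonneg_left (pow_le_pow_left₀ hr₀.le hr₁ 2) (norm_nonneg _)
  have h2ac : ‖2 * a₂ * c₁‖ ≤ 2 * ‖a₂‖ * R := by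
    rw [norm_mul, norm_mul, Complex.norm_two]
    exact mul_le_mul_of_nonneg_left hcn₁ (by positivity)
  have hnA₁le : ‖A₁‖ ≤ (2 * ‖a₂‖ * R + ‖a₁‖) * R := by
    rw [hA₁, norm_mul, hnr]
    have h3 : ‖2 * a₂ * c₁ + a₁‖ ≤ 2 * ‖a₂‖ * R + ‖a₁‖ := (norm_add_le _ _).trans (by linarith)
    exact mul_le_mul h3 hr₁' hr₁0.le (by positivity)
  have hnA₁ge : r₀ * (‖a₁‖ - 2 * ‖a₂‖ * R) ≤ ‖A₁‖ := by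
    rw [hA₁, norm_mul, hnr]
    have h3 : ‖a₁‖ - ‖2 * a₂ * c₁‖ ≤ ‖2 * a₂ * c₁ + a₁‖ := by
      have h3' := norm_sub_norm_le a₁ (-(2 * a₂ * c₁))
      have h3'' : a₁ - -(2 * a₂ * c₁) = 2 * a₂ * c₁ + a₁ := by ring
      rw [h3'', norm_neg] at h3'
      exact h3'
    have h4 : ‖a₁‖ - 2 * ‖a₂‖ * R ≤ ‖2 * a₂ * c₁ + a₁‖ := by linarith
    have h5 : r₀ * (‖a₁‖ - 2 * ‖a₂‖ * R) ≤ r₀ * ‖2 * a₂ * c₁ + a₁‖ := mul_le_mul_of_nonneg_left h4 hr₀.le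
    have h6 : r₀ * ‖2 * a₂ * c₁ + a₁‖ ≤ ‖2 * a₂ * c₁ + a₁‖ * r₁ := by
      rw [mul_comm]; exact mul_le_mul_of_nonneg_left hr₁ (norm_nonneg _)
    exact h5.trans h6
  have hac2 : ‖a₂ * c₁ ^ 2‖ ≤ ‖a₂‖ * R ^ 2 := by
    rw [norm_mul, norm_pow]
    exact mul_le_mul_of_nonneg_left (pow_le_pow_left₀ (norm_nonneg _) hcn₁ 2) (norm_nonneg _)
  have hac1 : ‖a₁ * c₁‖ ≤ ‖a₁‖ * R := by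
    rw [norm_mul]
    exact mul_le_mul_of_nonneg_left hcn₁ (norm_nonneg _)
  have hpol : ‖a₂ * c₁ ^ 2 + a₁ * c₁‖ ≤ ‖a₂‖ * R ^ 2 + ‖a₁‖ * R := (norm_add_le _ _).trans (by linarith)
  have hA₀re : A₀.re = (a₂ * c₁ ^ 2 + a₁ * c₁).re + a₀ := by rw [hA₀, Complex.add_re, Complex.ofReal_re]
  have hpre : |(a₂ * c₁ ^ 2 + a₁ * c₁).re| ≤ ‖a₂‖ * R ^ 2 + ‖a₁‖ * R := (Complex.abs_re_le_norm _).trans hpol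
  have hE : |(2 * μ₁ * A₂).re| ≤ 2 * ‖A₂‖ := by
    refine (Complex.abs_re_le_norm _).trans ?_
    rw [norm_mul, norm_mul, Complex.norm_two]
    have : ‖μ₁‖ * ‖A₂‖ ≤ 1 * ‖A₂‖ := mul_le_mul_of_nonneg_right hμ₁1 (norm_nonneg _)
    linarith
  have hB₂ : ‖conj (A₂ * μ₁ ^ 2)‖ ≤ μ₀ * ‖A₂‖ := by
    rw [Complex.norm_conj, norm_mul, norm_pow, mul_comm]
    have : ‖μ₁‖ ^ 2 ≤ μ₀ := by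
      rw [sq]
      calc ‖μ₁‖ * ‖μ₁‖ ≤ 1 * μ₀ := mul_le_mul hμ₁1 hμ₁ (norm_nonneg _) zero_le_one
        _ = μ₀ := one_mul _
    exact mul_le_mul_of_nonneg_right this (norm_nonneg _)
  have hB₁ : ‖conj (A₁ * μ₁)‖ ≤ μ₀ * ‖A₁‖ := by
    rw [Complex.norm_conj, norm_mul, mul_comm]
    exact mul_le_mul_of_nonneg_right hμ₁ (norm_nonneg _)
  have hm (t : ℝ) (ht : 0 ≤ t) : μ₀ * t ≤ t := by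
    calc μ₀ * t ≤ 1 * t := mul_le_mul_of_nonneg_right h1.le ht
      _ = t := one_mul _
  have he₂ge := half_ge hB₂
  have he₁ge := half_ge hB₁
  have he₂le := half_le (hB₂.trans (hm _ (norm_nonneg _)))
  have he₁le := half_le (hB₁.trans (hm _ (norm_nonneg _)))
  have habs : |(2 * μ₁ * A₂).re + A₀.re| ≤ |(2 * μ₁ * A₂).re| + |(a₂ * c₁ ^ 2 + a₁ * c₁).re| + |a₀| := by
    rw [hA₀re]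
    have q1 := abs_add_le ((2 * μ₁ * A₂).re) ((a₂ * c₁ ^ 2 + a₁ * c₁).re + a₀)
    have q2 := abs_add_le ((a₂ * c₁ ^ 2 + a₁ * c₁).re) a₀
    linarith
  have habs' : |a₀| ≤ |(2 * μ₁ * A₂).re + A₀.re| + |(2 * μ₁ * A₂).re| + |(a₂ * c₁ ^ 2 + a₁ * c₁).re| := by
    have h7 : a₀ = ((2 * μ₁ * A₂).re + A₀.re) - (2 * μ₁ * A₂).re - (a₂ * c₁ ^ 2 + a₁ * c₁).re := by rw [hA₀re]; ring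
    have q1 := abs_sub (((2 * μ₁ * A₂).re + A₀.re) - (2 * μ₁ * A₂).re) ((a₂ * c₁ ^ 2 + a₁ * c₁).re)
    have q2 := abs_sub ((2 * μ₁ * A₂).re + A₀.re) ((2 * μ₁ * A₂).re)
    rw [← h7] at q1
    linarith
  have hup := core_up (e₁ := ‖(A₁ + conj (A₁ * μ₁)) / 2‖) (e₂ := ‖(A₂ + conj (A₂ * μ₁ ^ 2)) / 2‖) hR0
    (norm_nonneg a₂) (norm_nonneg a₁) (abs_nonneg a₀) hnA₂le (he₂le.trans hnA₂le) (he₁le.trans hnA₁le) hE hpre habs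
  have hlo := core_lo hr₀ hR0 hκ0 (abs_nonneg ((2 * μ₁ * A₂).re + A₀.re)) (norm_nonneg ((A₁ + conj (A₁ * μ₁)) / 2))
    (norm_nonneg ((A₂ + conj (A₂ * μ₁ ^ 2)) / 2)) (norm_nonneg a₂) hnA₂ge hnA₂le hnA₁ge he₂ge he₁ge hE hpre habs'
  refine ⟨(2 * μ₁ * A₂).re + A₀.re, (2 * μ₁ * A₂).re, (A₁ + conj (A₁ * μ₁)) / 2, (A₂ + conj (A₂ * μ₁ ^ 2)) / 2,
    ?_, hup.1, hup.2, hlo⟩
  intro v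
  rw [← trig_id A₂ A₁ A₀ μ₁ v]
  congr 2
  unfold zz
  rw [hA₂, hA₁, hA₀]
  ring

theorem trig {r₀ R μ₀ : ℝ} (hr₀ : 0 < r₀) (hR : r₀ ≤ R) (h0 : 0 ≤ μ₀) (h1 : μ₀ < 1) : ∃ C : ℝ, 0 < C ∧
    ∀ (c₁ : ℂ) (r₁ : ℝ) (μ₁ c₂ : ℂ) (r₂ : ℝ) (μ₂ : ℂ), PS r₀ R μ₀ c₁ r₁ μ₁ → PS r₀ R μ₀ c₂ r₂ μ₂ →
      ∃ (e₀ E : ℝ) (e₁ e₂ : ℂ),
        (∀ v : ℂ, ((QQ c₂ r₂ μ₂ (zz c₁ r₁ μ₁ v) - QQ c₁ r₁ μ₁ (zz c₁ r₁ μ₁ v) : ℝ) : ℂ) =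
          Ut e₀ e₁ e₂ v + E * ((‖v‖ ^ 2 - 1 : ℝ) : ℂ)) ∧
        |E| ≤ C * dd c₁ r₁ μ₁ c₂ r₂ μ₂ ∧
        |e₀| + ‖e₁‖ + ‖e₂‖ ≤ C * dd c₁ r₁ μ₁ c₂ r₂ μ₂ ∧
        dd c₁ r₁ μ₁ c₂ r₂ μ₂ ≤ C * (|e₀| + ‖e₁‖ + ‖e₂‖) := by
  obtain ⟨C₁, hC₁, hc₁⟩ := coef_le hr₀ hR h0 h1
  obtain ⟨C₂, hC₂, hc₂⟩ := dd_le hr₀ hR h0 h1
  obtain ⟨M, L, hM0, hL0, hcore⟩ := core hr₀ hR h0 h1
  refine ⟨2 * M * C₁ + C₂ * L, by positivity, ?_⟩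
  intro c₁ r₁ μ₁ c₂ r₂ μ₂ hp₁ hp₂
  have hco := hc₁ c₁ r₁ μ₁ c₂ r₂ μ₂ hp₁ hp₂
  have hdd := hc₂ c₁ r₁ μ₁ c₂ r₂ μ₂ hp₁ hp₂
  obtain ⟨hcn₁, hr₁, hr₁', hμ₁⟩ := hp₁
  obtain ⟨hcn₂, hr₂, hr₂', hμ₂⟩ := hp₂
  have hr₁0 : 0 < r₁ := lt_of_lt_of_le hr₀ hr₁
  have hr₂0 : 0 < r₂ := lt_of_lt_of_le hr₀ hr₂
  have hμ₁1 : ‖μ₁‖ < 1 := lt_of_le_of_lt hμ₁ h1
  have hμ₂1 : ‖μ₂‖ < 1 := lt_of_le_of_lt hμ₂ h1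
  have hd0 : 0 ≤ dd c₁ r₁ μ₁ c₂ r₂ μ₂ := by unfold dd; positivity
  obtain ⟨e₀, E, e₁, e₂, hid, hb1, hb2, hb3⟩ := hcore (-(2 * conj (nu μ₂ - nu μ₁))) (-(2 * (gg c₂ μ₂ - gg c₁ μ₁))) c₁ μ₁
    (hh c₂ r₂ μ₂ - hh c₁ r₁ μ₁) r₁ hcn₁ hr₁ hr₁' hμ₁
  have hna₂ : ‖-(2 * conj (nu μ₂ - nu μ₁))‖ = 2 * ‖nu μ₂ - nu μ₁‖ := by
    rw [norm_neg, norm_mul, Complex.norm_two, Complex.norm_conj]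
  have hna₁ : ‖-(2 * (gg c₂ μ₂ - gg c₁ μ₁))‖ = 2 * ‖gg c₂ μ₂ - gg c₁ μ₁‖ := by
    rw [norm_neg, norm_mul, Complex.norm_two]
  rw [hna₂, hna₁] at hb1 hb2 hb3
  have hx0 := norm_nonneg (nu μ₂ - nu μ₁)
  have hy0 := norm_nonneg (gg c₂ μ₂ - gg c₁ μ₁)
  have hw0 := abs_nonneg (hh c₂ r₂ μ₂ - hh c₁ r₁ μ₁)
  have hT : 2 * ‖nu μ₂ - nu μ₁‖ + 2 * ‖gg c₂ μ₂ - gg c₁ μ₁‖ + |hh c₂ r₂ μ₂ - hh c₁ r₁ μ₁| ≤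
      2 * (C₁ * dd c₁ r₁ μ₁ c₂ r₂ μ₂) := by linarith
  have hT' : M * (2 * ‖nu μ₂ - nu μ₁‖ + 2 * ‖gg c₂ μ₂ - gg c₁ μ₁‖ + |hh c₂ r₂ μ₂ - hh c₁ r₁ μ₁|) ≤
      (2 * M * C₁ + C₂ * L) * dd c₁ r₁ μ₁ c₂ r₂ μ₂ := by
    have h4 : 0 ≤ C₂ * L * dd c₁ r₁ μ₁ c₂ r₂ μ₂ := by positivity
    calc M * (2 * ‖nu μ₂ - nu μ₁‖ + 2 * ‖gg c₂ μ₂ - gg c₁ μ₁‖ + |hh c₂ r₂ μ₂ - hh c₁ r₁ μ₁|) ≤
        M * (2 * (C₁ * dd c₁ r₁ μ₁ c₂ r₂ μ₂)) := mul_le_mul_of_nonneg_left hT hM0.le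
      _ ≤ _ := by linarith
  refine ⟨e₀, E, e₁, e₂, ?_, hb1.trans hT', hb2.trans hT', ?_⟩
  · intro v
    rw [← hid v, ← aa_re hr₁0 hr₂0 hμ₁1 hμ₂1]
    congr 2
    unfold aa
    ring
  · have h4 : 0 ≤ 2 * M * C₁ * (|e₀| + ‖e₁‖ + ‖e₂‖) := by positivity
    calc dd c₁ r₁ μ₁ c₂ r₂ μ₂ ≤
        C₂ * (‖nu μ₂ - nu μ₁‖ + ‖gg c₂ μ₂ - gg c₁ μ₁‖ + |hh c₂ r₂ μ₂ - hh c₁ r₁ μ₁|) := hdd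
      _ ≤ C₂ * (2 * ‖nu μ₂ - nu μ₁‖ + 2 * ‖gg c₂ μ₂ - gg c₁ μ₁‖ + |hh c₂ r₂ μ₂ - hh c₁ r₁ μ₁|) :=
        mul_le_mul_of_nonneg_left (by linarith) hC₂.le
      _ ≤ C₂ * (L * (|e₀| + ‖e₁‖ + ‖e₂‖)) := mul_le_mul_of_nonneg_left hb3 hC₂.le
      _ ≤ (2 * M * C₁ + C₂ * L) * (|e₀| + ‖e₁‖ + ‖e₂‖) := by linarith

theorem aa_le {r₀ R μ₀ : ℝ} (hr₀ : 0 < r₀) (hR : r₀ ≤ R) (h0 : 0 ≤ μ₀) (h1 : μ₀ < 1) : ∃ C : ℝ, 0 < C ∧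
    ∀ (c₁ : ℂ) (r₁ : ℝ) (μ₁ c₂ : ℂ) (r₂ : ℝ) (μ₂ : ℂ), PS r₀ R μ₀ c₁ r₁ μ₁ → PS r₀ R μ₀ c₂ r₂ μ₂ →
      ∀ z : ℂ, ‖z‖ ≤ 3 * R → ‖aa c₁ r₁ μ₁ c₂ r₂ μ₂ z‖ ≤ C * dd c₁ r₁ μ₁ c₂ r₂ μ₂ := by
  obtain ⟨C₁, hC₁, hc₁⟩ := coef_le hr₀ hR h0 h1
  have hR0 : 0 < R := lt_of_lt_of_le hr₀ hR
  refine ⟨(18 * R ^ 2 + 6 * R + 1) * C₁, by positivity, ?_⟩
  intro c₁ r₁ μ₁ c₂ r₂ μ₂ hp₁ hp₂ z hz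
  have hco := hc₁ c₁ r₁ μ₁ c₂ r₂ μ₂ hp₁ hp₂
  have hz2 : ‖z‖ ^ 2 ≤ (3 * R) ^ 2 := pow_le_pow_left₀ (norm_nonneg _) hz 2
  have hx0 := norm_nonneg (nu μ₂ - nu μ₁)
  have hy0 := norm_nonneg (gg c₂ μ₂ - gg c₁ μ₁)
  have hw0 := abs_nonneg (hh c₂ r₂ μ₂ - hh c₁ r₁ μ₁)
  have h2 : ‖-(2 * conj (nu μ₂ - nu μ₁) * z ^ 2)‖ ≤ 2 * ‖nu μ₂ - nu μ₁‖ * (3 * R) ^ 2 := by
    rw [norm_neg, norm_mul, norm_mul, norm_pow, Complex.norm_two, Complex.norm_conj]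
    exact mul_le_mul_of_nonneg_left hz2 (by positivity)
  have h3 : ‖2 * (gg c₂ μ₂ - gg c₁ μ₁) * z‖ ≤ 2 * ‖gg c₂ μ₂ - gg c₁ μ₁‖ * (3 * R) := by
    rw [norm_mul, norm_mul, Complex.norm_two]
    exact mul_le_mul_of_nonneg_left hz (by positivity)
  have h4 : ‖((hh c₂ r₂ μ₂ - hh c₁ r₁ μ₁ : ℝ) : ℂ)‖ = |hh c₂ r₂ μ₂ - hh c₁ r₁ μ₁| := by
    rw [Complex.norm_real, Real.norm_eq_abs]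
  generalize ‖nu μ₂ - nu μ₁‖ = x at *
  generalize ‖gg c₂ μ₂ - gg c₁ μ₁‖ = y at *
  generalize |hh c₂ r₂ μ₂ - hh c₁ r₁ μ₁| = w at *
  have h5 : ‖aa c₁ r₁ μ₁ c₂ r₂ μ₂ z‖ ≤ 2 * x * (3 * R) ^ 2 + 2 * y * (3 * R) + w := by
    unfold aa
    refine (norm_add_le _ _).trans ?_
    rw [h4]
    refine add_le_add ((norm_sub_le _ _).trans (add_le_add h2 h3)) le_rfl
  have h6 : 2 * x * (3 * R) ^ 2 + 2 * y * (3 * R) + w ≤ (18 * R ^ 2 + 6 * R + 1) * (x + y + w) := by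
    have a1 : 0 ≤ x * R := mul_nonneg hx0 hR0.le
    have a2 : 0 ≤ y * R := mul_nonneg hy0 hR0.le
    have a3 : 0 ≤ w * R := mul_nonneg hw0 hR0.le
    have a4 : 0 ≤ x * R ^ 2 := by positivity
    have a5 : 0 ≤ y * R ^ 2 := by positivity
    have a6 : 0 ≤ w * R ^ 2 := by positivity
    have e : (18 * R ^ 2 + 6 * R + 1) * (x + y + w) =
        18 * (x * R ^ 2) + 18 * (y * R ^ 2) + 18 * (w * R ^ 2) + 6 * (x * R) + 6 * (y * R) + 6 * (w * R) + x + y + w := by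
      ring
    rw [e]
    linarith
  have h7 : (18 * R ^ 2 + 6 * R + 1) * (x + y + w) ≤ (18 * R ^ 2 + 6 * R + 1) * (C₁ * dd c₁ r₁ μ₁ c₂ r₂ μ₂) :=
    mul_le_mul_of_nonneg_left hco (by positivity)
  calc ‖aa c₁ r₁ μ₁ c₂ r₂ μ₂ z‖ ≤ _ := h5
    _ ≤ _ := h6
    _ ≤ _ := h7
    _ = _ := by ring

end EW1
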