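import Pool.Agent.H1.EW.D0

/-!
ROW EW/Ge. Algebra of the elimination (checked numerically on `‖v‖ = 1`). With `u = conj v`, `‖v‖² = v u`: the products `v^i u^j` in `Ut * Vt` are reduced with `v u = 1 + (v u - 1)`;
`(v + μu)² - 2μ = v² + μ²u² + 2μ(vu - 1)`, `(v+μu)³ - 3μ(v+μu) = v³ + μ³u³ + (vu-1)(3μ(v+μu))`,
`(v+μu)⁴ - 4μ(v+μu)² + 2μ² = v⁴ + μ⁴u⁴ + (vu-1)(4μv² + 4μ³u² + 2μ²(3uv-1))`. It should be one `ring`/`linear_combination` after unfolding (`Fb`, `sj`: `Matrix.cons_val...` simp lemmas) and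
`((‖v‖^2 : ℝ) : ℂ) = v * conj v` (`Complex.mul_conj`, `Complex.normSq_eq_norm_sq`).
-/

set_option autoImplicit false

namespace EW1

open Complex Set Filter Topology MeasureTheory
open scoped ComplexConjugate ContDiff Real

theorem elim (μ : ℂ) (e₀ : ℝ) (e₁ e₂ v : ℂ) :
    Fb μ (sj μ e₀ e₁ e₂) (v + μ * conj v) = Ut e₀ e₁ e₂ v * Vt μ e₀ e₁ e₂ v + ((1 - ‖v‖ ^ 2 : ℝ) : ℂ) * Wt μ e₀ e₁ e₂ v := by
  have hv : ((1 - ‖v‖ ^ 2 : ℝ) : ℂ) = 1 - v * conj v := by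
    rw [Complex.mul_conj, Complex.normSq_eq_norm_sq]
    push_cast
    ring
  rw [hv]
  unfold Wt Fb Ut Vt
  have s0 : sj μ e₀ e₁ e₂ 0 = e₂ ^ 2 * μ ^ 4 + e₁ ^ 2 * μ ^ 3 + e₀ ^ 2 * μ ^ 2 + conj e₁ ^ 2 * μ + conj e₂ ^ 2 := rfl
  have s1 : sj μ e₀ e₁ e₂ 1 = e₂ * e₁ * μ ^ 3 + e₁ * e₀ * μ ^ 2 + e₀ * conj e₁ * μ + conj e₁ * conj e₂ := rfl
  have s2 : sj μ e₀ e₁ e₂ 2 = e₂ * e₀ * μ ^ 2 + e₁ * conj e₁ * μ + e₀ * conj e₂ := rfl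
  have s3 : sj μ e₀ e₁ e₂ 3 = e₂ * conj e₁ * μ + e₁ * conj e₂ := rfl
  have s4 : sj μ e₀ e₁ e₂ 4 = e₂ * conj e₂ := rfl
  rw [s0, s1, s2, s3, s4]
  ring

/-- bounds of `Vt`, `sj`, `Wt` by `M = ‖e₂‖ + ‖e₁‖ ‖μ‖ + |e₀| ‖μ‖²` -/
theorem elim_le {T : ℝ} (hT : 0 ≤ T) : ∃ C : ℝ, 0 < C ∧ ∀ (μ : ℂ) (e₀ : ℝ) (e₁ e₂ v : ℂ), ‖μ‖ ≤ 1 → ‖v‖ ≤ T →
    ‖Vt μ e₀ e₁ e₂ v‖ ≤ C * (‖e₂‖ + ‖e₁‖ * ‖μ‖ + |e₀| * ‖μ‖ ^ 2) ∧
    ‖Wt μ e₀ e₁ e₂ v‖ ≤ C * (|e₀| + ‖e₁‖ + ‖e₂‖) * (‖e₂‖ + ‖e₁‖ * ‖μ‖ + |e₀| * ‖μ‖ ^ 2) ∧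
    (∀ j, ‖sj μ e₀ e₁ e₂ j‖ ≤ C * (|e₀| + ‖e₁‖ + ‖e₂‖) * (‖e₂‖ + ‖e₁‖ * ‖μ‖ + |e₀| * ‖μ‖ ^ 2)) := by
  refine ⟨100 * (1 + T) ^ 2, by positivity, ?_⟩
  intro μ e₀ e₁ e₂ v hμ hv
  obtain ⟨S, hS⟩ : ∃ S : ℝ, S = |e₀| + ‖e₁‖ + ‖e₂‖ := ⟨_, rfl⟩
  obtain ⟨M, hM⟩ : ∃ M : ℝ, M = ‖e₂‖ + ‖e₁‖ * ‖μ‖ + |e₀| * ‖μ‖ ^ 2 := ⟨_, rfl⟩
  rw [← hS, ← hM]
  have a0 : 0 ≤ |e₀| := abs_nonneg _
  have b0 : 0 ≤ ‖e₁‖ := norm_nonneg _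
  have c0 : 0 ≤ ‖e₂‖ := norm_nonneg _
  have m0 : 0 ≤ ‖μ‖ := norm_nonneg _
  have n0 : 0 ≤ ‖v‖ := norm_nonneg _
  have bm : 0 ≤ ‖e₁‖ * ‖μ‖ := by positivity
  have am : 0 ≤ |e₀| * ‖μ‖ ^ 2 := by positivity
  have hS0 : 0 ≤ S := by rw [hS]; positivity
  have hM0 : 0 ≤ M := by rw [hM]; positivity
  have p2 : ‖μ‖ ^ 2 ≤ 1 := pow_le_one₀ m0 hμ
  have p4 : ‖μ‖ ^ 4 ≤ 1 := pow_le_one₀ m0 hμ
  have p3 : ‖μ‖ ^ 3 ≤ ‖μ‖ := by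
    calc ‖μ‖ ^ 3 = ‖μ‖ ^ 2 * ‖μ‖ := by ring
      _ ≤ 1 * ‖μ‖ := mul_le_mul_of_nonneg_right p2 m0
      _ = ‖μ‖ := one_mul _
  have ne0 : ‖(e₀ : ℂ)‖ = |e₀| := by rw [Complex.norm_real, Real.norm_eq_abs]
  -- first factors
  have f0 : ‖(e₀ : ℂ)‖ ≤ S := by rw [ne0, hS]; linarith
  have f1 : ‖e₁‖ ≤ S := by rw [hS]; linarith
  have f2 : ‖e₂‖ ≤ S := by rw [hS]; linarith
  have f1' : ‖conj e₁‖ ≤ S := by rw [RCLike.norm_conj]; exact f1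
  have f2' : ‖conj e₂‖ ≤ S := by rw [RCLike.norm_conj]; exact f2
  -- second factors
  have g2 : ‖e₂‖ ≤ M := by rw [hM]; linarith
  have g2' : ‖conj e₂‖ ≤ M := by rw [RCLike.norm_conj]; exact g2
  have g1 : ‖e₁ * μ‖ ≤ M := by rw [norm_mul, hM]; linarith
  have g1' : ‖conj e₁ * μ‖ ≤ M := by rw [norm_mul, RCLike.norm_conj, hM]; linarith
  have g0 : ‖(e₀ : ℂ) * μ ^ 2‖ ≤ M := by rw [norm_mul, norm_pow, ne0, hM]; linarith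
  have g3 : ‖e₁ * μ ^ 3‖ ≤ M := by
    rw [norm_mul, norm_pow]
    refine (mul_le_mul_of_nonneg_left p3 b0).trans ?_
    rw [hM]; linarith
  have g4 : ‖e₂ * μ ^ 4‖ ≤ M := by
    rw [norm_mul, norm_pow]
    refine (mul_le_mul_of_nonneg_left p4 c0).trans ?_
    rw [hM]; linarith
  have hvc : ‖conj v‖ ≤ T := by rw [RCLike.norm_conj]; exact hv
  have hv2 : ‖v ^ 2‖ ≤ T ^ 2 := by
    rw [norm_pow]; exact pow_le_pow_left₀ n0 hv 2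
  have hvc2 : ‖conj v ^ 2‖ ≤ T ^ 2 := by
    rw [norm_pow]; exact pow_le_pow_left₀ (norm_nonneg _) hvc 2
  have hvv : ‖v * conj v‖ ≤ T * T := norm_mul_le_of_le hv hvc
  have one1 : ‖(1 : ℂ)‖ ≤ 1 := by rw [norm_one]
  have hX : 0 ≤ S * M := mul_nonneg hS0 hM0
  have hXT : 0 ≤ S * M * T := mul_nonneg hX hT
  have hXT2 : 0 ≤ S * M * T ^ 2 := mul_nonneg hX (sq_nonneg T)
  -- the coefficients
  have s0 : ‖sj μ e₀ e₁ e₂ 0‖ ≤ 5 * (S * M) := by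
    have e : sj μ e₀ e₁ e₂ 0 = e₂ * (e₂ * μ ^ 4) + e₁ * (e₁ * μ ^ 3) + e₀ * (e₀ * μ ^ 2) + conj e₁ * (conj e₁ * μ) +
        conj e₂ * conj e₂ := by
      have : sj μ e₀ e₁ e₂ 0 = e₂ ^ 2 * μ ^ 4 + e₁ ^ 2 * μ ^ 3 + e₀ ^ 2 * μ ^ 2 + conj e₁ ^ 2 * μ + conj e₂ ^ 2 := rfl
      rw [this]; ring
    rw [e]
    refine (norm_add_le_of_le (norm_add_le_of_le (norm_add_le_of_le (norm_add_le_of_le (norm_mul_le_of_le f2 g4)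
      (norm_mul_le_of_le f1 g3)) (norm_mul_le_of_le f0 g0)) (norm_mul_le_of_le f1' g1')) (norm_mul_le_of_le f2' g2')).trans ?_
    linarith
  have s1 : ‖sj μ e₀ e₁ e₂ 1‖ ≤ 4 * (S * M) := by
    have e : sj μ e₀ e₁ e₂ 1 = e₂ * (e₁ * μ ^ 3) + e₁ * (e₀ * μ ^ 2) + e₀ * (conj e₁ * μ) + conj e₁ * conj e₂ := by
      have : sj μ e₀ e₁ e₂ 1 = e₂ * e₁ * μ ^ 3 + e₁ * e₀ * μ ^ 2 + e₀ * conj e₁ * μ + conj e₁ * conj e₂ := rfl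
      rw [this]; ring
    rw [e]
    refine (norm_add_le_of_le (norm_add_le_of_le (norm_add_le_of_le (norm_mul_le_of_le f2 g3)
      (norm_mul_le_of_le f1 g0)) (norm_mul_le_of_le f0 g1')) (norm_mul_le_of_le f1' g2')).trans ?_
    linarith
  have s2 : ‖sj μ e₀ e₁ e₂ 2‖ ≤ 3 * (S * M) := by
    have e : sj μ e₀ e₁ e₂ 2 = e₂ * (e₀ * μ ^ 2) + e₁ * (conj e₁ * μ) + e₀ * conj e₂ := by
      have : sj μ e₀ e₁ e₂ 2 = e₂ * e₀ * μ ^ 2 + e₁ * conj e₁ * μ + e₀ * conj e₂ := rfl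
      rw [this]; ring
    rw [e]
    refine (norm_add_le_of_le (norm_add_le_of_le (norm_mul_le_of_le f2 g0)
      (norm_mul_le_of_le f1 g1')) (norm_mul_le_of_le f0 g2')).trans ?_
    linarith
  have s3 : ‖sj μ e₀ e₁ e₂ 3‖ ≤ 2 * (S * M) := by
    have e : sj μ e₀ e₁ e₂ 3 = e₂ * (conj e₁ * μ) + e₁ * conj e₂ := by
      have : sj μ e₀ e₁ e₂ 3 = e₂ * conj e₁ * μ + e₁ * conj e₂ := rfl
      rw [this]; ring
    rw [e]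
    refine (norm_add_le_of_le (norm_mul_le_of_le f2 g1') (norm_mul_le_of_le f1 g2')).trans ?_
    linarith
  have s4 : ‖sj μ e₀ e₁ e₂ 4‖ ≤ S * M := by
    have e : sj μ e₀ e₁ e₂ 4 = e₂ * conj e₂ := rfl
    rw [e]
    exact norm_mul_le_of_le f2 g2'
  have h2 : ‖(2 : ℂ)‖ ≤ 2 := by norm_num
  have h3 : ‖(3 : ℂ)‖ ≤ 3 := by norm_num
  have h4 : ‖(4 : ℂ)‖ ≤ 4 := by norm_num
  have hμ2 : ‖μ ^ 2‖ ≤ 1 := by rw [norm_pow]; exact p2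
  have hμ3 : ‖μ ^ 3‖ ≤ 1 := by rw [norm_pow]; exact p3.trans hμ
  refine ⟨?_, ?_, ?_⟩
  · have e : Vt μ e₀ e₁ e₂ v = conj e₂ * v ^ 2 + conj e₁ * μ * v + e₀ * μ ^ 2 + e₁ * μ ^ 3 * conj v +
        e₂ * μ ^ 4 * conj v ^ 2 := rfl
    rw [e]
    refine (norm_add_le_of_le (norm_add_le_of_le (norm_add_le_of_le (norm_add_le_of_le (norm_mul_le_of_le g2' hv2)
      (norm_mul_le_of_le g1' hv)) g0) (norm_mul_le_of_le g3 hvc)) (norm_mul_le_of_le g4 hvc2)).trans ?_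
    have hMT : 0 ≤ M * T := mul_nonneg hM0 hT
    have hMT2 : 0 ≤ M * T ^ 2 := mul_nonneg hM0 (sq_nonneg T)
    have e2 : 100 * (1 + T) ^ 2 * M = 100 * M + 200 * (M * T) + 100 * (M * T ^ 2) := by ring
    rw [e2]
    linarith
  · unfold Wt
    refine (norm_sub_le_of_le (norm_add_le_of_le (norm_add_le_of_le (norm_add_le_of_le (norm_add_le_of_le
      (norm_add_le_of_le (norm_add_le_of_le (norm_add_le_of_le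
        (norm_mul_le_of_le (norm_mul_le_of_le f2 g3) hv)
        (norm_mul_le_of_le (norm_mul_le_of_le f2 g4) (norm_add_le_of_le hvv one1)))
        (norm_mul_le_of_le f1 g3))
        (norm_mul_le_of_le (norm_mul_le_of_le f1 g4) hvc))
        (norm_mul_le_of_le f1' g1'))
        (norm_mul_le_of_le (norm_mul_le_of_le f1' g2') hv))
        (norm_mul_le_of_le (norm_mul_le_of_le f2' g1') hvc))
        (norm_mul_le_of_le (norm_mul_le_of_le f2' g2') (norm_add_le_of_le hvv one1)))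
      (norm_add_le_of_le (norm_add_le_of_le
        (norm_mul_le_of_le s2 (norm_mul_le_of_le h2 hμ))
        (norm_mul_le_of_le s3 (norm_mul_le_of_le (norm_mul_le_of_le h3 hμ)
          (norm_add_le_of_le hv (norm_mul_le_of_le hμ hvc)))))
        (norm_mul_le_of_le s4 (norm_add_le_of_le (norm_add_le_of_le
          (norm_mul_le_of_le (norm_mul_le_of_le h4 hμ) hv2)
          (norm_mul_le_of_le (norm_mul_le_of_le h4 hμ3) hvc2))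
          (norm_mul_le_of_le (norm_mul_le_of_le h2 hμ2)
            (norm_sub_le_of_le (norm_mul_le_of_le h3 hvv) one1)))))).trans ?_
    have e2 : 100 * (1 + T) ^ 2 * S * M = 100 * (S * M) + 200 * (S * M * T) + 100 * (S * M * T ^ 2) := by ring
    rw [e2]
    nlinarith [hX, hXT, hXT2]
  · have e2 : 100 * (1 + T) ^ 2 * S * M = 100 * (S * M) + 200 * (S * M * T) + 100 * (S * M * T ^ 2) := by ring
    rw [e2]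
    intro j
    fin_cases j
    · exact s0.trans (by linarith)
    · exact s1.trans (by linarith)
    · exact s2.trans (by linarith)
    · exact s3.trans (by linarith)
    · exact s4.trans (by linarith)

end EW1
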