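import Pool.Agent.H1.EW.D0

/-!
ROW EW/Gf. Lower bound of a product of two polynomials. `prod_lb`: the map `(P, Q) ↦` coefficients of the product is continuous on `(Fin 5 → ℂ)²`, and does not vanish on the compact set
`‖P‖ = 1, ‖Q‖ = 1` (the product of two nonzero polynomials is nonzero); homogeneity.
`sj_lb`: `P = (conj e₂, conj e₁, e₀, e₁, e₂)` (coefficients of `w² Ut`), `Q = (e₂ μ⁴, e₁ μ³, e₀ μ², conj e₁ μ, conj e₂)` (coefficients of `w² Vt`); the coefficient of `w^(4+j)` of the product is `sj j`,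
the one of `w^(4-j)` is `μ^j sj j`, `‖μ‖ ≤ 1`.
-/

set_option autoImplicit false

namespace EW1

open Complex Set Filter Topology MeasureTheory
open scoped ComplexConjugate ContDiff Real

/-- coefficient of a product -/
noncomputable def pf (P Q : Fin 5 → ℂ) (n : ℕ) : ℂ :=
  ∑ i : Fin 5, ∑ j : Fin 5, if (i : ℕ) + (j : ℕ) = n then P i * Q j else 0

lemma pf_smul (c d : ℂ) (P Q : Fin 5 → ℂ) (n : ℕ) :
    pf (c • P) (d • Q) n = c * d * pf P Q n := by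
  unfold pf
  rw [Finset.mul_sum]
  refine Finset.sum_congr rfl fun i _ => ?_
  rw [Finset.mul_sum]
  refine Finset.sum_congr rfl fun j _ => ?_
  split_ifs
  · simp only [Pi.smul_apply, smul_eq_mul]
    ring
  · ring

lemma pf_cont (n : ℕ) : Continuous fun t : (Fin 5 → ℂ) × (Fin 5 → ℂ) => pf t.1 t.2 n := by
  unfold pf
  refine continuous_finsetSum _ fun i _ => continuous_finsetSum _ fun j _ => ?_
  split_ifs
  · fun_prop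
  · exact continuous_const

/-- the polynomial -/
noncomputable def pp (P : Fin 5 → ℂ) : Polynomial ℂ := ∑ i : Fin 5, Polynomial.monomial (i : ℕ) (P i)

lemma pp_mul (P Q : Fin 5 → ℂ) (n : ℕ) : (pp P * pp Q).coeff n = pf P Q n := by
  unfold pp pf
  rw [Finset.sum_mul_sum, Polynomial.finsetSum_coeff]
  refine Finset.sum_congr rfl fun i _ => ?_
  rw [Polynomial.finsetSum_coeff]
  refine Finset.sum_congr rfl fun j _ => ?_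
  rw [Polynomial.monomial_mul_monomial, Polynomial.coeff_monomial]

lemma pp_coeff (P : Fin 5 → ℂ) (i : Fin 5) : (pp P).coeff (i : ℕ) = P i := by
  unfold pp
  rw [Polynomial.finsetSum_coeff]
  simp only [Polynomial.coeff_monomial]
  rw [Finset.sum_eq_single i]
  · rw [if_pos rfl]
  · intro j _ hj
    rw [if_neg (fun h => hj (Fin.ext h))]
  · intro h
    exact absurd (Finset.mem_univ i) h

lemma pf_big (P Q : Fin 5 → ℂ) {n : ℕ} (hn : 9 ≤ n) : pf P Q n = 0 := by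
  unfold pf
  refine Finset.sum_eq_zero fun i _ => Finset.sum_eq_zero fun j _ => ?_
  rw [if_neg]
  have h1 := i.isLt
  have h2 := j.isLt
  omega

lemma pf_ne {P Q : Fin 5 → ℂ} (h : ∀ n : Fin 9, pf P Q (n : ℕ) = 0) : P = 0 ∨ Q = 0 := by
  have h1 : pp P * pp Q = 0 := by
    ext n
    rw [pp_mul, Polynomial.coeff_zero]
    rcases Nat.lt_or_ge n 9 with hn | hn
    · exact h ⟨n, hn⟩
    · exact pf_big P Q hn
  rcases mul_eq_zero.1 h1 with h2 | h2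
  · left
    funext i
    rw [← pp_coeff P i, h2, Polynomial.coeff_zero]
    rfl
  · right
    funext i
    rw [← pp_coeff Q i, h2, Polynomial.coeff_zero]
    rfl

lemma l1_le (P : Fin 5 → ℂ) : ∑ i, ‖P i‖ ≤ 5 * ‖P‖ := by
  have h1 : ∑ i, ‖P i‖ ≤ ∑ _i : Fin 5, ‖P‖ := Finset.sum_le_sum fun i _ => norm_le_pi_norm P i
  refine le_trans h1 (le_of_eq ?_)
  rw [Finset.sum_const, Finset.card_univ, Fintype.card_fin, nsmul_eq_mul]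
  norm_num

/-- the sum of the absolute values of the coefficients of the product -/
noncomputable def ff (P Q : Fin 5 → ℂ) : ℝ := ∑ n : Fin 9, ‖pf P Q (n : ℕ)‖

lemma ff_nonneg (P Q : Fin 5 → ℂ) : 0 ≤ ff P Q := Finset.sum_nonneg fun n _ => norm_nonneg _

lemma ff_cont : Continuous fun t : (Fin 5 → ℂ) × (Fin 5 → ℂ) => ff t.1 t.2 :=
  continuous_finsetSum _ fun n _ => (pf_cont n).norm

lemma ff_zero {P Q : Fin 5 → ℂ} (h : ff P Q = 0) : P = 0 ∨ Q = 0 := by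
  apply pf_ne
  intro n
  have h2 := (Finset.sum_eq_zero_iff_of_nonneg
    (fun n _ => norm_nonneg (pf P Q ((n : Fin 9) : ℕ)))).1 h n (Finset.mem_univ n)
  exact norm_eq_zero.1 h2

lemma ff_smul (c d : ℂ) (P Q : Fin 5 → ℂ) : ff (c • P) (d • Q) = ‖c‖ * ‖d‖ * ff P Q := by
  unfold ff
  rw [Finset.mul_sum]
  refine Finset.sum_congr rfl fun n _ => ?_
  rw [pf_smul, norm_mul, norm_mul]

lemma ff_min : ∃ m : ℝ, 0 < m ∧ ∀ P Q : Fin 5 → ℂ, ‖P‖ = 1 → ‖Q‖ = 1 → m ≤ ff P Q := by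
  have hKc : IsCompact (Metric.sphere (0 : Fin 5 → ℂ) 1 ×ˢ Metric.sphere (0 : Fin 5 → ℂ) 1) :=
    (isCompact_sphere 0 1).prod (isCompact_sphere 0 1)
  obtain ⟨x, hx⟩ := (NormedSpace.sphere_nonempty (E := Fin 5 → ℂ) (x := 0) (r := 1)).2
    (by norm_num)
  obtain ⟨t, ht, hmin⟩ := hKc.exists_isMinOn ⟨(x, x), hx, hx⟩ ff_cont.continuousOn
  rw [isMinOn_iff] at hmin
  refine ⟨ff t.1 t.2, ?_, fun P Q hP hQ => ?_⟩
  · rcases lt_or_eq_of_le (ff_nonneg t.1 t.2) with h | h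
    · exact h
    · exfalso
      obtain ⟨ht1, ht2⟩ := Set.mem_prod.1 ht
      rcases ff_zero h.symm with h2 | h2
      · rw [mem_sphere_zero_iff_norm, h2, norm_zero] at ht1
        norm_num at ht1
      · rw [mem_sphere_zero_iff_norm, h2, norm_zero] at ht2
        norm_num at ht2
  · exact hmin (P, Q) (Set.mem_prod.2
      ⟨mem_sphere_zero_iff_norm.2 hP, mem_sphere_zero_iff_norm.2 hQ⟩)

theorem prod_lb' : ∃ C : ℝ, 0 < C ∧ ∀ P Q : Fin 5 → ℂ,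
    C * (∑ i, ‖P i‖) * (∑ i, ‖Q i‖) ≤ ff P Q := by
  obtain ⟨m, hm0, hm⟩ := ff_min
  refine ⟨m / 25, by positivity, fun P Q => ?_⟩
  by_cases hP : P = 0
  · rw [hP]
    simp only [Pi.zero_apply, norm_zero, Finset.sum_const_zero, mul_zero, zero_mul]
    exact ff_nonneg _ _
  by_cases hQ : Q = 0
  · rw [hQ]
    simp only [Pi.zero_apply, norm_zero, Finset.sum_const_zero, mul_zero]
    exact ff_nonneg _ _
  have ha : 0 < ‖P‖ := norm_pos_iff.2 hP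
  have hb : 0 < ‖Q‖ := norm_pos_iff.2 hQ
  have e1 : ‖(((‖P‖⁻¹ : ℝ) : ℂ))‖ = ‖P‖⁻¹ := by
    rw [Complex.norm_real, norm_inv, norm_norm]
  have e2 : ‖(((‖Q‖⁻¹ : ℝ) : ℂ))‖ = ‖Q‖⁻¹ := by
    rw [Complex.norm_real, norm_inv, norm_norm]
  have h1 := hm (((‖P‖⁻¹ : ℝ) : ℂ) • P) (((‖Q‖⁻¹ : ℝ) : ℂ) • Q)
    (by rw [norm_smul, e1]; exact inv_mul_cancel₀ (ne_of_gt ha))
    (by rw [norm_smul, e2]; exact inv_mul_cancel₀ (ne_of_gt hb))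
  rw [ff_smul, e1, e2] at h1
  have h3 : m * (‖P‖ * ‖Q‖) ≤ ff P Q := by
    have h4 := mul_le_mul_of_nonneg_right h1 (mul_nonneg ha.le hb.le)
    have h5 : ‖P‖⁻¹ * ‖Q‖⁻¹ * ff P Q * (‖P‖ * ‖Q‖) = ff P Q := by
      field_simp
    rwa [h5] at h4
  have h6 : (∑ i, ‖P i‖) * (∑ i, ‖Q i‖) ≤ (5 * ‖P‖) * (5 * ‖Q‖) :=
    mul_le_mul (l1_le P) (l1_le Q) (Finset.sum_nonneg fun i _ => norm_nonneg _) (by positivity)
  calc m / 25 * (∑ i, ‖P i‖) * (∑ i, ‖Q i‖) = m / 25 * ((∑ i, ‖P i‖) * (∑ i, ‖Q i‖)) := by ring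
    _ ≤ m / 25 * ((5 * ‖P‖) * (5 * ‖Q‖)) := mul_le_mul_of_nonneg_left h6 (by positivity)
    _ = m * (‖P‖ * ‖Q‖) := by ring
    _ ≤ _ := h3

theorem prod_lb : ∃ C : ℝ, 0 < C ∧ ∀ P Q : Fin 5 → ℂ, C * (∑ i, ‖P i‖) * (∑ i, ‖Q i‖) ≤
    ∑ n : Fin 9, ‖∑ i : Fin 5, ∑ j : Fin 5, if (i : ℕ) + (j : ℕ) = (n : ℕ) then P i * Q j else 0‖ :=
  prod_lb'

theorem sj_lb : ∃ C : ℝ, 0 < C ∧ ∀ (μ : ℂ) (e₀ : ℝ) (e₁ e₂ : ℂ), ‖μ‖ ≤ 1 →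
    C * (|e₀| + ‖e₁‖ + ‖e₂‖) * (‖e₂‖ + ‖e₁‖ * ‖μ‖ + |e₀| * ‖μ‖ ^ 2) ≤ ∑ j, ‖sj μ e₀ e₁ e₂ j‖ := by
  obtain ⟨C, hC, h⟩ := prod_lb'
  refine ⟨C / 2, by positivity, fun μ e₀ e₁ e₂ hμ => ?_⟩
  set P : Fin 5 → ℂ := ![conj e₂, conj e₁, e₀, e₁, e₂] with hP
  set Q : Fin 5 → ℂ := ![e₂ * μ ^ 4, e₁ * μ ^ 3, e₀ * μ ^ 2, conj e₁ * μ, conj e₂] with hQ
  have h1 := h P Q
  have p0 : pf P Q 0 = μ ^ 4 * sj μ e₀ e₁ e₂ 4 := by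
    simp [pf, sj, hP, hQ, Fin.sum_univ_succ]
    ring
  have p1 : pf P Q 1 = μ ^ 3 * sj μ e₀ e₁ e₂ 3 := by
    simp [pf, sj, hP, hQ, Fin.sum_univ_succ]
    ring
  have p2 : pf P Q 2 = μ ^ 2 * sj μ e₀ e₁ e₂ 2 := by
    simp [pf, sj, hP, hQ, Fin.sum_univ_succ]
    ring
  have p3 : pf P Q 3 = μ * sj μ e₀ e₁ e₂ 1 := by
    simp [pf, sj, hP, hQ, Fin.sum_univ_succ]
    ring
  have p4 : pf P Q 4 = sj μ e₀ e₁ e₂ 0 := by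
    simp [pf, sj, hP, hQ, Fin.sum_univ_succ]
    ring
  have p5 : pf P Q 5 = sj μ e₀ e₁ e₂ 1 := by
    simp [pf, sj, hP, hQ, Fin.sum_univ_succ]
    ring
  have p6 : pf P Q 6 = sj μ e₀ e₁ e₂ 2 := by
    simp [pf, sj, hP, hQ, Fin.sum_univ_succ]
    ring
  have p7 : pf P Q 7 = sj μ e₀ e₁ e₂ 3 := by
    simp [pf, sj, hP, hQ, Fin.sum_univ_succ]
    ring
  have p8 : pf P Q 8 = sj μ e₀ e₁ e₂ 4 := by
    simp [pf, sj, hP, hQ, Fin.sum_univ_succ]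
  have hff : ff P Q = ‖pf P Q 0‖ + ‖pf P Q 1‖ + ‖pf P Q 2‖ + ‖pf P Q 3‖ + ‖pf P Q 4‖ +
      ‖pf P Q 5‖ + ‖pf P Q 6‖ + ‖pf P Q 7‖ + ‖pf P Q 8‖ := by
    unfold ff
    rw [Fin.sum_univ_eq_sum_range (fun n => ‖pf P Q n‖) 9]
    simp only [Finset.sum_range_succ, Finset.sum_range_zero, zero_add]
  have hsum : ∑ j, ‖sj μ e₀ e₁ e₂ j‖ = ‖sj μ e₀ e₁ e₂ 0‖ + ‖sj μ e₀ e₁ e₂ 1‖ +
      ‖sj μ e₀ e₁ e₂ 2‖ + ‖sj μ e₀ e₁ e₂ 3‖ + ‖sj μ e₀ e₁ e₂ 4‖ := by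
    rw [Fin.sum_univ_five]
  have hμk : ∀ k : ℕ, ∀ a : ℂ, ‖μ ^ k * a‖ ≤ ‖a‖ := by
    intro k a
    rw [norm_mul, norm_pow]
    exact mul_le_of_le_one_left (norm_nonneg _) (pow_le_one₀ (norm_nonneg _) hμ)
  have hle : ff P Q ≤ 2 * ∑ j, ‖sj μ e₀ e₁ e₂ j‖ := by
    rw [hff, hsum, p0, p1, p2, p3, p4, p5, p6, p7, p8]
    have q1 := hμk 4 (sj μ e₀ e₁ e₂ 4)
    have q2 := hμk 3 (sj μ e₀ e₁ e₂ 3)
    have q3 := hμk 2 (sj μ e₀ e₁ e₂ 2)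
    have q4 := hμk 1 (sj μ e₀ e₁ e₂ 1)
    rw [pow_one] at q4
    have q5 := norm_nonneg (sj μ e₀ e₁ e₂ 0)
    linarith
  have hPn : |e₀| + ‖e₁‖ + ‖e₂‖ ≤ ∑ i, ‖P i‖ := by
    have e : ∑ i, ‖P i‖ = ‖e₂‖ + ‖e₁‖ + |e₀| + ‖e₁‖ + ‖e₂‖ := by
      rw [Fin.sum_univ_five]
      simp [hP]
    rw [e]
    have := norm_nonneg e₁
    have := norm_nonneg e₂
    linarith
  have hQn : ‖e₂‖ + ‖e₁‖ * ‖μ‖ + |e₀| * ‖μ‖ ^ 2 ≤ ∑ i, ‖Q i‖ := by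
    have e : ∑ i, ‖Q i‖ = ‖e₂‖ * ‖μ‖ ^ 4 + ‖e₁‖ * ‖μ‖ ^ 3 + |e₀| * ‖μ‖ ^ 2 + ‖e₁‖ * ‖μ‖ +
        ‖e₂‖ := by
      rw [Fin.sum_univ_five]
      simp [hQ]
    rw [e]
    have t1 : 0 ≤ ‖e₂‖ * ‖μ‖ ^ 4 := by positivity
    have t2 : 0 ≤ ‖e₁‖ * ‖μ‖ ^ 3 := by positivity
    linarith
  have hX : 0 ≤ |e₀| + ‖e₁‖ + ‖e₂‖ := by positivity
  have hY : 0 ≤ ‖e₂‖ + ‖e₁‖ * ‖μ‖ + |e₀| * ‖μ‖ ^ 2 := by positivity
  have h2 : (|e₀| + ‖e₁‖ + ‖e₂‖) * (‖e₂‖ + ‖e₁‖ * ‖μ‖ + |e₀| * ‖μ‖ ^ 2) ≤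
      (∑ i, ‖P i‖) * (∑ i, ‖Q i‖) := mul_le_mul hPn hQn hY (le_trans hX hPn)
  have h3 := mul_le_mul_of_nonneg_left h2 hC.le
  nlinarith [h1, h3, hle]

end EW1
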