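import Pool.Agent.H1.EW.D0

/-!
ROW EW/Gg. A curve on which a polynomial is not small. For fixed `μ`, `s ≠ 0`, the function `v ↦ Fb μ s (v + μ v̄)` is a nonzero polynomial of degree `≤ 4` in `ζ = v + μ v̄` (the Faber polynomials have
leading coefficient 1, so the polynomial is nonzero), and `v ↦ v + μ v̄` is injective (`‖μ‖ < 1`): it has at most 4 zeros, so for all but 4 values `τ ∈ [σ₁, σ₂]` it has no zero on `‖v‖ = τ`.
Compactness of `{‖μ‖ ≤ μ₀} × {∑ ‖s j‖ = 1}`: for each point `(μ, s)` take such a `τ`; `min over ‖v‖ = τ of ‖Fb μ s (v + μ v̄)‖ > 0`, and in a neighbourhood of `(μ, s)` it is at least half of it; finite cover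
(or a sequence argument: `IsCompact.elim_nhds_subcover`, or by contradiction with `C = 1/n` and a convergent subsequence). Homogeneity in `s`.
-/

set_option autoImplicit false

namespace EW1

open Complex Set Filter Topology MeasureTheory
open scoped ComplexConjugate ContDiff Real

noncomputable def GgP (μ : ℂ) (s : Fin 5 → ℂ) : Polynomial ℂ :=
  Polynomial.C (s 0 - 2 * μ * s 2 + 2 * μ ^ 2 * s 4) + Polynomial.C (s 1 - 3 * μ * s 3) * Polynomial.X +
    Polynomial.C (s 2 - 4 * μ * s 4) * Polynomial.X ^ 2 + Polynomial.C (s 3) * Polynomial.X ^ 3 +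
    Polynomial.C (s 4) * Polynomial.X ^ 4

theorem GgP_eval (μ : ℂ) (s : Fin 5 → ℂ) (ζ : ℂ) : (GgP μ s).eval ζ = Fb μ s ζ := by
  simp only [GgP, Fb, Polynomial.eval_add, Polynomial.eval_mul, Polynomial.eval_C, Polynomial.eval_X, Polynomial.eval_pow]
  ring

theorem GgP_ne (μ : ℂ) (s : Fin 5 → ℂ) (hs : s ≠ 0) : GgP μ s ≠ 0 := by
  intro h
  have hc : ∀ n, (GgP μ s).coeff n = 0 := by intro n; rw [h]; simp
  have h4 : s 4 = 0 := by
    have := hc 4
    simpa [GgP, Polynomial.coeff_X, Polynomial.coeff_C, Polynomial.coeff_X_pow, -map_sub, -map_add, -map_mul] using this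
  have h3 : s 3 = 0 := by
    have := hc 3
    simpa [GgP, Polynomial.coeff_X, Polynomial.coeff_C, Polynomial.coeff_X_pow, -map_sub, -map_add, -map_mul] using this
  have h2 : s 2 = 0 := by
    have := hc 2
    simpa [GgP, Polynomial.coeff_X, Polynomial.coeff_C, Polynomial.coeff_X_pow, -map_sub, -map_add, -map_mul, h4] using this
  have h1 : s 1 = 0 := by
    have := hc 1
    simpa [GgP, Polynomial.coeff_X, Polynomial.coeff_C, Polynomial.coeff_X_pow, -map_sub, -map_add, -map_mul, h3] using this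
  have h0 : s 0 = 0 := by
    have := hc 0
    simpa [GgP, Polynomial.coeff_X, Polynomial.coeff_C, Polynomial.coeff_X_pow, -map_sub, -map_add, -map_mul, h4, h2] using this
  apply hs
  funext j
  fin_cases j <;> simp [h0, h1, h2, h3, h4]

theorem Gg_pt {σ₁ σ₂ : ℝ} (h2 : σ₁ < σ₂) (μ : ℂ) (hμ : ‖μ‖ < 1) (s : Fin 5 → ℂ) (hs : s ≠ 0) :
    ∃ τ : ℝ, σ₁ ≤ τ ∧ τ ≤ σ₂ ∧ ∀ v : ℂ, ‖v‖ = τ → Fb μ s (v + μ * conj v) ≠ 0 := by
  classical
  set B : Finset ℝ := (GgP μ s).roots.toFinset.image (fun ζ => ‖(ζ - μ * conj ζ) / ((1 - ‖μ‖ ^ 2 : ℝ) : ℂ)‖) with hB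
  have hinf : (Icc σ₁ σ₂ \ (B : Set ℝ)).Nonempty := by
    apply ((Icc_infinite h2).sdiff B.finite_toSet).nonempty
  obtain ⟨τ, hτ, hτB⟩ := hinf
  refine ⟨τ, hτ.1, hτ.2, ?_⟩
  intro v hv h0
  apply hτB
  have hne : ((1 - ‖μ‖ ^ 2 : ℝ) : ℂ) ≠ 0 := by
    have : (0 : ℝ) < 1 - ‖μ‖ ^ 2 := by nlinarith [norm_nonneg μ]
    exact_mod_cast this.ne'
  have hroot : (v + μ * conj v) ∈ (GgP μ s).roots.toFinset := by
    rw [Multiset.mem_toFinset, Polynomial.mem_roots (GgP_ne μ s hs), Polynomial.IsRoot.def, GgP_eval]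
    exact h0
  have hval : ((v + μ * conj v) - μ * conj (v + μ * conj v)) / ((1 - ‖μ‖ ^ 2 : ℝ) : ℂ) = v := by
    rw [div_eq_iff hne]
    have hm : (((‖μ‖ ^ 2 : ℝ)) : ℂ) = μ * conj μ := by
      rw [Complex.mul_conj, Complex.normSq_eq_norm_sq]
    rw [Complex.ofReal_sub, hm]
    simp only [map_add, map_mul, Complex.conj_conj, Complex.ofReal_one]
    ring
  rw [hB, Finset.coe_image]
  refine ⟨v + μ * conj v, by exact_mod_cast hroot, ?_⟩
  simp only
  rw [hval]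
  exact hv

theorem Gg_cont : Continuous (fun q : (ℂ × (Fin 5 → ℂ)) × ℂ => ‖Fb q.1.1 q.1.2 (q.2 + q.1.1 * conj q.2)‖) := by
  unfold Fb
  have hs : ∀ j : Fin 5, Continuous (fun q : (ℂ × (Fin 5 → ℂ)) × ℂ => q.1.2 j) := by
    intro j
    exact (continuous_apply j).comp (continuous_snd.comp continuous_fst)
  have h0 := hs 0
  have h1 := hs 1
  have h2 := hs 2
  have h3 := hs 3
  have h4 := hs 4
  have hm : Continuous (fun q : (ℂ × (Fin 5 → ℂ)) × ℂ => q.1.1) := continuous_fst.comp continuous_fst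
  have hv : Continuous (fun q : (ℂ × (Fin 5 → ℂ)) × ℂ => q.2) := continuous_snd
  have hc : Continuous (fun q : (ℂ × (Fin 5 → ℂ)) × ℂ => conj q.2) := Complex.continuous_conj.comp continuous_snd
  fun_prop

theorem Cur {σ₁ σ₂ μ₀ : ℝ} (h1 : 0 < σ₁) (h2 : σ₁ < σ₂) (h3 : 0 ≤ μ₀) (h4 : μ₀ < 1) : ∃ C : ℝ, 0 < C ∧
    ∀ (μ : ℂ) (s : Fin 5 → ℂ), ‖μ‖ ≤ μ₀ → ∃ τ : ℝ, σ₁ ≤ τ ∧ τ ≤ σ₂ ∧
      ∀ v : ℂ, ‖v‖ = τ → C * ∑ j, ‖s j‖ ≤ ‖Fb μ s (v + μ * conj v)‖ := by
  set K : Set (ℂ × (Fin 5 → ℂ)) := {p | ‖p.1‖ ≤ μ₀ ∧ ∑ j, ‖p.2 j‖ = 1} with hK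
  have hKc : IsCompact K := by
    apply Metric.isCompact_of_isClosed_isBounded
    · apply IsClosed.inter
      · exact isClosed_le (continuous_norm.comp continuous_fst) continuous_const
      · apply isClosed_eq _ continuous_const
        apply continuous_finsetSum
        intro j _
        exact continuous_norm.comp ((continuous_apply j).comp continuous_snd)
    · rw [isBounded_iff_forall_norm_le]
      refine ⟨1, ?_⟩
      rintro ⟨μ, s⟩ ⟨ha, hb⟩
      simp only at ha hb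
      rw [Prod.norm_def]
      apply max_le
      · simp only
        linarith
      · simp only
        rw [pi_norm_le_iff_of_nonneg zero_le_one]
        intro j
        rw [← hb]
        exact Finset.single_le_sum (f := fun j => ‖s j‖) (fun i _ => norm_nonneg _) (Finset.mem_univ j)
  have key : ∃ C : ℝ, 0 < C ∧ ∀ p ∈ K, ∃ τ : ℝ, σ₁ ≤ τ ∧ τ ≤ σ₂ ∧
      ∀ v : ℂ, ‖v‖ = τ → C ≤ ‖Fb p.1 p.2 (v + p.1 * conj v)‖ := by
    refine hKc.induction_on (p := fun S => ∃ C : ℝ, 0 < C ∧ ∀ p ∈ S, ∃ τ : ℝ, σ₁ ≤ τ ∧ τ ≤ σ₂ ∧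
      ∀ v : ℂ, ‖v‖ = τ → C ≤ ‖Fb p.1 p.2 (v + p.1 * conj v)‖) ?_ ?_ ?_ ?_
    · exact ⟨1, one_pos, fun p hp => absurd hp (Set.notMem_empty p)⟩
    · rintro S T hST ⟨C, hC, h⟩
      exact ⟨C, hC, fun p hp => h p (hST hp)⟩
    · rintro S T ⟨C, hC, h⟩ ⟨D, hD, g⟩
      refine ⟨min C D, lt_min hC hD, ?_⟩
      rintro p (hp | hp)
      · obtain ⟨τ, a, b, c⟩ := h p hp
        exact ⟨τ, a, b, fun v hv => (min_le_left _ _).trans (c v hv)⟩
      · obtain ⟨τ, a, b, c⟩ := g p hp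
        exact ⟨τ, a, b, fun v hv => (min_le_right _ _).trans (c v hv)⟩
    · rintro ⟨μ, s⟩ ⟨ha, hb⟩
      simp only at ha hb
      have hs : s ≠ 0 := by
        rintro rfl
        simp at hb
      obtain ⟨τ, hτ1, hτ2, hτ⟩ := Gg_pt h2 μ (ha.trans_lt h4) s hs
      have hsph : IsCompact (Metric.sphere (0 : ℂ) τ) := isCompact_sphere _ _
      have hcont : Continuous (fun v : ℂ => ‖Fb μ s (v + μ * conj v)‖) :=
        Gg_cont.comp (Continuous.prodMk_right (μ, s))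
      have hne : (Metric.sphere (0 : ℂ) τ).Nonempty := by
        refine ⟨(τ : ℂ), ?_⟩
        rw [mem_sphere_zero_iff_norm, Complex.norm_real, Real.norm_of_nonneg (h1.le.trans hτ1)]
      obtain ⟨v₀, hv₀, hmin⟩ := hsph.exists_isMinOn hne hcont.continuousOn
      set m := ‖Fb μ s (v₀ + μ * conj v₀)‖ with hm
      have hmpos : 0 < m := norm_pos_iff.mpr (hτ v₀ (mem_sphere_zero_iff_norm.mp hv₀))
      set W : Set ((ℂ × (Fin 5 → ℂ)) × ℂ) := {q | m / 2 < ‖Fb q.1.1 q.1.2 (q.2 + q.1.1 * conj q.2)‖} with hW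
      have hWo : IsOpen W := isOpen_lt continuous_const Gg_cont
      have hsub : ({(μ, s)} : Set (ℂ × (Fin 5 → ℂ))) ×ˢ Metric.sphere (0 : ℂ) τ ⊆ W := by
        rintro ⟨p, v⟩ ⟨hp, hv⟩
        simp only [mem_singleton_iff] at hp
        subst hp
        have := hmin hv
        simp only [mem_ofPred_eq] at this
        simp only [hW, mem_ofPred_eq]
        have h' : m ≤ ‖Fb μ s (v + μ * conj v)‖ := this
        linarith
      obtain ⟨u, w, hu, _, hpu, hsw, huw⟩ := generalized_tube_lemma isCompact_singleton hsph hWo hsub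
      refine ⟨u, mem_nhdsWithin_of_mem_nhds (hu.mem_nhds (hpu rfl)), m / 2, by positivity, ?_⟩
      intro p hp
      refine ⟨τ, hτ1, hτ2, ?_⟩
      intro v hv
      have : (p, v) ∈ W := huw ⟨hp, hsw (mem_sphere_zero_iff_norm.mpr hv)⟩
      exact le_of_lt this
  obtain ⟨C, hC, h⟩ := key
  refine ⟨C, hC, ?_⟩
  intro μ s hμ
  set S := ∑ j, ‖s j‖ with hS
  have hS0 : 0 ≤ S := Finset.sum_nonneg (fun j _ => norm_nonneg _)
  rcases hS0.eq_or_lt with h0 | hpos
  · refine ⟨σ₁, le_refl _, h2.le, ?_⟩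
    intro v _
    rw [← h0, mul_zero]
    exact norm_nonneg _
  · obtain ⟨τ, a, b, c⟩ := h (μ, fun j => s j / (S : ℂ)) (by
      refine ⟨hμ, ?_⟩
      simp only [norm_div, Complex.norm_real, Real.norm_of_nonneg hS0]
      rw [← Finset.sum_div, ← hS, div_self hpos.ne'])
    refine ⟨τ, a, b, ?_⟩
    intro v hv
    have hc := c v hv
    simp only at hc
    have hSc : (S : ℂ) ≠ 0 := by exact_mod_cast hpos.ne'
    have hF : Fb μ (fun j => s j / (S : ℂ)) (v + μ * conj v) = Fb μ s (v + μ * conj v) / (S : ℂ) := by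
      unfold Fb
      field_simp
    rw [hF, norm_div, Complex.norm_real, Real.norm_of_nonneg hS0, le_div_iff₀ hpos] at hc
    exact hc

end EW1
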