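import Pool.Agent.H1.EW.Ga

/-!
ROW EW/Gn. The main term. `D₁ = Dp c₁ r₁ μ₁ 1`, `D₂` likewise, `U = QQ₂ - QQ₁`: on `D₁ \ D₂`: `QQ₁ < 0 ≤ QQ₂`, `U > 0`; on `D₂ \ D₁`: `U < 0` (`QQ_neg_iff`). `m` is continuous on the compact closed ellipses, so all integrands are
bounded on bounded measurable sets. `∫_{D₁} - ∫_{D₂} = ∫_{D₁\D₂} - ∫_{D₂\D₁}` (the integral over `D₁ ∩ D₂` cancels). Second statement: `conj m (aa m) = aa ‖m‖²`, real part `U ‖m‖²` (`aa_re`).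
-/

set_option autoImplicit false

namespace EW1

open Complex Set Filter Topology MeasureTheory
open scoped ComplexConjugate ContDiff Real

theorem NN_nonneg (c₁ : ℂ) (r₁ : ℝ) (μ₁ c₂ : ℂ) (r₂ : ℝ) (μ₂ : ℂ) (m : ℂ → ℂ) : 0 ≤ NN c₁ r₁ μ₁ c₂ r₂ μ₂ m := by
  unfold NN
  exact integral_nonneg fun z => by positivity

theorem NN_symm (c₁ : ℂ) (r₁ : ℝ) (μ₁ c₂ : ℂ) (r₂ : ℝ) (μ₂ : ℂ) (m : ℂ → ℂ) :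
    NN c₁ r₁ μ₁ c₂ r₂ μ₂ m = NN c₂ r₂ μ₂ c₁ r₁ μ₁ m := by
  unfold NN
  rw [Set.union_comm]
  simp only [abs_sub_comm (QQ c₂ r₂ μ₂ _)]

private theorem Gn_re {c₁ c₂ : ℂ} {r₁ r₂ : ℝ} (hr₁ : 0 < r₁) (hr₂ : 0 < r₂) {μ₁ μ₂ : ℂ} (hμ₁ : ‖μ₁‖ < 1) (hμ₂ : ‖μ₂‖ < 1)
    (m : ℂ → ℂ) (z : ℂ) :
    (conj (m z) * (aa c₁ r₁ μ₁ c₂ r₂ μ₂ z * m z)).re = (QQ c₂ r₂ μ₂ z - QQ c₁ r₁ μ₁ z) * ‖m z‖ ^ 2 := by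
  have h1 : conj (m z) * (aa c₁ r₁ μ₁ c₂ r₂ μ₂ z * m z) =
      aa c₁ r₁ μ₁ c₂ r₂ μ₂ z * ((‖m z‖ ^ 2 : ℝ) : ℂ) := by
    rw [← Complex.normSq_eq_norm_sq, ← Complex.mul_conj]
    ring
  rw [h1, Complex.re_mul_ofReal, aa_re hr₁ hr₂ hμ₁ hμ₂]

private theorem Gn_int {c : ℂ} {r : ℝ} (hr : 0 < r) {μ : ℂ} (hμ : ‖μ‖ < 1) {N : Set ℂ}
    (h : {z | ‖vv c r μ z‖ ≤ 1} ⊆ N) {f : ℂ → ℂ} (hf : ContinuousOn f N) : IntegrableOn f (Dp c r μ 1) := by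
  have h1 : IntegrableOn f {z | ‖vv c r μ z‖ ≤ 1} :=
    (hf.mono h).integrableOn_compact (cDp_compact hr hμ 1)
  refine h1.mono_set (fun z hz => ?_)
  have h2 : ‖vv c r μ z‖ < 1 := hz
  exact h2.le

theorem NN_id {c₁ c₂ : ℂ} {r₁ r₂ : ℝ} (hr₁ : 0 < r₁) (hr₂ : 0 < r₂) {μ₁ μ₂ : ℂ} (hμ₁ : ‖μ₁‖ < 1) (hμ₂ : ‖μ₂‖ < 1)
    {N : Set ℂ} (hN : IsOpen N) (h₁ : {z | ‖vv c₁ r₁ μ₁ z‖ ≤ 1} ⊆ N) (h₂ : {z | ‖vv c₂ r₂ μ₂ z‖ ≤ 1} ⊆ N) {m : ℂ → ℂ}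
    (hm : DifferentiableOn ℂ m N) :
    NN c₁ r₁ μ₁ c₂ r₂ μ₂ m = ((∫ z in Dp c₁ r₁ μ₁ 1, conj (m z) * (aa c₁ r₁ μ₁ c₂ r₂ μ₂ z * m z)) -
      ∫ z in Dp c₂ r₂ μ₂ 1, conj (m z) * (aa c₁ r₁ μ₁ c₂ r₂ μ₂ z * m z)).re := by
  have hmc : ContinuousOn m N := hm.continuousOn
  have hac : Continuous (fun z => aa c₁ r₁ μ₁ c₂ r₂ μ₂ z) := by
    unfold aa
    fun_prop
  have hfc : ContinuousOn (fun z => conj (m z) * (aa c₁ r₁ μ₁ c₂ r₂ μ₂ z * m z)) N :=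
    (Complex.continuous_conj.comp_continuousOn hmc).mul (hac.continuousOn.mul hmc)
  have hi1 := Gn_int hr₁ hμ₁ h₁ hfc
  have hi2 := Gn_int hr₂ hμ₂ h₂ hfc
  have hM1 : MeasurableSet (Dp c₁ r₁ μ₁ 1) := (Dp_open c₁ r₁ μ₁ 1).measurableSet
  have hM2 : MeasurableSet (Dp c₂ r₂ μ₂ 1) := (Dp_open c₂ r₂ μ₂ 1).measurableSet
  have e1 := integral_inter_add_sdiff hM2 hi1
  have e2 := integral_inter_add_sdiff hM1 hi2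
  rw [Set.inter_comm] at e2
  have hA : IntegrableOn (fun z => conj (m z) * (aa c₁ r₁ μ₁ c₂ r₂ μ₂ z * m z))
      (Dp c₁ r₁ μ₁ 1 \ Dp c₂ r₂ μ₂ 1) := hi1.mono_set Set.sdiff_subset
  have hB : IntegrableOn (fun z => conj (m z) * (aa c₁ r₁ μ₁ c₂ r₂ μ₂ z * m z))
      (Dp c₂ r₂ μ₂ 1 \ Dp c₁ r₁ μ₁ 1) := hi2.mono_set Set.sdiff_subset
  have hAr : ∫ z in Dp c₁ r₁ μ₁ 1 \ Dp c₂ r₂ μ₂ 1, |QQ c₂ r₂ μ₂ z - QQ c₁ r₁ μ₁ z| * ‖m z‖ ^ 2 =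
      (∫ z in Dp c₁ r₁ μ₁ 1 \ Dp c₂ r₂ μ₂ 1, conj (m z) * (aa c₁ r₁ μ₁ c₂ r₂ μ₂ z * m z)).re := by
    have h3 := Complex.reCLM.integral_comp_comm hA
    rw [Complex.reCLM_apply] at h3
    rw [← h3]
    refine setIntegral_congr_fun (hM1.diff hM2) fun z hz => ?_
    have h4 : QQ c₁ r₁ μ₁ z < 0 := (QQ_neg_iff hr₁ hμ₁ z).2 hz.1
    have h5 : 0 ≤ QQ c₂ r₂ μ₂ z := by
      by_contra hcon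
      exact hz.2 ((QQ_neg_iff hr₂ hμ₂ z).1 (not_le.1 hcon))
    simp only [Complex.reCLM_apply]
    rw [Gn_re hr₁ hr₂ hμ₁ hμ₂, abs_of_pos (by linarith)]
  have hBr : ∫ z in Dp c₂ r₂ μ₂ 1 \ Dp c₁ r₁ μ₁ 1, |QQ c₂ r₂ μ₂ z - QQ c₁ r₁ μ₁ z| * ‖m z‖ ^ 2 =
      -(∫ z in Dp c₂ r₂ μ₂ 1 \ Dp c₁ r₁ μ₁ 1, conj (m z) * (aa c₁ r₁ μ₁ c₂ r₂ μ₂ z * m z)).re := by
    have h3 := Complex.reCLM.integral_comp_comm hB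
    rw [Complex.reCLM_apply] at h3
    rw [← h3, ← integral_neg]
    refine setIntegral_congr_fun (hM2.diff hM1) fun z hz => ?_
    have h4 : QQ c₂ r₂ μ₂ z < 0 := (QQ_neg_iff hr₂ hμ₂ z).2 hz.1
    have h5 : 0 ≤ QQ c₁ r₁ μ₁ z := by
      by_contra hcon
      exact hz.2 ((QQ_neg_iff hr₁ hμ₁ z).1 (not_le.1 hcon))
    simp only [Complex.reCLM_apply]
    rw [Gn_re hr₁ hr₂ hμ₁ hμ₂, abs_of_neg (by linarith)]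
    ring
  have hdis : Disjoint (Dp c₁ r₁ μ₁ 1 \ Dp c₂ r₂ μ₂ 1) (Dp c₂ r₂ μ₂ 1 \ Dp c₁ r₁ μ₁ 1) := by
    rw [Set.disjoint_left]
    intro z hz hz'
    exact hz'.2 hz.1
  have hAi : IntegrableOn (fun z => |QQ c₂ r₂ μ₂ z - QQ c₁ r₁ μ₁ z| * ‖m z‖ ^ 2)
      (Dp c₁ r₁ μ₁ 1 \ Dp c₂ r₂ μ₂ 1) := by
    have h3 : IntegrableOn (fun z => |(conj (m z) * (aa c₁ r₁ μ₁ c₂ r₂ μ₂ z * m z)).re|)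
        (Dp c₁ r₁ μ₁ 1 \ Dp c₂ r₂ μ₂ 1) := (hA.re).abs
    refine h3.congr_fun (fun z _ => ?_) (hM1.diff hM2)
    simp only [Gn_re hr₁ hr₂ hμ₁ hμ₂]
    rw [abs_mul, abs_of_nonneg (sq_nonneg ‖m z‖)]
  have hBi : IntegrableOn (fun z => |QQ c₂ r₂ μ₂ z - QQ c₁ r₁ μ₁ z| * ‖m z‖ ^ 2)
      (Dp c₂ r₂ μ₂ 1 \ Dp c₁ r₁ μ₁ 1) := by
    have h3 : IntegrableOn (fun z => |(conj (m z) * (aa c₁ r₁ μ₁ c₂ r₂ μ₂ z * m z)).re|)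
        (Dp c₂ r₂ μ₂ 1 \ Dp c₁ r₁ μ₁ 1) := (hB.re).abs
    refine h3.congr_fun (fun z _ => ?_) (hM2.diff hM1)
    simp only [Gn_re hr₁ hr₂ hμ₁ hμ₂]
    rw [abs_mul, abs_of_nonneg (sq_nonneg ‖m z‖)]
  unfold NN
  rw [setIntegral_union hdis (hM2.diff hM1) hAi hBi, hAr, hBr, ← e1, ← e2]
  simp only [Complex.sub_re, Complex.add_re]
  ring

end EW1
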