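import Pool.Agent.H1.EW.D0

/-!
ROW EW/Gp. The Cauchy-Pompeiu formula for compactly supported `C¹` functions. Polar coordinates at `z₁`: `dbar H (z₁ + ρ e^(iθ)) e^(-iθ) = (∂_ρ H + (i/ρ) ∂_θ H)/2`, the kernel `1/(z - z₁) = e^(-iθ)/ρ` and the
area element `ρ dρ dθ`: the integral is `(1/2) ∫∫ (∂_ρ H + (i/ρ) ∂_θ H) dθ dρ`; for fixed `ρ > 0` the `θ`-derivative integrates to `0`, for fixed `θ` the `ρ`-integral is `-H z₁`: total `-π H z₁`.
To avoid the singularity `(i/ρ)`: first fix `ρ` and integrate over `θ` (the function `ρ⁻¹ ∂_θ H` is bounded: it is `fderiv H (z) (i e^(iθ))`), so all integrands are bounded on the bounded support.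
Mathlib: `Complex.integral_comp_polarCoord_symm`, translation invariance.
-/

set_option autoImplicit false

namespace EW1

open Complex Set Filter Topology MeasureTheory
open scoped ComplexConjugate ContDiff Real

/-- the unit vector -/
private noncomputable def eu (t : ℝ) : ℂ := (Real.cos t : ℂ) + (Real.sin t : ℂ) * I

private theorem norm_eu (t : ℝ) : ‖eu t‖ = 1 := by
  have h : eu t = Complex.exp (t * I) := by
    rw [Complex.exp_mul_I]; simp [eu]
  rw [h, Complex.norm_exp_ofReal_mul_I]

private theorem eu_ne (t : ℝ) : eu t ≠ 0 := by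
  intro h
  have := norm_eu t
  rw [h, norm_zero] at this
  exact zero_ne_one this

private theorem cont_eu : Continuous eu := by
  unfold eu
  fun_prop

private theorem polar_lint (τ : ℝ) (hτ : 0 ≤ τ) :
    ∫⁻ z in Metric.ball (0 : ℂ) τ, ENNReal.ofReal ‖z‖⁻¹ = ENNReal.ofReal (2 * π * τ) := by
  rw [← lintegral_indicator measurableSet_ball, ← Complex.lintegral_comp_polarCoord_symm]
  have h1 : (∫⁻ p in polarCoord.target, ENNReal.ofReal p.1 •
      (Metric.ball (0 : ℂ) τ).indicator (fun z => ENNReal.ofReal ‖z‖⁻¹) (Complex.polarCoord.symm p)) =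
      ∫⁻ p in polarCoord.target, (Iio τ ×ˢ (univ : Set ℝ)).indicator (fun _ => (1 : ENNReal)) p := by
    refine setLIntegral_congr_fun polarCoord.open_target.measurableSet (fun p hp => ?_)
    have hp1 : 0 < p.1 := hp.1
    have hn : ‖Complex.polarCoord.symm p‖ = p.1 := by
      rw [Complex.norm_polarCoord_symm, abs_of_pos hp1]
    by_cases hc : p.1 < τ
    · have hm : Complex.polarCoord.symm p ∈ Metric.ball (0 : ℂ) τ := by
        rw [mem_ball_zero_iff, hn]; exact hc
      have hm2 : p ∈ (Iio τ ×ˢ (univ : Set ℝ)) := ⟨hc, mem_univ _⟩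
      simp only [indicator_of_mem hm, indicator_of_mem hm2]
      rw [hn, smul_eq_mul, ← ENNReal.ofReal_mul hp1.le, mul_inv_cancel₀ hp1.ne', ENNReal.ofReal_one]
    · have hm : Complex.polarCoord.symm p ∉ Metric.ball (0 : ℂ) τ := by
        rw [mem_ball_zero_iff, hn]; exact hc
      have hm2 : p ∉ (Iio τ ×ˢ (univ : Set ℝ)) := fun h => hc h.1
      simp only [indicator_of_notMem hm, indicator_of_notMem hm2, smul_zero]
  rw [h1, lintegral_indicator (measurableSet_Iio.prod MeasurableSet.univ), setLIntegral_one,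
    Measure.restrict_apply (measurableSet_Iio.prod MeasurableSet.univ)]
  have h2 : (Iio τ ×ˢ (univ : Set ℝ)) ∩ polarCoord.target = Ioo 0 τ ×ˢ Ioo (-π) π := by
    ext p
    simp only [polarCoord_target, mem_inter_iff, mem_prod, mem_Iio, mem_univ, and_true, mem_Ioi, mem_Ioo]
    tauto
  rw [h2, Measure.volume_eq_prod, Measure.prod_prod, Real.volume_Ioo, Real.volume_Ioo, ← ENNReal.ofReal_mul (by linarith)]
  congr 1
  ring

private theorem lint_ball (z₁ : ℂ) {τ : ℝ} (hτ : 0 ≤ τ) :
    ∫⁻ z in Metric.ball z₁ τ, ENNReal.ofReal ‖z - z₁‖⁻¹ = ENNReal.ofReal (2 * π * τ) := by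
  rw [← polar_lint τ hτ, ← lintegral_indicator measurableSet_ball, ← lintegral_indicator measurableSet_ball,
    ← lintegral_sub_right_eq_self (fun z => (Metric.ball (0 : ℂ) τ).indicator (fun z => ENNReal.ofReal ‖z‖⁻¹) z) z₁]
  refine lintegral_congr (fun z => ?_)
  by_cases h : z ∈ Metric.ball z₁ τ
  · have h' : z - z₁ ∈ Metric.ball (0 : ℂ) τ := by
      rw [mem_ball_zero_iff, ← dist_eq_norm]; exact h
    rw [indicator_of_mem h, indicator_of_mem h']
  · have h' : z - z₁ ∉ Metric.ball (0 : ℂ) τ := by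
      rw [mem_ball_zero_iff, ← dist_eq_norm]; exact h
    rw [indicator_of_notMem h, indicator_of_notMem h']

theorem ker_int (z₁ : ℂ) {τ : ℝ} (hτ : 0 ≤ τ) : IntegrableOn (fun z : ℂ => ‖z - z₁‖⁻¹) (Metric.ball z₁ τ) ∧
    ∫ z in Metric.ball z₁ τ, ‖z - z₁‖⁻¹ = 2 * π * τ := by
  have hm : Measurable (fun z : ℂ => ‖z - z₁‖⁻¹) := by fun_prop
  have h0 : ∀ z : ℂ, 0 ≤ ‖z - z₁‖⁻¹ := fun z => by positivity
  have hl := lint_ball z₁ hτ
  constructor
  · refine (lintegral_ofReal_ne_top_iff_integrable hm.aestronglyMeasurable (ae_of_all _ h0)).1 ?_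
    rw [hl]
    exact ENNReal.ofReal_ne_top
  · rw [integral_eq_lintegral_of_nonneg_ae (ae_of_all _ h0) hm.aestronglyMeasurable, hl,
      ENNReal.toReal_ofReal (by positivity)]

theorem pomp {H : ℂ → ℂ} (hH : ContDiff ℝ 1 H) (hc : HasCompactSupport H) (z₁ : ℂ) :
    ∫ z, dbar H z / (z - z₁) = -(π * H z₁) := by
  -- the support
  obtain ⟨R, hR0, hR⟩ : ∃ R : ℝ, 0 < R ∧ ∀ w : ℂ, R ≤ ‖w‖ → z₁ + w ∉ tsupport H := by
    obtain ⟨R, hR⟩ := hc.isCompact.isBounded.subset_ball z₁
    refine ⟨max R 1, by positivity, fun w hw hm => ?_⟩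
    have := hR hm
    rw [Metric.mem_ball, dist_eq_norm, add_sub_cancel_left] at this
    exact absurd (lt_of_le_of_lt (le_max_left R 1 |>.trans hw) this) (lt_irrefl _)
  have hD : ∀ w : ℂ, R ≤ ‖w‖ → fderiv ℝ H (z₁ + w) = 0 := by
    intro w hw
    have h := hR w hw
    have h2 : z₁ + w ∉ tsupport (fderiv ℝ H) := fun h' => h (tsupport_fderiv_subset ℝ h')
    exact image_eq_zero_of_notMem_tsupport h2
  have hH0 : ∀ w : ℂ, R ≤ ‖w‖ → H (z₁ + w) = 0 := fun w hw => image_eq_zero_of_notMem_tsupport (hR w hw)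
  have hd : ∀ z, HasFDerivAt H (fderiv ℝ H z) z := fun z => (hH.differentiable (by norm_num) z).hasFDerivAt
  have hcf : Continuous (fderiv ℝ H) := hH.continuous_fderiv (by norm_num)
  -- the two functions
  set f : ℝ × ℝ → ℂ := fun p => fderiv ℝ H (z₁ + p.1 * eu p.2) (eu p.2) with hf
  set g : ℝ × ℝ → ℂ := fun p => fderiv ℝ H (z₁ + p.1 * eu p.2) (I * eu p.2) with hg
  have hce : Continuous (fun p : ℝ × ℝ => eu p.2) := cont_eu.comp continuous_snd
  have hcz : Continuous (fun p : ℝ × ℝ => z₁ + (p.1 : ℂ) * eu p.2) := by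
    have : Continuous (fun p : ℝ × ℝ => (p.1 : ℂ)) := by fun_prop
    exact continuous_const.add (this.mul hce)
  have hfc : Continuous f := (hcf.comp hcz).clm_apply hce
  have hgc : Continuous g := (hcf.comp hcz).clm_apply (continuous_const.mul hce)
  -- reduction to polar coordinates
  have e1 : ∫ z, dbar H z / (z - z₁) = ∫ p in polarCoord.target, (f p + I * g p) / 2 := by
    rw [← integral_add_right_eq_self (fun z => dbar H z / (z - z₁)) z₁, ← Complex.integral_comp_polarCoord_symm]
    refine setIntegral_congr_fun polarCoord.open_target.measurableSet (fun p hp => ?_)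
    have hp1 : 0 < p.1 := hp.1
    have hpc : (p.1 : ℂ) ≠ 0 := by exact_mod_cast hp1.ne'
    have hs : Complex.polarCoord.symm p = p.1 * eu p.2 := by
      rw [Complex.polarCoord_symm_apply]; rfl
    simp only [hs, add_sub_cancel_right]
    rw [add_comm ((p.1 : ℂ) * eu p.2) z₁]
    set L := fderiv ℝ H (z₁ + p.1 * eu p.2) with hL
    have hLe : L (eu p.2) = Real.cos p.2 * L 1 + Real.sin p.2 * L I := by
      have : eu p.2 = Real.cos p.2 • (1 : ℂ) + Real.sin p.2 • I := by
        simp [eu]
      rw [this, map_add, map_smul, map_smul]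
      simp
    have hLi : L (I * eu p.2) = -(Real.sin p.2 * L 1) + Real.cos p.2 * L I := by
      have : I * eu p.2 = (-Real.sin p.2) • (1 : ℂ) + Real.cos p.2 • I := by
        simp only [eu]
        have := Complex.I_mul_I
        apply Complex.ext <;> simp
      rw [this, map_add, map_smul, map_smul]
      simp
    have hcs : (Real.cos p.2 : ℂ) ^ 2 + (Real.sin p.2 : ℂ) ^ 2 = 1 := by
      exact_mod_cast Real.cos_sq_add_sin_sq p.2
    have hee : eu p.2 ≠ 0 := eu_ne _
    simp only [hf, hg, dbar]
    rw [← hL, hLe, hLi, Complex.real_smul]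
    field_simp
    simp only [eu]
    linear_combination (-(L 1 + I * L I)) * hcs + (Real.sin p.2 * (L 1) * Real.sin p.2 - L I * Real.sin p.2 * Real.cos p.2) * Complex.I_sq
  -- restriction to a bounded set
  have hz : ∀ p : ℝ × ℝ, R ≤ p.1 → f p = 0 ∧ g p = 0 := by
    intro p hp
    have hn : R ≤ ‖(p.1 : ℂ) * eu p.2‖ := by
      rw [norm_mul, norm_eu, mul_one, Complex.norm_real, Real.norm_eq_abs, abs_of_nonneg (hR0.le.trans hp)]
      exact hp
    constructor
    · simp only [hf]; rw [hD _ hn]; rfl
    · simp only [hg]; rw [hD _ hn]; rfl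
  set S : Set (ℝ × ℝ) := Ioc 0 R ×ˢ Ioo (-π) π with hS
  have e2 : ∫ p in polarCoord.target, (f p + I * g p) / 2 = ∫ p in S, (f p + I * g p) / 2 := by
    refine setIntegral_eq_of_subset_of_forall_sdiff_eq_zero polarCoord.open_target.measurableSet ?_ ?_
    · rw [polarCoord_target]
      exact prod_mono (fun x hx => hx.1) (Subset.refl _)
    · intro p hp
      have h1 : R ≤ p.1 := by
        by_contra hlt
        exact hp.2 ⟨⟨hp.1.1, (not_le.1 hlt).le⟩, hp.1.2⟩
      rw [(hz p h1).1, (hz p h1).2]
      simp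
  have hSc : S ⊆ Icc 0 R ×ˢ Icc (-π) π := prod_mono Ioc_subset_Icc_self Ioo_subset_Icc_self
  have hfi : IntegrableOn f S := (hfc.continuousOn.integrableOn_compact (isCompact_Icc.prod isCompact_Icc)).mono_set hSc
  have hgi : IntegrableOn g S := (hgc.continuousOn.integrableOn_compact (isCompact_Icc.prod isCompact_Icc)).mono_set hSc
  have e3 : ∫ p in S, (f p + I * g p) / 2 = ((∫ p in S, f p) + I * ∫ p in S, g p) / 2 := by
    rw [integral_div, integral_add hfi (hgi.const_mul I), integral_const_mul]
  -- the radial part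
  have e4 : ∫ p in S, f p = -(2 * π * H z₁) := by
    have hr : (volume : Measure (ℝ × ℝ)).restrict S = (volume.restrict (Ioc 0 R)).prod (volume.restrict (Ioo (-π) π)) := by
      rw [hS, Measure.volume_eq_prod, Measure.prod_restrict]
    have hfi' : Integrable f ((volume.restrict (Ioc 0 R)).prod (volume.restrict (Ioo (-π) π))) := by
      rw [← hr]; exact hfi
    rw [hr, integral_prod_symm f hfi']
    have h1 : ∀ t : ℝ, ∫ s in Ioc 0 R, f (s, t) = -H z₁ := by
      intro t
      rw [← intervalIntegral.integral_of_le hR0.le]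
      have hder : ∀ s ∈ uIcc 0 R, HasDerivAt (fun s : ℝ => H (z₁ + (s : ℂ) * eu t)) (f (s, t)) s := by
        intro s _
        have h2 : HasDerivAt (fun s : ℝ => z₁ + (s : ℂ) * eu t) (eu t) s := by
          have := ((Complex.ofRealCLM.hasDerivAt (x := s)).mul_const (eu t)).const_add z₁
          simpa using this
        exact (hd _).comp_hasDerivAt s h2
      rw [intervalIntegral.integral_eq_sub_of_hasDerivAt hder]
      · have h3 : H (z₁ + (R : ℂ) * eu t) = 0 := by
          refine hH0 _ ?_
          rw [norm_mul, norm_eu, mul_one, Complex.norm_real, Real.norm_eq_abs, abs_of_pos hR0]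
        rw [h3]
        simp
      · exact (hfc.comp (by fun_prop : Continuous fun s : ℝ => (s, t))).intervalIntegrable _ _
    simp_rw [h1]
    rw [setIntegral_const, Measure.real, Real.volume_Ioo, ENNReal.toReal_ofReal (by linarith [Real.pi_pos]), Complex.real_smul]
    push_cast
    ring
  -- the angular part
  have e5 : ∫ p in S, g p = 0 := by
    have hr : (volume : Measure (ℝ × ℝ)).restrict S = (volume.restrict (Ioc 0 R)).prod (volume.restrict (Ioo (-π) π)) := by
      rw [hS, Measure.volume_eq_prod, Measure.prod_restrict]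
    have hgi' : Integrable g ((volume.restrict (Ioc 0 R)).prod (volume.restrict (Ioo (-π) π))) := by
      rw [← hr]; exact hgi
    rw [hr, integral_prod g hgi']
    have h1 : ∀ s ∈ Ioc 0 R, ∫ t in Ioo (-π) π, g (s, t) = 0 := by
      intro s hs
      have hs0 : (s : ℂ) ≠ 0 := by exact_mod_cast hs.1.ne'
      rw [← integral_Ioc_eq_integral_Ioo, ← intervalIntegral.integral_of_le (by linarith [Real.pi_pos])]
      have hder : ∀ t ∈ uIcc (-π) π, HasDerivAt (fun t : ℝ => H (z₁ + (s : ℂ) * eu t)) ((s : ℂ) * g (s, t)) t := by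
        intro t _
        have h2 : HasDerivAt (fun t : ℝ => z₁ + (s : ℂ) * eu t) (s * (I * eu t)) t := by
          have h3 : HasDerivAt eu (I * eu t) t := by
            have hcos := (Real.hasDerivAt_cos t).ofReal_comp
            have hsin := ((Real.hasDerivAt_sin t).ofReal_comp).mul_const I
            have := hcos.add hsin
            convert! this using 1
            simp only [eu]
            push_cast
            linear_combination (Complex.sin t) * Complex.I_sq
          exact (h3.const_mul (s : ℂ)).const_add z₁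
        have h4 := (hd (z₁ + (s : ℂ) * eu t)).comp_hasDerivAt t h2
        convert! h4 using 1
        simp only [hg]
        have : (s : ℂ) * (I * eu t) = s • (I * eu t) := by rw [Complex.real_smul]
        rw [this, map_smul, Complex.real_smul]
      have h5 : ∫ t in (-π)..π, (s : ℂ) * g (s, t) = 0 := by
        rw [intervalIntegral.integral_eq_sub_of_hasDerivAt hder]
        · have : eu π = eu (-π) := by simp [eu]
          rw [this, sub_self]
        · exact (continuous_const.mul (hgc.comp (by fun_prop : Continuous fun t : ℝ => (s, t)))).intervalIntegrable _ _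
      rw [intervalIntegral.integral_const_mul] at h5
      exact (mul_eq_zero.1 h5).resolve_left hs0
    rw [setIntegral_congr_fun measurableSet_Ioc h1]
    simp
  rw [e1, e2, e3, e4, e5]
  ring

end EW1
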