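import Pool.Agent.H1.EW.Ga
import Pool.Agent.H1.EW.Gp

/-!
ROW EW/Gq. The formula on an ellipse for a function with a double zero on the boundary. `H z = Y z * m z` on `Dp c r μ 1`, `0` outside. `H` is `C¹` on the plane: on the open set `Dp 1` clear; outside the closed ellipse `0`;
at a boundary point `p` (`QQ p = 0`): `Y m = QQ² W m`, `H = O(|QQ|²)` and `QQ = O(‖z - p‖)` so `fderiv H p = 0`, and `fderiv H z → 0` as `z → p` because `fderiv (QQ² W m) = QQ (...)`, continuous on `N`.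
Simplest: `H = (max (-QQ) 0)² W m` near the closed ellipse, `t ↦ (max t 0)²` is `C¹`; multiply by a cutoff or use that `H = 0` off the compact closed ellipse.
`dbar H = dbar Y * m` on the ellipse (`m` holomorphic), `0` outside the closed ellipse (the boundary is a null set, `Convex.addHaar_frontier`); `pomp`.
-/

set_option autoImplicit false

namespace EW1

open Complex Set Filter Topology MeasureTheory
open scoped ComplexConjugate ContDiff Real

theorem gq_hasDerivAt (t : ℝ) : HasDerivAt (fun t : ℝ => (max t 0) ^ 2) (2 * max t 0) t := by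
  rcases lt_trichotomy t 0 with ht | rfl | ht
  · rw [max_eq_right ht.le, mul_zero]
    refine (hasDerivAt_const t (0 : ℝ)).congr_of_eventuallyEq ?_
    filter_upwards [Iio_mem_nhds ht] with s hs
    rw [max_eq_right (le_of_lt hs)]
    norm_num
  · rw [max_self, mul_zero, hasDerivAt_iff_isLittleO_nhds_zero]
    simp only [zero_add, max_self, smul_zero, sub_zero, ne_eq, OfNat.ofNat_ne_zero, not_false_eq_true, zero_pow]
    have h1 : (fun h : ℝ => (max h 0) ^ 2) =O[𝓝 0] fun h : ℝ => h ^ 2 := by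
      refine Asymptotics.isBigO_of_le _ fun h => ?_
      rw [Real.norm_eq_abs, Real.norm_eq_abs, abs_pow, abs_pow]
      refine pow_le_pow_left₀ (abs_nonneg _) ?_ 2
      rcases le_total h 0 with hh | hh
      · rw [max_eq_right hh, abs_zero]
        exact abs_nonneg _
      · rw [max_eq_left hh]
    refine h1.trans_isLittleO ?_
    simpa using (Asymptotics.isLittleO_pow_pow (𝕜 := ℝ) (by norm_num : 1 < 2))
  · rw [max_eq_left ht.le]
    have h1 : HasDerivAt (fun t : ℝ => t ^ 2) (2 * t) t := by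
      simpa using hasDerivAt_pow 2 t
    refine h1.congr_of_eventuallyEq ?_
    filter_upwards [Ioi_mem_nhds ht] with s hs
    rw [max_eq_left (le_of_lt hs)]

theorem gq_contDiff : ContDiff ℝ 1 (fun t : ℝ => (max t 0) ^ 2) := by
  rw [contDiff_one_iff_deriv]
  refine ⟨fun t => (gq_hasDerivAt t).differentiableAt, ?_⟩
  have : deriv (fun t : ℝ => (max t 0) ^ 2) = fun t => 2 * max t 0 := by
    ext t
    exact (gq_hasDerivAt t).deriv
  rw [this]
  fun_prop

theorem gq_dbar_zero {F : ℂ → ℂ} {z : ℂ} (h : HasFDerivAt F (0 : ℂ →L[ℝ] ℂ) z) : dbar F z = 0 := by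
  unfold dbar
  rw [h.fderiv]
  simp

theorem pompD {c : ℂ} {r : ℝ} (hr : 0 < r) {μ : ℂ} (hμ : ‖μ‖ < 1) {Y W m : ℂ → ℂ} (hY : ContDiff ℝ 1 Y) (hW : ContDiff ℝ 1 W)
    (hYW : ∀ z, Y z = (QQ c r μ z : ℂ) ^ 2 * W z) {N : Set ℂ} (hN : IsOpen N) (hDN : {z | ‖vv c r μ z‖ ≤ 1} ⊆ N)
    (hm : DifferentiableOn ℂ m N) {z₁ : ℂ} (hz₁ : z₁ ∈ Dp c r μ 1) :
    ∫ z in Dp c r μ 1, dbar Y z * m z / (z - z₁) = -(π * (Y z₁ * m z₁)) := by
  have hDo := Dp_open c r μ 1
  have hDK : ∀ z ∈ Dp c r μ 1, ‖vv c r μ z‖ ≤ 1 := fun z hz => le_of_lt hz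
  have hDsub : Dp c r μ 1 ⊆ N := fun z hz => hDN (hDK z hz)
  have hKo : IsOpen {z : ℂ | ‖vv c r μ z‖ ≤ 1}ᶜ := by
    have : {z : ℂ | ‖vv c r μ z‖ ≤ 1}ᶜ = {z | 1 < ‖vv c r μ z‖} := by
      ext z
      simp
    rw [this]
    exact isOpen_lt continuous_const (vv_cont c r μ).norm
  set q : ℂ → ℝ := fun z => (max (-QQ c r μ z) 0) ^ 2 with hq
  have hQneg : ∀ z ∉ Dp c r μ 1, 0 ≤ QQ c r μ z := fun z hz => by
    by_contra hcon
    exact hz ((QQ_neg_iff hr hμ z).1 (not_le.1 hcon))
  have hq0 : ∀ z ∉ Dp c r μ 1, q z = 0 := fun z hz => by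
    have := hQneg z hz
    simp only [hq]
    rw [max_eq_right (by linarith)]
    norm_num
  have hq1 : ∀ z ∈ Dp c r μ 1, q z = QQ c r μ z ^ 2 := fun z hz => by
    have := (QQ_neg_iff hr hμ z).2 hz
    simp only [hq]
    rw [max_eq_left (by linarith)]
    ring
  have hQd : ContDiff ℝ 1 (fun z => QQ c r μ z) := (QQ_contDiff c r μ).of_le (by exact_mod_cast le_top)
  have hqc : ContDiff ℝ 1 q := gq_contDiff.comp hQd.neg
  have hqf : ∀ z ∉ Dp c r μ 1, HasFDerivAt q (0 : ℂ →L[ℝ] ℝ) z := fun z hz => by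
    have h1 := (gq_hasDerivAt (-QQ c r μ z)).comp_hasFDerivAt z (f := fun z => -QQ c r μ z)
      (hQd.neg.differentiable (by norm_num) z).hasFDerivAt
    have h2 : max (-QQ c r μ z) 0 = 0 := max_eq_right (by linarith [hQneg z hz])
    rw [h2, mul_zero, zero_smul] at h1
    exact h1
  set H : ℂ → ℂ := fun z => (q z : ℂ) * (W z * m z) with hH
  have hH0 : ∀ z ∉ Dp c r μ 1, H z = 0 := fun z hz => by
    simp only [hH]
    rw [hq0 z hz]
    simp
  have hH1 : ∀ z ∈ Dp c r μ 1, H z = Y z * m z := fun z hz => by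
    simp only [hH]
    rw [hq1 z hz, hYW z]
    push_cast
    ring
  have hqC : ContDiff ℝ 1 (fun z => (q z : ℂ)) := Complex.ofRealCLM.contDiff.comp hqc
  have hmN : ∀ z ∈ N, ContDiffAt ℝ 1 m z := fun z hz =>
    ((hm.contDiffOn hN).contDiffAt (hN.mem_nhds hz)).restrict_scalars ℝ
  have hHc : ContDiff ℝ 1 H := by
    rw [contDiff_iff_contDiffAt]
    intro z
    by_cases hz : z ∈ N
    · exact hqC.contDiffAt.mul (hW.contDiffAt.mul (hmN z hz))
    · have hzK : z ∈ {z : ℂ | ‖vv c r μ z‖ ≤ 1}ᶜ := fun h => hz (hDN h)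
      refine (contDiffAt_const (c := (0 : ℂ))).congr_of_eventuallyEq ?_
      filter_upwards [hKo.mem_nhds hzK] with w hw
      exact hH0 w fun h => hw (hDK w h)
  have hcs : HasCompactSupport H := HasCompactSupport.intro (cDp_compact hr hμ 1) fun z hz =>
    hH0 z fun h => hz (hDK z h)
  have hP := pomp hHc hcs z₁
  rw [hH1 z₁ hz₁] at hP
  rw [← hP]
  have hz0 : ∀ z ∉ Dp c r μ 1, dbar H z / (z - z₁) = 0 := by
    intro z hz
    have : dbar H z = 0 := by
      refine gq_dbar_zero ?_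
      by_cases hzN : z ∈ N
      · have h1 : HasFDerivAt (fun z => (q z : ℂ)) (0 : ℂ →L[ℝ] ℂ) z := by
          have := Complex.ofRealCLM.hasFDerivAt.comp z (hqf z hz)
          rw [ContinuousLinearMap.comp_zero] at this
          exact this
        have h2 : DifferentiableAt ℝ (fun z => W z * m z) z :=
          (hW.differentiable (by norm_num) z).mul ((hmN z hzN).differentiableAt (by norm_num))
        have h3 := h1.mul h2.hasFDerivAt
        rw [hq0 z hz] at h3
        have e0 : (((0 : ℝ) : ℂ) • fderiv ℝ (fun z => W z * m z) z + (W z * m z) • (0 : ℂ →L[ℝ] ℂ)) = 0 := by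
          simp
        rw [e0] at h3
        exact h3
      · have hzK : z ∈ {z : ℂ | ‖vv c r μ z‖ ≤ 1}ᶜ := fun h => hzN (hDN h)
        refine (hasFDerivAt_const (0 : ℂ) z).congr_of_eventuallyEq ?_
        filter_upwards [hKo.mem_nhds hzK] with w hw
        exact hH0 w fun h => hw (hDK w h)
    rw [this, zero_div]
  rw [← setIntegral_eq_integral_of_forall_compl_eq_zero (s := Dp c r μ 1) hz0]
  refine setIntegral_congr_fun hDo.measurableSet fun z hz => ?_
  have hloc : H =ᶠ[𝓝 z] fun z => Y z * m z := by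
    filter_upwards [hDo.mem_nhds hz] with w hw
    exact hH1 w hw
  have hmd : DifferentiableAt ℂ m z := (hm z (hDsub hz)).differentiableAt (hN.mem_nhds (hDsub hz))
  have hm1 : HasFDerivAt m (((fderiv ℂ m z).restrictScalars ℝ) : ℂ →L[ℝ] ℂ) z := hmd.hasFDerivAt.restrictScalars ℝ
  have hY1 : HasFDerivAt Y (fderiv ℝ Y z) z := (hY.differentiable (by norm_num) z).hasFDerivAt
  have h4 := (hY1.mul hm1).congr_of_eventuallyEq hloc
  have e : dbar H z = dbar Y z * m z := by
    unfold dbar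
    rw [h4.fderiv]
    have h5 : fderiv ℂ m z I = I * fderiv ℂ m z 1 := by
      have := (fderiv ℂ m z).map_smul I 1
      rw [smul_eq_mul, mul_one, smul_eq_mul] at this
      exact this
    simp only [add_apply, smul_apply, ContinuousLinearMap.coe_restrictScalars', smul_eq_mul]
    rw [h5]
    linear_combination (1 / 2 * Y z * fderiv ℂ m z 1) * Complex.I_mul_I
  rw [e]

end EW1
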