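import Pool.Agent.H1.EW.D1
import Pool.Agent.H1.EW.Gb
import Pool.Agent.H1.EW.Gn
import Pool.Agent.H1.EW.Gq

/-!
ROW EW/Gl. Estimate at a point `z₁` of both ellipses, `z₁ ∈ Dp c₁ r₁ μ₁ σ`, `σ < 1`. `δ = dd`, `U = QQ₂ - QQ₁`, `E = (D₁\D₂) ∪ (D₂\D₁)`. `X = 3 P y² - 2 y³`.
* `X = QQ₂² V² (3P - 2y)`, `X - P³ = -(y - P)² (2y + P) = -QQ₁² Z² (2y + P)`, `dbar X = 6 y (P - y) dbar y` (`P` is holomorphic, `dbar P = 0`).
* `pompD` on `D₁` with `Y = X - P³` (`dbar (X - P³) = dbar X`) and on `D₂` with `Y = X`: difference `∫_{D₁} - ∫_{D₂} of dbar X m/(z - z₁) = π P(z₁)³ m(z₁)`; the part over `D₁ ∩ D₂` cancels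
  (integrable: bounded times `1/|z - z₁|`, `ker_int`), so `π ‖P z₁‖³ ‖m z₁‖ ≤ ∫_E ‖dbar X‖ ‖m‖/‖z - z₁‖`.
* Cauchy-Schwarz: `(∫_E ‖dbar X‖ ‖m‖/‖z-z₁‖)² ≤ (∫_E |U| ‖m‖²) (∫_E ‖dbar X‖²/(|U| ‖z-z₁‖²))` (`U ≠ 0` a.e. on `E`: in fact `|U| = |QQ₁| + |QQ₂|`, `> 0` on `E` because `QQ < 0` in the respective ellipse).
* `‖dbar X‖ ≤ 6 |QQ₂| ‖V‖ |QQ₁| ‖Z‖ ‖dbar y‖ ≤ C |QQ₁| |QQ₂|/δ³`. On `E`: `|QQ₁|, |QQ₂| ≤ |U| ≤ C δ` (`QQ₁`, `QQ₂` have opposite signs; `|U| = |Re aa| ≤ C δ`: hypothesis `hU`). So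
  `‖dbar X‖²/|U| ≤ C |QQ₁| |QQ₂|²/δ⁶ ≤ C |QQ₂|/δ⁴`.
* `∫_E |QQ₂|/‖z-z₁‖² ≤ C δ²`: let `τ₁ > 0` (uniform, `vv_lip`) be such that `ball z₁ τ₁ ⊆ Dp c₁ r₁ μ₁ ((1+σ)/2)`. Off this ball: `|QQ₂| ≤ C δ`, `E ⊆ {|QQ₁| ≤ C δ}` has area `≤ C δ` (`vol_QQ`). On the ball only `D₁\D₂`
  matters; there `|U| ≥ |QQ₁| ≥ kap (1 - ((1+σ)/2)²) ≥ c`, so `δ ≥ c'` if that part is nonempty, and `|QQ₂ z| ≤ |QQ₂ z - QQ₂ z₁| ≤ C ‖z - z₁‖` (`QQ₂ z₁ < 0 ≤ QQ₂ z`, `QQ_lip`), `ker_int`.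
-/

set_option autoImplicit false

namespace EW1

open Complex Set Filter Topology MeasureTheory
open scoped ComplexConjugate ContDiff Real

/-- optimisation of a parameter (Cauchy-Schwarz without square integrable functions) -/
private theorem gl_opt {T N J : ℝ} (hN : 0 ≤ N) (hJ : 0 < J) (h : ∀ l : ℝ, 0 < l → T ≤ l * N + l⁻¹ * J) :
    T ≤ 2 * (Real.sqrt J * Real.sqrt N) := by
  rcases hN.eq_or_lt with h0 | h0
  · subst h0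
    rw [Real.sqrt_zero, mul_zero, mul_zero]
    by_contra hT
    push Not at hT
    have h1 := h (2 * J / T) (by positivity)
    have h2 : (2 * J / T)⁻¹ * J = T / 2 := by
      field_simp
    rw [h2, mul_zero, zero_add] at h1
    linarith
  · have hs : 0 < Real.sqrt N := Real.sqrt_pos.2 h0
    have ht : 0 < Real.sqrt J := Real.sqrt_pos.2 hJ
    have h1 := h (Real.sqrt J / Real.sqrt N) (by positivity)
    have e1 : Real.sqrt J / Real.sqrt N * N = Real.sqrt J * Real.sqrt N := by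
      have := Real.mul_self_sqrt h0.le
      rw [div_mul_eq_mul_div, div_eq_iff hs.ne', mul_assoc, this]
    have e2 : (Real.sqrt J / Real.sqrt N)⁻¹ * J = Real.sqrt J * Real.sqrt N := by
      have := Real.mul_self_sqrt hJ.le
      rw [inv_div, div_mul_eq_mul_div, div_eq_iff ht.ne']
      nlinarith
    rw [e1, e2] at h1
    linarith

private theorem gl_dbar {P y : ℂ → ℂ} (hP : Differentiable ℂ P) (hy : ContDiff ℝ ∞ y) (c : ℂ) (z : ℂ) :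
    dbar (fun z => 3 * (P z * (y z * y z)) - 2 * (y z * (y z * y z)) - c * (P z * (P z * P z))) z =
      6 * (y z * (P z - y z) * dbar y z) := by
  have hP1 : HasFDerivAt P (((fderiv ℂ P z).restrictScalars ℝ) : ℂ →L[ℝ] ℂ) z :=
    (hP z).hasFDerivAt.restrictScalars ℝ
  have hy1 : HasFDerivAt y (fderiv ℝ y z) z := (hy.differentiable (by simp) z).hasFDerivAt
  have h1 := (((hP1.mul (hy1.mul hy1)).const_mul 3).sub ((hy1.mul (hy1.mul hy1)).const_mul 2)).sub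
    ((hP1.mul (hP1.mul hP1)).const_mul c)
  have h5 : fderiv ℂ P z I = I * fderiv ℂ P z 1 := by
    have := (fderiv ℂ P z).map_smul I 1
    rw [smul_eq_mul, mul_one, smul_eq_mul] at this
    exact this
  have h2 : HasFDerivAt (fun z => 3 * (P z * (y z * y z)) - 2 * (y z * (y z * y z)) - c * (P z * (P z * P z))) _ z := h1
  unfold dbar
  rw [h2.fderiv]
  simp only [add_apply, sub_apply, smul_apply, ContinuousLinearMap.coe_restrictScalars', smul_eq_mul, Pi.mul_apply]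
  rw [h5]
  linear_combination (3 / 2 * (y z) ^ 2 * fderiv ℂ P z 1 - 3 / 2 * c * (P z) ^ 2 * fderiv ℂ P z 1) * Complex.I_mul_I

private theorem gl_dbar_cont {y : ℂ → ℂ} (hy : ContDiff ℝ ∞ y) : Continuous (dbar y) := by
  unfold dbar
  have h := hy.continuous_fderiv (by simp)
  exact ((h.clm_apply continuous_const).add (continuous_const.mul (h.clm_apply continuous_const))).div_const 2

private theorem gl_int {c : ℂ} {r : ℝ} (hr : 0 < r) {μ : ℂ} (hμ : ‖μ‖ < 1) {G m : ℂ → ℂ} (hG : Continuous G)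
    {N : Set ℂ} (hDN : {z | ‖vv c r μ z‖ ≤ 1} ⊆ N) (hm : ContinuousOn m N) (z₁ : ℂ) :
    IntegrableOn (fun z => G z * m z / (z - z₁)) (Dp c r μ 1) := by
  have hKc : IsCompact {z | ‖vv c r μ z‖ ≤ 1} := cDp_compact hr hμ 1
  have hDK : Dp c r μ 1 ⊆ {z | ‖vv c r μ z‖ ≤ 1} := fun z hz => le_of_lt (show ‖vv c r μ z‖ < 1 from hz)
  have hc : ContinuousOn (fun z => G z * m z) {z | ‖vv c r μ z‖ ≤ 1} := hG.continuousOn.mul (hm.mono hDN)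
  obtain ⟨B, hB⟩ := hKc.exists_bound_of_continuousOn hc
  obtain ⟨τ, hτ, hKτ⟩ := hKc.isBounded.subset_ball_lt 0 z₁
  have hi : IntegrableOn (fun z : ℂ => B * ‖z - z₁‖⁻¹) (Dp c r μ 1) :=
    ((ker_int z₁ hτ.le).1.mono_set (hDK.trans hKτ)).const_mul B
  refine hi.mono' ?_ ?_
  · have h1 : AEStronglyMeasurable (fun z => G z * m z) (volume.restrict (Dp c r μ 1)) :=
      (hc.mono hDK).aestronglyMeasurable (Dp_open c r μ 1).measurableSet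
    have h2 : Measurable fun z : ℂ => (z - z₁)⁻¹ := (measurable_id.sub_const z₁).inv
    have h3 := h1.mul h2.aestronglyMeasurable
    simp only [div_eq_mul_inv]
    exact h3
  · refine (ae_restrict_iff' (Dp_open c r μ 1).measurableSet).2 (Eventually.of_forall fun z hz => ?_)
    rw [norm_div, div_eq_mul_inv]
    exact mul_le_mul_of_nonneg_right (hB z (hDK hz)) (by positivity)

/-- the algebra of the pointwise estimate: `a = |QQ₁|`, `b = |QQ₂|`, `s = ‖m‖`, `t = 1/‖z - z₁‖` -/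
private theorem gl_alg {a b s t d C₀ l B V Z Y n : ℝ} (ha : 0 ≤ a) (hb : 0 ≤ b) (hs : 0 ≤ s) (ht : 0 ≤ t) (hd : 0 < d)
    (hC : 0 < C₀) (hl : 0 < l) (hab : a + b ≤ C₀ * d) (hB : b * t ^ 2 ≤ B) (hZ0 : 0 ≤ Z) (hY0 : 0 ≤ Y)
    (hV : d * V ≤ C₀) (hZ : d * Z ≤ C₀) (hY : d * Y ≤ C₀) (hn : n = 6 * ((b * V) * (a * Z) * Y) * s * t) :
    n ≤ 3 * C₀ ^ 4 / d ^ 2 * (l * ((a + b) * s ^ 2) + l⁻¹ * B) := by
  have hl' : 0 < l⁻¹ := inv_pos.2 hl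
  have h1 : (d * V) * (d * Z) * (d * Y) ≤ C₀ ^ 3 := by
    have h2 : (d * V) * (d * Z) ≤ C₀ * C₀ := mul_le_mul hV hZ (by positivity) hC.le
    calc (d * V) * (d * Z) * (d * Y) ≤ C₀ * C₀ * C₀ := mul_le_mul h2 hY (by positivity) (by positivity)
      _ = C₀ ^ 3 := by ring
  have h3 : 2 * s * t ≤ l * s ^ 2 + l⁻¹ * t ^ 2 := by
    have e : l * s ^ 2 + l⁻¹ * t ^ 2 - 2 * s * t = l⁻¹ * (l * s - t) ^ 2 := by
      field_simp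
      ring
    have : 0 ≤ l⁻¹ * (l * s - t) ^ 2 := by positivity
    linarith
  have h4 : a * b * (2 * s * t) ≤ C₀ * d * (l * ((a + b) * s ^ 2) + l⁻¹ * B) := by
    have ha' : a ≤ C₀ * d := by linarith
    calc a * b * (2 * s * t) ≤ a * b * (l * s ^ 2 + l⁻¹ * t ^ 2) := mul_le_mul_of_nonneg_left h3 (by positivity)
      _ = a * (l * (b * s ^ 2) + l⁻¹ * (b * t ^ 2)) := by ring
      _ ≤ C₀ * d * (l * (b * s ^ 2) + l⁻¹ * (b * t ^ 2)) := mul_le_mul_of_nonneg_right ha' (by positivity)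
      _ ≤ C₀ * d * (l * ((a + b) * s ^ 2) + l⁻¹ * B) := by
          gcongr
          linarith
  have h5 : n * d ^ 3 ≤ 3 * C₀ ^ 3 * (C₀ * d * (l * ((a + b) * s ^ 2) + l⁻¹ * B)) := by
    calc n * d ^ 3 = 3 * ((d * V) * (d * Z) * (d * Y)) * (a * b * (2 * s * t)) := by
          rw [hn]
          ring
      _ ≤ 3 * C₀ ^ 3 * (a * b * (2 * s * t)) := by gcongr
      _ ≤ 3 * C₀ ^ 3 * (C₀ * d * (l * ((a + b) * s ^ 2) + l⁻¹ * B)) := by gcongr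
  have h6 : 3 * C₀ ^ 4 / d ^ 2 * (l * ((a + b) * s ^ 2) + l⁻¹ * B) =
      3 * C₀ ^ 3 * (C₀ * d * (l * ((a + b) * s ^ 2) + l⁻¹ * B)) / d ^ 3 := by
    field_simp
  rw [h6, le_div_iff₀ (by positivity)]
  exact h5

theorem Lest {r₀ R μ₀ σ C₀ : ℝ} (hr₀ : 0 < r₀) (hR : r₀ ≤ R) (h0 : 0 ≤ μ₀) (h1 : μ₀ < 1) (hσ : 0 < σ) (hσ1 : σ < 1) (hC₀ : 0 < C₀) :
    ∃ C : ℝ, 0 < C ∧ ∀ (c₁ : ℂ) (r₁ : ℝ) (μ₁ c₂ : ℂ) (r₂ : ℝ) (μ₂ : ℂ), PS r₀ R μ₀ c₁ r₁ μ₁ → PS r₀ R μ₀ c₂ r₂ μ₂ →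
      0 < dd c₁ r₁ μ₁ c₂ r₂ μ₂ →
      (∀ z : ℂ, ‖z‖ ≤ 3 * R → |QQ c₂ r₂ μ₂ z - QQ c₁ r₁ μ₁ z| ≤ C₀ * dd c₁ r₁ μ₁ c₂ r₂ μ₂) →
      ∀ P y Z V : ℂ → ℂ, Su R C₀ c₁ r₁ μ₁ c₂ r₂ μ₂ P y Z V →
      ∀ (N : Set ℂ) (m : ℂ → ℂ), IsOpen N → {z | ‖vv c₁ r₁ μ₁ z‖ ≤ 1} ⊆ N → {z | ‖vv c₂ r₂ μ₂ z‖ ≤ 1} ⊆ N →
      DifferentiableOn ℂ m N → ∀ z₁ ∈ Dp c₁ r₁ μ₁ σ, z₁ ∈ Dp c₂ r₂ μ₂ 1 →
        dd c₁ r₁ μ₁ c₂ r₂ μ₂ * (‖P z₁‖ ^ 3 * ‖m z₁‖) ≤ C * Real.sqrt (NN c₁ r₁ μ₁ c₂ r₂ μ₂ m) := by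
  obtain ⟨k, hk, hkl⟩ := kap_lb (R := R) hr₀ h0 h1
  obtain ⟨Lv, hLv, hvl⟩ := vv_lip (R := R) hr₀ h0 h1
  obtain ⟨L, hL, hQL⟩ := QQ_lip hr₀ hR h0 h1
  obtain ⟨Cv, hCv, hvol⟩ := vol_QQ hr₀ hR h0 h1
  obtain ⟨σ', hσ'⟩ : ∃ σ' : ℝ, σ' = (1 + σ) / 2 := ⟨_, rfl⟩
  have hσ'1 : σ' < 1 := by rw [hσ']; linarith
  have hσ'0 : 0 < σ' := by rw [hσ']; linarith
  obtain ⟨c', hc'⟩ : ∃ c' : ℝ, c' = k * (1 - σ' ^ 2) := ⟨_, rfl⟩
  have hc'0 : 0 < c' := by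
    have : 0 < 1 - σ' ^ 2 := by nlinarith
    rw [hc']
    positivity
  obtain ⟨τ, hτ⟩ : ∃ τ : ℝ, τ = (1 - σ) / (2 * Lv) := ⟨_, rfl⟩
  have hτ0 : 0 < τ := by
    have : 0 < 1 - σ := by linarith
    rw [hτ]
    positivity
  have hLτ : Lv * τ = (1 - σ) / 2 := by
    rw [hτ]
    field_simp
  obtain ⟨J₀, hJ₀⟩ : ∃ J₀ : ℝ, J₀ = C₀ / τ ^ 2 * (Cv * C₀) + L * (C₀ / c') ^ 2 * (2 * π * τ) := ⟨_, rfl⟩
  have hJ0 : 0 < J₀ := by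
    have := Real.pi_pos
    rw [hJ₀]
    positivity
  have hsJ : 0 < Real.sqrt J₀ := Real.sqrt_pos.2 hJ0
  refine ⟨6 * C₀ ^ 4 * Real.sqrt J₀, by positivity, ?_⟩
  intro c₁ r₁ μ₁ c₂ r₂ μ₂ h₁ h₂ hd hU P y Z V hS N m hN hN₁ hN₂ hm z₁ hz₁ hz₁'
  have hr₁ : 0 < r₁ := hr₀.trans_le h₁.2.1
  have hr₂ : 0 < r₂ := hr₀.trans_le h₂.2.1
  have hμ₁ : ‖μ₁‖ < 1 := h₁.2.2.2.trans_lt h1
  have hμ₂ : ‖μ₂‖ < 1 := h₂.2.2.2.trans_lt h1
  have hVl := hS.V_le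
  have hZl := hS.Z_le
  have hYl := hS.dy_le
  generalize dd c₁ r₁ μ₁ c₂ r₂ μ₂ = d at hd hU hVl hZl hYl ⊢
  have hz₁D : z₁ ∈ Dp c₁ r₁ μ₁ 1 := Dp_mono _ _ _ hσ1.le hz₁
  have hD₁o := Dp_open c₁ r₁ μ₁ 1
  have hD₂o := Dp_open c₂ r₂ μ₂ 1
  have hD₁3 : ∀ z ∈ Dp c₁ r₁ μ₁ 1, ‖z‖ ≤ 3 * R := fun z hz => Dp_sub hr₀ h1 h₁ (le_of_lt (show ‖vv c₁ r₁ μ₁ z‖ < 1 from hz))
  have hD₂3 : ∀ z ∈ Dp c₂ r₂ μ₂ 1, ‖z‖ ≤ 3 * R := fun z hz => Dp_sub hr₀ h1 h₂ (le_of_lt (show ‖vv c₂ r₂ μ₂ z‖ < 1 from hz))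
  have hQ₁ : ∀ z, QQ c₁ r₁ μ₁ z < 0 ↔ z ∈ Dp c₁ r₁ μ₁ 1 := QQ_neg_iff hr₁ hμ₁
  have hQ₂ : ∀ z, QQ c₂ r₂ μ₂ z < 0 ↔ z ∈ Dp c₂ r₂ μ₂ 1 := QQ_neg_iff hr₂ hμ₂
  -- the two formulas
  have hPc : ContDiff ℝ 1 P := (hS.P_diff.contDiff (n := 1)).restrict_scalars ℝ
  have hyc : ContDiff ℝ 1 y := hS.y_smooth.of_le (by exact_mod_cast le_top)
  have hZc : ContDiff ℝ 1 Z := hS.Z_smooth.of_le (by exact_mod_cast le_top)
  have hVc : ContDiff ℝ 1 V := hS.V_smooth.of_le (by exact_mod_cast le_top)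
  have hXc : ∀ c : ℂ, ContDiff ℝ 1 (fun z => 3 * (P z * (y z * y z)) - 2 * (y z * (y z * y z)) - c * (P z * (P z * P z))) :=
    fun c => ((contDiff_const.mul (hPc.mul (hyc.mul hyc))).sub (contDiff_const.mul (hyc.mul (hyc.mul hyc)))).sub
      (contDiff_const.mul (hPc.mul (hPc.mul hPc)))
  obtain ⟨g, hg⟩ : ∃ g : ℂ → ℂ, g = fun z => 6 * (y z * (P z - y z) * dbar y z) * m z / (z - z₁) := ⟨_, rfl⟩
  have I1 : ∫ z in Dp c₁ r₁ μ₁ 1, g z =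
      -(π * ((3 * (P z₁ * (y z₁ * y z₁)) - 2 * (y z₁ * (y z₁ * y z₁)) - 1 * (P z₁ * (P z₁ * P z₁))) * m z₁)) := by
    have h := pompD hr₁ hμ₁ (hXc 1) (W := fun z => -(Z z * Z z * (2 * y z + P z)))
      ((hZc.mul hZc).mul ((contDiff_const.mul hyc).add hPc)).neg (fun z => by
        have := hS.yP_eq z
        linear_combination (-(2 * y z + P z) * (y z - P z + (QQ c₁ r₁ μ₁ z : ℂ) * Z z)) * this) hN hN₁ hm hz₁D
    simp only [gl_dbar hS.P_diff hS.y_smooth] at h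
    rw [hg]
    exact h
  have I2 : ∫ z in Dp c₂ r₂ μ₂ 1, g z =
      -(π * ((3 * (P z₁ * (y z₁ * y z₁)) - 2 * (y z₁ * (y z₁ * y z₁)) - 0 * (P z₁ * (P z₁ * P z₁))) * m z₁)) := by
    have h := pompD hr₂ hμ₂ (hXc 0) (W := fun z => V z * V z * (3 * P z - 2 * y z))
      ((hVc.mul hVc).mul ((contDiff_const.mul hPc).sub (contDiff_const.mul hyc))) (fun z => by
        have := hS.y_eq z
        linear_combination ((3 * P z - 2 * y z) * (y z + (QQ c₂ r₂ μ₂ z : ℂ) * V z)) * this) hN hN₂ hm hz₁'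
    simp only [gl_dbar hS.P_diff hS.y_smooth] at h
    rw [hg]
    exact h
  have hdiff : (π : ℂ) * (P z₁ ^ 3 * m z₁) = (∫ z in Dp c₁ r₁ μ₁ 1, g z) - ∫ z in Dp c₂ r₂ μ₂ 1, g z := by
    rw [I1, I2]
    ring
  have hGc : Continuous fun z => 6 * (y z * (P z - y z) * dbar y z) :=
    continuous_const.mul ((hyc.continuous.mul (hPc.continuous.sub hyc.continuous)).mul (gl_dbar_cont hS.y_smooth))
  have hg₁ : IntegrableOn g (Dp c₁ r₁ μ₁ 1) := by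
    rw [hg]
    exact gl_int hr₁ hμ₁ hGc hN₁ hm.continuousOn z₁
  have hg₂ : IntegrableOn g (Dp c₂ r₂ μ₂ 1) := by
    rw [hg]
    exact gl_int hr₂ hμ₂ hGc hN₂ hm.continuousOn z₁
  obtain ⟨E, hE⟩ : ∃ E : Set ℂ, E = (Dp c₁ r₁ μ₁ 1 \ Dp c₂ r₂ μ₂ 1) ∪ (Dp c₂ r₂ μ₂ 1 \ Dp c₁ r₁ μ₁ 1) := ⟨_, rfl⟩
  have hEm : MeasurableSet E := by
    rw [hE]
    exact (hD₁o.measurableSet.diff hD₂o.measurableSet).union (hD₂o.measurableSet.diff hD₁o.measurableSet)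
  -- facts on `E`
  have hEab : ∀ z ∈ E, ‖z‖ ≤ 3 * R ∧ |QQ c₂ r₂ μ₂ z - QQ c₁ r₁ μ₁ z| = |QQ c₁ r₁ μ₁ z| + |QQ c₂ r₂ μ₂ z| := by
    intro z hz
    rw [hE] at hz
    rcases hz with ⟨ha, hb⟩ | ⟨ha, hb⟩
    · have q1 := (hQ₁ z).2 ha
      have q2 : 0 ≤ QQ c₂ r₂ μ₂ z := not_lt.1 fun h => hb ((hQ₂ z).1 h)
      refine ⟨hD₁3 z ha, ?_⟩
      rw [abs_of_neg q1, abs_of_nonneg q2, abs_of_nonneg (by linarith)]
      ring
    · have q2 := (hQ₂ z).2 ha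
      have q1 : 0 ≤ QQ c₁ r₁ μ₁ z := not_lt.1 fun h => hb ((hQ₁ z).1 h)
      refine ⟨hD₂3 z ha, ?_⟩
      rw [abs_of_neg q2, abs_of_nonneg q1, abs_of_neg (by linarith)]
      ring
  have hEvol : volume E ≤ ENNReal.ofReal (Cv * (C₀ * d)) := by
    refine (measure_mono fun z hz => ?_).trans (hvol c₁ r₁ μ₁ h₁ (C₀ * d) (by positivity))
    obtain ⟨h3, h4⟩ := hEab z hz
    have h5 := hU z h3
    have h6 := abs_nonneg (QQ c₂ r₂ μ₂ z)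
    show |QQ c₁ r₁ μ₁ z| ≤ C₀ * d
    linarith
  have hEfin : volume E ≠ ⊤ := (hEvol.trans_lt ENNReal.ofReal_lt_top).ne
  -- the kernel bound
  have hker : ∀ z ∈ E, |QQ c₂ r₂ μ₂ z| * ‖z - z₁‖⁻¹ ^ 2 ≤ C₀ * d / τ ^ 2 +
      L * (C₀ * d / c') ^ 2 * (Metric.ball z₁ τ).indicator (fun z => ‖z - z₁‖⁻¹) z := by
    intro z hz
    obtain ⟨h3, h4⟩ := hEab z hz
    have h5 := hU z h3
    have h6 := abs_nonneg (QQ c₂ r₂ μ₂ z)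
    have h7 := abs_nonneg (QQ c₁ r₁ μ₁ z)
    have ht : 0 ≤ ‖z - z₁‖⁻¹ := by positivity
    by_cases hb : z ∈ Metric.ball z₁ τ
    · rw [indicator_of_mem hb]
      have hzb : ‖z - z₁‖ < τ := by
        rw [← Complex.dist_eq]
        exact hb
      have hv : ‖vv c₁ r₁ μ₁ z‖ < σ' := by
        have e1 := hvl c₁ r₁ μ₁ h₁ z z₁
        have e2 : ‖vv c₁ r₁ μ₁ z₁‖ < σ := hz₁
        have e3 : ‖vv c₁ r₁ μ₁ z‖ ≤ ‖vv c₁ r₁ μ₁ z₁‖ + ‖vv c₁ r₁ μ₁ z - vv c₁ r₁ μ₁ z₁‖ := by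
          have := norm_add_le (vv c₁ r₁ μ₁ z₁) (vv c₁ r₁ μ₁ z - vv c₁ r₁ μ₁ z₁)
          rw [add_sub_cancel] at this
          exact this
        have e4 : Lv * ‖z - z₁‖ ≤ Lv * τ := mul_le_mul_of_nonneg_left hzb.le hLv.le
        rw [hσ']
        linarith
      have hzD : z ∈ Dp c₁ r₁ μ₁ 1 := lt_trans hv hσ'1
      have hzD' : z ∉ Dp c₂ r₂ μ₂ 1 := by
        rw [hE] at hz
        rcases hz with ⟨-, h⟩ | ⟨-, h⟩
        · exact h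
        · exact absurd hzD h
      have q1 := (hQ₁ z).2 hzD
      have q2 : 0 ≤ QQ c₂ r₂ μ₂ z := not_lt.1 fun h => hzD' ((hQ₂ z).1 h)
      have hc : c' ≤ |QQ c₁ r₁ μ₁ z| := by
        rw [abs_of_neg q1]
        unfold QQ
        have e1 : ‖vv c₁ r₁ μ₁ z‖ ^ 2 ≤ σ' ^ 2 := pow_le_pow_left₀ (norm_nonneg _) hv.le 2
        have e2 : 0 < 1 - σ' ^ 2 := by nlinarith
        have e3 := hkl c₁ r₁ μ₁ h₁
        have e4 : k * (1 - σ' ^ 2) ≤ kap r₁ μ₁ * (1 - σ' ^ 2) := mul_le_mul_of_nonneg_right e3 e2.le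
        have e5 : kap r₁ μ₁ * (1 - σ' ^ 2) ≤ kap r₁ μ₁ * (1 - ‖vv c₁ r₁ μ₁ z‖ ^ 2) :=
          mul_le_mul_of_nonneg_left (by linarith) (hk.le.trans e3)
        rw [hc']
        linarith
      have hone : 1 ≤ (C₀ * d / c') ^ 2 := by
        have e1 : 1 ≤ C₀ * d / c' := by
          rw [le_div_iff₀ hc'0]
          linarith
        nlinarith
      have hlip : |QQ c₂ r₂ μ₂ z| ≤ L * ‖z - z₁‖ := by
        have e1 := (hQL c₂ r₂ μ₂ h₂ z z₁ h3 (hD₂3 z₁ hz₁')).2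
        have e2 := (hQ₂ z₁).2 hz₁'
        have e3 := le_abs_self (QQ c₂ r₂ μ₂ z - QQ c₂ r₂ μ₂ z₁)
        rw [abs_of_nonneg q2]
        linarith
      have hst : ‖z - z₁‖ * ‖z - z₁‖⁻¹ ^ 2 = ‖z - z₁‖⁻¹ := by
        rcases eq_or_ne ‖z - z₁‖ 0 with h | h
        · rw [h]
          simp
        · field_simp
      have hA : 0 ≤ C₀ * d / τ ^ 2 := by positivity
      calc |QQ c₂ r₂ μ₂ z| * ‖z - z₁‖⁻¹ ^ 2 ≤ L * ‖z - z₁‖ * ‖z - z₁‖⁻¹ ^ 2 :=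
            mul_le_mul_of_nonneg_right hlip (by positivity)
        _ = L * ‖z - z₁‖⁻¹ := by rw [mul_assoc, hst]
        _ = L * 1 * ‖z - z₁‖⁻¹ := by ring
        _ ≤ L * (C₀ * d / c') ^ 2 * ‖z - z₁‖⁻¹ := by gcongr
        _ ≤ _ := by linarith
    · rw [indicator_of_notMem hb, mul_zero, add_zero]
      have hzb : τ ≤ ‖z - z₁‖ := by
        rw [← Complex.dist_eq]
        exact not_lt.1 hb
      have e1 : ‖z - z₁‖⁻¹ ≤ τ⁻¹ := inv_anti₀ hτ0 hzb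
      have e2 : ‖z - z₁‖⁻¹ ^ 2 ≤ τ⁻¹ ^ 2 := pow_le_pow_left₀ ht e1 2
      calc |QQ c₂ r₂ μ₂ z| * ‖z - z₁‖⁻¹ ^ 2 ≤ (C₀ * d) * τ⁻¹ ^ 2 :=
            mul_le_mul (by linarith) e2 (by positivity) (by positivity)
        _ = C₀ * d / τ ^ 2 := by
            rw [inv_pow, div_eq_mul_inv]
  -- integrability on `E`
  obtain ⟨f₁, hf₁⟩ : ∃ f₁ : ℂ → ℝ, f₁ = fun z => |QQ c₂ r₂ μ₂ z - QQ c₁ r₁ μ₁ z| * ‖m z‖ ^ 2 := ⟨_, rfl⟩
  obtain ⟨f₂, hf₂⟩ : ∃ f₂ : ℂ → ℝ, f₂ = (Metric.ball z₁ τ).indicator (fun z => ‖z - z₁‖⁻¹) := ⟨_, rfl⟩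
  have hNN : NN c₁ r₁ μ₁ c₂ r₂ μ₂ m = ∫ z in E, f₁ z := by
    rw [hf₁, hE]
    rfl
  have hi₁ : IntegrableOn f₁ E := by
    have hK : IsCompact ({z | ‖vv c₁ r₁ μ₁ z‖ ≤ 1} ∪ {z | ‖vv c₂ r₂ μ₂ z‖ ≤ 1}) :=
      (cDp_compact hr₁ hμ₁ 1).union (cDp_compact hr₂ hμ₂ 1)
    have hsub : E ⊆ {z | ‖vv c₁ r₁ μ₁ z‖ ≤ 1} ∪ {z | ‖vv c₂ r₂ μ₂ z‖ ≤ 1} := by
      rw [hE]
      rintro z (⟨ha, -⟩ | ⟨ha, -⟩)
      · exact Or.inl (le_of_lt (show ‖vv c₁ r₁ μ₁ z‖ < 1 from ha))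
      · exact Or.inr (le_of_lt (show ‖vv c₂ r₂ μ₂ z‖ < 1 from ha))
    refine (ContinuousOn.integrableOn_compact hK ?_).mono_set hsub
    rw [hf₁]
    refine (((QQ_contDiff c₂ r₂ μ₂).continuous.sub (QQ_contDiff c₁ r₁ μ₁).continuous).abs.continuousOn).mul
      (((hm.continuousOn.mono (union_subset hN₁ hN₂)).norm).pow 2)
  have hi₂' : Integrable f₂ := by
    rw [hf₂]
    exact (integrable_indicator_iff measurableSet_ball).2 (ker_int z₁ hτ0.le).1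
  have hi₂ : IntegrableOn f₂ E := hi₂'.integrableOn
  have hiA : IntegrableOn (fun _ : ℂ => C₀ * d / τ ^ 2) E := integrableOn_const hEfin
  have hvolA : ∫ _ in E, C₀ * d / τ ^ 2 ≤ Cv * (C₀ * d) * (C₀ * d / τ ^ 2) := by
    rw [setIntegral_const, smul_eq_mul]
    refine mul_le_mul_of_nonneg_right ?_ (by positivity)
    exact ENNReal.toReal_le_of_le_ofReal (by positivity) hEvol
  have hintf₂ : ∫ z in E, f₂ z ≤ 2 * π * τ := by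
    rw [← (ker_int z₁ hτ0.le).2, ← integral_indicator measurableSet_ball, ← hf₂]
    refine setIntegral_le_integral hi₂' (Eventually.of_forall fun z => ?_)
    rw [hf₂]
    exact indicator_nonneg (fun z _ => by positivity) z
  -- the estimate with a parameter
  have hmain : ∀ l : ℝ, 0 < l → π * (‖P z₁‖ ^ 3 * ‖m z₁‖) ≤
      3 * C₀ ^ 4 / d ^ 2 * (l * NN c₁ r₁ μ₁ c₂ r₂ μ₂ m + l⁻¹ * (d ^ 2 * J₀)) := by
    intro l hl
    obtain ⟨bd, hbd⟩ : ∃ bd : ℂ → ℝ, bd = fun z => 3 * C₀ ^ 4 / d ^ 2 * (l * f₁ z + l⁻¹ * (C₀ * d / τ ^ 2 +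
      L * (C₀ * d / c') ^ 2 * f₂ z)) := ⟨_, rfl⟩
    have hiB : IntegrableOn (fun z => C₀ * d / τ ^ 2 + L * (C₀ * d / c') ^ 2 * f₂ z) E := hiA.add (hi₂.const_mul _)
    have hbi : IntegrableOn bd E := by
      rw [hbd]
      exact ((hi₁.const_mul l).add (hiB.const_mul l⁻¹)).const_mul _
    have hpt : ∀ z ∈ E, ‖g z‖ ≤ bd z := by
      intro z hz
      obtain ⟨h3, h4⟩ := hEab z hz
      have h5 := hU z h3
      rw [h4] at h5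
      have hB := hker z hz
      rw [hbd, hf₁, hf₂]
      simp only
      rw [h4]
      refine gl_alg (a := |QQ c₁ r₁ μ₁ z|) (b := |QQ c₂ r₂ μ₂ z|) (s := ‖m z‖) (t := ‖z - z₁‖⁻¹) (V := ‖V z‖)
        (Z := ‖Z z‖) (Y := ‖dbar y z‖) (abs_nonneg _) (abs_nonneg _) (norm_nonneg _) (by positivity) hd hC₀ hl h5 hB
        (norm_nonneg _) (norm_nonneg _) (hVl z h3) (hZl z h3) (hYl z h3) ?_
      have e1 : ‖y z‖ = |QQ c₂ r₂ μ₂ z| * ‖V z‖ := by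
        rw [hS.y_eq z, norm_mul, Complex.norm_real, Real.norm_eq_abs]
      have e2 : ‖P z - y z‖ = |QQ c₁ r₁ μ₁ z| * ‖Z z‖ := by
        rw [norm_sub_rev, hS.yP_eq z, norm_mul, Complex.norm_real, Real.norm_eq_abs]
      rw [hg]
      simp only
      rw [norm_div, norm_mul, norm_mul, norm_mul, norm_mul, e1, e2, div_eq_mul_inv]
      simp only [Complex.norm_ofNat]
    have hint : ∫ z in E, bd z = 3 * C₀ ^ 4 / d ^ 2 * (l * (∫ z in E, f₁ z) + l⁻¹ * ((∫ _ in E, C₀ * d / τ ^ 2) +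
        L * (C₀ * d / c') ^ 2 * ∫ z in E, f₂ z)) := by
      rw [hbd, integral_const_mul, integral_add (hi₁.const_mul l) (hiB.const_mul l⁻¹), integral_const_mul,
        integral_const_mul, integral_add hiA (hi₂.const_mul _), integral_const_mul]
    have hnorm : ‖(∫ z in Dp c₁ r₁ μ₁ 1, g z) - ∫ z in Dp c₂ r₂ μ₂ 1, g z‖ ≤ ∫ z in E, bd z := by
      rw [← integral_indicator hD₁o.measurableSet, ← integral_indicator hD₂o.measurableSet,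
        ← integral_sub ((integrable_indicator_iff hD₁o.measurableSet).2 hg₁)
          ((integrable_indicator_iff hD₂o.measurableSet).2 hg₂), ← integral_indicator hEm]
      refine norm_integral_le_of_norm_le ((integrable_indicator_iff hEm).2 hbi) (Eventually.of_forall fun z => ?_)
      by_cases ha : z ∈ Dp c₁ r₁ μ₁ 1 <;> by_cases hb : z ∈ Dp c₂ r₂ μ₂ 1
      · have hzE : z ∉ E := by
          rw [hE]
          rintro (⟨-, h⟩ | ⟨-, h⟩)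
          · exact h hb
          · exact h ha
        rw [indicator_of_mem ha, indicator_of_mem hb, indicator_of_notMem hzE, sub_self, norm_zero]
      · have hzE : z ∈ E := by
          rw [hE]
          exact Or.inl ⟨ha, hb⟩
        rw [indicator_of_mem ha, indicator_of_notMem hb, indicator_of_mem hzE, sub_zero]
        exact hpt z hzE
      · have hzE : z ∈ E := by
          rw [hE]
          exact Or.inr ⟨hb, ha⟩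
        rw [indicator_of_notMem ha, indicator_of_mem hb, indicator_of_mem hzE, zero_sub, norm_neg]
        exact hpt z hzE
      · have hzE : z ∉ E := by
          rw [hE]
          rintro (⟨h, -⟩ | ⟨h, -⟩)
          · exact ha h
          · exact hb h
        rw [indicator_of_notMem ha, indicator_of_notMem hb, indicator_of_notMem hzE, sub_self, norm_zero]
    rw [← hdiff, hint] at hnorm
    have e1 : ‖(π : ℂ) * (P z₁ ^ 3 * m z₁)‖ = π * (‖P z₁‖ ^ 3 * ‖m z₁‖) := by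
      rw [norm_mul, norm_mul, norm_pow, Complex.norm_real, Real.norm_eq_abs, abs_of_pos Real.pi_pos]
    rw [e1] at hnorm
    refine hnorm.trans ?_
    rw [hNN]
    have hl' : 0 < l⁻¹ := inv_pos.2 hl
    have e2 : (∫ _ in E, C₀ * d / τ ^ 2) + L * (C₀ * d / c') ^ 2 * ∫ z in E, f₂ z ≤ d ^ 2 * J₀ := by
      have e3 : L * (C₀ * d / c') ^ 2 * ∫ z in E, f₂ z ≤ L * (C₀ * d / c') ^ 2 * (2 * π * τ) :=
        mul_le_mul_of_nonneg_left hintf₂ (by positivity)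
      have e4 : d ^ 2 * J₀ = Cv * (C₀ * d) * (C₀ * d / τ ^ 2) + L * (C₀ * d / c') ^ 2 * (2 * π * τ) := by
        rw [hJ₀]
        field_simp
      rw [e4]
      exact add_le_add hvolA e3
    gcongr
  -- optimise
  have hT : π * (‖P z₁‖ ^ 3 * ‖m z₁‖) * d ^ 2 / (3 * C₀ ^ 4) ≤
      2 * (Real.sqrt (d ^ 2 * J₀) * Real.sqrt (NN c₁ r₁ μ₁ c₂ r₂ μ₂ m)) := by
    refine gl_opt (NN_nonneg _ _ _ _ _ _ _) (by positivity) fun l hl => ?_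
    have := hmain l hl
    rw [div_le_iff₀ (by positivity)]
    rw [div_mul_eq_mul_div, le_div_iff₀ (by positivity)] at this
    linarith
  have hsq : Real.sqrt (d ^ 2 * J₀) = d * Real.sqrt J₀ := by
    rw [Real.sqrt_mul (by positivity), Real.sqrt_sq hd.le]
  rw [hsq, div_le_iff₀ (by positivity)] at hT
  have hpi : 1 ≤ π := by linarith [Real.pi_gt_three]
  have hA : 0 ≤ ‖P z₁‖ ^ 3 * ‖m z₁‖ := by positivity
  have h8 : d * (d * (‖P z₁‖ ^ 3 * ‖m z₁‖)) ≤ d * (6 * C₀ ^ 4 * Real.sqrt J₀ * Real.sqrt (NN c₁ r₁ μ₁ c₂ r₂ μ₂ m)) := by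
    have h9 : 1 * (‖P z₁‖ ^ 3 * ‖m z₁‖) * d ^ 2 ≤ π * (‖P z₁‖ ^ 3 * ‖m z₁‖) * d ^ 2 := by gcongr
    linarith
  exact le_of_mul_le_mul_left h8 hd

end EW1
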