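import Pool.Agent.H1.EW.D1
import Pool.Agent.H1.EW.Gb
import Pool.Agent.H1.EW.Gd
import Pool.Agent.H1.EW.Ge
import Pool.Agent.H1.EW.Gf
import Pool.Agent.H1.EW.Gg

/-!
ROW EW/Gs. Construction of the data `Su`. `δ = dd > 0`; `e₀, E, e₁, e₂` from `trig`; `M = ‖e₂‖ + ‖e₁‖ ‖μ₁‖ + |e₀| ‖μ₁‖² > 0` (`μ₁ ≠ 0`, not all `e` zero), `v = vv c₁ r₁ μ₁ z`, `κ = kap r₁ μ₁`:
`P z = Fb μ₁ (sj μ₁ e₀ e₁ e₂) ((z - c₁)/r₁) / (δ M)`, `V z = Vt μ₁ e₀ e₁ e₂ v / (δ M)`, `y = QQ₂ V`, `Z z = ((κ + E) Vt(v)/(δ M) + Wt(v)/(δ M)) / κ`.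
Check: `(z - c₁)/r₁ = v + μ₁ v̄` (`zz_vv`), `QQ₁ = κ (‖v‖²-1)`, `QQ₂ = QQ₁ + Ut(v) + E (‖v‖²-1)` (`trig` at `v`), `elim`: `y - P = (‖v‖²-1) ((κ+E) Vt + Wt)/(δ M)`.
Bounds: `elim_le` (with `T` a bound of `‖v‖` for `‖z‖ ≤ 3R`: `vv_lip`, `vv c₁ = 0`), `trig`: `|e₀| + ‖e₁‖ + ‖e₂‖ ≤ C δ`, `δ` is bounded on the parameter set, `kap_lb`, `kap_ub`, `QQ_lip` (also for the derivative of `QQ₂`:
`‖dbar QQ₂‖ ≤` Lipschitz constant, or explicitly from `QQ_eq`; it is enough to know it for `‖z‖ ≤ 3 R` but the Lipschitz bound needs a neighbourhood: `QQ` is explicit, use `QQ_eq`), `dbar (Vt ∘ vv)`: `vv` is real linear, `Vt` a polynomial in `v, v̄`.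
Curve: `Cur` with `μ₁`, `s = sj ../(δ M)`, `∑ ‖s j‖ ≥ c (|e₀|+‖e₁‖+‖e₂‖) M/(δ M) ≥ c'` (`sj_lb`, `trig`).
-/

set_option autoImplicit false

namespace EW1

open Complex Set Filter Topology MeasureTheory
open scoped ComplexConjugate ContDiff Real

theorem Gs_vv_contDiff (c : ℂ) (r : ℝ) (μ : ℂ) : ContDiff ℝ ∞ (fun z => vv c r μ z) := by
  have h1 : ContDiff ℝ ∞ (fun z : ℂ => z - c) := contDiff_id.sub contDiff_const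
  have h2 : ContDiff ℝ ∞ (fun z : ℂ => conj (z - c)) := (Complex.conjCLE : ℂ ≃L[ℝ] ℂ).contDiff.comp h1
  unfold vv
  exact (h1.sub (contDiff_const.mul h2)).div_const _

theorem Gs_vvc_contDiff (c : ℂ) (r : ℝ) (μ : ℂ) : ContDiff ℝ ∞ (fun z => conj (vv c r μ z)) :=
  (Complex.conjCLE : ℂ ≃L[ℝ] ℂ).contDiff.comp (Gs_vv_contDiff c r μ)

theorem Gs_Vt_gen (μ : ℂ) (e₀ : ℝ) (e₁ e₂ : ℂ) {f g : ℂ → ℂ} (hf : ContDiff ℝ ∞ f) (hg : ContDiff ℝ ∞ g) :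
    ContDiff ℝ ∞ (fun z => conj e₂ * f z ^ 2 + conj e₁ * μ * f z + e₀ * μ ^ 2 + e₁ * μ ^ 3 * g z + e₂ * μ ^ 4 * g z ^ 2) := by
  fun_prop

theorem Gs_Vt (c : ℂ) (r : ℝ) (μ : ℂ) (e₀ : ℝ) (e₁ e₂ : ℂ) :
    ContDiff ℝ ∞ (fun z => Vt μ e₀ e₁ e₂ (vv c r μ z)) :=
  Gs_Vt_gen μ e₀ e₁ e₂ (Gs_vv_contDiff c r μ) (Gs_vvc_contDiff c r μ)

theorem Gs_Wt_gen (μ : ℂ) (e₀ : ℝ) (e₁ e₂ : ℂ) {f g : ℂ → ℂ} (hf : ContDiff ℝ ∞ f) (hg : ContDiff ℝ ∞ g) :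
    ContDiff ℝ ∞ (fun z => (e₂ * (e₁ * μ ^ 3) * f z + e₂ * (e₂ * μ ^ 4) * (f z * g z + 1) + e₁ * (e₁ * μ ^ 3) +
        e₁ * (e₂ * μ ^ 4) * g z + conj e₁ * (conj e₁ * μ) + conj e₁ * conj e₂ * f z + conj e₂ * (conj e₁ * μ) * g z +
        conj e₂ * conj e₂ * (f z * g z + 1)) -
      (sj μ e₀ e₁ e₂ 2 * (2 * μ) + sj μ e₀ e₁ e₂ 3 * (3 * μ * (f z + μ * g z)) +
        sj μ e₀ e₁ e₂ 4 * (4 * μ * f z ^ 2 + 4 * μ ^ 3 * g z ^ 2 + 2 * μ ^ 2 * (3 * (f z * g z) - 1)))) := by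
  fun_prop

theorem Gs_Wt (c : ℂ) (r : ℝ) (μ : ℂ) (e₀ : ℝ) (e₁ e₂ : ℂ) :
    ContDiff ℝ ∞ (fun z => Wt μ e₀ e₁ e₂ (vv c r μ z)) :=
  Gs_Wt_gen μ e₀ e₁ e₂ (Gs_vv_contDiff c r μ) (Gs_vvc_contDiff c r μ)

/-- Lipschitz bound of `Vt` -/
theorem Gs_Vt_lip {T : ℝ} (hT : 0 ≤ T) {μ : ℂ} (hμ : ‖μ‖ ≤ 1) (e₀ : ℝ) (e₁ e₂ : ℂ) {v w : ℂ} (hv : ‖v‖ ≤ T) (hw : ‖w‖ ≤ T) :
    ‖Vt μ e₀ e₁ e₂ v - Vt μ e₀ e₁ e₂ w‖ ≤ (4 * T + 2) * (‖e₂‖ + ‖e₁‖ * ‖μ‖ + |e₀| * ‖μ‖ ^ 2) * ‖v - w‖ := by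
  have e : Vt μ e₀ e₁ e₂ v - Vt μ e₀ e₁ e₂ w = conj e₂ * ((v + w) * (v - w)) + conj e₁ * μ * (v - w) +
      e₁ * μ ^ 3 * conj (v - w) + e₂ * μ ^ 4 * (conj (v + w) * conj (v - w)) := by
    unfold Vt
    simp only [map_sub, map_add]
    ring
  have m0 : 0 ≤ ‖μ‖ := norm_nonneg _
  have b0 : 0 ≤ ‖e₁‖ := norm_nonneg _
  have c0 : 0 ≤ ‖e₂‖ := norm_nonneg _
  have d0 : 0 ≤ ‖v - w‖ := norm_nonneg _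
  have p2 : ‖μ‖ ^ 2 ≤ 1 := pow_le_one₀ m0 hμ
  have p4 : ‖μ‖ ^ 4 ≤ 1 := pow_le_one₀ m0 hμ
  have p3 : ‖μ‖ ^ 3 ≤ ‖μ‖ := by
    calc ‖μ‖ ^ 3 = ‖μ‖ ^ 2 * ‖μ‖ := by ring
      _ ≤ 1 * ‖μ‖ := mul_le_mul_of_nonneg_right p2 m0
      _ = ‖μ‖ := one_mul _
  have hvw : ‖v + w‖ ≤ 2 * T := (norm_add_le _ _).trans (by linarith)
  rw [e]
  have t1 : ‖conj e₂ * ((v + w) * (v - w))‖ ≤ ‖e₂‖ * (2 * T * ‖v - w‖) := by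
    rw [norm_mul, norm_mul, RCLike.norm_conj]
    gcongr
  have t2 : ‖conj e₁ * μ * (v - w)‖ ≤ ‖e₁‖ * ‖μ‖ * ‖v - w‖ := by
    rw [norm_mul, norm_mul, RCLike.norm_conj]
  have t3 : ‖e₁ * μ ^ 3 * conj (v - w)‖ ≤ ‖e₁‖ * ‖μ‖ * ‖v - w‖ := by
    rw [norm_mul, norm_mul, norm_pow, RCLike.norm_conj]
    gcongr
  have t4 : ‖e₂ * μ ^ 4 * (conj (v + w) * conj (v - w))‖ ≤ ‖e₂‖ * 1 * (2 * T * ‖v - w‖) := by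
    rw [norm_mul, norm_mul, norm_mul, norm_pow, RCLike.norm_conj, RCLike.norm_conj]
    gcongr
  refine (norm_add_le_of_le (norm_add_le_of_le (norm_add_le_of_le t1 t2) t3) t4).trans ?_
  have q0 : 0 ≤ |e₀| * ‖μ‖ ^ 2 := by positivity
  have q1 : 0 ≤ (4 * T + 2) * (|e₀| * ‖μ‖ ^ 2) * ‖v - w‖ := by positivity
  have q2 : 0 ≤ 4 * T * (‖e₁‖ * ‖μ‖) * ‖v - w‖ := by positivity
  have q3 : 0 ≤ 2 * ‖e₂‖ * ‖v - w‖ := by positivity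
  have e2 : (4 * T + 2) * (‖e₂‖ + ‖e₁‖ * ‖μ‖ + |e₀| * ‖μ‖ ^ 2) * ‖v - w‖ =
      ‖e₂‖ * (2 * T * ‖v - w‖) + ‖e₁‖ * ‖μ‖ * ‖v - w‖ + ‖e₁‖ * ‖μ‖ * ‖v - w‖ + ‖e₂‖ * 1 * (2 * T * ‖v - w‖) +
      ((4 * T + 2) * (|e₀| * ‖μ‖ ^ 2) * ‖v - w‖ + 4 * T * (‖e₁‖ * ‖μ‖) * ‖v - w‖ + 2 * ‖e₂‖ * ‖v - w‖) := by ring
  rw [e2]
  linarith

/-- bound of `Fb` -/
theorem Gs_Fb_le {B Q : ℝ} (hB : 0 ≤ B) (hQ : 0 ≤ Q) {μ : ℂ} (hμ : ‖μ‖ ≤ 1) (s : Fin 5 → ℂ) (hs : ∀ j, ‖s j‖ ≤ Q) {ζ : ℂ}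
    (hζ : ‖ζ‖ ≤ B) : ‖Fb μ s ζ‖ ≤ 20 * (1 + B) ^ 4 * Q := by
  unfold Fb
  have m0 : 0 ≤ ‖μ‖ := norm_nonneg _
  have z0 : 0 ≤ ‖ζ‖ := norm_nonneg _
  have h2 : ‖(2 : ℂ)‖ ≤ 2 := by norm_num
  have h3 : ‖(3 : ℂ)‖ ≤ 3 := by norm_num
  have h4 : ‖(4 : ℂ)‖ ≤ 4 := by norm_num
  have hμ2 : ‖μ ^ 2‖ ≤ 1 := by rw [norm_pow]; exact pow_le_one₀ m0 hμ
  have z2 : ‖ζ ^ 2‖ ≤ B ^ 2 := by rw [norm_pow]; exact pow_le_pow_left₀ z0 hζ 2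
  have z3 : ‖ζ ^ 3‖ ≤ B ^ 3 := by rw [norm_pow]; exact pow_le_pow_left₀ z0 hζ 3
  have z4 : ‖ζ ^ 4‖ ≤ B ^ 4 := by rw [norm_pow]; exact pow_le_pow_left₀ z0 hζ 4
  refine (norm_add_le_of_le (norm_add_le_of_le (norm_add_le_of_le (norm_add_le_of_le (hs 0)
    (norm_mul_le_of_le (hs 1) hζ))
    (norm_mul_le_of_le (hs 2) (norm_sub_le_of_le z2 (norm_mul_le_of_le h2 hμ))))
    (norm_mul_le_of_le (hs 3) (norm_sub_le_of_le z3 (norm_mul_le_of_le (norm_mul_le_of_le h3 hμ) hζ))))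
    (norm_mul_le_of_le (hs 4) (norm_add_le_of_le (norm_sub_le_of_le z4
      (norm_mul_le_of_le (norm_mul_le_of_le h4 hμ) z2)) (norm_mul_le_of_le h2 hμ2)))).trans ?_
  have e : 20 * (1 + B) ^ 4 * Q = 20 * Q + 80 * (Q * B) + 120 * (Q * B ^ 2) + 80 * (Q * B ^ 3) + 20 * (Q * B ^ 4) := by ring
  rw [e]
  have k1 : 0 ≤ Q * B := by positivity
  have k2 : 0 ≤ Q * B ^ 2 := by positivity
  have k3 : 0 ≤ Q * B ^ 3 := by positivity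
  have k4 : 0 ≤ Q * B ^ 4 := by positivity
  linarith

/-- bound of `dbar` by a local Lipschitz bound -/
theorem Gs_dbar {F : ℂ → ℂ} {z : ℂ} (hF : DifferentiableAt ℝ F z) {K : ℝ} (hK : 0 ≤ K)
    (h : ∀ᶠ w in 𝓝 z, ‖F w - F z‖ ≤ K * ‖w - z‖) : ‖dbar F z‖ ≤ K := by
  have h1 : ‖fderiv ℝ F z‖ ≤ K := hF.hasFDerivAt.le_of_lip' hK h
  unfold dbar
  have h2 : ‖fderiv ℝ F z 1‖ ≤ K := by
    refine ((fderiv ℝ F z).le_opNorm 1).trans ?_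
    rw [norm_one, mul_one]
    exact h1
  have h3 : ‖fderiv ℝ F z I‖ ≤ K := by
    refine ((fderiv ℝ F z).le_opNorm I).trans ?_
    rw [Complex.norm_I, mul_one]
    exact h1
  rw [norm_div]
  have h4 : ‖fderiv ℝ F z 1 + I * fderiv ℝ F z I‖ ≤ K + K := by
    refine norm_add_le_of_le h2 ?_
    rw [norm_mul, Complex.norm_I, one_mul]
    exact h3
  have h5 : ‖(2 : ℂ)‖ = 2 := by norm_num
  rw [h5]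
  linarith

theorem Gs_dd_le {r₀ R μ₀ : ℝ} (hr₀ : 0 < r₀) (h1 : μ₀ < 1) {c₁ : ℂ} {r₁ : ℝ} {μ₁ c₂ : ℂ} {r₂ : ℝ} {μ₂ : ℂ}
    (p1 : PS r₀ R μ₀ c₁ r₁ μ₁) (p2 : PS r₀ R μ₀ c₂ r₂ μ₂) : dd c₁ r₁ μ₁ c₂ r₂ μ₂ ≤ 3 * R + 2 := by
  obtain ⟨a1, a2, a3, a4⟩ := p1
  obtain ⟨b1, b2, b3, b4⟩ := p2
  unfold dd
  have k1 : ‖c₁ - c₂‖ ≤ R + R := norm_sub_le_of_le a1 b1
  have k2 : |r₁ - r₂| ≤ R := by
    rw [abs_le]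
    constructor <;> linarith
  have k3 : ‖μ₁ - μ₂‖ ≤ μ₀ + μ₀ := norm_sub_le_of_le a4 b4
  linarith

theorem Gs_PS_mono {r₀ R R' μ₀ : ℝ} (h : R ≤ R') {c : ℂ} {r : ℝ} {μ : ℂ} (p : PS r₀ R μ₀ c r μ) : PS r₀ R' μ₀ c r μ :=
  ⟨p.1.trans h, p.2.1, p.2.2.1.trans h, p.2.2.2⟩

theorem setup {r₀ R μ₀ σ₁ σ₂ : ℝ} (hr₀ : 0 < r₀) (hR : r₀ ≤ R) (h0 : 0 ≤ μ₀) (h1 : μ₀ < 1) (hσ₁ : 0 < σ₁) (hσ₂ : σ₁ < σ₂) :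
    ∃ C : ℝ, 0 < C ∧ ∀ (c₁ : ℂ) (r₁ : ℝ) (μ₁ c₂ : ℂ) (r₂ : ℝ) (μ₂ : ℂ), PS r₀ R μ₀ c₁ r₁ μ₁ → PS r₀ R μ₀ c₂ r₂ μ₂ →
      0 < dd c₁ r₁ μ₁ c₂ r₂ μ₂ → μ₁ ≠ 0 → ∃ P y Z V : ℂ → ℂ, Su R C c₁ r₁ μ₁ c₂ r₂ μ₂ P y Z V ∧
        ∃ τ : ℝ, σ₁ ≤ τ ∧ τ ≤ σ₂ ∧ ∀ z : ℂ, ‖vv c₁ r₁ μ₁ z‖ = τ → 1 ≤ C * ‖P z‖ := by
  have hRp : 0 < R := hr₀.trans_le hR
  obtain ⟨Ct, hCt, trg⟩ := trig hr₀ hR h0 h1
  obtain ⟨L, hL, hvL⟩ := vv_lip (R := R) hr₀ h0 h1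
  obtain ⟨k, hk, hkl⟩ := kap_lb (R := R) hr₀ h0 h1
  obtain ⟨Ku, hKu, hku⟩ := kap_ub (R := R) (μ₀ := μ₀) hr₀ h1
  obtain ⟨Cq, hCq, hQL⟩ := QQ_lip (R := 2 * R) hr₀ (by linarith) h0 h1
  obtain ⟨Cs, hCs, hsj⟩ := sj_lb
  obtain ⟨Cc, hCc, hcur⟩ := Cur hσ₁ hσ₂ h0 h1
  obtain ⟨T, hTd⟩ : ∃ T : ℝ, T = L * (5 * R) := ⟨_, rfl⟩
  have hT : 0 ≤ T := by rw [hTd]; positivity
  obtain ⟨Ce, hCe, hel⟩ := elim_le hT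
  obtain ⟨B, hBd⟩ : ∃ B : ℝ, B = 4 * R / r₀ := ⟨_, rfl⟩
  have hB : 0 ≤ B := by rw [hBd]; positivity
  obtain ⟨D, hDd⟩ : ∃ D : ℝ, D = 3 * R + 2 := ⟨_, rfl⟩
  have hD : 0 ≤ D := by rw [hDd]; positivity
  -- the constants
  obtain ⟨C1, hC1⟩ : ∃ C : ℝ, C = 20 * (1 + B) ^ 4 * (Ce * Ct) := ⟨_, rfl⟩
  obtain ⟨C3, hC3⟩ : ∃ C : ℝ, C = ((Ku + Ct * D) * Ce + Ce * (Ct * D)) / k := ⟨_, rfl⟩
  obtain ⟨C4, hC4⟩ : ∃ C : ℝ, C = Cq * ((4 * T + 2) * L) + Cq * Ce := ⟨_, rfl⟩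
  obtain ⟨C5, hC5⟩ : ∃ C : ℝ, C = Ct / (Cc * Cs) := ⟨_, rfl⟩
  have p1 : 0 < C1 := by rw [hC1]; positivity
  have p3 : 0 < C3 := by rw [hC3]; positivity
  have p4 : 0 < C4 := by rw [hC4]; positivity
  have p5 : 0 < C5 := by rw [hC5]; positivity
  refine ⟨C1 + Ce + C3 + C4 + C5, by positivity, ?_⟩
  intro c₁ r₁ μ₁ c₂ r₂ μ₂ ps1 ps2 hδ hμ0
  obtain ⟨e₀, E, e₁, e₂, htr, hE, hS1, hS2⟩ := trg c₁ r₁ μ₁ c₂ r₂ μ₂ ps1 ps2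
  have hδD : dd c₁ r₁ μ₁ c₂ r₂ μ₂ ≤ D := by
    rw [hDd]
    exact Gs_dd_le hr₀ h1 ps1 ps2
  obtain ⟨δ, hδd⟩ : ∃ δ : ℝ, δ = dd c₁ r₁ μ₁ c₂ r₂ μ₂ := ⟨_, rfl⟩
  rw [← hδd] at hE hS1 hS2 hδ hδD
  obtain ⟨S, hSd⟩ : ∃ S : ℝ, S = |e₀| + ‖e₁‖ + ‖e₂‖ := ⟨_, rfl⟩
  obtain ⟨M, hMd⟩ : ∃ M : ℝ, M = ‖e₂‖ + ‖e₁‖ * ‖μ₁‖ + |e₀| * ‖μ₁‖ ^ 2 := ⟨_, rfl⟩
  rw [← hSd] at hS1 hS2
  have hr₁ : 0 < r₁ := hr₀.trans_le ps1.2.1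
  have hμ1 : ‖μ₁‖ < 1 := ps1.2.2.2.trans_lt h1
  have hμ1' : ‖μ₁‖ ≤ 1 := hμ1.le
  have hS : 0 < S := by
    by_contra hneg
    have : Ct * S ≤ 0 := mul_nonpos_of_nonneg_of_nonpos hCt.le (not_lt.1 hneg)
    linarith
  have a0 : 0 ≤ |e₀| := abs_nonneg _
  have b0 : 0 ≤ ‖e₁‖ := norm_nonneg _
  have c0 : 0 ≤ ‖e₂‖ := norm_nonneg _
  have m0 : 0 < ‖μ₁‖ := norm_pos_iff.2 hμ0
  have hM : 0 < M := by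
    have h2 : S * ‖μ₁‖ ^ 2 ≤ M := by
      rw [hSd, hMd]
      have q1 : ‖μ₁‖ ^ 2 ≤ 1 := pow_le_one₀ m0.le hμ1'
      have q2 : ‖μ₁‖ ^ 2 ≤ ‖μ₁‖ := by nlinarith
      have q3 : ‖e₁‖ * ‖μ₁‖ ^ 2 ≤ ‖e₁‖ * ‖μ₁‖ := mul_le_mul_of_nonneg_left q2 b0
      have q4 : ‖e₂‖ * ‖μ₁‖ ^ 2 ≤ ‖e₂‖ * 1 := mul_le_mul_of_nonneg_left q1 c0
      linarith
    exact lt_of_lt_of_le (by positivity) h2
  have hδM : 0 < δ * M := mul_pos hδ hM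
  have hδMc : ((δ * M : ℝ) : ℂ) ≠ 0 := by exact_mod_cast hδM.ne'
  obtain ⟨κ, hκd⟩ : ∃ κ : ℝ, κ = kap r₁ μ₁ := ⟨_, rfl⟩
  have hκ : 0 < κ := by rw [hκd]; exact kap_pos hr₁ hμ1
  have hκk : k ≤ κ := by rw [hκd]; exact hkl c₁ r₁ μ₁ ps1
  have hκK : κ ≤ Ku := by rw [hκd]; exact hku c₁ r₁ μ₁ ps1
  have hκc : (κ : ℂ) ≠ 0 := by exact_mod_cast hκ.ne'
  have hr1c : (r₁ : ℂ) ≠ 0 := by exact_mod_cast hr₁.ne'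
  -- bound of `vv`
  have hvb : ∀ z : ℂ, ‖z‖ ≤ 4 * R → ‖vv c₁ r₁ μ₁ z‖ ≤ T := by
    intro z hz
    have h2 := hvL c₁ r₁ μ₁ ps1 z c₁
    rw [Gb_vv_c, sub_zero] at h2
    have h3 : ‖z - c₁‖ ≤ 5 * R := by
      calc ‖z - c₁‖ ≤ ‖z‖ + ‖c₁‖ := norm_sub_le _ _
        _ ≤ 4 * R + R := add_le_add hz ps1.1
        _ = 5 * R := by ring
    rw [hTd]
    exact h2.trans (mul_le_mul_of_nonneg_left h3 hL.le)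
  have hzeta : ∀ z : ℂ, (z - c₁) / r₁ = vv c₁ r₁ μ₁ z + μ₁ * conj (vv c₁ r₁ μ₁ z) := by
    intro z
    have h2 := zz_vv (c := c₁) hr₁ hμ1 z
    unfold zz at h2
    rw [div_eq_iff hr1c]
    linear_combination (-1 : ℂ) * h2
  have hnδM : ‖((δ * M : ℝ) : ℂ)‖ = δ * M := by
    rw [Complex.norm_real, Real.norm_of_nonneg hδM.le]
  set P : ℂ → ℂ := fun z => Fb μ₁ (sj μ₁ e₀ e₁ e₂) ((z - c₁) / r₁) / ((δ * M : ℝ) : ℂ) with hP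
  set V : ℂ → ℂ := fun z => Vt μ₁ e₀ e₁ e₂ (vv c₁ r₁ μ₁ z) / ((δ * M : ℝ) : ℂ) with hV
  set y : ℂ → ℂ := fun z => (QQ c₂ r₂ μ₂ z : ℂ) * V z with hy
  set Z : ℂ → ℂ := fun z => (((κ + E : ℝ) : ℂ) * Vt μ₁ e₀ e₁ e₂ (vv c₁ r₁ μ₁ z) + Wt μ₁ e₀ e₁ e₂ (vv c₁ r₁ μ₁ z)) /
    (((δ * M : ℝ) : ℂ) * κ) with hZ
  have hVs : ContDiff ℝ ∞ V := (Gs_Vt c₁ r₁ μ₁ e₀ e₁ e₂).div_const _
  have hys : ContDiff ℝ ∞ y := (Complex.ofRealCLM.contDiff.comp (QQ_contDiff c₂ r₂ μ₂)).mul hVs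
  have hZs : ContDiff ℝ ∞ Z :=
    ((contDiff_const.mul (Gs_Vt c₁ r₁ μ₁ e₀ e₁ e₂)).add (Gs_Wt c₁ r₁ μ₁ e₀ e₁ e₂)).div_const _
  -- elementary estimates
  have hVtb : ∀ z : ℂ, ‖z‖ ≤ 4 * R → ‖Vt μ₁ e₀ e₁ e₂ (vv c₁ r₁ μ₁ z)‖ ≤ Ce * M := by
    intro z hz
    have := (hel μ₁ e₀ e₁ e₂ _ hμ1' (hvb z hz)).1
    rw [← hMd] at this
    exact this
  have hVb : ∀ z : ℂ, ‖z‖ ≤ 4 * R → δ * ‖V z‖ ≤ Ce := by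
    intro z hz
    show δ * ‖Vt μ₁ e₀ e₁ e₂ (vv c₁ r₁ μ₁ z) / ((δ * M : ℝ) : ℂ)‖ ≤ Ce
    rw [norm_div, hnδM, ← mul_div_assoc, div_le_iff₀ hδM]
    have := mul_le_mul_of_nonneg_left (hVtb z hz) hδ.le
    linarith
  have hVL : ∀ z w : ℂ, ‖z‖ ≤ 4 * R → ‖w‖ ≤ 4 * R → δ * ‖V z - V w‖ ≤ (4 * T + 2) * L * ‖z - w‖ := by
    intro z w hz hw
    have h2 := Gs_Vt_lip hT hμ1' e₀ e₁ e₂ (hvb z hz) (hvb w hw)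
    rw [← hMd] at h2
    have h3 := hvL c₁ r₁ μ₁ ps1 z w
    show δ * ‖Vt μ₁ e₀ e₁ e₂ (vv c₁ r₁ μ₁ z) / ((δ * M : ℝ) : ℂ) - Vt μ₁ e₀ e₁ e₂ (vv c₁ r₁ μ₁ w) / ((δ * M : ℝ) : ℂ)‖ ≤ _
    rw [← sub_div, norm_div, hnδM, ← mul_div_assoc, div_le_iff₀ hδM]
    have h4 : (4 * T + 2) * M * ‖vv c₁ r₁ μ₁ z - vv c₁ r₁ μ₁ w‖ ≤ (4 * T + 2) * M * (L * ‖z - w‖) :=
      mul_le_mul_of_nonneg_left h3 (by positivity)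
    have := mul_le_mul_of_nonneg_left (h2.trans h4) hδ.le
    linarith
  have hQ2 := hQL c₂ r₂ μ₂ (Gs_PS_mono (by linarith) ps2)
  refine ⟨P, y, Z, V, ?_, ?_⟩
  · refine ⟨?_, hys, hZs, hVs, fun z => rfl, ?_, ?_, ?_, ?_, ?_⟩
    · -- differentiability of `P`
      show Differentiable ℂ (fun z => Fb μ₁ (sj μ₁ e₀ e₁ e₂) ((z - c₁) / r₁) / ((δ * M : ℝ) : ℂ))
      unfold Fb
      fun_prop
    · -- the identity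
      intro z
      obtain ⟨v, hvd⟩ : ∃ v : ℂ, v = vv c₁ r₁ μ₁ z := ⟨_, rfl⟩
      have hz : zz c₁ r₁ μ₁ v = z := by rw [hvd]; exact zz_vv hr₁ hμ1 z
      have h2 := htr v
      rw [hz] at h2
      have h3 : QQ c₁ r₁ μ₁ z = κ * (‖v‖ ^ 2 - 1) := by rw [hvd, hκd]; rfl
      have h4 := elim μ₁ e₀ e₁ e₂ v
      have h5 := hzeta z
      rw [← hvd] at h5
      show (QQ c₂ r₂ μ₂ z : ℂ) * (Vt μ₁ e₀ e₁ e₂ (vv c₁ r₁ μ₁ z) / ((δ * M : ℝ) : ℂ)) -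
        Fb μ₁ (sj μ₁ e₀ e₁ e₂) ((z - c₁) / r₁) / ((δ * M : ℝ) : ℂ) =
        (QQ c₁ r₁ μ₁ z : ℂ) * ((((κ + E : ℝ) : ℂ) * Vt μ₁ e₀ e₁ e₂ (vv c₁ r₁ μ₁ z) + Wt μ₁ e₀ e₁ e₂ (vv c₁ r₁ μ₁ z)) /
          (((δ * M : ℝ) : ℂ) * κ))
      rw [h5, h4, ← hvd]
      have h6 : (QQ c₂ r₂ μ₂ z : ℂ) = (QQ c₁ r₁ μ₁ z : ℂ) + (Ut e₀ e₁ e₂ v + E * ((‖v‖ ^ 2 - 1 : ℝ) : ℂ)) := by
        rw [← h2]
        push_cast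
        ring
      rw [h6, h3]
      have h7 : ((1 - ‖v‖ ^ 2 : ℝ) : ℂ) = -((‖v‖ ^ 2 - 1 : ℝ) : ℂ) := by
        push_cast
        ring
      have h8 : ((κ * (‖v‖ ^ 2 - 1) : ℝ) : ℂ) = κ * ((‖v‖ ^ 2 - 1 : ℝ) : ℂ) := by
        push_cast
        ring
      have h9 : ((κ + E : ℝ) : ℂ) = κ + E := by push_cast; rfl
      rw [h7, h8, h9]
      generalize ((‖v‖ ^ 2 - 1 : ℝ) : ℂ) = q
      generalize ((δ * M : ℝ) : ℂ) = d at hδMc ⊢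
      field_simp
      ring
    · -- bound of `P`
      intro z hz
      have h2 : ‖(z - c₁) / (r₁ : ℂ)‖ ≤ B := by
        rw [norm_div, Complex.norm_real, Real.norm_of_nonneg hr₁.le, hBd]
        have h3 : ‖z - c₁‖ ≤ 4 * R := by
          calc ‖z - c₁‖ ≤ ‖z‖ + ‖c₁‖ := norm_sub_le _ _
            _ ≤ 3 * R + R := add_le_add hz ps1.1
            _ = 4 * R := by ring
        have := ps1.2.1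
        gcongr
      have h3 : ∀ j, ‖sj μ₁ e₀ e₁ e₂ j‖ ≤ Ce * S * M := by
        have := (hel μ₁ e₀ e₁ e₂ (vv c₁ r₁ μ₁ z) hμ1' (hvb z (by linarith))).2.2
        rw [← hMd, ← hSd] at this
        exact this
      have h4 := Gs_Fb_le hB (by positivity) hμ1' (sj μ₁ e₀ e₁ e₂) h3 h2
      show ‖Fb μ₁ (sj μ₁ e₀ e₁ e₂) ((z - c₁) / r₁) / ((δ * M : ℝ) : ℂ)‖ ≤ _
      rw [norm_div, hnδM, div_le_iff₀ hδM]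
      have h5 : 20 * (1 + B) ^ 4 * (Ce * S * M) ≤ C1 * (δ * M) := by
        rw [hC1]
        calc 20 * (1 + B) ^ 4 * (Ce * S * M) ≤ 20 * (1 + B) ^ 4 * (Ce * (Ct * δ) * M) := by gcongr
          _ = 20 * (1 + B) ^ 4 * (Ce * Ct) * (δ * M) := by ring
      refine (h4.trans h5).trans (mul_le_mul_of_nonneg_right ?_ hδM.le)
      linarith
    · intro z hz
      rw [← hδd]
      have := hVb z (by linarith)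
      linarith
    · intro z hz
      rw [← hδd]
      have hz4 : ‖z‖ ≤ 4 * R := by linarith
      have w1 := hVtb z hz4
      have w2 : ‖Wt μ₁ e₀ e₁ e₂ (vv c₁ r₁ μ₁ z)‖ ≤ Ce * (Ct * D) * M := by
        have := (hel μ₁ e₀ e₁ e₂ (vv c₁ r₁ μ₁ z) hμ1' (hvb z hz4)).2.1
        rw [← hMd, ← hSd] at this
        refine this.trans ?_
        have : S ≤ Ct * D := hS1.trans (mul_le_mul_of_nonneg_left hδD hCt.le)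
        gcongr
      have w3 : ‖((κ + E : ℝ) : ℂ)‖ ≤ Ku + Ct * D := by
        rw [Complex.norm_real, Real.norm_eq_abs]
        refine (abs_add_le _ _).trans ?_
        rw [abs_of_pos hκ]
        exact add_le_add hκK (hE.trans (mul_le_mul_of_nonneg_left hδD hCt.le))
      have w4 : ‖((κ + E : ℝ) : ℂ) * Vt μ₁ e₀ e₁ e₂ (vv c₁ r₁ μ₁ z) + Wt μ₁ e₀ e₁ e₂ (vv c₁ r₁ μ₁ z)‖ ≤
          ((Ku + Ct * D) * Ce + Ce * (Ct * D)) * M := by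
        refine (norm_add_le_of_le (norm_mul_le_of_le w3 w1) w2).trans (le_of_eq ?_)
        ring
      have w5 : δ * ‖Z z‖ ≤ C3 := by
        show δ * ‖(((κ + E : ℝ) : ℂ) * Vt μ₁ e₀ e₁ e₂ (vv c₁ r₁ μ₁ z) + Wt μ₁ e₀ e₁ e₂ (vv c₁ r₁ μ₁ z)) /
          (((δ * M : ℝ) : ℂ) * κ)‖ ≤ C3
        rw [norm_div, norm_mul, hnδM, Complex.norm_real, Real.norm_of_nonneg hκ.le, ← mul_div_assoc,
          div_le_iff₀ (mul_pos hδM hκ), hC3]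
        have w6 : ((Ku + Ct * D) * Ce + Ce * (Ct * D)) * (δ * M) ≤
            ((Ku + Ct * D) * Ce + Ce * (Ct * D)) / k * (δ * M * κ) := by
          rw [div_mul_eq_mul_div, le_div_iff₀ hk]
          have w7 : ((Ku + Ct * D) * Ce + Ce * (Ct * D)) * (δ * M) * k ≤
              ((Ku + Ct * D) * Ce + Ce * (Ct * D)) * (δ * M) * κ :=
            mul_le_mul_of_nonneg_left hκk (by positivity)
          linarith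
        refine le_trans ?_ w6
        have := mul_le_mul_of_nonneg_left w4 hδ.le
        linarith
      linarith
    · intro z hz
      rw [← hδd]
      have hz4 : ‖z‖ ≤ 4 * R := by linarith
      have hd := Gs_dbar (F := y) (z := z) ((hys.differentiable (by simp)) z) (K := C4 / δ) (by positivity) (by
        filter_upwards [Metric.ball_mem_nhds z hRp] with w hw
        have hw4 : ‖w‖ ≤ 4 * R := by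
          have h2 : ‖w - z‖ < R := by
            rw [← dist_eq_norm]
            exact hw
          have h3 : ‖w‖ ≤ ‖w - z‖ + ‖z‖ := by
            have := norm_add_le (w - z) z
            rwa [sub_add_cancel] at this
          linarith
        obtain ⟨q1, q2⟩ := hQ2 w z (by linarith) (by linarith)
        have q3 := hVL w z hw4 hz4
        have q4 := hVb z hz4
        have e : y w - y z = (QQ c₂ r₂ μ₂ w : ℂ) * (V w - V z) + ((QQ c₂ r₂ μ₂ w - QQ c₂ r₂ μ₂ z : ℝ) : ℂ) * V z := by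
          show (QQ c₂ r₂ μ₂ w : ℂ) * V w - (QQ c₂ r₂ μ₂ z : ℂ) * V z = _
          push_cast
          ring
        have n1 : ‖(QQ c₂ r₂ μ₂ w : ℂ)‖ ≤ Cq := by
          rw [Complex.norm_real]
          exact q1
        have n2 : ‖((QQ c₂ r₂ μ₂ w - QQ c₂ r₂ μ₂ z : ℝ) : ℂ)‖ ≤ Cq * ‖w - z‖ := by
          rw [Complex.norm_real]
          exact q2
        have n3 : ‖V w - V z‖ ≤ (4 * T + 2) * L * ‖w - z‖ / δ := by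
          rw [le_div_iff₀ hδ]
          linarith
        have n4 : ‖V z‖ ≤ Ce / δ := by
          rw [le_div_iff₀ hδ]
          linarith
        rw [e]
        refine (norm_add_le_of_le (norm_mul_le_of_le n1 n3) (norm_mul_le_of_le n2 n4)).trans (le_of_eq ?_)
        rw [hC4]
        field_simp)
      have h2 := mul_le_mul_of_nonneg_left hd hδ.le
      rw [mul_div_cancel₀ _ hδ.ne'] at h2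
      linarith
  · obtain ⟨τ, t1, t2, t3⟩ := hcur μ₁ (sj μ₁ e₀ e₁ e₂) ps1.2.2.2
    refine ⟨τ, t1, t2, ?_⟩
    intro z hz
    have h2 := t3 _ hz
    have h3 := hsj μ₁ e₀ e₁ e₂ hμ1'
    rw [← hSd, ← hMd] at h3
    rw [← hzeta z] at h2
    have h4 : Cc * (Cs * S * M) ≤ ‖Fb μ₁ (sj μ₁ e₀ e₁ e₂) ((z - c₁) / r₁)‖ :=
      (mul_le_mul_of_nonneg_left h3 hCc.le).trans h2
    have h5 : ‖P z‖ = ‖Fb μ₁ (sj μ₁ e₀ e₁ e₂) ((z - c₁) / r₁)‖ / (δ * M) := by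
      show ‖Fb μ₁ (sj μ₁ e₀ e₁ e₂) ((z - c₁) / r₁) / ((δ * M : ℝ) : ℂ)‖ = _
      rw [norm_div, hnδM]
    have h6 : 1 ≤ C5 * ‖P z‖ := by
      rw [h5, hC5, div_mul_div_comm, le_div_iff₀ (by positivity), one_mul]
      have h7 : Ct * (Cc * (Cs * S * M)) ≤ Ct * ‖Fb μ₁ (sj μ₁ e₀ e₁ e₂) ((z - c₁) / r₁)‖ :=
        mul_le_mul_of_nonneg_left h4 hCt.le
      have h8 : Cc * Cs * M * δ ≤ Cc * Cs * M * (Ct * S) := mul_le_mul_of_nonneg_left hS2 (by positivity)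
      linarith
    have h7 : 0 ≤ (C1 + Ce + C3 + C4) * ‖P z‖ := by positivity
    linarith

end EW1
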