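import Pool.Agent.H1.EW.Gl
import Pool.Agent.H1.EW.Gs

/-!
ROW EW/Gm. From the points of both ellipses to all points (`Eest`: `Lest` with `σ' = (1+σ)/2` on `ball z₁ τ ∩ D₂`, a lower bound of `|U|` on `ball z₁ τ \ D₂`, mean value of `(P³ m)²` over the ball)
and to `m` (`F3`: the curve of `setup`, maximum principle).
-/

set_option autoImplicit false

namespace EW1

open Complex Set Filter Topology MeasureTheory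
open scoped ComplexConjugate ContDiff Real

/-- `Su` is monotone in the constant -/
theorem Gm_Su {R C C' : ℝ} (h : C ≤ C') {c₁ : ℂ} {r₁ : ℝ} {μ₁ c₂ : ℂ} {r₂ : ℝ} {μ₂ : ℂ} {P y Z V : ℂ → ℂ}
    (hS : Su R C c₁ r₁ μ₁ c₂ r₂ μ₂ P y Z V) : Su R C' c₁ r₁ μ₁ c₂ r₂ μ₂ P y Z V :=
  ⟨hS.P_diff, hS.y_smooth, hS.Z_smooth, hS.V_smooth, hS.y_eq, hS.yP_eq, fun z hz => (hS.P_le z hz).trans h,
    fun z hz => (hS.V_le z hz).trans h, fun z hz => (hS.Z_le z hz).trans h, fun z hz => (hS.dy_le z hz).trans h⟩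

/-- mean value on a circle -/
theorem Gm_circle {f : ℂ → ℂ} {z₁ : ℂ} {τ s : ℝ} (hs : 0 < s) (hsτ : s < τ)
    (hf : DifferentiableOn ℂ f (Metric.ball z₁ τ)) :
    ENNReal.ofReal (2 * π * s * ‖f z₁‖) ≤ ∫⁻ t in Ioo (-π) π, ENNReal.ofReal s *
      ENNReal.ofReal ‖f (z₁ + s * (Real.cos t + Real.sin t * I))‖ := by
  have hsub : Metric.closedBall z₁ |s| ⊆ Metric.ball z₁ τ := by
    rw [abs_of_pos hs]
    exact Metric.closedBall_subset_ball hsτ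
  have h1 : Real.circleAverage f z₁ s = f z₁ := by
    refine circleAverage_of_differentiable_on_off_countable countable_empty (hf.continuousOn.mono hsub) ?_
    intro z hz
    exact hf.differentiableAt (Metric.isOpen_ball.mem_nhds (hsub (Metric.ball_subset_closedBall hz.1)))
  have hcm : ∀ t : ℝ, z₁ + s * (Real.cos t + Real.sin t * I) = circleMap z₁ s t := by
    intro t
    unfold circleMap
    rw [Complex.exp_mul_I, Complex.ofReal_cos, Complex.ofReal_sin]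
  have hcont : Continuous (fun t : ℝ => ‖f (circleMap z₁ s t)‖) := by
    refine (hf.continuousOn.comp_continuous (continuous_circleMap z₁ s) (fun t => ?_)).norm
    exact hsub (by rw [abs_of_pos hs]; exact circleMap_mem_closedBall z₁ hs.le t)
  have hper : Function.Periodic (fun t : ℝ => ‖f (circleMap z₁ s t)‖) (2 * π) := by
    intro t
    simp only [periodic_circleMap z₁ s t]
  have h2 : 2 * π * ‖f z₁‖ ≤ ∫ t in (-π)..π, ‖f (circleMap z₁ s t)‖ := by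
    have h3 := hper.intervalIntegral_add_eq 0 (-π)
    rw [zero_add, show -π + 2 * π = π by ring] at h3
    rw [← h3, ← h1, Real.circleAverage_def, norm_smul, Real.norm_of_nonneg (by positivity), ← mul_assoc,
      mul_inv_cancel₀ (by positivity), one_mul]
    exact intervalIntegral.norm_integral_le_integral_norm (by positivity)
  have h4 : ∫⁻ t in Ioo (-π) π, ENNReal.ofReal s * ENNReal.ofReal ‖f (z₁ + s * (Real.cos t + Real.sin t * I))‖ =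
      ENNReal.ofReal s * ENNReal.ofReal (∫ t in (-π)..π, ‖f (circleMap z₁ s t)‖) := by
    rw [lintegral_const_mul' _ _ ENNReal.ofReal_ne_top]
    congr 1
    rw [intervalIntegral.integral_of_le (by linarith [Real.pi_pos]), ← integral_Ioc_eq_integral_Ioo.symm,
      ofReal_integral_eq_lintegral_ofReal]
    · simp only [hcm]
    · exact (hcont.integrableOn_Icc (a := -π) (b := π)).mono_set Ioo_subset_Icc_self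
    · exact ae_of_all _ fun t => norm_nonneg _
  rw [h4, ← ENNReal.ofReal_mul hs.le]
  apply ENNReal.ofReal_le_ofReal
  have := mul_le_mul_of_nonneg_left h2 hs.le
  linarith

/-- mean value on a disk -/
theorem Gm_area {f : ℂ → ℂ} {z₁ : ℂ} {τ : ℝ} (hτ : 0 < τ) (hf : DifferentiableOn ℂ f (Metric.ball z₁ τ)) :
    ENNReal.ofReal (π * τ ^ 2 * ‖f z₁‖) ≤ ∫⁻ z in Metric.ball z₁ τ, ENNReal.ofReal ‖f z‖ := by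
  rw [← lintegral_indicator measurableSet_ball, ← lintegral_add_left_eq_self _ z₁,
    ← Complex.lintegral_comp_polarCoord_symm, polarCoord_target, Measure.volume_eq_prod, ← Measure.prod_restrict]
  simp only [Complex.polarCoord_symm_apply, smul_eq_mul]
  have hm : Measurable ((Metric.ball z₁ τ).indicator (fun z => ENNReal.ofReal ‖f z‖)) := by
    classical
    rw [← Set.piecewise_eq_indicator]
    refine ContinuousOn.measurable_piecewise ?_ continuousOn_const measurableSet_ball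
    exact ENNReal.continuous_ofReal.comp_continuousOn hf.continuousOn.norm
  rw [lintegral_prod]
  · have h1 : ∫⁻ s in Ioo 0 τ, ENNReal.ofReal (2 * π * s * ‖f z₁‖) = ENNReal.ofReal (π * τ ^ 2 * ‖f z₁‖) := by
      rw [← ofReal_integral_eq_lintegral_ofReal]
      · congr 1
        rw [← integral_Ioc_eq_integral_Ioo, ← intervalIntegral.integral_of_le hτ.le, intervalIntegral.integral_mul_const,
          intervalIntegral.integral_const_mul, integral_id]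
        ring
      · have : Continuous (fun s : ℝ => 2 * π * s * ‖f z₁‖) := by fun_prop
        exact (this.integrableOn_Icc (a := 0) (b := τ)).mono_set Ioo_subset_Icc_self
      · refine (ae_restrict_iff' measurableSet_Ioo).2 (ae_of_all _ fun s hs => ?_)
        have : 0 < s := hs.1
        show (0 : ℝ) ≤ 2 * π * s * ‖f z₁‖
        positivity
    rw [← h1]
    refine (setLIntegral_mono_ae' measurableSet_Ioo (ae_of_all _ ?_)).trans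
      (lintegral_mono_set (Ioo_subset_Ioi_self : Ioo 0 τ ⊆ Ioi 0))
    intro s hs
    refine (Gm_circle hs.1 hs.2 hf).trans (lintegral_mono fun t => ?_)
    rw [indicator_of_mem]
    rw [Metric.mem_ball, dist_eq_norm, add_sub_cancel_left, norm_mul, Complex.norm_real, Real.norm_of_nonneg hs.1.le,
      Complex.ofReal_cos, Complex.ofReal_sin, ← Complex.exp_mul_I, Complex.norm_exp_ofReal_mul_I, mul_one]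
    exact hs.2
  · have h2 : Continuous (fun p : ℝ × ℝ => z₁ + (p.1 : ℂ) * (Real.cos p.2 + Real.sin p.2 * I)) := by fun_prop
    exact ((measurable_fst.ennreal_ofReal).mul (hm.comp h2.measurable)).aemeasurable

theorem Gm_hU {r₀ R μ₀ : ℝ} (hr₀ : 0 < r₀) (h1 : μ₀ < 1) {C : ℝ}
    (hC : ∀ (c₁ : ℂ) (r₁ : ℝ) (μ₁ c₂ : ℂ) (r₂ : ℝ) (μ₂ : ℂ), PS r₀ R μ₀ c₁ r₁ μ₁ → PS r₀ R μ₀ c₂ r₂ μ₂ →
      ∀ z : ℂ, ‖z‖ ≤ 3 * R → ‖aa c₁ r₁ μ₁ c₂ r₂ μ₂ z‖ ≤ C * dd c₁ r₁ μ₁ c₂ r₂ μ₂)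
    {c₁ : ℂ} {r₁ : ℝ} {μ₁ c₂ : ℂ} {r₂ : ℝ} {μ₂ : ℂ} (p1 : PS r₀ R μ₀ c₁ r₁ μ₁) (p2 : PS r₀ R μ₀ c₂ r₂ μ₂)
    (z : ℂ) (hz : ‖z‖ ≤ 3 * R) : |QQ c₂ r₂ μ₂ z - QQ c₁ r₁ μ₁ z| ≤ C * dd c₁ r₁ μ₁ c₂ r₂ μ₂ := by
  rw [← aa_re (hr₀.trans_le p1.2.1) (hr₀.trans_le p2.2.1) (p1.2.2.2.trans_lt h1) (p2.2.2.2.trans_lt h1)]
  exact (Complex.abs_re_le_norm _).trans (hC c₁ r₁ μ₁ c₂ r₂ μ₂ p1 p2 z hz)

/-- the integrand of `NN` is integrable -/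
theorem Gm_NN {c₁ : ℂ} {r₁ : ℝ} {μ₁ c₂ : ℂ} {r₂ : ℝ} {μ₂ : ℂ} (hr₁ : 0 < r₁) (hr₂ : 0 < r₂) (hμ₁ : ‖μ₁‖ < 1) (hμ₂ : ‖μ₂‖ < 1)
    {N : Set ℂ} {m : ℂ → ℂ} (hN1 : {z | ‖vv c₁ r₁ μ₁ z‖ ≤ 1} ⊆ N) (hN2 : {z | ‖vv c₂ r₂ μ₂ z‖ ≤ 1} ⊆ N)
    (hm : ContinuousOn m N) :
    ∫⁻ z in (Dp c₁ r₁ μ₁ 1 \ Dp c₂ r₂ μ₂ 1) ∪ (Dp c₂ r₂ μ₂ 1 \ Dp c₁ r₁ μ₁ 1),
      ENNReal.ofReal (|QQ c₂ r₂ μ₂ z - QQ c₁ r₁ μ₁ z| * ‖m z‖ ^ 2) = ENNReal.ofReal (NN c₁ r₁ μ₁ c₂ r₂ μ₂ m) := by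
  unfold NN
  rw [ofReal_integral_eq_lintegral_ofReal]
  · have hK : IsCompact ({z | ‖vv c₁ r₁ μ₁ z‖ ≤ 1} ∪ {z | ‖vv c₂ r₂ μ₂ z‖ ≤ 1}) :=
      (cDp_compact hr₁ hμ₁ 1).union (cDp_compact hr₂ hμ₂ 1)
    have hc : ContinuousOn (fun z => |QQ c₂ r₂ μ₂ z - QQ c₁ r₁ μ₁ z| * ‖m z‖ ^ 2) N :=
      (((QQ_contDiff c₂ r₂ μ₂).continuous.sub (QQ_contDiff c₁ r₁ μ₁).continuous).abs.continuousOn).mul (hm.norm.pow 2)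
    refine ((hc.mono (union_subset hN1 hN2)).integrableOn_compact hK).mono_set ?_
    rintro z (hz | hz)
    · exact Or.inl (le_of_lt (show ‖vv c₁ r₁ μ₁ z‖ < 1 from hz.1))
    · exact Or.inr (le_of_lt (show ‖vv c₂ r₂ μ₂ z‖ < 1 from hz.1))
  · exact ae_of_all _ fun z => by positivity

theorem Eest {r₀ R μ₀ σ C₀ : ℝ} (hr₀ : 0 < r₀) (hR : r₀ ≤ R) (h0 : 0 ≤ μ₀) (h1 : μ₀ < 1) (hσ : 0 < σ) (hσ1 : σ < 1) (hC₀ : 0 < C₀) :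
    ∃ C : ℝ, 0 < C ∧ ∀ (c₁ : ℂ) (r₁ : ℝ) (μ₁ c₂ : ℂ) (r₂ : ℝ) (μ₂ : ℂ), PS r₀ R μ₀ c₁ r₁ μ₁ → PS r₀ R μ₀ c₂ r₂ μ₂ →
      0 < dd c₁ r₁ μ₁ c₂ r₂ μ₂ →
      ∀ P y Z V : ℂ → ℂ, Su R C₀ c₁ r₁ μ₁ c₂ r₂ μ₂ P y Z V →
      ∀ (N : Set ℂ) (m : ℂ → ℂ), IsOpen N → {z | ‖vv c₁ r₁ μ₁ z‖ ≤ 1} ⊆ N → {z | ‖vv c₂ r₂ μ₂ z‖ ≤ 1} ⊆ N →
      DifferentiableOn ℂ m N → ∀ z₁ ∈ Dp c₁ r₁ μ₁ σ,
        dd c₁ r₁ μ₁ c₂ r₂ μ₂ * (‖P z₁‖ ^ 3 * ‖m z₁‖) ≤ C * Real.sqrt (NN c₁ r₁ μ₁ c₂ r₂ μ₂ m) := by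
  obtain ⟨Ca, hCa, haa⟩ := aa_le hr₀ hR h0 h1
  obtain ⟨L, hL, hvL⟩ := vv_lip (R := R) hr₀ h0 h1
  obtain ⟨k, hk, hkl⟩ := kap_lb (R := R) hr₀ h0 h1
  obtain ⟨σ', hσ'⟩ : ∃ σ' : ℝ, σ' = (1 + σ) / 2 := ⟨_, rfl⟩
  have s0 : 0 < σ' := by rw [hσ']; linarith
  have s1 : σ' < 1 := by rw [hσ']; linarith
  have s2 : σ < σ' := by rw [hσ']; linarith
  obtain ⟨CL, hCL, hLest⟩ := Lest (σ := σ') (C₀ := C₀ + Ca) hr₀ hR h0 h1 s0 s1 (by positivity)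
  obtain ⟨τ, hτd⟩ : ∃ τ : ℝ, τ = (σ' - σ) / L := ⟨_, rfl⟩
  have hτ : 0 < τ := by rw [hτd]; exact div_pos (by linarith) hL
  obtain ⟨q, hqd⟩ : ∃ q : ℝ, q = k * (1 - σ' ^ 2) := ⟨_, rfl⟩
  have hq : 0 < q := by
    have : 0 < 1 - σ' ^ 2 := by nlinarith
    rw [hqd]
    positivity
  have hRp : 0 < R := hr₀.trans_le hR
  obtain ⟨K, hKd⟩ : ∃ K : ℝ, K = (3 * R + 2) ^ 2 * C₀ ^ 6 / q := ⟨_, rfl⟩
  have hK : 0 < K := by rw [hKd]; positivity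
  refine ⟨Real.sqrt (CL ^ 2 + K / (π * τ ^ 2)), by positivity, ?_⟩
  intro c₁ r₁ μ₁ c₂ r₂ μ₂ p1 p2 hδ P y Z V hS N m hN hN1 hN2 hm z₁ hz₁
  have hr₁ : 0 < r₁ := hr₀.trans_le p1.2.1
  have hr₂ : 0 < r₂ := hr₀.trans_le p2.2.1
  have hμ₁ : ‖μ₁‖ < 1 := p1.2.2.2.trans_lt h1
  have hμ₂ : ‖μ₂‖ < 1 := p2.2.2.2.trans_lt h1
  have hL1 := hLest c₁ r₁ μ₁ c₂ r₂ μ₂ p1 p2 hδ (fun z hz => (Gm_hU hr₀ h1 haa p1 p2 z hz).trans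
    (mul_le_mul_of_nonneg_right (by linarith) hδ.le)) P y Z V (Gm_Su (by linarith) hS) N m hN hN1 hN2 hm
  have hδD := Gs_dd_le hr₀ h1 p1 p2
  have hNN := NN_nonneg c₁ r₁ μ₁ c₂ r₂ μ₂ m
  have hNi := Gm_NN hr₁ hr₂ hμ₁ hμ₂ hN1 hN2 hm.continuousOn
  obtain ⟨δ, hδd⟩ : ∃ δ : ℝ, δ = dd c₁ r₁ μ₁ c₂ r₂ μ₂ := ⟨_, rfl⟩
  obtain ⟨X, hX⟩ : ∃ X : ℝ, X = NN c₁ r₁ μ₁ c₂ r₂ μ₂ m := ⟨_, rfl⟩
  rw [← hδd] at hδ hL1 hδD ⊢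
  rw [← hX] at hNN hNi hL1 ⊢
  -- the ball
  have hball : ∀ z ∈ Metric.ball z₁ τ, z ∈ Dp c₁ r₁ μ₁ σ' := by
    intro z hz
    have h2 := hvL c₁ r₁ μ₁ p1 z z₁
    have h3 : ‖z - z₁‖ < τ := by
      rw [← dist_eq_norm]
      exact hz
    have h4 : L * ‖z - z₁‖ < σ' - σ := by
      rw [hτd, lt_div_iff₀ hL] at h3
      linarith
    have h5 : ‖vv c₁ r₁ μ₁ z₁‖ < σ := hz₁
    have h6 : ‖vv c₁ r₁ μ₁ z‖ ≤ ‖vv c₁ r₁ μ₁ z - vv c₁ r₁ μ₁ z₁‖ + ‖vv c₁ r₁ μ₁ z₁‖ := by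
      have := norm_add_le (vv c₁ r₁ μ₁ z - vv c₁ r₁ μ₁ z₁) (vv c₁ r₁ μ₁ z₁)
      rwa [sub_add_cancel] at this
    show ‖vv c₁ r₁ μ₁ z‖ < σ'
    linarith
  have hD1 : ∀ z ∈ Metric.ball z₁ τ, ‖vv c₁ r₁ μ₁ z‖ ≤ 1 := fun z hz => by
    have : ‖vv c₁ r₁ μ₁ z‖ < σ' := hball z hz
    linarith
  have hfd : DifferentiableOn ℂ (fun z => (P z ^ 3 * m z) ^ 2) (Metric.ball z₁ τ) :=
    (((hS.P_diff.differentiableOn).pow 3).mul (hm.mono fun z hz => hN1 (hD1 z hz))).pow 2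
  have hA := Gm_area hτ hfd
  -- the pointwise bound
  have hpt : ∀ z ∈ Metric.ball z₁ τ, ENNReal.ofReal (δ ^ 2) * ENNReal.ofReal ‖(P z ^ 3 * m z) ^ 2‖ ≤
      ENNReal.ofReal (CL ^ 2 * X) + ENNReal.ofReal K *
        ((Dp c₁ r₁ μ₁ 1 \ Dp c₂ r₂ μ₂ 1) ∪ (Dp c₂ r₂ μ₂ 1 \ Dp c₁ r₁ μ₁ 1)).indicator
          (fun z => ENNReal.ofReal (|QQ c₂ r₂ μ₂ z - QQ c₁ r₁ μ₁ z| * ‖m z‖ ^ 2)) z := by
    intro z hz
    have hn : ‖(P z ^ 3 * m z) ^ 2‖ = (‖P z‖ ^ 3 * ‖m z‖) ^ 2 := by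
      rw [norm_pow, norm_mul, norm_pow]
    rw [hn, ← ENNReal.ofReal_mul (by positivity)]
    by_cases hz2 : z ∈ Dp c₂ r₂ μ₂ 1
    · have h2 := hL1 z (hball z hz) hz2
      refine le_trans (ENNReal.ofReal_le_ofReal ?_) le_self_add
      have h3 : δ ^ 2 * (‖P z‖ ^ 3 * ‖m z‖) ^ 2 = (δ * (‖P z‖ ^ 3 * ‖m z‖)) ^ 2 := by ring
      have h4 : CL ^ 2 * X = (CL * Real.sqrt X) ^ 2 := by
        rw [mul_pow, Real.sq_sqrt hNN]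
      rw [h3, h4]
      exact pow_le_pow_left₀ (by positivity) h2 2
    · have hz1 : z ∈ Dp c₁ r₁ μ₁ 1 := Dp_mono c₁ r₁ μ₁ s1.le (hball z hz)
      rw [indicator_of_mem (show z ∈ (Dp c₁ r₁ μ₁ 1 \ Dp c₂ r₂ μ₂ 1) ∪ (Dp c₂ r₂ μ₂ 1 \ Dp c₁ r₁ μ₁ 1) from
        Or.inl ⟨hz1, hz2⟩), ← ENNReal.ofReal_mul hK.le]
      refine le_trans (ENNReal.ofReal_le_ofReal ?_) le_add_self
      have hQ2 : 0 ≤ QQ c₂ r₂ μ₂ z := by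
        by_contra hcon
        exact hz2 ((QQ_neg_iff hr₂ hμ₂ z).1 (not_le.1 hcon))
      have hQ1 : QQ c₁ r₁ μ₁ z ≤ -q := by
        have h2 : ‖vv c₁ r₁ μ₁ z‖ < σ' := hball z hz
        have h3 : ‖vv c₁ r₁ μ₁ z‖ ^ 2 ≤ σ' ^ 2 := pow_le_pow_left₀ (norm_nonneg _) h2.le 2
        have h4 := hkl c₁ r₁ μ₁ p1
        have h5 : 0 ≤ 1 - σ' ^ 2 := by nlinarith
        unfold QQ
        rw [hqd]
        have h6 : k * (1 - σ' ^ 2) ≤ kap r₁ μ₁ * (1 - σ' ^ 2) := mul_le_mul_of_nonneg_right h4 h5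
        have h7 : kap r₁ μ₁ * (1 - σ' ^ 2) ≤ kap r₁ μ₁ * (1 - ‖vv c₁ r₁ μ₁ z‖ ^ 2) :=
          mul_le_mul_of_nonneg_left (by linarith) (hk.le.trans h4)
        linarith
      have hU : q ≤ |QQ c₂ r₂ μ₂ z - QQ c₁ r₁ μ₁ z| := le_trans (by linarith) (le_abs_self _)
      have hP : ‖P z‖ ≤ C₀ := hS.P_le z (Dp_sub hr₀ h1 p1 (hD1 z hz))
      calc δ ^ 2 * (‖P z‖ ^ 3 * ‖m z‖) ^ 2 = δ ^ 2 * (‖P z‖ ^ 6 * ‖m z‖ ^ 2) := by ring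
        _ ≤ (3 * R + 2) ^ 2 * (C₀ ^ 6 * ‖m z‖ ^ 2) := by gcongr
        _ = K * (q * ‖m z‖ ^ 2) := by
            rw [hKd]
            field_simp
        _ ≤ K * (|QQ c₂ r₂ μ₂ z - QQ c₁ r₁ μ₁ z| * ‖m z‖ ^ 2) := by gcongr
  have hE : MeasurableSet ((Dp c₁ r₁ μ₁ 1 \ Dp c₂ r₂ μ₂ 1) ∪ (Dp c₂ r₂ μ₂ 1 \ Dp c₁ r₁ μ₁ 1)) :=
    ((Dp_open _ _ _ _).measurableSet.diff (Dp_open _ _ _ _).measurableSet).union
      ((Dp_open _ _ _ _).measurableSet.diff (Dp_open _ _ _ _).measurableSet)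
  have hB : ENNReal.ofReal (δ ^ 2) * ENNReal.ofReal (π * τ ^ 2 * ‖(P z₁ ^ 3 * m z₁) ^ 2‖) ≤
      ENNReal.ofReal (CL ^ 2 * X) * ENNReal.ofReal (π * τ ^ 2) + ENNReal.ofReal K * ENNReal.ofReal X := by
    calc ENNReal.ofReal (δ ^ 2) * ENNReal.ofReal (π * τ ^ 2 * ‖(P z₁ ^ 3 * m z₁) ^ 2‖)
        ≤ ENNReal.ofReal (δ ^ 2) * ∫⁻ z in Metric.ball z₁ τ, ENNReal.ofReal ‖(P z ^ 3 * m z) ^ 2‖ := by gcongr
      _ = ∫⁻ z in Metric.ball z₁ τ, ENNReal.ofReal (δ ^ 2) * ENNReal.ofReal ‖(P z ^ 3 * m z) ^ 2‖ := by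
          rw [lintegral_const_mul' _ _ ENNReal.ofReal_ne_top]
      _ ≤ ∫⁻ z in Metric.ball z₁ τ, (ENNReal.ofReal (CL ^ 2 * X) + ENNReal.ofReal K *
        ((Dp c₁ r₁ μ₁ 1 \ Dp c₂ r₂ μ₂ 1) ∪ (Dp c₂ r₂ μ₂ 1 \ Dp c₁ r₁ μ₁ 1)).indicator
          (fun z => ENNReal.ofReal (|QQ c₂ r₂ μ₂ z - QQ c₁ r₁ μ₁ z| * ‖m z‖ ^ 2)) z) :=
          setLIntegral_mono' measurableSet_ball hpt
      _ ≤ ENNReal.ofReal (CL ^ 2 * X) * ENNReal.ofReal (π * τ ^ 2) + ENNReal.ofReal K * ENNReal.ofReal X := by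
          rw [lintegral_add_left measurable_const, setLIntegral_const, lintegral_const_mul' _ _ ENNReal.ofReal_ne_top]
          refine add_le_add (mul_le_mul_right (le_of_eq ?_) _) (mul_le_mul_right ?_ _)
          · rw [Complex.volume_ball, mul_comm π, ENNReal.ofReal_mul (by positivity), ENNReal.ofReal_pow hτ.le,
              ← NNReal.coe_real_pi, ENNReal.ofReal_coe_nnreal]
          · rw [← hNi, ← lintegral_indicator hE]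
            exact setLIntegral_le_lintegral _ _
  rw [← ENNReal.ofReal_mul (by positivity), ← ENNReal.ofReal_mul (by positivity), ← ENNReal.ofReal_mul (by positivity),
    ← ENNReal.ofReal_add (by positivity) (by positivity), ENNReal.ofReal_le_ofReal_iff (by positivity)] at hB
  have hn : ‖(P z₁ ^ 3 * m z₁) ^ 2‖ = (‖P z₁‖ ^ 3 * ‖m z₁‖) ^ 2 := by
    rw [norm_pow, norm_mul, norm_pow]
  rw [hn] at hB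
  rw [← Real.sqrt_mul (by positivity)]
  apply Real.le_sqrt_of_sq_le
  have hp : 0 < π * τ ^ 2 := by positivity
  have h2 : (CL ^ 2 + K / (π * τ ^ 2)) * X = (CL ^ 2 * X * (π * τ ^ 2) + K * X) / (π * τ ^ 2) := by
    field_simp
  rw [h2, le_div_iff₀ hp]
  linarith

theorem F3 {r₀ R μ₀ σ : ℝ} (hr₀ : 0 < r₀) (hR : r₀ ≤ R) (h0 : 0 ≤ μ₀) (h1 : μ₀ < 1) (hσ : 0 < σ) (hσ1 : σ < 1) :
    ∃ C : ℝ, 0 < C ∧ ∀ (c₁ : ℂ) (r₁ : ℝ) (μ₁ c₂ : ℂ) (r₂ : ℝ) (μ₂ : ℂ), PS r₀ R μ₀ c₁ r₁ μ₁ → PS r₀ R μ₀ c₂ r₂ μ₂ →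
      0 < dd c₁ r₁ μ₁ c₂ r₂ μ₂ → μ₁ ≠ 0 →
      ∀ (N : Set ℂ) (m : ℂ → ℂ), IsOpen N → {z | ‖vv c₁ r₁ μ₁ z‖ ≤ 1} ⊆ N → {z | ‖vv c₂ r₂ μ₂ z‖ ≤ 1} ⊆ N →
      DifferentiableOn ℂ m N → ∀ z ∈ Dp c₁ r₁ μ₁ σ,
        dd c₁ r₁ μ₁ c₂ r₂ μ₂ * ‖m z‖ ≤ C * Real.sqrt (NN c₁ r₁ μ₁ c₂ r₂ μ₂ m) := by
  obtain ⟨Cs, hCs, hset⟩ := setup (σ₁ := σ) (σ₂ := (1 + σ) / 2) hr₀ hR h0 h1 hσ (by linarith)
  obtain ⟨CE, hCE, hE⟩ := Eest (σ := (3 + σ) / 4) (C₀ := Cs) hr₀ hR h0 h1 (by linarith) (by linarith) hCs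
  refine ⟨Cs ^ 3 * CE, by positivity, ?_⟩
  intro c₁ r₁ μ₁ c₂ r₂ μ₂ p1 p2 hδ hμ N m hN hN1 hN2 hm z hz
  have hr₁ : 0 < r₁ := hr₀.trans_le p1.2.1
  have hμ₁ : ‖μ₁‖ < 1 := p1.2.2.2.trans_lt h1
  obtain ⟨P, y, Z, V, hS, τ, t1, t2, hc⟩ := hset c₁ r₁ μ₁ c₂ r₂ μ₂ p1 p2 hδ hμ
  have hE1 := hE c₁ r₁ μ₁ c₂ r₂ μ₂ p1 p2 hδ P y Z V hS N m hN hN1 hN2 hm
  have hcl : closure (Dp c₁ r₁ μ₁ τ) ⊆ {w | ‖vv c₁ r₁ μ₁ w‖ ≤ τ} :=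
    closure_lt_subset_le (vv_cont c₁ r₁ μ₁).norm continuous_const
  have hsub : closure (Dp c₁ r₁ μ₁ τ) ⊆ N := fun w hw => hN1 (show ‖vv c₁ r₁ μ₁ w‖ ≤ 1 from
    le_trans (show ‖vv c₁ r₁ μ₁ w‖ ≤ τ from hcl hw) (by linarith))
  have hbd : Bornology.IsBounded (Dp c₁ r₁ μ₁ τ) :=
    (cDp_compact hr₁ hμ₁ τ).isBounded.subset fun w hw => le_of_lt (show ‖vv c₁ r₁ μ₁ w‖ < τ from hw)
  have hfr : ∀ w ∈ frontier (Dp c₁ r₁ μ₁ τ), ‖m w‖ ≤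
      Cs ^ 3 * CE * Real.sqrt (NN c₁ r₁ μ₁ c₂ r₂ μ₂ m) / dd c₁ r₁ μ₁ c₂ r₂ μ₂ := by
    intro w hw
    have h2 : ‖vv c₁ r₁ μ₁ w‖ = τ := frontier_lt_subset_eq (vv_cont c₁ r₁ μ₁).norm continuous_const hw
    have h3 := hc w h2
    have h4 : w ∈ Dp c₁ r₁ μ₁ ((3 + σ) / 4) := by
      show ‖vv c₁ r₁ μ₁ w‖ < (3 + σ) / 4
      rw [h2]
      linarith
    have h5 := hE1 w h4
    have h6 : 1 ≤ (Cs * ‖P w‖) ^ 3 := one_le_pow₀ h3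
    rw [le_div_iff₀ hδ]
    calc ‖m w‖ * dd c₁ r₁ μ₁ c₂ r₂ μ₂ = 1 * (‖m w‖ * dd c₁ r₁ μ₁ c₂ r₂ μ₂) := by ring
      _ ≤ (Cs * ‖P w‖) ^ 3 * (‖m w‖ * dd c₁ r₁ μ₁ c₂ r₂ μ₂) := by gcongr
      _ = Cs ^ 3 * (dd c₁ r₁ μ₁ c₂ r₂ μ₂ * (‖P w‖ ^ 3 * ‖m w‖)) := by ring
      _ ≤ Cs ^ 3 * (CE * Real.sqrt (NN c₁ r₁ μ₁ c₂ r₂ μ₂ m)) := by gcongr
      _ = Cs ^ 3 * CE * Real.sqrt (NN c₁ r₁ μ₁ c₂ r₂ μ₂ m) := by ring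
  have hd : DiffContOnCl ℂ m (Dp c₁ r₁ μ₁ τ) :=
    ⟨hm.mono (subset_closure.trans hsub), hm.continuousOn.mono hsub⟩
  have h7 := Complex.norm_le_of_forall_mem_frontier_norm_le hbd hd hfr (subset_closure (Dp_mono c₁ r₁ μ₁ t1 hz))
  rw [le_div_iff₀ hδ] at h7
  linarith

end EW1
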