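import Pool.Agent.H1.ED.Fz
import Pool.Agent.H1.ED.Fo

/-!
ROW EW/Pa. A holomorphic function in an elliptic annulus with vanishing Fourier integrals is zero. `Fc_const_out`: the integrals vanish on every level `s ∈ (x, y)`; the continuous periodic function
`t ↦ F (E (s + it)) dE (s + it)` has all Fourier coefficients zero, so it is zero (as in `ED/Fz.lean`: the private lemma `Fz_periodic`, copy it, see `Fz_line`); `dE ≠ 0`, `exists_E`.
-/

set_option autoImplicit false

namespace EW1

open Complex Set Filter Topology MeasureTheory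
open scoped ComplexConjugate ContDiff Real

open ED1

/-- a continuous periodic function whose Fourier integrals are zero -/
private lemma Pa_periodic {g : ℝ → ℂ} (hg : Continuous g) (hp : ∀ t, g (t + 2 * π) = g t)
    (h0 : ∀ m : ℤ, ∫ t in (0 : ℝ)..(2 * π), g t * exp (-(m * (t * I))) = 0) (t : ℝ) : g t = 0 := by
  have hper : Function.Periodic g (2 * π) := hp
  have hT : Fact (0 < 2 * π) := ⟨by positivity⟩
  obtain ⟨f, hf⟩ : ∃ f : C(AddCircle (2 * π), ℂ), ∀ x : ℝ, f (x : AddCircle (2 * π)) = g x :=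
    ⟨⟨hper.lift, continuous_coinduced_dom.mpr hg⟩, fun x => rfl⟩
  have hco : ∀ n : ℤ, fourierCoeff (f : AddCircle (2 * π) → ℂ) n = 0 := by
    intro n
    rw [fourierCoeff_eq_intervalIntegral _ n 0, zero_add]
    have h1 : ∀ x : ℝ, (fourier (-n) (x : AddCircle (2 * π)) : ℂ) • f (x : AddCircle (2 * π)) =
        g x * exp (-(n * (x * I))) := by
      intro x
      rw [fourier_coe_apply, hf, smul_eq_mul, mul_comm]
      congr 2
      have h2 : ((2 * π : ℝ) : ℂ) ≠ 0 := by
        rw [Ne, Complex.ofReal_eq_zero]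
        positivity
      rw [div_eq_iff h2]
      push_cast
      ring
    rw [intervalIntegral.integral_congr (fun x _ => h1 x), h0 n, smul_zero]
  have hsum : Summable (fourierCoeff (f : AddCircle (2 * π) → ℂ)) := by
    have h1 : fourierCoeff (f : AddCircle (2 * π) → ℂ) = fun _ => 0 := funext hco
    rw [h1]
    exact summable_zero
  have h3 := hasSum_fourier_series_of_summable hsum
  have h4 : HasSum (fun i : ℤ => fourierCoeff (f : AddCircle (2 * π) → ℂ) i •
      (fourier i : C(AddCircle (2 * π), ℂ))) 0 := by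
    have h5 : (fun i : ℤ => fourierCoeff (f : AddCircle (2 * π) → ℂ) i •
        (fourier i : C(AddCircle (2 * π), ℂ))) = fun _ => 0 := by
      funext i
      rw [hco i, zero_smul]
    rw [h5]
    exact hasSum_zero
  have h6 : f = 0 := h3.unique h4
  rw [← hf t, h6]
  rfl

theorem Fc_zero_An {z₀ b : ℂ} (hb : b ≠ 0) {x y : ℝ} (hx : 0 ≤ x) {F : ℂ → ℂ} (hF : DifferentiableOn ℂ F (An z₀ b x y))
    {t : ℝ} (ht : x < t ∧ t < y) (h0 : ∀ m : ℤ, Fc z₀ b F t m = 0) : ∀ z ∈ An z₀ b x y, F z = 0 := by
  have hy : 0 ≤ y := by linarith [ht.1, ht.2]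
  intro z hz
  obtain ⟨ζ, h1, -, -, rfl⟩ := exists_E hb z₀ z
  have hζ : ζ = (ζ.re : ℂ) + ζ.im * I := (Complex.re_add_im ζ).symm
  have hs : x < ζ.re ∧ ζ.re < y := (E_mem_An hb hx hy h1).1 hz
  set s : ℝ := ζ.re with hsdef
  have hs0 : 0 < s := lt_of_le_of_lt hx hs.1
  have hmem : ∀ u : ℝ, E z₀ b (s + u * I) ∈ An z₀ b x y := by
    intro u
    have e1 : ((s : ℂ) + u * I).re = s := by simp
    refine (E_mem_An hb hx hy (by rw [e1]; exact hs0.le)).2 ?_
    rw [e1]
    exact hs
  have hEc : Continuous (E z₀ b) := by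
    rw [continuous_iff_continuousAt]
    exact fun ζ => (hasDeriv_E z₀ b ζ).continuousAt
  have hlin : Continuous (fun u : ℝ => (s : ℂ) + u * I) := by fun_prop
  have hcont : Continuous (fun u : ℝ => F (E z₀ b (s + u * I)) * dE b (s + u * I)) := by
    refine Continuous.mul ?_ ?_
    · exact hF.continuousOn.comp_continuous (hEc.comp hlin) hmem
    · unfold dE
      fun_prop
  have hp : ∀ u : ℝ, F (E z₀ b (s + (u + 2 * π : ℝ) * I)) * dE b (s + (u + 2 * π : ℝ) * I) =
      F (E z₀ b (s + u * I)) * dE b (s + u * I) := by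
    intro u
    have h1 : (s : ℂ) + (u + 2 * π : ℝ) * I = (s + u * I) + 2 * π * I := by
      push_cast
      ring
    rw [h1, E_per, dE_per]
  have h2 : ∀ m : ℤ, ∫ u in (0 : ℝ)..(2 * π), (F (E z₀ b (s + u * I)) * dE b (s + u * I)) *
      exp (-(m * (u * I))) = 0 := by
    intro m
    have h2 : Fc z₀ b F s m = 0 := by
      rw [Fc_const_out hb hx hF m hs ht]
      exact h0 m
    unfold Fc at h2
    have h3 : ∀ u : ℝ, F (E z₀ b (s + u * I)) * dE b (s + u * I) * exp (-(m * (s + u * I))) =
        exp (-(m * s)) * (F (E z₀ b (s + u * I)) * dE b (s + u * I) * exp (-(m * (u * I)))) := by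
      intro u
      have h4 : exp (-((m : ℂ) * (s + u * I))) = exp (-(m * s)) * exp (-(m * (u * I))) := by
        rw [← Complex.exp_add]
        congr 1
        ring
      rw [h4]
      ring
    rw [intervalIntegral.integral_congr (fun x _ => h3 x), intervalIntegral.integral_const_mul] at h2
    exact (mul_eq_zero.1 h2).resolve_left (Complex.exp_ne_zero _)
  have h5 := Pa_periodic hcont hp h2 ζ.im
  have h6 : dE b ((s : ℂ) + ζ.im * I) ≠ 0 := by
    apply dE_ne hb
    simpa using hs0
  have h7 := (mul_eq_zero.1 h5).resolve_right h6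
  rw [hζ]
  exact h7

end EW1
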