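import Pool.Agent.H1.ED.Fo
import Pool.Agent.H1.ED.Ke

/-!
ROW EW/Pb. A holomorphic function in an ellipse with given Fourier integrals: `m = ∑_{n ≥ 1} (a n/(2π n)) dC n`. `dC_bound`: `‖dC n w‖ ≤ n² e^(ns)/‖b‖` for `lv w ≤ lx s`; with `s < t < y`: the series converges uniformly on
`{lv ≤ lx s}`: `differentiableOn_tsum_of_summable_norm` on `De z₀ b s` for every `s < y` (the ellipse `De y` is the union). Fourier integral of `dC j`: `dC j (E ζ) dE = j (e^(jζ) - e^(-jζ))` (`dC_E`), so
`Fc (dC j) s n = 2π j` if `j = n`, `0` otherwise (`j, n ≥ 1`); interchange sum and interval integral (uniform convergence on the compact curve).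
-/

set_option autoImplicit false

namespace EW1

open Complex Set Filter Topology MeasureTheory
open scoped ComplexConjugate ContDiff Real

open ED1

private theorem Pb_int (s : ℝ) (k : ℤ) (hk : k ≠ 0) :
    ∫ t in (0 : ℝ)..(2 * π), exp ((k : ℂ) * ((s : ℂ) + t * I)) = 0 := by
  have h1 : ∀ t : ℝ, exp ((k : ℂ) * ((s : ℂ) + t * I)) = exp ((k : ℂ) * s) * exp (((k : ℂ) * I) * t) := by
    intro t
    rw [← Complex.exp_add]
    congr 1
    ring
  have hc : (k : ℂ) * I ≠ 0 := mul_ne_zero (Int.cast_ne_zero.2 hk) I_ne_zero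
  simp only [h1]
  rw [intervalIntegral.integral_const_mul, integral_exp_mul_complex hc]
  have h2 : (k : ℂ) * I * ((2 * π : ℝ) : ℂ) = (k : ℂ) * (2 * π * I) := by
    push_cast
    ring
  rw [h2, Complex.exp_int_mul_two_pi_mul_I]
  simp

private theorem Pb_coef (s : ℝ) (j n : ℕ) (hn : 1 ≤ n) (c : ℂ) :
    ∫ t in (0 : ℝ)..(2 * π), c * ((j : ℂ) * (exp (j * ((s : ℂ) + t * I)) - exp (-(j * ((s : ℂ) + t * I))))) *
      exp (-(((n : ℤ) : ℂ) * ((s : ℂ) + t * I))) = if j = n then c * (2 * π * n) else 0 := by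
  have h1 : ∀ t : ℝ, c * ((j : ℂ) * (exp (j * ((s : ℂ) + t * I)) - exp (-(j * ((s : ℂ) + t * I))))) *
      exp (-(((n : ℤ) : ℂ) * ((s : ℂ) + t * I))) = (c * j) * exp ((((j : ℤ) - (n : ℤ) : ℤ) : ℂ) * ((s : ℂ) + t * I)) -
        (c * j) * exp (((-((j : ℤ) + (n : ℤ)) : ℤ) : ℂ) * ((s : ℂ) + t * I)) := by
    intro t
    have e1 : exp ((((j : ℤ) - (n : ℤ) : ℤ) : ℂ) * ((s : ℂ) + t * I)) =
        exp (j * ((s : ℂ) + t * I)) * exp (-(((n : ℤ) : ℂ) * ((s : ℂ) + t * I))) := by
      rw [← Complex.exp_add]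
      congr 1
      push_cast
      ring
    have e2 : exp (((-((j : ℤ) + (n : ℤ)) : ℤ) : ℂ) * ((s : ℂ) + t * I)) =
        exp (-(j * ((s : ℂ) + t * I))) * exp (-(((n : ℤ) : ℂ) * ((s : ℂ) + t * I))) := by
      rw [← Complex.exp_add]
      congr 1
      push_cast
      ring
    rw [e1, e2]
    ring
  simp only [h1]
  have hi : ∀ k : ℤ, IntervalIntegrable (fun t : ℝ => (c * j) * exp ((k : ℂ) * ((s : ℂ) + t * I))) volume 0 (2 * π) := by
    intro k
    apply Continuous.intervalIntegrable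
    fun_prop
  rw [intervalIntegral.integral_sub (hi _) (hi _), intervalIntegral.integral_const_mul, intervalIntegral.integral_const_mul,
    Pb_int s (-((j : ℤ) + (n : ℤ))) (by omega), mul_zero, sub_zero]
  split_ifs with h
  · subst h
    simp
    ring
  · rw [Pb_int s ((j : ℤ) - (n : ℤ)) (by omega), mul_zero]

theorem ser {z₀ b : ℂ} (hb : b ≠ 0) {y : ℝ} (hy : 0 < y) {a : ℕ → ℂ}
    (ha : ∀ t : ℝ, 0 < t → t < y → ∃ C : ℝ, ∀ n : ℕ, ‖a n‖ ≤ C * Real.exp (-(n * t))) :
    ∃ m : ℂ → ℂ, DifferentiableOn ℂ m (De z₀ b y) ∧ ∀ (s : ℝ) (n : ℕ), 0 < s → s < y → 1 ≤ n → Fc z₀ b m s n = a n := by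
  have hb' : 0 < ‖b‖ := norm_pos_iff.2 hb
  set f : ℕ → ℂ → ℂ := fun n z => a n / (2 * π * n) * dC z₀ b n z with hf
  have hcoef : ∀ (n : ℕ), ‖a n / (2 * π * n)‖ = ‖a n‖ / (2 * π * n) := by
    intro n
    rw [norm_div, norm_mul, norm_mul, Complex.norm_natCast, Complex.norm_ofNat, Complex.norm_real,
      Real.norm_of_nonneg Real.pi_pos.le]
  -- bound of the terms
  have hbd : ∀ s : ℝ, 0 < s → s < y → ∃ u : ℕ → ℝ, Summable u ∧ ∀ n w, lv z₀ b w ≤ lx b s → ‖f n w‖ ≤ u n := by
    intro s hs hsy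
    obtain ⟨t, hst, hty⟩ := exists_between hsy
    obtain ⟨C, hC⟩ := ha t (hs.trans hst) hty
    have hC0 : 0 ≤ C := by
      have := hC 0
      simp at this
      exact (norm_nonneg _).trans this
    set r := Real.exp (-(t - s)) with hr
    have hr0 : 0 < r := Real.exp_pos _
    have hr1 : ‖r‖ < 1 := by
      rw [Real.norm_of_nonneg hr0.le, hr, Real.exp_lt_one_iff]
      linarith
    refine ⟨fun n => C / (2 * π * ‖b‖) * ((n : ℝ) ^ 1 * r ^ n),
      (summable_pow_mul_geometric_of_norm_lt_one 1 hr1).mul_left _, ?_⟩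
    intro n w hw
    simp only [hf]
    rcases Nat.eq_zero_or_pos n with h0 | h0
    · subst h0
      simp
    · have hn : (0 : ℝ) < n := Nat.cast_pos.2 h0
      rw [norm_mul, hcoef]
      have h2 := dC_bound hb hs.le n hw
      have h3 := hC n
      have hrn : r ^ n = Real.exp (-(n * t)) * Real.exp (n * s) := by
        rw [hr, ← Real.exp_nat_mul, ← Real.exp_add]
        congr 1
        ring
      calc ‖a n‖ / (2 * π * n) * ‖dC z₀ b n w‖
          ≤ (C * Real.exp (-(n * t))) / (2 * π * n) * (n ^ 2 * Real.exp (n * s) / ‖b‖) := by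
            gcongr
        _ = C / (2 * π * ‖b‖) * ((n : ℝ) ^ 1 * r ^ n) := by
            rw [hrn]
            field_simp
  have hfd : ∀ n, Differentiable ℂ (f n) := by
    intro n
    have : Differentiable ℂ (dC z₀ b n) := by
      unfold dC
      fun_prop
    exact this.const_mul _
  refine ⟨fun z => ∑' n, f n z, ?_, ?_⟩
  · intro z hz
    have hz' : lv z₀ b z < lx b y := hz
    have hcont : Continuous (lx b) := by
      unfold lx
      fun_prop
    have h1 : ∀ᶠ s in 𝓝[<] y, lv z₀ b z < lx b s :=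
      (hcont.tendsto y |>.mono_left nhdsWithin_le_nhds).eventually (lt_mem_nhds hz')
    have h2 : ∀ᶠ s in 𝓝[<] y, 0 < s := (lt_mem_nhds hy).filter_mono nhdsWithin_le_nhds
    have h3 : ∀ᶠ s in 𝓝[<] y, s < y := self_mem_nhdsWithin
    obtain ⟨s, hs1, hs2, hs3⟩ := (h1.and (h2.and h3)).exists
    obtain ⟨u, hu, hu'⟩ := hbd s hs2 hs3
    have h4 := differentiableOn_tsum_of_summable_norm hu (fun n => (hfd n).differentiableOn) (De_open z₀ b s)
      (fun n w hw => hu' n w (le_of_lt hw))
    exact ((h4 z hs1).differentiableAt ((De_open z₀ b s).mem_nhds hs1)).differentiableWithinAt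
  · intro s n hs hsy hn
    obtain ⟨u, hu, hu'⟩ := hbd s hs hsy
    have hlv : ∀ t : ℝ, lv z₀ b (E z₀ b ((s : ℂ) + t * I)) ≤ lx b s := by
      intro t
      rw [lv_E]
      simp
    set F : ℕ → ℝ → ℂ := fun j t => f j (E z₀ b ((s : ℂ) + t * I)) * dE b ((s : ℂ) + t * I) *
      exp (-(((n : ℤ) : ℂ) * ((s : ℂ) + t * I))) with hF
    have hEc : Continuous fun t : ℝ => E z₀ b ((s : ℂ) + t * I) := by
      have : Differentiable ℂ (E z₀ b) := fun ζ => (hasDeriv_E z₀ b ζ).differentiableAt
      exact this.continuous.comp (by fun_prop)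
    have hgc : Continuous fun t : ℝ => dE b ((s : ℂ) + t * I) * exp (-(((n : ℤ) : ℂ) * ((s : ℂ) + t * I))) := by
      unfold dE
      fun_prop
    obtain ⟨K, hK⟩ := (isCompact_Icc (a := (0 : ℝ)) (b := 2 * π)).exists_bound_of_continuousOn hgc.continuousOn
    have hpi : (0 : ℝ) ≤ 2 * π := by positivity
    have hFc : ∀ j, Continuous (F j) := by
      intro j
      have : F j = fun t : ℝ => f j (E z₀ b ((s : ℂ) + t * I)) * (dE b ((s : ℂ) + t * I) *
          exp (-(((n : ℤ) : ℂ) * ((s : ℂ) + t * I)))) := by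
        funext t
        simp only [hF]
        ring
      rw [this]
      exact ((hfd j).continuous.comp hEc).mul hgc
    have hsum : ∀ w, lv z₀ b w ≤ lx b s → Summable fun j => f j w := fun w hw =>
      Summable.of_norm_bounded hu fun j => hu' j w hw
    have key := intervalIntegral.hasSum_integral_of_dominated_convergence (μ := volume) (a := (0 : ℝ)) (b := 2 * π)
      (F := F) (f := fun t => (∑' j, f j (E z₀ b ((s : ℂ) + t * I))) * dE b ((s : ℂ) + t * I) *
        exp (-(((n : ℤ) : ℂ) * ((s : ℂ) + t * I)))) (fun j _ => u j * K)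
      (fun j => (hFc j).aestronglyMeasurable)
      (fun j => Filter.Eventually.of_forall fun t ht => by
        rw [Set.uIoc_of_le hpi] at ht
        have h5 := hK t ⟨ht.1.le, ht.2⟩
        simp only [hF]
        rw [mul_assoc, norm_mul]
        exact mul_le_mul (hu' j _ (hlv t)) h5 (norm_nonneg _) ((norm_nonneg _).trans (hu' j _ (hlv t))))
      (Filter.Eventually.of_forall fun t _ => hu.mul_right K)
      (by
        exact intervalIntegrable_const)
      (Filter.Eventually.of_forall fun t _ => by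
        simp only [hF]
        exact ((hsum _ (hlv t)).hasSum.mul_right _).mul_right _)
    have hval : ∀ j, ∫ t in (0 : ℝ)..(2 * π), F j t = if j = n then a j / (2 * π * j) * (2 * π * n) else 0 := by
      intro j
      rw [← Pb_coef s j n hn (a j / (2 * π * j))]
      refine intervalIntegral.integral_congr fun t _ => ?_
      simp only [hF, hf]
      rw [← dC_E hb z₀ j]
      ring
    have h6 : HasSum (fun j => ∫ t in (0 : ℝ)..(2 * π), F j t) (a n) := by
      simp only [hval]
      have h7 : (fun j : ℕ => if j = n then a j / (2 * π * j) * (2 * π * n) else 0) = fun j => if j = n then a n else 0 := by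
        funext j
        split_ifs with h
        · subst h
          have : (j : ℂ) ≠ 0 := Nat.cast_ne_zero.2 (by omega)
          have hp : (π : ℂ) ≠ 0 := Complex.ofReal_ne_zero.2 Real.pi_ne_zero
          field_simp
        · rfl
      rw [h7]
      exact hasSum_ite_eq n (a n)
    have h8 := key.unique h6
    rw [← h8]
    rfl

end EW1
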