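import Pool.Agent.H1.ED.C1
import Pool.Agent.H1.ED.C2
import Pool.Agent.H1.ED.Fo
import Pool.Agent.H1.ED.Cw

/-!
ROW EW/Pc. Fourier integrals of the transform `S z = ∫_{De x} G(w)/(z - w)²`. `trD`: `C2` for the compact set `{lv ≤ lx b x}` (the level curve is a null set, see the proof of `De_An_ae` in `ED/Cw.lean`; replace `G` by its indicator on `De x`).
`trF`: for `s = e^ζ`, `Re ζ = t > x`: `dE b ζ * S (E ζ) = b (s - s⁻¹) S (J s) = ∑_{n ≥ 0} (∫ G dC (n+1)) e^(-(n+1)ζ)` (`C1`); the coefficients are at most `C (n+1)² e^((n+1)x)` (`dC_bound`), so for `t > x` the series converges uniformly on the curve;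
integrate termwise against `e^(-mζ)`: `∫_0^{2π} e^(-(j+m)ζ) dt = 2π` if `j = -m`, else `0` (`j ≥ 1`).
-/

set_option autoImplicit false

namespace EW1

open Complex Set Filter Topology MeasureTheory
open scoped ComplexConjugate ContDiff Real

open ED1

theorem trD {z₀ b : ℂ} (hb : b ≠ 0) {x : ℝ} (hx : 0 < x) {G : ℂ → ℂ} (hG : IntegrableOn G (De z₀ b x)) :
    DifferentiableOn ℂ (fun z => ∫ w in De z₀ b x, G w / (z - w) ^ 2) {z | lx b x < lv z₀ b z} := by
  have hDe : MeasurableSet (De z₀ b x) := (De_open z₀ b x).measurableSet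
  have hKc : IsClosed {w : ℂ | lv z₀ b w ≤ lx b x} := isClosed_le (lv_cont z₀ b) continuous_const
  have hKb : Bornology.IsBounded {w : ℂ | lv z₀ b w ≤ lx b x} := by
    refine (De_bdd z₀ b (x + 1)).subset fun w hw => ?_
    exact lt_of_le_of_lt hw ((lx_lt hb hx.le (by linarith)).2 (by linarith))
  have hK : IsCompact {w : ℂ | lv z₀ b w ≤ lx b x} := Metric.isCompact_of_isClosed_isBounded hKc hKb
  have hG' : IntegrableOn ((De z₀ b x).indicator G) {w : ℂ | lv z₀ b w ≤ lx b x} :=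
    ((integrable_indicator_iff hDe).2 hG).integrableOn
  have key := C2 hK hG'
  have hset : {z : ℂ | lx b x < lv z₀ b z} = {w : ℂ | lv z₀ b w ≤ lx b x}ᶜ := by
    ext z
    simp only [Set.mem_ofPred_eq, Set.mem_compl_iff, not_le]
  rw [hset]
  refine key.congr fun z _ => ?_
  have e1 : (fun w : ℂ => (De z₀ b x).indicator G w / (z - w) ^ 2) =
      (De z₀ b x).indicator (fun w => G w / (z - w) ^ 2) := by
    funext w
    by_cases hw : w ∈ De z₀ b x
    · rw [Set.indicator_of_mem hw, Set.indicator_of_mem hw]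
    · rw [Set.indicator_of_notMem hw, Set.indicator_of_notMem hw, zero_div]
  rw [e1, setIntegral_indicator hDe]
  congr 2
  symm
  refine Set.inter_eq_right.2 fun w hw => ?_
  change lv z₀ b w ≤ lx b x
  exact le_of_lt hw

private theorem exp_int_int (k : ℤ) (hk : k ≠ 0) (t : ℝ) :
    ∫ θ in (0 : ℝ)..(2 * π), exp (k * (t + θ * I)) = 0 := by
  have hc : (k : ℂ) * I ≠ 0 := mul_ne_zero (Int.cast_ne_zero.2 hk) I_ne_zero
  have e : (fun θ : ℝ => exp (k * (t + θ * I))) = fun θ : ℝ => exp (k * t) * exp (k * I * θ) := by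
    funext θ
    rw [← Complex.exp_add]
    congr 1
    ring
  rw [e, intervalIntegral.integral_const_mul, integral_exp_mul_complex hc]
  have h1 : exp ((k : ℂ) * I * ((2 * π : ℝ) : ℂ)) = 1 := by
    rw [show (k : ℂ) * I * ((2 * π : ℝ) : ℂ) = k * (2 * π * I) by push_cast; ring]
    exact Complex.exp_int_mul_two_pi_mul_I k
  rw [h1, Complex.ofReal_zero, mul_zero, Complex.exp_zero, sub_self, zero_div, mul_zero]

private theorem trF_aux {z₀ b : ℂ} (hb : b ≠ 0) {x : ℝ} (hx : 0 < x) {G : ℂ → ℂ}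
    (hG : IntegrableOn G (De z₀ b x)) {t : ℝ} (ht : x < t) (m : ℤ) :
    HasSum (fun n : ℕ => (∫ w in De z₀ b x, G w * dC z₀ b (n + 1) w) *
        (if (n : ℤ) + 1 + m = 0 then 2 * (π : ℂ) else 0))
      (Fc z₀ b (fun z => ∫ w in De z₀ b x, G w / (z - w) ^ 2) t m) := by
  obtain ⟨a, ha⟩ : ∃ a : ℕ → ℂ, a = fun n => ∫ w in De z₀ b x, G w * dC z₀ b (n + 1) w := ⟨_, rfl⟩
  have hC1 : ∀ θ : ℝ, HasSum (fun n : ℕ => a n * (exp (t + θ * I))⁻¹ ^ (n + 1))
      (b * (exp (t + θ * I) - (exp (t + θ * I))⁻¹) *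
        ∫ w in De z₀ b x, G w / (J z₀ b (exp (t + θ * I)) - w) ^ 2) := by
    intro θ
    rw [ha]
    refine C1 hb hx.le hG ?_
    rw [Complex.norm_exp]
    refine Real.exp_lt_exp.2 ?_
    simp only [Complex.add_re, Complex.ofReal_re, Complex.mul_re, Complex.I_re, mul_zero,
      Complex.ofReal_im, Complex.I_im, zero_mul, sub_self, add_zero]
    exact ht
  have hnorm : ∀ (n : ℕ) (θ : ℝ), ‖a n * (exp (t + θ * I))⁻¹ ^ (n + 1) * exp (-(m * (t + θ * I)))‖ =
      ‖a n‖ * (Real.exp t)⁻¹ ^ (n + 1) * Real.exp (-(m * t)) := by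
    intro n θ
    have e1 : ((t : ℂ) + θ * I).re = t := by simp
    have e2 : (-((m : ℂ) * (t + θ * I))).re = -(m * t) := by simp
    rw [norm_mul, norm_mul, norm_pow, norm_inv, Complex.norm_exp, Complex.norm_exp, e1, e2]
  have hsum : Summable fun n : ℕ => ‖a n‖ * (Real.exp t)⁻¹ ^ (n + 1) * Real.exp (-(m * t)) := by
    have h1 := ((hC1 0).summable.mul_right (exp (-(m * (t + (0 : ℝ) * I))))).norm
    refine h1.congr fun n => ?_
    exact hnorm n 0
  have hfθ : ∀ θ : ℝ, (fun z => ∫ w in De z₀ b x, G w / (z - w) ^ 2) (E z₀ b (t + θ * I)) *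
      dE b (t + θ * I) * exp (-(m * (t + θ * I))) =
      b * (exp (t + θ * I) - (exp (t + θ * I))⁻¹) *
        (∫ w in De z₀ b x, G w / (J z₀ b (exp (t + θ * I)) - w) ^ 2) * exp (-(m * (t + θ * I))) := by
    intro θ
    have e1 : dE b (t + θ * I) = b * (exp (t + θ * I) - (exp (t + θ * I))⁻¹) := by
      rw [dE, Complex.exp_neg]
    rw [e1]
    change (∫ w in De z₀ b x, G w / (J z₀ b (exp (t + θ * I)) - w) ^ 2) *
      (b * (exp (t + θ * I) - (exp (t + θ * I))⁻¹)) * exp (-(m * (t + θ * I))) = _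
    ring
  have key := intervalIntegral.hasSum_integral_of_dominated_convergence (μ := volume) (a := 0)
    (b := 2 * π)
    (F := fun (n : ℕ) (θ : ℝ) => a n * (exp (t + θ * I))⁻¹ ^ (n + 1) * exp (-(m * (t + θ * I))))
    (f := fun θ : ℝ => (fun z => ∫ w in De z₀ b x, G w / (z - w) ^ 2) (E z₀ b (t + θ * I)) *
      dE b (t + θ * I) * exp (-(m * (t + θ * I))))
    (fun (n : ℕ) (_ : ℝ) => ‖a n‖ * (Real.exp t)⁻¹ ^ (n + 1) * Real.exp (-(m * t)))
    (fun n => by
      apply Continuous.aestronglyMeasurable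
      have h1 : Continuous fun θ : ℝ => (exp (t + θ * I))⁻¹ :=
        Continuous.inv₀ (by fun_prop) fun θ => Complex.exp_ne_zero _
      have h2 : Continuous fun θ : ℝ => exp (-(m * (t + θ * I))) := by fun_prop
      exact (continuous_const.mul (h1.pow _)).mul h2)
    (fun n => Filter.Eventually.of_forall fun θ _ => (hnorm n θ).le)
    (Filter.Eventually.of_forall fun θ _ => hsum)
    intervalIntegrable_const
    (Filter.Eventually.of_forall fun θ _ => by
      have h1 := (hC1 θ).mul_right (exp (-(m * (t + θ * I))))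
      rw [← hfθ θ] at h1
      exact h1)
  have hF : Fc z₀ b (fun z => ∫ w in De z₀ b x, G w / (z - w) ^ 2) t m =
      ∫ θ in (0 : ℝ)..(2 * π), (fun z => ∫ w in De z₀ b x, G w / (z - w) ^ 2) (E z₀ b (t + θ * I)) *
        dE b (t + θ * I) * exp (-(m * (t + θ * I))) := rfl
  rw [hF]
  have hfun : (fun n : ℕ => (∫ w in De z₀ b x, G w * dC z₀ b (n + 1) w) *
      (if (n : ℤ) + 1 + m = 0 then 2 * (π : ℂ) else 0)) =
      fun n : ℕ => ∫ θ in (0 : ℝ)..(2 * π),
        a n * (exp (t + θ * I))⁻¹ ^ (n + 1) * exp (-(m * (t + θ * I))) := ?_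
  · rw [hfun]
    exact key
  funext n
  have e0 : (fun θ : ℝ => a n * (exp (t + θ * I))⁻¹ ^ (n + 1) * exp (-(m * (t + θ * I)))) =
      fun θ : ℝ => a n * exp (((-((n : ℤ) + 1 + m) : ℤ) : ℂ) * (t + θ * I)) := by
    funext θ
    rw [← Complex.exp_neg, ← Complex.exp_nat_mul, mul_assoc, ← Complex.exp_add]
    congr 2
    push_cast
    ring
  have e1 : a n = ∫ w in De z₀ b x, G w * dC z₀ b (n + 1) w := by rw [ha]
  rw [e0, intervalIntegral.integral_const_mul, ← e1]
  by_cases h0 : (n : ℤ) + 1 + m = 0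
  · rw [if_pos h0, h0]
    simp
  · rw [if_neg h0, exp_int_int _ (neg_ne_zero.2 h0)]

theorem trF {z₀ b : ℂ} (hb : b ≠ 0) {x : ℝ} (hx : 0 < x) {G : ℂ → ℂ} (hG : IntegrableOn G (De z₀ b x)) {t : ℝ} (ht : x < t) :
    (∀ n : ℕ, Fc z₀ b (fun z => ∫ w in De z₀ b x, G w / (z - w) ^ 2) t n = 0) ∧
    ∀ n : ℕ, 1 ≤ n → Fc z₀ b (fun z => ∫ w in De z₀ b x, G w / (z - w) ^ 2) t (-n) = 2 * π * ∫ w in De z₀ b x, G w * dC z₀ b n w := by
  constructor
  · intro n
    have h := trF_aux hb hx hG ht (n : ℤ)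
    refine h.unique ?_
    have e : (fun k : ℕ => (∫ w in De z₀ b x, G w * dC z₀ b (k + 1) w) *
        (if (k : ℤ) + 1 + (n : ℤ) = 0 then 2 * (π : ℂ) else 0)) = fun _ => 0 := by
      funext k
      rw [if_neg (by omega), mul_zero]
    rw [e]
    exact hasSum_zero
  · intro n hn
    have h := trF_aux hb hx hG ht (-(n : ℤ))
    refine h.unique ?_
    obtain ⟨k, rfl⟩ : ∃ k, n = k + 1 := ⟨n - 1, by omega⟩
    have h2 := hasSum_single (f := fun j : ℕ => (∫ w in De z₀ b x, G w * dC z₀ b (j + 1) w) *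
        (if (j : ℤ) + 1 + (-((k + 1 : ℕ) : ℤ)) = 0 then 2 * (π : ℂ) else 0)) k (by
      intro j hj
      have : ¬ ((j : ℤ) + 1 + (-((k + 1 : ℕ) : ℤ)) = 0) := by
        push_cast
        omega
      simp only [if_neg this, mul_zero])
    have e : (if (k : ℤ) + 1 + (-((k + 1 : ℕ) : ℤ)) = 0 then 2 * (π : ℂ) else 0) = 2 * π := by
      rw [if_pos]
      push_cast
      ring
    rw [e] at h2
    rw [mul_comm (2 * (π : ℂ))]
    exact h2

end EW1
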