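import Pool.Agent.H1.EW.Pa
import Pool.Agent.H1.EW.Pb
import Pool.Agent.H1.EW.Pc
import Pool.Agent.H1.ED.Ih
import Pool.Agent.H1.ED.Mo
import Pool.Agent.H1.ED.T1

/-!
ROW EW/Pd. The background field near one ellipse. `a n = Fc Fo t₀ n` (`n ≥ 1`), `t₀ = (x+y)/2`; for `t ∈ (x,y)` `Fc Fo t₀ n = Fc Fo t n` (`Fc_const_out`), `‖a n‖ ≤ C_t e^(-nt)` (`Fc_bound`); for `t ≤ x` use a larger `t`. `m` from `ser`.
The function `F = Fo - m - ((k-1)/(2π)) S`, `S z = ∫ conj Fi/(z-w)²`, on `An x y`: `Fc F t n = a n - a n - 0 = 0` for `n ≥ 1`; `n = 0`: `Ih` with `n = 0` and `Fc_anti` (`Fc Fi s 0 = 0`, `Fc m t 0 = 0`); `-n`: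
`2 Fc Fo t (-n) = -(k+1) A + (k-1) conj A e^(2nx)`, `A = Fc Fi s n` (`Ih`, `Fc_anti`), `2 Fc m t (-n) = -2 a n = -(k+1) A + (k-1) conj A e^(-2nx)`, `Fc S t (-n) = 2π ∫ conj Fi dC n = π conj A (e^(2nx) - e^(-2nx))` (`trF`, `moment`): total `0`.
`Fc_zero_An`. Third claim: `Ih` (`Fc m s n = a n`). `Flds.int`, `Flds.fi2` are in `T1`. `Fc` of a difference: the integrands are continuous on the curve.
-/

set_option autoImplicit false

namespace EW1

open Complex Set Filter Topology MeasureTheory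
open scoped ComplexConjugate ContDiff Real

open ED1

/-- the integrand of `Fc` is continuous on a level curve -/
private theorem Pd_cont {z₀ b : ℂ} (hb : b ≠ 0) {x y : ℝ} (hx : 0 ≤ x) {F : ℂ → ℂ}
    (hF : DifferentiableOn ℂ F (An z₀ b x y)) {t : ℝ} (ht : x < t ∧ t < y) (n : ℤ) :
    Continuous (fun s : ℝ => F (E z₀ b (t + s * I)) * dE b (t + s * I) * exp (-(n * (t + s * I)))) := by
  have hy : 0 ≤ y := by linarith [ht.1, ht.2]
  have hc : Continuous (fun s : ℝ => E z₀ b (t + s * I)) := by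
    have : Continuous (E z₀ b) :=
      continuous_iff_continuousAt.2 fun ζ => (hasDeriv_E z₀ b ζ).continuousAt
    exact this.comp (by fun_prop)
  have hd : Continuous (fun s : ℝ => dE b (t + s * I)) := by
    unfold dE
    fun_prop
  have he : Continuous (fun s : ℝ => exp (-(n * (t + s * I)))) := by fun_prop
  refine (Continuous.mul ?_ hd).mul he
  refine hF.continuousOn.comp_continuous hc fun s => ?_
  have e1 : ((t : ℂ) + s * I).re = t := by simp
  refine (E_mem_An hb hx hy ?_).2 ?_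
  · rw [e1]; linarith [ht.1]
  · rw [e1]; exact ht

private theorem Pd_lin {z₀ b : ℂ} (hb : b ≠ 0) {x y : ℝ} (hx : 0 ≤ x) {F₁ F₂ F₃ : ℂ → ℂ} (c : ℂ)
    (h₁ : DifferentiableOn ℂ F₁ (An z₀ b x y)) (h₂ : DifferentiableOn ℂ F₂ (An z₀ b x y))
    (h₃ : DifferentiableOn ℂ F₃ (An z₀ b x y)) {t : ℝ} (ht : x < t ∧ t < y) (n : ℤ) :
    Fc z₀ b (fun z => F₁ z - F₂ z - c * F₃ z) t n =
      Fc z₀ b F₁ t n - Fc z₀ b F₂ t n - c * Fc z₀ b F₃ t n := by
  have i₁ := (Pd_cont hb hx h₁ ht n).intervalIntegrable (μ := volume) 0 (2 * π)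
  have i₂ := (Pd_cont hb hx h₂ ht n).intervalIntegrable (μ := volume) 0 (2 * π)
  have i₃ := (Pd_cont hb hx h₃ ht n).intervalIntegrable (μ := volume) 0 (2 * π)
  unfold Fc
  rw [← intervalIntegral.integral_sub i₁ i₂, ← intervalIntegral.integral_const_mul,
    ← intervalIntegral.integral_sub (i₁.sub i₂) (i₃.const_mul c)]
  refine intervalIntegral.integral_congr fun s _ => ?_
  ring

theorem exm {z₀ b : ℂ} {k x y : ℝ} {u : ℂ → ℝ} {G Fi Fo : ℂ → ℂ} (h : Flds z₀ b k x y u G Fi Fo) :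
    ∃ m : ℂ → ℂ, DifferentiableOn ℂ m (De z₀ b y) ∧
      (∀ z ∈ An z₀ b x y, Fo z = m z + ((k - 1 : ℝ) : ℂ) / (2 * π) * ∫ w in De z₀ b x, conj (Fi w) / (z - w) ^ 2) ∧
      ∀ (n : ℕ) (s : ℝ), 1 ≤ n → 0 < s → s < x →
        2 * Fc z₀ b m s n = (k + 1) * Fc z₀ b Fi s n - (k - 1) * conj (Fc z₀ b Fi s n) * exp (-(2 * n * x)) := by
  have hb := h.hb
  have hx := h.hx
  have hxy := h.hxy
  have hy : 0 < y := hx.trans hxy
  obtain ⟨t₀, ht1, ht2⟩ : ∃ t₀ : ℝ, x < t₀ ∧ t₀ < y := exists_between hxy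
  have ht₀ : x < t₀ ∧ t₀ < y := ⟨ht1, ht2⟩
  have ht0 : 0 < t₀ := hx.trans ht1
  -- the coefficients
  have ha : ∀ t : ℝ, 0 < t → t < y → ∃ C : ℝ, ∀ n : ℕ,
      ‖(fun n : ℕ => Fc z₀ b Fo t₀ n) n‖ ≤ C * Real.exp (-(n * t)) := by
    intro t ht hty
    by_cases htx : x < t
    · obtain ⟨C, hC⟩ := Fc_bound hb hx.le h.do' ⟨htx, hty⟩
      refine ⟨C, fun n => ?_⟩
      have h1 := hC (n : ℤ)
      rw [Fc_const_out hb hx.le h.do' (n : ℤ) ⟨htx, hty⟩ ht₀] at h1
      simpa using h1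
    · obtain ⟨C, hC⟩ := Fc_bound hb hx.le h.do' ht₀
      have hC0 : 0 ≤ C := by
        have h1 := hC 0
        simp only [Int.cast_zero, zero_mul, neg_zero, Real.exp_zero, mul_one] at h1
        exact (norm_nonneg _).trans h1
      refine ⟨C, fun n => ?_⟩
      have h1 := hC (n : ℤ)
      refine h1.trans (mul_le_mul_of_nonneg_left ?_ hC0)
      rw [Real.exp_le_exp, Int.cast_natCast]
      have h2 : t ≤ t₀ := (not_lt.1 htx).trans ht1.le
      have h3 : (n : ℝ) * t ≤ n * t₀ := mul_le_mul_of_nonneg_left h2 (Nat.cast_nonneg n)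
      linarith
  obtain ⟨m, hm, hmc⟩ := ser (z₀ := z₀) hb hy ha
  refine ⟨m, hm, ?_, ?_⟩
  · -- the representation of the outer field
    have hAn : An z₀ b x y ⊆ De z₀ b y := fun z hz => hz.2
    have hAn' : An z₀ b x y ⊆ {z | lx b x < lv z₀ b z} := fun z hz => hz.1
    have hS : DifferentiableOn ℂ (fun z => ∫ w in De z₀ b x, conj (Fi w) / (z - w) ^ 2) (An z₀ b x y) :=
      (trD hb hx h.int).mono hAn'
    have hm' : DifferentiableOn ℂ m (An z₀ b x y) := hm.mono hAn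
    have hF : DifferentiableOn ℂ (fun z => Fo z - m z - ((k - 1 : ℝ) : ℂ) / (2 * π) *
        (fun z => ∫ w in De z₀ b x, conj (Fi w) / (z - w) ^ 2) z) (An z₀ b x y) :=
      (h.do'.sub hm').sub (hS.const_mul _)
    have hs : 0 < x / 2 ∧ x / 2 < x := ⟨by linarith, by linarith⟩
    have hs' : |x / 2| < x := by
      rw [abs_of_pos hs.1]
      exact hs.2
    have ht' : |t₀| < y := by
      rw [abs_of_pos ht0]
      exact ht2
    obtain ⟨hT0, hT1⟩ := trF hb hx h.int (z₀ := z₀) (t := t₀) ht1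
    have h0 : ∀ j : ℤ, Fc z₀ b (fun z => Fo z - m z - ((k - 1 : ℝ) : ℂ) / (2 * π) *
        (fun z => ∫ w in De z₀ b x, conj (Fi w) / (z - w) ^ 2) z) t₀ j = 0 := by
      intro j
      rw [Pd_lin hb hx.le _ h.do' hm' hS ht₀ j]
      rcases lt_trichotomy j 0 with hj | hj | hj
      · -- negative
        obtain ⟨n, rfl⟩ : ∃ n : ℕ, j = -(n : ℤ) := ⟨j.natAbs, by omega⟩
        have hn : 1 ≤ n := by omega
        have e1 := Ih h (-(n : ℤ)) hs ht₀
        have e2 := Ih h (n : ℤ) hs ht₀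
        have e3 := Fc_anti (z₀ := z₀) hb h.di (n : ℤ) hs'
        have e4 := Fc_anti (z₀ := z₀) hb hm (n : ℤ) ht'
        have e5 := hmc t₀ n ht0 ht2 hn
        have e6 := hT1 n hn
        have e7 := moment (z₀ := z₀) hb hx h.di h.fi2 hn hs
        rw [e7] at e6
        rw [e3] at e1
        rw [e4, e5, e6]
        have hpi : (π : ℂ) ≠ 0 := by
          exact_mod_cast Real.pi_ne_zero
        have e8 : exp (-(2 * ((-(n : ℤ) : ℤ) : ℂ) * (x : ℂ))) = exp (2 * (n : ℂ) * (x : ℂ)) := by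
          congr 1
          push_cast
          ring
        rw [e8, map_neg] at e1
        rw [Int.cast_natCast] at e2
        push_cast
        have e9 : ((k : ℂ) - 1) / (2 * π) * (2 * π * (1 / 2 * conj (Fc z₀ b Fi (x / 2) n) *
            (exp (2 * n * x) - exp (-(2 * n * x))))) =
            (k - 1) * (1 / 2 * conj (Fc z₀ b Fi (x / 2) n) *
            (exp (2 * n * x) - exp (-(2 * n * x)))) := by
          field_simp
        linear_combination (1 / 2 : ℂ) * e1 + (1 / 2 : ℂ) * e2 - e9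
      · -- zero
        subst hj
        have e1 := Ih h 0 hs ht₀
        have e3 := Fc_anti (z₀ := z₀) hb h.di 0 hs'
        have e4 := Fc_anti (z₀ := z₀) hb hm 0 ht'
        have e6 := hT0 0
        rw [neg_zero] at e3 e4
        have e3' : Fc z₀ b Fi (x / 2) 0 = 0 := by
          linear_combination (1 / 2 : ℂ) * e3
        have e4' : Fc z₀ b m t₀ 0 = 0 := by
          linear_combination (1 / 2 : ℂ) * e4
        rw [e3', map_zero] at e1
        have e1' : Fc z₀ b Fo t₀ 0 = 0 := by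
          linear_combination (1 / 2 : ℂ) * e1
        have e6' : Fc z₀ b (fun z => ∫ w in De z₀ b x, conj (Fi w) / (z - w) ^ 2) t₀ 0 = 0 := by
          simpa using e6
        rw [e1', e4', e6']
        simp
      · obtain ⟨n, rfl⟩ : ∃ n : ℕ, j = (n : ℤ) := ⟨j.natAbs, by omega⟩
        have hn : 1 ≤ n := by omega
        have e5 := hmc t₀ n ht0 ht2 hn
        have e6 := hT0 n
        rw [e5, e6]
        simp
    intro z hz
    have h1 := Fc_zero_An hb hx.le hF ht₀ h0 z hz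
    simp only at h1
    linear_combination h1
  · intro n s hn hs hsx
    rw [hmc s n hs (hsx.trans hxy) hn]
    have h1 := Ih h (n : ℤ) ⟨hs, hsx⟩ ht₀
    rw [Int.cast_natCast] at h1
    exact h1

end EW1
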