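import Mathlib

/-!
ROW EW/Pe. The complement of the union of two convex compact sets of the plane is connected. If they have a common point `p`: from a point `z` outside go along the ray from `p` through `z` outwards (it stays outside: if `p + t(z-p)`, `t > 1`, is in `K_i`
then so is `z`) to a big circle; the complement of a big closed ball is connected (`isPreconnected_compl...`, `isConnected_compl_singleton...`, or `IsPreconnected` of `{R < ‖z‖}`: Mathlib `isPreconnected_compl_of_..`; the image of a strip under `exp`).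
If disjoint: strict separation by a real linear functional `ℓ` (`geometric_hahn_banach_compact_closed`): `K₁ ⊆ {ℓ < a}`, `K₂ ⊆ {ℓ > b}`, `a < b`. A point `z ∉ K₁` with `ℓ z ≤ a`-side: the ray from a point `p ∈ K₁` through `z` outwards stays off `K₁`;
follow it until it leaves `{ℓ < a}` (then it is in the strip) or for ever (to a big circle in the half plane); the strip `{a ≤ ℓ ≤ b}` is convex and meets every big circle. Empty sets: easy. (One can also show that each `{ℓ < b} \ K₁`, `{ℓ > a} \ K₂`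
is connected, they meet in the strip.)
-/

set_option autoImplicit false

namespace EW1

open Complex Set Filter Topology

/-- two functionals have a common direction of decrease -/
private theorem dir (f g : ℂ →L[ℝ] ℝ) : ∃ d : ℂ, d ≠ 0 ∧ f d ≤ 0 ∧ g d ≤ 0 := by
  have hk : ∃ d : ℂ, d ≠ 0 ∧ f d = 0 := by
    by_cases h : f 1 = 0
    · exact ⟨1, one_ne_zero, h⟩
    · refine ⟨(f I) • (1 : ℂ) - (f 1) • I, ?_, ?_⟩
      · intro h0
        have h1 := congrArg Complex.im h0
        simp at h1
        exact h h1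
      · rw [map_sub, map_smul, map_smul, smul_eq_mul, smul_eq_mul]
        ring
  obtain ⟨d, hd, hf⟩ := hk
  rcases le_total (g d) 0 with hg | hg
  · exact ⟨d, hd, hf.le, hg⟩
  · refine ⟨-d, neg_ne_zero.2 hd, ?_, ?_⟩
    · rw [map_neg, hf, neg_zero]
    · rw [map_neg]
      linarith

theorem Wp {K₁ K₂ : Set ℂ} (h₁ : IsCompact K₁) (h₂ : IsCompact K₂) (hc₁ : Convex ℝ K₁) (hc₂ : Convex ℝ K₂) :
    IsPreconnected (K₁ ∪ K₂)ᶜ := by
  obtain ⟨R, hR0, hR⟩ := (h₁.union h₂).isBounded.exists_pos_norm_le
  have hB : IsPreconnected {w : ℂ | R < ‖w‖} := by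
    have h := ((convex_halfSpace_re_gt (Real.log R)).isPreconnected).image Complex.exp
      Complex.continuous_exp.continuousOn
    have e : Complex.exp '' {w : ℂ | Real.log R < w.re} = {w : ℂ | R < ‖w‖} := by
      ext w
      constructor
      · rintro ⟨z, hz, rfl⟩
        show R < ‖Complex.exp z‖
        rw [Complex.norm_exp]
        calc R = Real.exp (Real.log R) := (Real.exp_log hR0).symm
          _ < Real.exp z.re := Real.exp_lt_exp.2 hz
      · intro hw
        have hw' : R < ‖w‖ := hw
        have hw0 : w ≠ 0 := by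
          rintro rfl
          rw [norm_zero] at hw'
          linarith
        refine ⟨Complex.log w, ?_, Complex.exp_log hw0⟩
        show Real.log R < (Complex.log w).re
        rw [Complex.log_re]
        exact Real.log_lt_log hR0 hw'
    rwa [e] at h
  have hBs : {w : ℂ | R < ‖w‖} ⊆ (K₁ ∪ K₂)ᶜ := by
    intro w hw hK
    exact absurd (hR w hK) (not_le.2 hw)
  have hx0 : ((R + 1 : ℝ) : ℂ) ∈ {w : ℂ | R < ‖w‖} := by
    show R < ‖((R + 1 : ℝ) : ℂ)‖
    rw [Complex.norm_real, Real.norm_eq_abs, abs_of_pos (by linarith)]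
    linarith
  refine isPreconnected_of_forall ((R + 1 : ℝ) : ℂ) fun y hy => ?_
  have hy1 : y ∉ K₁ := fun h => hy (Or.inl h)
  have hy2 : y ∉ K₂ := fun h => hy (Or.inr h)
  obtain ⟨f, u, hfu, hfK⟩ := geometric_hahn_banach_point_closed hc₁ h₁.isClosed hy1
  obtain ⟨g, w, hgw, hgK⟩ := geometric_hahn_banach_point_closed hc₂ h₂.isClosed hy2
  obtain ⟨d, hd, hfd, hgd⟩ := dir f g
  have hd' : 0 < ‖d‖ := norm_pos_iff.2 hd
  obtain ⟨T, hT⟩ : ∃ T : ℝ, T = (R + ‖y‖ + 1) / ‖d‖ := ⟨_, rfl⟩
  have hT0 : 0 ≤ T := by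
    rw [hT]
    positivity
  have hTd : T * ‖d‖ = R + ‖y‖ + 1 := by
    rw [hT]
    field_simp
  have hz : y + T • d ∈ {w : ℂ | R < ‖w‖} := by
    show R < ‖y + T • d‖
    have h5 : ‖T • d‖ = R + ‖y‖ + 1 := by
      rw [norm_smul, Real.norm_eq_abs, abs_of_nonneg hT0, hTd]
    have h6 : ‖T • d‖ ≤ ‖y + T • d‖ + ‖y‖ := by
      calc ‖T • d‖ = ‖(y + T • d) - y‖ := by rw [add_sub_cancel_left]
        _ ≤ ‖y + T • d‖ + ‖y‖ := norm_sub_le _ _
    linarith
  have hseg : segment ℝ y (y + T • d) ⊆ (K₁ ∪ K₂)ᶜ := by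
    rintro v ⟨a, b, ha, hb, hab, rfl⟩
    have e : a • y + b • (y + T • d) = y + (b * T) • d := by
      have ha' : a = 1 - b := by linarith
      rw [ha', smul_add, smul_smul, sub_smul, one_smul]
      abel
    rw [e]
    have hbT : 0 ≤ b * T := mul_nonneg hb hT0
    rintro (hK | hK)
    · have h7 := hfK _ hK
      rw [map_add, map_smul, smul_eq_mul] at h7
      have h8 : b * T * f d ≤ 0 := mul_nonpos_of_nonneg_of_nonpos hbT hfd
      linarith
    · have h7 := hgK _ hK
      rw [map_add, map_smul, smul_eq_mul] at h7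
      have h8 : b * T * g d ≤ 0 := mul_nonpos_of_nonneg_of_nonpos hbT hgd
      linarith
  refine ⟨segment ℝ y (y + T • d) ∪ {w : ℂ | R < ‖w‖}, Set.union_subset hseg hBs, Or.inr hx0,
    Or.inl (left_mem_segment ℝ _ _), ?_⟩
  exact IsPreconnected.union (y + T • d) (right_mem_segment ℝ _ _) hz (convex_segment _ _).isPreconnected hB

end EW1
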