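import Pool.Agent.H1.EW.Pd
import Pool.Agent.H1.EW.Pe
import Pool.Agent.H1.ED.Zx

/-!
ROW EW/Pf. The background field on `Ω`. `C z = ∫_Ω (cond k (De x) - 1) G/(z-w)² = (k-1) ∫_{De x} conj Fi/(z-w)²` (see `Flds.tr` in `ED/T1.lean`), holomorphic on `{lv > lx x}` (`trD`).
* `one`: `We` on the open set `Ω ∩ {lv > lx x}` (conductivity `1`; `Sob.mono`, `Loc` as in `deep'` of `T1`): `G = conj F'`, `F'` holomorphic there; on `An x y` `F' = Fo` (both continuous, equal a.e.; see `T2.lean`, `Measure.eqOn_open_of_ae_eq`).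
  `m` from `exm` on `De y`; put `M z = m z` for `z ∈ De y`, `M z = F' z - C z/(2π)` otherwise: on `An x y` the two agree (`exm`), so `M` is holomorphic on `Ω = De y ∪ (Ω ∩ {lv > lx x})` (the level curve `lv = lx x` is inside `De y`).
  `Fc M s n = Fc m s n` for `s < x` (the curve is in `De y`).
* `common`: `W = ({lv z₀ b ≤ lx b x} ∪ {lv z₁ c ≤ lx c x'})ᶜ` is open, preconnected (`Wp`; the closed ellipses are compact convex), contains `Ωᶜ`. `Zx`: `G₁ = G₂` a.e. on `W ∩ Ω`. `Me`: `C₁ z = C₂ z` for `‖z‖ > R`, both holomorphic on `W`, so `C₁ = C₂` on `W`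
  (identity theorem: `AnalyticOnNhd.eqOn_of_preconnected_of_eventuallyEq`). So the two fields `M₁`, `M₂` agree a.e. on `W ∩ Ω`, hence near a point of it (`W ∩ Ω` is nonempty: `Ω` is connected, open and bounded, not equal to the union of the closed ellipses), hence on `Ω`.
-/

set_option autoImplicit false

namespace EW1

open Complex Set Filter Topology MeasureTheory
open scoped ComplexConjugate ContDiff Real

open ED1

open MD12

private theorem Pf_xy {z₀ b : ℂ} {k x y : ℝ} {u : ℂ → ℝ} {G Fi Fo : ℂ → ℂ} (h : Flds z₀ b k x y u G Fi Fo) :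
    lx b x < lx b y := (lx_lt h.hb h.hx.le (by linarith [h.hx, h.hxy])).2 h.hxy

private theorem Pf_sub {z₀ b : ℂ} {k x y : ℝ} {u : ℂ → ℝ} {G Fi Fo : ℂ → ℂ} (h : Flds z₀ b k x y u G Fi Fo) :
    {z | lv z₀ b z ≤ lx b x} ⊆ De z₀ b y := by
  intro z hz
  have h1 : lv z₀ b z ≤ lx b x := hz
  exact h1.trans_lt (Pf_xy h)

private theorem Pf_cvx (z₀ b : ℂ) (x : ℝ) : Convex ℝ {z | lv z₀ b z ≤ lx b x} := by
  have h1 := (convexOn_dist (E := ℂ) (z₀ + 2 * b) (convex_univ (𝕜 := ℝ))).add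
    (convexOn_dist (z₀ - 2 * b) (convex_univ (𝕜 := ℝ)))
  have h2 := h1.convex_le (lx b x)
  have h3 : {z | lv z₀ b z ≤ lx b x} =
      {z ∈ (Set.univ : Set ℂ) | ((fun z' => dist z' (z₀ + 2 * b)) + fun z' => dist z' (z₀ - 2 * b)) z ≤ lx b x} := by
    ext z
    simp [lv, dist_eq_norm]
  rw [h3]
  exact h2

private theorem Pf_cpt {z₀ b : ℂ} {k x y : ℝ} {u : ℂ → ℝ} {G Fi Fo : ℂ → ℂ} (h : Flds z₀ b k x y u G Fi Fo) :
    IsCompact {z | lv z₀ b z ≤ lx b x} :=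
  Metric.isCompact_of_isClosed_isBounded (isClosed_le (lv_cont z₀ b) continuous_const)
    ((De_bdd z₀ b y).subset (Pf_sub h))

/-- the transform is a transform of the inner field -/
private theorem Pf_tr {Ω : Set ℂ} (hΩo : IsOpen Ω) {z₀ b : ℂ} {k x y : ℝ} {u : ℂ → ℝ} {G Fi Fo : ℂ → ℂ}
    (h : Flds z₀ b k x y u G Fi Fo) (hΩ : De z₀ b y ⊆ Ω) (z : ℂ) :
    ∫ w in Ω, ((cond k (De z₀ b x) w - 1 : ℝ) : ℂ) * G w / (z - w) ^ 2 =
      ((k - 1 : ℝ) : ℂ) * ∫ w in De z₀ b x, conj (Fi w) / (z - w) ^ 2 := by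
  have hxy' : De z₀ b x ⊆ Ω := by
    intro w hw
    have h1 : lv z₀ b w < lx b x := hw
    exact hΩ (h1.trans (Pf_xy h))
  rw [← integral_const_mul]
  have e1 : ∫ w in Ω, ((cond k (De z₀ b x) w - 1 : ℝ) : ℂ) * G w / (z - w) ^ 2 =
      ∫ w in De z₀ b x, ((cond k (De z₀ b x) w - 1 : ℝ) : ℂ) * G w / (z - w) ^ 2 := by
    refine setIntegral_eq_of_subset_of_forall_diff_eq_zero hΩo.measurableSet hxy' ?_
    intro w hw
    have : cond k (De z₀ b x) w = 1 := by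
      unfold MD12.cond
      rw [Set.indicator_of_notMem hw.2, mul_zero, add_zero]
    rw [this]
    simp
  rw [e1]
  refine setIntegral_congr_ae (De_open z₀ b x).measurableSet ?_
  have h3 := h.ei
  rw [ae_restrict_iff' (De_open z₀ b x).measurableSet] at h3
  filter_upwards [h3] with w hw hwD
  rw [hw hwD]
  have : cond k (De z₀ b x) w = k := by
    unfold MD12.cond
    rw [Set.indicator_of_mem hwD]
    ring
  rw [this]
  ring

private theorem Pf_C {Ω : Set ℂ} (hΩo : IsOpen Ω) {z₀ b : ℂ} {k x y : ℝ} {u : ℂ → ℝ} {G Fi Fo : ℂ → ℂ}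
    (h : Flds z₀ b k x y u G Fi Fo) (hΩ : De z₀ b y ⊆ Ω) :
    DifferentiableOn ℂ (fun z => ∫ w in Ω, ((cond k (De z₀ b x) w - 1 : ℝ) : ℂ) * G w / (z - w) ^ 2)
      {z | lx b x < lv z₀ b z} := by
  refine ((trD h.hb h.hx h.int).const_mul ((k - 1 : ℝ) : ℂ)).congr fun z _ => ?_
  exact Pf_tr hΩo h hΩ z

private theorem Pf_Fc {z₀ b : ℂ} (hb : b ≠ 0) {s y : ℝ} (hs : 0 < s) (hsy : s < y) {M m : ℂ → ℂ}
    (hM : ∀ z ∈ De z₀ b y, M z = m z) (n : ℤ) : Fc z₀ b M s n = Fc z₀ b m s n := by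
  unfold Fc
  refine intervalIntegral.integral_congr fun τ _ => ?_
  have hmem : E z₀ b (s + τ * I) ∈ De z₀ b y := by
    rw [E_mem_De hb (hs.trans hsy).le]
    simp [abs_of_pos hs, hsy]
  simp only [hM _ hmem]

theorem one {Ω : Set ℂ} (hΩo : IsOpen Ω) {k : ℝ} {z₀ b : ℂ} {x y : ℝ} (hyΩ : De z₀ b y ⊆ Ω) {g u : ℂ → ℝ} {G Fi Fo : ℂ → ℂ}
    (hs : SolvesC Ω (cond k (De z₀ b x)) g u G) (h : Flds z₀ b k x y u G Fi Fo) :
    ∃ M : ℂ → ℂ, DifferentiableOn ℂ M Ω ∧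
      (∀ᵐ z ∂volume.restrict (Ω ∩ {z | lx b x < lv z₀ b z}),
        conj (G z) = M z + (∫ w in Ω, ((cond k (De z₀ b x) w - 1 : ℝ) : ℂ) * G w / (z - w) ^ 2) / (2 * π)) ∧
      ∀ (n : ℕ) (s : ℝ), 1 ≤ n → 0 < s → s < x →
        2 * Fc z₀ b M s n = (k + 1) * Fc z₀ b Fi s n - (k - 1) * conj (Fc z₀ b Fi s n) * exp (-(2 * n * x)) := by
  classical
  obtain ⟨m, hm, hmA, hmF⟩ := exm h
  have hWo : IsOpen (Ω ∩ {z | lx b x < lv z₀ b z}) :=
    hΩo.inter (isOpen_lt continuous_const (lv_cont z₀ b))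
  have hsol : Solves Ω k (De z₀ b x) g u G := ⟨hs.sob, hs.eq⟩
  obtain ⟨F', hF', he'⟩ := We hWo (hs.sob.mono hΩo hWo Set.inter_subset_left) h.hk
    ((hsol.loc hΩo).mono hΩo hWo Set.inter_subset_left) (Or.inl (by
      rw [Set.disjoint_left]
      intro z hz hz'
      have h1 : lv z₀ b z < lx b x := hz
      have h2 : lx b x < lv z₀ b z := hz'.2
      exact absurd h1 (not_lt.2 h2.le)))
  have hAW : An z₀ b x y ⊆ Ω ∩ {z | lx b x < lv z₀ b z} := fun z hz => ⟨hyΩ hz.2, hz.1⟩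
  have hFF : ∀ z ∈ An z₀ b x y, Fo z = F' z := by
    have hae : ∀ᵐ z ∂volume.restrict (An z₀ b x y), Fo z = F' z := by
      filter_upwards [h.eo, ae_restrict_of_ae_restrict_of_subset hAW he'] with z h1 h2
      exact (starRingEnd ℂ).injective (h1.symm.trans h2)
    exact Measure.eqOn_open_of_ae_eq hae (An_open z₀ b x y) h.do'.continuousOn (hF'.mono hAW).continuousOn
  have hC := Pf_C hΩo h hyΩ
  obtain ⟨C, hCd⟩ : ∃ C : ℂ → ℂ,
      C = fun z => ∫ w in Ω, ((cond k (De z₀ b x) w - 1 : ℝ) : ℂ) * G w / (z - w) ^ 2 := ⟨_, rfl⟩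
  rw [← hCd] at hC
  have hCz : ∀ z, ∫ w in Ω, ((cond k (De z₀ b x) w - 1 : ℝ) : ℂ) * G w / (z - w) ^ 2 = C z := by
    intro z
    rw [hCd]
  simp only [hCz]
  have hCt : ∀ z, C z = ((k - 1 : ℝ) : ℂ) * ∫ w in De z₀ b x, conj (Fi w) / (z - w) ^ 2 := by
    intro z
    rw [← hCz z]
    exact Pf_tr hΩo h hyΩ z
  obtain ⟨M, hMd⟩ : ∃ M : ℂ → ℂ, M = fun z => if z ∈ De z₀ b y then m z else F' z - C z / (2 * π) := ⟨_, rfl⟩
  have hM1 : ∀ z ∈ De z₀ b y, M z = m z := by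
    intro z hz
    rw [hMd]
    exact if_pos hz
  have hM2 : ∀ z ∈ Ω ∩ {z | lx b x < lv z₀ b z}, M z = F' z - C z / (2 * π) := by
    intro z hz
    by_cases hzy : z ∈ De z₀ b y
    · have hzA : z ∈ An z₀ b x y := ⟨hz.2, hzy⟩
      rw [hM1 z hzy, ← hFF z hzA, hmA z hzA, hCt z]
      ring
    · rw [hMd]
      exact if_neg hzy
  refine ⟨M, ?_, ?_, ?_⟩
  · intro z hz
    by_cases hzy : z ∈ De z₀ b y
    · have h1 : M =ᶠ[𝓝 z] m := by
        filter_upwards [(De_open z₀ b y).mem_nhds hzy] with w hw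
        exact hM1 w hw
      have h2 : DifferentiableAt ℂ m z := hm.differentiableAt ((De_open z₀ b y).mem_nhds hzy)
      exact (h2.congr_of_eventuallyEq h1).differentiableWithinAt
    · have hzW : z ∈ Ω ∩ {z | lx b x < lv z₀ b z} := ⟨hz, (Pf_xy h).trans_le (not_lt.1 hzy)⟩
      have h1 : M =ᶠ[𝓝 z] fun z => F' z - C z / (2 * π) := by
        filter_upwards [hWo.mem_nhds hzW] with w hw
        exact hM2 w hw
      have h2 : DifferentiableAt ℂ F' z := hF'.differentiableAt (hWo.mem_nhds hzW)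
      have h3 : DifferentiableAt ℂ C z :=
        hC.differentiableAt ((isOpen_lt continuous_const (lv_cont z₀ b)).mem_nhds hzW.2)
      exact ((h2.sub (h3.div_const _)).congr_of_eventuallyEq h1).differentiableWithinAt
  · filter_upwards [he', ae_restrict_mem hWo.measurableSet] with z h1 h2
    rw [h1, Complex.conj_conj, hM2 z h2]
    ring
  · intro n s hn hs0 hsx
    rw [Pf_Fc h.hb hs0 (hsx.trans h.hxy) hM1]
    exact hmF n s hn hs0 hsx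

private theorem Pf_W {Ω K : Set ℂ} (hΩo : IsOpen Ω) (hΩb : Bornology.IsBounded Ω) (hne : Ω.Nonempty)
    (hK : IsCompact K) (hKΩ : K ⊆ Ω) : (Kᶜ ∩ Ω).Nonempty := by
  by_contra hemp
  rw [Set.not_nonempty_iff_eq_empty] at hemp
  have h1 : Ω ⊆ K := by
    intro z hz
    by_contra hzK
    have : z ∈ Kᶜ ∩ Ω := ⟨hzK, hz⟩
    rw [hemp] at this
    exact this
  have h2 : Ω = K := Set.Subset.antisymm h1 hKΩ
  have h3 : IsClopen Ω := ⟨by rw [h2]; exact hK.isClosed, hΩo⟩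
  rcases isClopen_iff.1 h3 with h4 | h4
  · rw [h4] at hne
    exact Set.not_nonempty_empty hne
  · rw [h4] at hΩb
    exact NormedSpace.unbounded_univ ℝ ℂ hΩb

theorem common {Ω : Set ℂ} (hΩo : IsOpen Ω) (hΩb : Bornology.IsBounded Ω) (hΩc : IsPreconnected Ω) {k : ℝ}
    {z₀ b z₁ c : ℂ} {x y x' y' : ℝ} (hyΩ : De z₀ b y ⊆ Ω) (hyΩ' : De z₁ c y' ⊆ Ω) {g u₁ u₂ : ℂ → ℝ} {G₁ G₂ Fi Fo Fi' Fo' : ℂ → ℂ}
    (h₁ : SolvesC Ω (cond k (De z₀ b x)) g u₁ G₁) (h₂ : SolvesC Ω (cond k (De z₁ c x')) g u₂ G₂)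
    (ht : SameTrace Ω u₁ u₂ G₁ G₂) (hF : Flds z₀ b k x y u₁ G₁ Fi Fo) (hF' : Flds z₁ c k x' y' u₂ G₂ Fi' Fo') :
    ∃ M : ℂ → ℂ, DifferentiableOn ℂ M Ω ∧
      (∀ (n : ℕ) (s : ℝ), 1 ≤ n → 0 < s → s < x →
        2 * Fc z₀ b M s n = (k + 1) * Fc z₀ b Fi s n - (k - 1) * conj (Fc z₀ b Fi s n) * exp (-(2 * n * x))) ∧
      ∀ (n : ℕ) (s : ℝ), 1 ≤ n → 0 < s → s < x' →
        2 * Fc z₁ c M s n = (k + 1) * Fc z₁ c Fi' s n - (k - 1) * conj (Fc z₁ c Fi' s n) * exp (-(2 * n * x')) := by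
  obtain ⟨M₁, hM₁, hA₁, hB₁⟩ := one hΩo hyΩ h₁ hF
  obtain ⟨M₂, hM₂, hA₂, hB₂⟩ := one hΩo hyΩ' h₂ hF'
  have hK₁ := Pf_cpt hF
  have hK₂ := Pf_cpt hF'
  have hc := Wp hK₁ hK₂ (Pf_cvx z₀ b x) (Pf_cvx z₁ c x')
  have hWo : IsOpen ({z | lv z₀ b z ≤ lx b x} ∪ {z | lv z₁ c z ≤ lx c x'})ᶜ :=
    (hK₁.union hK₂).isClosed.isOpen_compl
  have hKΩ : {z | lv z₀ b z ≤ lx b x} ∪ {z | lv z₁ c z ≤ lx c x'} ⊆ Ω :=
    Set.union_subset ((Pf_sub hF).trans hyΩ) ((Pf_sub hF').trans hyΩ')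
  obtain ⟨W, hW⟩ : ∃ W : Set ℂ, W = ({z | lv z₀ b z ≤ lx b x} ∪ {z | lv z₁ c z ≤ lx c x'})ᶜ := ⟨_, rfl⟩
  have hW1 : ∀ z ∈ W, lx b x < lv z₀ b z := by
    intro z hz
    rw [hW] at hz
    by_contra h
    exact hz (Or.inl (not_lt.1 h))
  have hW2 : ∀ z ∈ W, lx c x' < lv z₁ c z := by
    intro z hz
    rw [hW] at hz
    by_contra h
    exact hz (Or.inr (not_lt.1 h))
  have hne : Ω.Nonempty := (De_nonempty hF.hb (hF.hx.trans hF.hxy)).mono hyΩ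
  have hWne := Pf_W hΩo hΩb hne (hK₁.union hK₂) hKΩ
  rw [← hW] at hc hWo hWne
  have hWK : Ωᶜ ⊆ W := by
    rw [hW]
    exact Set.compl_subset_compl.2 hKΩ
  have hcd : ∀ (z₀ b : ℂ) (x : ℝ) (z : ℂ), lx b x < lv z₀ b z → cond k (De z₀ b x) z = 1 := by
    intro z₀ b x z hz
    unfold MD12.cond
    rw [Set.indicator_of_notMem, mul_zero, add_zero]
    intro h
    have h1 : lv z₀ b z < lx b x := h
    linarith
  have hGG := Zx hΩo hΩb h₁ h₂ ht hWo hc hWK (fun z hz => hcd z₀ b x z (hW1 z hz))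
    (fun z hz => hcd z₁ c x' z (hW2 z hz))
  obtain ⟨R, hR⟩ := Me hΩo hΩb (De_meas_cond k z₀ b x) (De_meas_cond k z₁ c x') (M := 1 + |k - 1|)
    (fun z => TSOB_cond_bdd k (De z₀ b x) z) (fun z => TSOB_cond_bdd k (De z₁ c x') z) h₁ h₂ ht
  -- the transforms agree
  have hD₁ := (Pf_C hΩo hF hyΩ).mono (fun z hz => hW1 z hz : W ⊆ {z | lx b x < lv z₀ b z})
  have hD₂ := (Pf_C hΩo hF' hyΩ').mono (fun z hz => hW2 z hz : W ⊆ {z | lx c x' < lv z₁ c z})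
  obtain ⟨R0, hR0⟩ := hΩb.subset_closedBall (0 : ℂ)
  obtain ⟨p, hp1, hp2⟩ : ∃ p : ℂ, R < ‖p‖ ∧ p ∈ W := by
    refine ⟨((max |R| |R0| + 1 : ℝ) : ℂ), ?_, hWK fun hx => ?_⟩
    · rw [Complex.norm_real, Real.norm_eq_abs, abs_of_pos (by positivity)]
      linarith [le_abs_self R, le_max_left |R| |R0|]
    · have h3 := mem_closedBall_zero_iff.1 (hR0 hx)
      rw [Complex.norm_real, Real.norm_eq_abs, abs_of_pos (by positivity)] at h3
      linarith [le_abs_self R0, le_max_right |R| |R0|]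
  have hev : (fun z => ∫ w in Ω, ((cond k (De z₀ b x) w - 1 : ℝ) : ℂ) * G₁ w / (z - w) ^ 2) =ᶠ[𝓝 p]
      fun z => ∫ w in Ω, ((cond k (De z₁ c x') w - 1 : ℝ) : ℂ) * G₂ w / (z - w) ^ 2 := by
    filter_upwards [(isOpen_lt continuous_const continuous_norm).mem_nhds hp1] with z hz
    exact hR z hz
  have hCC := (hD₁.analyticOnNhd hWo).eqOn_of_preconnected_of_eventuallyEq (hD₂.analyticOnNhd hWo) hc hp2 hev
  -- the fields agree near a point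
  have hMM : ∀ᵐ z ∂volume.restrict (W ∩ Ω), M₁ z = M₂ z := by
    have a1 := ae_restrict_of_ae_restrict_of_subset
      (fun z hz => ⟨hz.2, hW1 z hz.1⟩ : W ∩ Ω ⊆ Ω ∩ {z | lx b x < lv z₀ b z}) hA₁
    have a2 := ae_restrict_of_ae_restrict_of_subset
      (fun z hz => ⟨hz.2, hW2 z hz.1⟩ : W ∩ Ω ⊆ Ω ∩ {z | lx c x' < lv z₁ c z}) hA₂
    filter_upwards [a1, a2, hGG, ae_restrict_mem (hWo.inter hΩo).measurableSet] with z h1 h2 h3 h4
    have h5 := hCC h4.1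
    simp only at h5
    rw [h3, h2, h5] at h1
    exact (add_right_cancel h1).symm
  have hEq : Set.EqOn M₁ M₂ (W ∩ Ω) := Measure.eqOn_open_of_ae_eq hMM (hWo.inter hΩo)
    (hM₁.mono Set.inter_subset_right).continuousOn (hM₂.mono Set.inter_subset_right).continuousOn
  obtain ⟨q, hq⟩ := hWne
  have hevq : M₁ =ᶠ[𝓝 q] M₂ := by
    filter_upwards [(hWo.inter hΩo).mem_nhds hq] with z hz
    exact hEq hz
  have hall := (hM₁.analyticOnNhd hΩo).eqOn_of_preconnected_of_eventuallyEq (hM₂.analyticOnNhd hΩo) hΩc hq.2 hevq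
  refine ⟨M₁, hM₁, hB₁, fun n s hn hs0 hsx => ?_⟩
  rw [Pf_Fc hF'.hb hs0 (hsx.trans hF'.hxy) (fun z hz => hall (hyΩ' hz))]
  exact hB₂ n s hn hs0 hsx

end EW1
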