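import Pool.Agent.H1.EW.Pe
import Pool.Agent.H1.ED.Zx
import Pool.Agent.H1.ED.Me
import Pool.Agent.H1.ED.Jl
import Pool.Agent.H1.ED.Cw
import Pool.Agent.H1.ED.Dd

/-!
ROW EW/Pg. The orthogonality relation.
* `Zu`: as `Zx` (`ED/Zx.lean`), its proof shows `u₁ = u₂` a.e. on `W ∩ Ω` first.
* `Oid`: `N₁ = De z₀ b y`, `N₂ = De z₁ c y'` open convex subsets of `Ω`, `x < y`, `x' < y'`. `A` has a primitive on each (Mathlib: primitives of holomorphic functions on convex open sets / disks, search `IsExactOn`, `HasPrimitives`, `isExactOn_ball`;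
  or wedge integral `∫_0^1 A (p + t (z-p)) (z-p) dt`), on the convex intersection they differ by a constant, adjust: `𝒜` on `N₁ ∪ N₂`, `𝒜' = A`. `χ` smooth, `1` on a neighbourhood of the compact set
  `K = {lv z₀ b ≤ lx b x} ∪ {lv z₁ c ≤ lx c x'}`, support compact in `N₁ ∪ N₂` (`exists_contDiff_tsupport_subset`...). `φ = χ Re (e 𝒜)` test function, `e ∈ ℂ`. Near `K`: `dφ(v) = Re (e A v)`, `lap φ = 0`.
  `h₁.eq φ - h₂.eq φ`: `∫_Ω σ₁ dφ(G₁) = ∫_Ω σ₂ dφ(G₂)`; `SameTrace` with `∂_1 φ`, `∂_I φ` (as in `ED/Me.lean`): `∫_Ω dφ(G₁ - G₂) = -∫_Ω (u₁ - u₂) lap φ = 0`, because `u₁ = u₂` a.e. off `K` (`Zu` with `W = Kᶜ`, preconnected by `Wp`) and `lap φ = 0` near `K`.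
  So `(k-1) ∫_{De x} Re (e A G₁) = (k-1) ∫_{De x'} Re (e A G₂)` for all `e`.
-/

set_option autoImplicit false

namespace EW1

open Complex Set Filter Topology MeasureTheory
open scoped ComplexConjugate ContDiff Real

open ED1

open MD12

private theorem Pg_fd {Ω W : Set ℂ} (hΩo : IsOpen Ω) {σ : ℂ → ℝ} {g u : ℂ → ℝ}
    {G : ℂ → ℂ} (h : SolvesC Ω σ g u G)
    (hW : ∀ z ∈ W, σ z = 1) {φ : ℂ → ℝ} (hφ : IsTest φ)
    (hφW : tsupport φ ⊆ W) :
    Integrable (fun z => fderiv ℝ φ z (G z)) (volume.restrict Ω) ∧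
      ∫ z in Ω, fderiv ℝ φ z (G z) = ∫ z in frontier Ω, g z * φ z ∂μH[1] := by
  constructor
  · have h1 := pdb_int (pdb_inner h.sob.memG 1) (hφ.fd 1).1
    have h2 := pdb_int (pdb_inner h.sob.memG I) (hφ.fd I).1
    refine (h1.add h2).congr (Eventually.of_forall fun z => ?_)
    exact (fd_eq φ z (G z)).symm
  · rw [← h.eq φ hφ]
    refine setIntegral_congr_fun hΩo.measurableSet fun z _ => ?_
    by_cases hz : z ∈ tsupport φ
    · simp only [hW z (hφW hz), one_mul]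
    · simp only [pdb_fd0 hz, mul_zero]

theorem Zu {Ω : Set ℂ} (hΩo : IsOpen Ω) (hΩb : Bornology.IsBounded Ω) {σ₁ σ₂ : ℂ → ℝ}
    {g u₁ u₂ : ℂ → ℝ} {G₁ G₂ : ℂ → ℂ} (h₁ : SolvesC Ω σ₁ g u₁ G₁) (h₂ : SolvesC Ω σ₂ g u₂ G₂)
    (ht : SameTrace Ω u₁ u₂ G₁ G₂) {W : Set ℂ} (hWo : IsOpen W) (hWc : IsPreconnected W)
    (hWK : Ωᶜ ⊆ W) (hW₁ : ∀ z ∈ W, σ₁ z = 1) (hW₂ : ∀ z ∈ W, σ₂ z = 1) :
    ∀ᵐ z ∂volume.restrict (W ∩ Ω), u₁ z = u₂ z := by
  have hS := zex_sob hΩo h₁.sob h₂.sob ht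
  have hSW : Sob W (Ω.indicator fun z => u₁ z - u₂ z) (Ω.indicator fun z => G₁ z - G₂ z) :=
    hS.mono isOpen_univ hWo (subset_univ W)
  have hL : Loc W 1 ∅ (Ω.indicator fun z => G₁ z - G₂ z) := by
    intro φ hφ hφW
    obtain ⟨i1, e1⟩ := Pg_fd hΩo h₁ hW₁ hφ hφW
    obtain ⟨i2, e2⟩ := Pg_fd hΩo h₂ hW₂ hφ hφW
    have e3 : ∫ z in W, MD12.cond 1 ∅ z * fderiv ℝ φ z ((Ω.indicator fun z => G₁ z - G₂ z) z) =
        ∫ z in Ω, fderiv ℝ φ z (G₁ z - G₂ z) := by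
      rw [pdb_sub isOpen_univ (subset_univ W) (fun z hz => by
        rw [pdb_fd0 (fun h' => hz (hφW h')), mul_zero]), setIntegral_univ,
        ← integral_indicator hΩo.measurableSet]
      refine integral_congr_ae (Eventually.of_forall fun z => ?_)
      unfold MD12.cond
      by_cases hz : z ∈ Ω
      · simp only [Set.indicator_of_mem hz, sub_self, zero_mul, add_zero, one_mul]
      · simp only [Set.indicator_of_notMem hz, sub_self, zero_mul, add_zero, one_mul, map_zero]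
    rw [e3]
    have e4 : ∫ z in Ω, fderiv ℝ φ z (G₁ z - G₂ z) =
        (∫ z in Ω, fderiv ℝ φ z (G₁ z)) - ∫ z in Ω, fderiv ℝ φ z (G₂ z) := by
      rw [← integral_sub i1 i2]
      simp only [map_sub]
    rw [e4, e1, e2, sub_self]
  have hw : WHar W (Ω.indicator fun z => u₁ z - u₂ z) :=
    whar_of_loc hWo hSW one_pos hL (Or.inl (Set.empty_disjoint W))
  have hli : LocallyIntegrableOn (Ω.indicator fun z => u₁ z - u₂ z) W volume :=
    locallyIntegrableOn_of_locallyIntegrable_restrict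
      (hSW.memu.locallyIntegrable (by norm_num))
  obtain ⟨U, hU, hUw⟩ := weyl hWo hli hw
  have hN0 : IsOpen (closure Ω)ᶜ := isClosed_closure.isOpen_compl
  have hN0W : (closure Ω)ᶜ ⊆ W := (compl_subset_compl.2 subset_closure).trans hWK
  obtain ⟨x, hx⟩ : ((closure Ω)ᶜ).Nonempty := by
    obtain ⟨R, hR⟩ := hΩb.closure.subset_closedBall (0 : ℂ)
    refine ⟨((|R| + 1 : ℝ) : ℂ), fun hx => ?_⟩
    have h3 := mem_closedBall_zero_iff.1 (hR hx)
    rw [Complex.norm_real, Real.norm_eq_abs, abs_of_pos (by positivity)] at h3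
    linarith [le_abs_self R]
  have hU0 : ∀ z ∈ (closure Ω)ᶜ, U z = 0 := by
    refine eq_of_ae hN0 (fun z hz => har_continuousAt (hU z (hN0W hz)))
      (fun z _ => continuousAt_const) ?_
    have h3 := ae_restrict_of_ae_restrict_of_subset hN0W hUw
    filter_upwards [h3, ae_restrict_mem hN0.measurableSet] with z h4 h5
    rw [h4, Set.indicator_of_notMem (fun h6 => h5 (subset_closure h6))]
  have hxU : U =ᶠ[𝓝 x] fun _ => (0 : ℝ) := by
    filter_upwards [hN0.mem_nhds hx] with z hz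
    exact hU0 z hz
  have hUW := har_ident hWc hU (fun z _ => har_const 0 z) (hN0W hx) hxU
  have h3 := ae_restrict_of_ae_restrict_of_subset (Set.inter_subset_left (s := W) (t := Ω)) hUw
  filter_upwards [h3, ae_restrict_mem (hWo.inter hΩo).measurableSet] with z h4 h5
  have h6 : U z = 0 := (hUW z h5.1).self_of_nhds
  rw [h6, Set.indicator_of_mem h5.2] at h4
  linarith

private theorem Pg_re {f : ℂ → ℂ} {f' w : ℂ} (h : HasDerivAt f f' w) (v : ℂ) :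
    fderiv ℝ (fun w => (f w).re) w v = (v * f').re := by
  have h1 := h.hasFDerivAt.restrictScalars ℝ
  have h2 := (Complex.reCLM.hasFDerivAt.comp w h1).fderiv
  have h3 : (fun w => (f w).re) = Complex.reCLM ∘ f := rfl
  rw [h3, h2]
  simp

private theorem Pg_d1 {V : Set ℂ} (hV : IsOpen V) {P A : ℂ → ℂ}
    (hP : ∀ z ∈ V, HasDerivAt P (A z) z) {e : ℂ} {φ : ℂ → ℝ}
    (h : ∀ w ∈ V, φ w = (e * P w).re) {w : ℂ} (hw : w ∈ V) (v : ℂ) :
    fderiv ℝ φ w v = (v * (e * A w)).re := by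
  have h1 : φ =ᶠ[𝓝 w] fun w => (e * P w).re := by
    filter_upwards [hV.mem_nhds hw] with w' hw'
    exact h w' hw'
  rw [h1.fderiv_eq]
  exact Pg_re ((hP w hw).const_mul e) v

private theorem Pg_lap {V : Set ℂ} (hV : IsOpen V) {P A : ℂ → ℂ}
    (hP : ∀ z ∈ V, HasDerivAt P (A z) z) (hA : DifferentiableOn ℂ A V) {e : ℂ} {φ : ℂ → ℝ}
    (h : ∀ w ∈ V, φ w = (e * P w).re) {w : ℂ} (hw : w ∈ V) : lap φ w = 0 := by
  have hA' : HasDerivAt A (deriv A w) w := (hA.differentiableAt (hV.mem_nhds hw)).hasDerivAt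
  have h1 : ∀ v : ℂ, fderiv ℝ (fun w => fderiv ℝ φ w v) w v =
      (v * ((v * e) * deriv A w)).re := by
    intro v
    have h2 : (fun w => fderiv ℝ φ w v) =ᶠ[𝓝 w] fun w => ((v * e) * A w).re := by
      filter_upwards [hV.mem_nhds hw] with w' hw'
      rw [Pg_d1 hV hP h hw' v, mul_assoc]
    rw [h2.fderiv_eq]
    exact Pg_re (hA'.const_mul (v * e)) v
  unfold lap
  rw [h1 1, h1 I, ← Complex.add_re]
  have h3 : (1 : ℂ) * ((1 * e) * deriv A w) + I * ((I * e) * deriv A w) = 0 := by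
    linear_combination (e * deriv A w) * Complex.I_mul_I
  rw [h3, Complex.zero_re]

private theorem Pg_prim {N₁ N₂ : Set ℂ} (h₁o : IsOpen N₁) (h₂o : IsOpen N₂)
    (h₁c : Convex ℝ N₁) (h₂c : Convex ℝ N₂) {A : ℂ → ℂ} (hA : DifferentiableOn ℂ A (N₁ ∪ N₂)) :
    ∃ P : ℂ → ℂ, ∀ z ∈ N₁ ∪ N₂, HasDerivAt P (A z) z := by
  classical
  obtain ⟨P₁, hP₁⟩ := h₁c.exists_forall_hasDerivWithinAt (hA.mono subset_union_left)
  obtain ⟨P₂, hP₂⟩ := h₂c.exists_forall_hasDerivWithinAt (hA.mono subset_union_right)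
  have hP₁' : ∀ z ∈ N₁, HasDerivAt P₁ (A z) z :=
    fun z hz => (hP₁ z hz).hasDerivAt (h₁o.mem_nhds hz)
  have hP₂' : ∀ z ∈ N₂, HasDerivAt P₂ (A z) z :=
    fun z hz => (hP₂ z hz).hasDerivAt (h₂o.mem_nhds hz)
  obtain ⟨c, hc⟩ : ∃ c, ∀ z ∈ N₁ ∩ N₂, P₁ z = P₂ z + c := by
    rcases (N₁ ∩ N₂).eq_empty_or_nonempty with h | ⟨p, hp⟩
    · exact ⟨0, fun z hz => by rw [h] at hz; exact hz.elim⟩
    · refine ⟨P₁ p - P₂ p, fun z hz => ?_⟩
      have h1 : ∀ w ∈ N₁ ∩ N₂, HasDerivAt (fun w => P₁ w - P₂ w) 0 w := fun w hw => by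
        have := (hP₁' w hw.1).sub (hP₂' w hw.2)
        rw [sub_self] at this
        exact this
      have h2 := (h₁o.inter h₂o).is_const_of_deriv_eq_zero (h₁c.inter h₂c).isPreconnected
        (fun w hw => (h1 w hw).differentiableAt.differentiableWithinAt)
        (fun w hw => (h1 w hw).deriv) hz hp
      linear_combination h2
  refine ⟨fun z => if z ∈ N₁ then P₁ z else P₂ z + c, ?_⟩
  rintro z (hz | hz)
  · refine (hP₁' z hz).congr_of_eventuallyEq ?_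
    filter_upwards [h₁o.mem_nhds hz] with w hw
    rw [if_pos hw]
  · refine ((hP₂' z hz).add_const c).congr_of_eventuallyEq ?_
    filter_upwards [h₂o.mem_nhds hz] with w hw
    split_ifs with h
    · exact hc w ⟨h, hw⟩
    · rfl

private theorem Pg_test {K N : Set ℂ} (hK : IsCompact K) (hN : IsOpen N) (hKN : K ⊆ N)
    {P : ℂ → ℂ} (hP : DifferentiableOn ℂ P N) (e : ℂ) :
    ∃ (φ : ℂ → ℝ) (V : Set ℂ), IsTest φ ∧ IsOpen V ∧ K ⊆ V ∧ V ⊆ N ∧
      ∀ w ∈ V, φ w = (e * P w).re := by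
  obtain ⟨V, hVo, hKV, hVN, hVc⟩ := exists_open_between_and_isCompact_closure hK hN hKN
  obtain ⟨V', hV'o, hVV', hV'N, hV'c⟩ := exists_open_between_and_isCompact_closure hVc hN hVN
  obtain ⟨f, hf0, hf1, -⟩ := exists_contMDiffMap_zero_one_of_isClosed (n := ⊤)
    (modelWithCornersSelf ℝ ℂ) (s := V'ᶜ) (t := closure V) hV'o.isClosed_compl isClosed_closure
    (disjoint_compl_left_iff_subset.2 hVV')
  have hfc : HasCompactSupport (f : ℂ → ℝ) :=
    HasCompactSupport.intro' hV'c isClosed_closure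
      (fun x hx => hf0 (fun h => hx (subset_closure h)))
  have hft : tsupport (f : ℂ → ℝ) ⊆ N := by
    refine (closure_minimal ?_ isClosed_closure).trans hV'N
    intro x hx
    by_contra h
    exact hx (hf0 (fun h' => h (subset_closure h')))
  have hfs : ContDiff ℝ ∞ (f : ℂ → ℝ) := f.contMDiff.contDiff
  refine ⟨fun w => f w * (e * P w).re, V, ⟨?_, hfc.mul_right⟩, hVo, hKV,
    subset_closure.trans hVN, ?_⟩
  · rw [contDiff_iff_contDiffAt]
    intro w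
    by_cases hw : w ∈ N
    · refine hfs.contDiffAt.mul ?_
      have h1 : ContDiffAt ℝ ∞ P w :=
        ((hP.analyticAt (hN.mem_nhds hw)).contDiffAt (n := ∞)).restrict_scalars ℝ
      have h2 : ContDiffAt ℝ ∞ (fun w => e * P w) w := contDiffAt_const.mul h1
      exact Complex.reCLM.contDiff.contDiffAt.comp w h2
    · have h1 : (f : ℂ → ℝ) =ᶠ[𝓝 w] 0 := notMem_tsupport_iff_eventuallyEq.1 (fun h => hw (hft h))
      have h2 : (fun w => f w * (e * P w).re) =ᶠ[𝓝 w] fun _ => 0 := by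
        filter_upwards [h1] with w' hw'
        rw [hw']
        simp
      exact contDiffAt_const.congr_of_eventuallyEq h2
  · intro w hw
    show f w * (e * P w).re = _
    rw [hf1 (subset_closure hw)]
    simp

private theorem Pg_int {Ω : Set ℂ} {G : ℂ → ℂ} (hG : MemLp G 2 (volume.restrict Ω)) {φ : ℂ → ℝ}
    (hφ : IsTest φ) : Integrable (fun z => fderiv ℝ φ z (G z)) (volume.restrict Ω) := by
  have h1 := pdb_int (pdb_inner hG 1) (hφ.fd 1).1
  have h2 := pdb_int (pdb_inner hG I) (hφ.fd I).1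
  refine (h1.add h2).congr (Eventually.of_forall fun z => ?_)
  exact (fd_eq φ z (G z)).symm

private theorem Pg_one {Ω : Set ℂ} (hΩo : IsOpen Ω) {σ₁ σ₂ : ℂ → ℝ}
    (hm₁ : Measurable σ₁) (hm₂ : Measurable σ₂) {M : ℝ} (hM₁ : ∀ z, |σ₁ z| ≤ M) (hM₂ : ∀ z, |σ₂ z| ≤ M)
    {g u₁ u₂ : ℂ → ℝ} {G₁ G₂ : ℂ → ℂ} (h₁ : SolvesC Ω σ₁ g u₁ G₁) (h₂ : SolvesC Ω σ₂ g u₂ G₂)
    (ht : SameTrace Ω u₁ u₂ G₁ G₂) {φ : ℂ → ℝ} (hφ : IsTest φ)
    (hl : ∀ᵐ w ∂volume.restrict Ω, (u₁ w - u₂ w) * lap φ w = 0) :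
    ∫ w in Ω, (σ₁ w - 1) * fderiv ℝ φ w (G₁ w) = ∫ w in Ω, (σ₂ w - 1) * fderiv ℝ φ w (G₂ w) := by
  have i1 := Pg_int h₁.sob.memG hφ
  have i2 := Pg_int h₂.sob.memG hφ
  have hb : ∀ {σ : ℂ → ℝ} (_ : Measurable σ) (_ : ∀ z, |σ z| ≤ M) {f : ℂ → ℝ}
      (_ : Integrable f (volume.restrict Ω)), Integrable (fun z => σ z * f z) (volume.restrict Ω) :=
    fun hm hM _ hf => hf.bdd_mul hm.aestronglyMeasurable (Eventually.of_forall fun z => hM z)
  have e1 : ∫ w in Ω, σ₁ w * fderiv ℝ φ w (G₁ w) = ∫ w in Ω, σ₂ w * fderiv ℝ φ w (G₂ w) := by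
    rw [h₁.eq φ hφ, h₂.eq φ hφ]
  have hS := zex_sob hΩo h₁.sob h₂.sob ht
  have e2 := sob_lap hS hφ (subset_univ _)
  rw [zex_int hΩo] at e2
  have e3 : ∫ z in Ω, (u₁ z - u₂ z) * lap φ z = 0 := by
    rw [integral_congr_ae (g := fun _ => (0 : ℝ)) hl]
    simp
  have e4 : ∫ z in Set.univ, fderiv ℝ φ z ((Ω.indicator fun z => G₁ z - G₂ z) z) =
      ∫ z in Ω, (fderiv ℝ φ z (G₁ z) - fderiv ℝ φ z (G₂ z)) := by
    rw [setIntegral_univ, ← integral_indicator hΩo.measurableSet]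
    refine integral_congr_ae (Eventually.of_forall fun z => ?_)
    by_cases hz : z ∈ Ω
    · simp only [Set.indicator_of_mem hz, map_sub]
    · simp only [Set.indicator_of_notMem hz, map_zero]
  rw [e3, e4, integral_sub i1 i2] at e2
  have e5 : ∫ w in Ω, (σ₁ w - 1) * fderiv ℝ φ w (G₁ w) =
      (∫ w in Ω, σ₁ w * fderiv ℝ φ w (G₁ w)) - ∫ w in Ω, fderiv ℝ φ w (G₁ w) := by
    rw [← integral_sub (hb hm₁ hM₁ i1) i1]
    refine integral_congr_ae (Eventually.of_forall fun w => ?_)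
    show (σ₁ w - 1) * fderiv ℝ φ w (G₁ w) = _
    ring
  have e6 : ∫ w in Ω, (σ₂ w - 1) * fderiv ℝ φ w (G₂ w) =
      (∫ w in Ω, σ₂ w * fderiv ℝ φ w (G₂ w)) - ∫ w in Ω, fderiv ℝ φ w (G₂ w) := by
    rw [← integral_sub (hb hm₂ hM₂ i2) i2]
    refine integral_congr_ae (Eventually.of_forall fun w => ?_)
    show (σ₂ w - 1) * fderiv ℝ φ w (G₂ w) = _
    ring
  rw [e5, e6, e1]
  linarith

private theorem Pg_cm (k : ℝ) {D : Set ℂ} (hD : MeasurableSet D) :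
    Measurable (MD12.cond k D) ∧ ∀ z, |MD12.cond k D z| ≤ 1 + |k - 1| := by
  constructor
  · unfold MD12.cond
    exact measurable_const.add (measurable_const.mul (measurable_const.indicator hD))
  · intro z
    unfold MD12.cond
    refine (abs_add_le _ _).trans ?_
    rw [abs_one, abs_mul]
    by_cases hz : z ∈ D
    · rw [Set.indicator_of_mem hz, abs_one, mul_one]
    · rw [Set.indicator_of_notMem hz, abs_zero, mul_zero]
      linarith [abs_nonneg (k - 1)]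

private theorem Pg_K {z₀ b : ℂ} (hb : b ≠ 0) {x y : ℝ} (hx : 0 < x) (hxy : x < y) :
    IsCompact {z | lv z₀ b z ≤ lx b x} ∧ Convex ℝ {z | lv z₀ b z ≤ lx b x} ∧
      {z | lv z₀ b z ≤ lx b x} ⊆ De z₀ b y := by
  have h0 : lx b x < lx b y := (lx_lt hb hx.le (hx.trans hxy).le).2 hxy
  have h1 : {z | lv z₀ b z ≤ lx b x} ⊆ De z₀ b y := fun z hz => lt_of_le_of_lt hz h0
  refine ⟨Metric.isCompact_of_isClosed_isBounded (isClosed_le (lv_cont z₀ b) continuous_const)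
    ((De_bdd z₀ b y).subset h1), ?_, h1⟩
  have h2 := (convexOn_dist (E := ℂ) (z₀ + 2 * b) (convex_univ (𝕜 := ℝ))).add
    (convexOn_dist (z₀ - 2 * b) (convex_univ (𝕜 := ℝ)))
  have h3 := h2.convex_le (lx b x)
  have h4 : {z | lv z₀ b z ≤ lx b x} = {z ∈ (Set.univ : Set ℂ) |
      ((fun z' => dist z' (z₀ + 2 * b)) + fun z' => dist z' (z₀ - 2 * b)) z ≤ lx b x} := by
    ext z
    simp [lv, dist_eq_norm]
  rw [h4]
  exact h3

private theorem Pg_side {Ω : Set ℂ} (hΩo : IsOpen Ω) {k : ℝ} {D K V : Set ℂ} (hDo : IsOpen D)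
    (hDK : D ⊆ K) (hK : IsCompact K) (hKΩ : K ⊆ Ω) (hV : IsOpen V) (hKV : K ⊆ V) {P A : ℂ → ℂ}
    (hP : ∀ z ∈ V, HasDerivAt P (A z) z) (hA : ContinuousOn A K) {e : ℂ} {φ : ℂ → ℝ}
    (h : ∀ w ∈ V, φ w = (e * P w).re) {G : ℂ → ℂ} (hG : MemLp G 2 (volume.restrict Ω)) :
    ∫ w in Ω, (MD12.cond k D w - 1) * fderiv ℝ φ w (G w) =
      (k - 1) * (e * ∫ z in D, G z * A z).re := by
  have hDΩ : D ⊆ Ω := hDK.trans hKΩ
  have hfin : IsFiniteMeasure (volume.restrict D) :=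
    ⟨by rw [Measure.restrict_apply_univ]; exact (hK.isBounded.subset hDK).measure_lt_top⟩
  have hGi : Integrable G (volume.restrict D) :=
    (hG.mono_measure (Measure.restrict_mono hDΩ le_rfl)).integrable (by norm_num)
  obtain ⟨C, hC⟩ := hK.exists_bound_of_continuousOn hA
  have hGA : Integrable (fun z => G z * A z) (volume.restrict D) := by
    have h1 : Integrable (fun z => A z * G z) (volume.restrict D) := by
      refine hGi.bdd_mul (c := C) ((hA.mono hDK).aestronglyMeasurable hDo.measurableSet) ?_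
      filter_upwards [ae_restrict_mem hDo.measurableSet] with w hw
      exact hC w (hDK hw)
    refine h1.congr (Eventually.of_forall fun w => ?_)
    show A w * G w = G w * A w
    ring
  have e1 : ∫ w in Ω, (MD12.cond k D w - 1) * fderiv ℝ φ w (G w) =
      ∫ w in D, (k - 1) * fderiv ℝ φ w (G w) := by
    rw [← integral_indicator hΩo.measurableSet, ← integral_indicator hDo.measurableSet]
    refine integral_congr_ae (Eventually.of_forall fun w => ?_)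
    by_cases hw : w ∈ D
    · simp only [Set.indicator_of_mem hw, Set.indicator_of_mem (hDΩ hw), MD12.cond]
      ring
    · by_cases hw' : w ∈ Ω
      · simp only [Set.indicator_of_notMem hw, Set.indicator_of_mem hw', MD12.cond]
        ring
      · simp only [Set.indicator_of_notMem hw, Set.indicator_of_notMem hw']
  rw [e1, integral_const_mul]
  congr 1
  have h6 := Complex.reCLM.integral_comp_comm (hGA.const_mul e)
  rw [integral_const_mul] at h6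
  refine Eq.trans ?_ h6
  refine setIntegral_congr_fun hDo.measurableSet fun w hw => ?_
  show fderiv ℝ φ w (G w) = (e * (G w * A w)).re
  rw [Pg_d1 hV hP h (hKV (hDK hw))]
  congr 1
  ring

theorem Oid' {Ω : Set ℂ} (hΩo : IsOpen Ω) (hΩb : Bornology.IsBounded Ω) {k : ℝ} (hk1 : k ≠ 1) {z₀ b z₁ c : ℂ} (hb : b ≠ 0) (hc : c ≠ 0)
    {x y x' y' : ℝ} (hx : 0 < x) (hxy : x < y) (hx' : 0 < x') (hxy' : x' < y') (hyΩ : De z₀ b y ⊆ Ω) (hyΩ' : De z₁ c y' ⊆ Ω)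
    {g u₁ u₂ : ℂ → ℝ} {G₁ G₂ : ℂ → ℂ}
    (h₁ : SolvesC Ω (cond k (De z₀ b x)) g u₁ G₁) (h₂ : SolvesC Ω (cond k (De z₁ c x')) g u₂ G₂)
    (ht : SameTrace Ω u₁ u₂ G₁ G₂) {A : ℂ → ℂ} (hA : DifferentiableOn ℂ A (De z₀ b y ∪ De z₁ c y')) :
    ∫ z in De z₀ b x, G₁ z * A z = ∫ z in De z₁ c x', G₂ z * A z := by
  obtain ⟨hK₁, hc₁, hs₁⟩ := Pg_K (z₀ := z₀) hb hx hxy
  obtain ⟨hK₂, hc₂, hs₂⟩ := Pg_K (z₀ := z₁) hc hx' hxy'
  set K₁ : Set ℂ := {z | lv z₀ b z ≤ lx b x} with hK₁d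
  set K₂ : Set ℂ := {z | lv z₁ c z ≤ lx c x'} with hK₂d
  have hD₁ : De z₀ b x ⊆ K₁ := fun z hz => by
    have h3 : lv z₀ b z < lx b x := hz
    have h4 : lv z₀ b z ≤ lx b x := h3.le
    exact h4
  have hD₂ : De z₁ c x' ⊆ K₂ := fun z hz => by
    have h3 : lv z₁ c z < lx c x' := hz
    have h4 : lv z₁ c z ≤ lx c x' := h3.le
    exact h4
  have hK₁Ω : K₁ ⊆ Ω := hs₁.trans hyΩ
  have hK₂Ω : K₂ ⊆ Ω := hs₂.trans hyΩ'
  have hNo : IsOpen (De z₀ b y ∪ De z₁ c y') := (De_open z₀ b y).union (De_open z₁ c y')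
  have hKN : K₁ ∪ K₂ ⊆ De z₀ b y ∪ De z₁ c y' := union_subset_union hs₁ hs₂
  have hWo : IsOpen (K₁ ∪ K₂)ᶜ := (hK₁.isClosed.union hK₂.isClosed).isOpen_compl
  have hu := Zu hΩo hΩb h₁ h₂ ht hWo (Wp hK₁ hK₂ hc₁ hc₂)
    (compl_subset_compl.2 (union_subset hK₁Ω hK₂Ω))
    (fun z hz => by
      unfold MD12.cond
      rw [Set.indicator_of_notMem (fun h => hz (Or.inl (hD₁ h))), mul_zero, add_zero])
    (fun z hz => by
      unfold MD12.cond
      rw [Set.indicator_of_notMem (fun h => hz (Or.inr (hD₂ h))), mul_zero, add_zero])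
  obtain ⟨P, hP⟩ := Pg_prim (De_open z₀ b y) (De_open z₁ c y') (De_convex z₀ b y)
    (De_convex z₁ c y') hA
  have hPd : DifferentiableOn ℂ P (De z₀ b y ∪ De z₁ c y') :=
    fun z hz => (hP z hz).differentiableAt.differentiableWithinAt
  have key : ∀ e : ℂ, (e * ∫ z in De z₀ b x, G₁ z * A z).re =
      (e * ∫ z in De z₁ c x', G₂ z * A z).re := by
    intro e
    obtain ⟨φ, V, hφ, hVo, hKV, hVN, hφV⟩ := Pg_test (hK₁.union hK₂) hNo hKN hPd e
    have hPV : ∀ z ∈ V, HasDerivAt P (A z) z := fun z hz => hP z (hVN hz)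
    have hl : ∀ᵐ w ∂volume.restrict Ω, (u₁ w - u₂ w) * lap φ w = 0 := by
      have h5 : ∀ᵐ w ∂volume, w ∈ (K₁ ∪ K₂)ᶜ ∩ Ω → u₁ w = u₂ w :=
        (ae_restrict_iff' (hWo.inter hΩo).measurableSet).1 hu
      filter_upwards [ae_restrict_of_ae h5, ae_restrict_mem hΩo.measurableSet] with w h6 h7
      by_cases hw : w ∈ K₁ ∪ K₂
      · rw [Pg_lap hVo hPV (hA.mono hVN) hφV (hKV hw), mul_zero]
      · rw [h6 ⟨hw, h7⟩, sub_self, zero_mul]
    obtain ⟨m1, b1⟩ := Pg_cm k (De_open z₀ b x).measurableSet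
    obtain ⟨m2, b2⟩ := Pg_cm k (De_open z₁ c x').measurableSet
    have h3 := Pg_one hΩo m1 m2 b1 b2 h₁ h₂ ht hφ hl
    rw [Pg_side hΩo (De_open z₀ b x) hD₁ hK₁ hK₁Ω hVo (subset_union_left.trans hKV) hPV
        (hA.continuousOn.mono (subset_union_left.trans hKN)) hφV h₁.sob.memG,
      Pg_side hΩo (De_open z₁ c x') hD₂ hK₂ hK₂Ω hVo (subset_union_right.trans hKV) hPV
        (hA.continuousOn.mono (subset_union_right.trans hKN)) hφV h₂.sob.memG] at h3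
    exact mul_left_cancel₀ (sub_ne_zero.2 hk1) h3
  apply Complex.ext
  · have := key 1
    rwa [one_mul, one_mul] at this
  · have h8 := key (-I)
    simp only [neg_mul, Complex.neg_re, Complex.mul_re, Complex.I_re, Complex.I_im, zero_mul,
      one_mul, zero_sub, neg_neg] at h8
    exact h8

theorem Oid {Ω : Set ℂ} (hΩo : IsOpen Ω) (hΩb : Bornology.IsBounded Ω) {k : ℝ} (hk1 : k ≠ 1) {z₀ b z₁ c : ℂ} (hb : b ≠ 0) (hc : c ≠ 0)
    {x y x' y' : ℝ} (hx : 0 < x) (hxy : x < y) (hx' : 0 < x') (hxy' : x' < y') (hyΩ : De z₀ b y ⊆ Ω) (hyΩ' : De z₁ c y' ⊆ Ω)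
    {g u₁ u₂ : ℂ → ℝ} {G₁ G₂ : ℂ → ℂ}
    (h₁ : SolvesC Ω (cond k (De z₀ b x)) g u₁ G₁) (h₂ : SolvesC Ω (cond k (De z₁ c x')) g u₂ G₂)
    (ht : SameTrace Ω u₁ u₂ G₁ G₂) {A : ℂ → ℂ} (hA : DifferentiableOn ℂ A Ω) :
    ∫ z in De z₀ b x, G₁ z * A z = ∫ z in De z₁ c x', G₂ z * A z :=
  Oid' hΩo hΩb hk1 hb hc hx hxy hx' hxy' hyΩ hyΩ' h₁ h₂ ht (hA.mono (union_subset hyΩ hyΩ'))

end EW1
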