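import Pool.Agent.H1.EW.Pb
import Pool.Agent.H1.EW.Fa
import Pool.Agent.H1.EW.D0
import Pool.Agent.H1.ED.Fz
import Pool.Agent.H1.ED.Mo
import Pool.Agent.H1.ED.Dk

/-!
ROW EW/Ph. The identity with the error form.
* `expA`: `A = ∑_{n ≥ 1} (Fc A s n/(2π n)) dC n` on `De y`: `‖Fc A s n‖ ≤ C e^(-nt)` for every `t < y` (`Fc_const_in`, continuity on the curve, as in `Fc_bound`), the sum `A'` is holomorphic with the same `Fc` (`ser`, its proof), so `A = A'` by `Fc_zero`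
  (`Fc_anti` for `n ≤ 0`); uniform convergence on `De x` (`dC_bound`, `x < t < y`), `F` integrable on `De x`: integrate termwise.
* `main_id`: `a = Fc Fi s n`, `mn = Fc m s n`, `α = Fc A s n` (`n ≥ 1`). `expA` and `moment` for `F = Fi` and for `F = m`: `∫ conj F A = ∑ (α/(2πn)) (1/2) conj (Fc F s n) (e^(2nx) - e^(-2nx))`. From `hrel`, `l = (k-1)/(k+1)`:
  `((k+1)/2) a = (mn + l e^(-2nx) conj mn)/(1 - l² e^(-4nx))`, so `((k+1)/2) conj a - conj mn = (l e^(-2nx) mn + l² e^(-4nx) conj mn)/(1 - l² e^(-4nx))`. With `fc_Fc`: `α = 2π (b/r)^n fcA`, `mn = 2π (b/r)^n fcM`, `r = ‖b‖ e^x`,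
  `(b/r)² = μ`, `‖b/r‖² = ‖μ‖ = e^(-2x)` (`mu_norm`): the term is `π rt l μ fcA fcM n`. `De x = Dp ..` (`De_Dp`).
-/

set_option autoImplicit false

namespace EW1

open Complex Set Filter Topology MeasureTheory
open scoped ComplexConjugate ContDiff Real

open ED1

/-- the integral of `e^(k (s+it))` over a period -/
private theorem Ph_int (s : ℝ) (k : ℤ) :
    ∫ t in (0 : ℝ)..(2 * π), exp (k * (s + t * I)) = if k = 0 then (2 * π : ℂ) else 0 := by
  split_ifs with h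
  · subst h
    simp
  · have hk : (k : ℂ) * I ≠ 0 := mul_ne_zero (by exact_mod_cast h) I_ne_zero
    have e : ∀ t : ℝ, exp (k * (s + t * I)) = exp (k * s) * exp ((k : ℂ) * I * t) := by
      intro t
      rw [← Complex.exp_add]
      congr 1
      ring
    simp only [e]
    rw [intervalIntegral.integral_const_mul, integral_exp_mul_complex hk]
    have h2 : exp ((k : ℂ) * I * ((2 * π : ℝ) : ℂ)) = 1 := by
      rw [Complex.exp_eq_one_iff]
      refine ⟨k, ?_⟩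
      push_cast
      ring
    rw [h2]
    simp

private theorem Ph_mem {z₀ b : ℂ} (hb : b ≠ 0) {y s : ℝ} (hs : |s| < y) (t : ℝ) :
    E z₀ b (s + t * I) ∈ De z₀ b y := by
  rw [E_mem_De hb ((abs_nonneg s).trans hs.le)]
  simpa using hs

private theorem Ph_cont {z₀ b : ℂ} (hb : b ≠ 0) {y : ℝ} {F : ℂ → ℂ} (hF : ContinuousOn F (De z₀ b y)) {s : ℝ} (hs : |s| < y)
    (n : ℤ) : Continuous (fun t : ℝ => F (E z₀ b (s + t * I)) * dE b (s + t * I) * exp (-(n * (s + t * I)))) := by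
  have hEc : Continuous (E z₀ b) :=
    continuous_iff_continuousAt.2 fun ζ => (hasDeriv_E z₀ b ζ).continuousAt
  have h1 : Continuous (fun t : ℝ => F (E z₀ b (s + t * I))) :=
    hF.comp_continuous (hEc.comp (by fun_prop)) fun t => Ph_mem hb hs t
  have h2 : Continuous (fun t : ℝ => dE b (s + t * I)) := by
    unfold dE
    fun_prop
  exact (h1.mul h2).mul (by fun_prop)

/-- Fourier integrals of `dC` -/
private theorem Ph_dC {z₀ b : ℂ} (hb : b ≠ 0) (s : ℝ) {j n : ℕ} (hj : 1 ≤ j) (hn : 1 ≤ n) :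
    Fc z₀ b (dC z₀ b j) s (n : ℤ) = if j = n then (2 * π * j : ℂ) else 0 := by
  unfold Fc
  have e : ∀ t : ℝ, dC z₀ b j (E z₀ b (s + t * I)) * dE b (s + t * I) * exp (-(((n : ℤ) : ℂ) * (s + t * I))) =
      (j : ℂ) * exp ((((j : ℤ) - (n : ℤ) : ℤ) : ℂ) * (s + t * I)) -
      (j : ℂ) * exp (((-((j : ℤ) + (n : ℤ)) : ℤ) : ℂ) * (s + t * I)) := by
    intro t
    rw [dC_E hb]
    have h1 : exp ((((j : ℤ) - (n : ℤ) : ℤ) : ℂ) * (s + t * I)) =
        exp (j * (s + t * I)) * exp (-(((n : ℤ) : ℂ) * (s + t * I))) := by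
      rw [← Complex.exp_add]
      congr 1
      push_cast
      ring
    have h2 : exp (((-((j : ℤ) + (n : ℤ)) : ℤ) : ℂ) * (s + t * I)) =
        exp (-(j * (s + t * I))) * exp (-(((n : ℤ) : ℂ) * (s + t * I))) := by
      rw [← Complex.exp_add]
      congr 1
      push_cast
      ring
    rw [h1, h2]
    ring
  have hi : ∀ k : ℤ, IntervalIntegrable (fun t : ℝ => (j : ℂ) * exp ((k : ℂ) * (s + t * I))) volume 0 (2 * π) := by
    intro k
    exact Continuous.intervalIntegrable (by fun_prop) _ _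
  simp only [e]
  rw [intervalIntegral.integral_sub (hi _) (hi _), intervalIntegral.integral_const_mul,
    intervalIntegral.integral_const_mul, Ph_int, Ph_int]
  have h3 : -((j : ℤ) + (n : ℤ)) ≠ 0 := by omega
  rw [if_neg h3, mul_zero, sub_zero]
  by_cases h4 : j = n
  · rw [if_pos h4, if_pos (by omega)]
    ring
  · rw [if_neg h4, if_neg (by omega), mul_zero]

/-- summability of the majorant -/
private theorem Ph_summ {C t s : ℝ} (hst : s < t) :
    Summable (fun n : ℕ => C * ((n + 1 : ℕ) : ℝ) ^ 2 * Real.exp (-(((n + 1 : ℕ) : ℝ) * t)) *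
      Real.exp (((n + 1 : ℕ) : ℝ) * s)) := by
  have hr : ‖Real.exp (-(t - s))‖ < 1 := by
    rw [Real.norm_of_nonneg (Real.exp_pos _).le]
    exact Real.exp_lt_one_iff.2 (by linarith)
  have h1 := (summable_pow_mul_geometric_of_norm_lt_one 2 hr).mul_left C
  have h2 := (summable_nat_add_iff 1).2 h1
  refine h2.congr fun n => ?_
  rw [mul_assoc C, mul_assoc C, mul_assoc (((n + 1 : ℕ) : ℝ) ^ 2), ← Real.exp_add, ← Real.exp_nat_mul]
  congr 3
  ring

/-- the bound of a term -/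
private theorem Ph_term {z₀ b : ℂ} (hb : b ≠ 0) {a : ℂ} {C t s : ℝ} (hs : 0 ≤ s) {n : ℕ}
    (ha : ‖a‖ ≤ C * Real.exp (-(((n + 1 : ℕ) : ℝ) * t))) {z : ℂ} (hz : lv z₀ b z ≤ lx b s) :
    ‖a / (2 * π * (n + 1)) * dC z₀ b (n + 1) z‖ ≤
      C / ‖b‖ * ((n + 1 : ℕ) : ℝ) ^ 2 * Real.exp (-(((n + 1 : ℕ) : ℝ) * t)) * Real.exp (((n + 1 : ℕ) : ℝ) * s) := by
  have hb' : 0 < ‖b‖ := norm_pos_iff.2 hb
  have h1 := dC_bound hb hs (n + 1) hz
  have h2 : ‖(2 * π * (n + 1) : ℂ)‖ = 2 * π * (n + 1) := by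
    have e : (2 * π * (n + 1) : ℂ) = ((2 * π * (n + 1) : ℝ) : ℂ) := by push_cast; ring
    rw [e, Complex.norm_real, Real.norm_of_nonneg (by positivity)]
  have h3 : (1 : ℝ) ≤ 2 * π * (n + 1) := by
    have := Real.pi_gt_three
    have h4 : (0 : ℝ) ≤ n := Nat.cast_nonneg n
    nlinarith
  have h4 : ‖a / (2 * π * (n + 1))‖ ≤ C * Real.exp (-(((n + 1 : ℕ) : ℝ) * t)) := by
    rw [norm_div, h2]
    exact (div_le_self (norm_nonneg _) h3).trans ha
  rw [norm_mul]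
  have h5 : 0 ≤ C * Real.exp (-(((n + 1 : ℕ) : ℝ) * t)) := (norm_nonneg _).trans ha
  calc ‖a / (2 * π * (n + 1))‖ * ‖dC z₀ b (n + 1) z‖ ≤
      (C * Real.exp (-(((n + 1 : ℕ) : ℝ) * t))) * (((n + 1 : ℕ) : ℝ) ^ 2 * Real.exp (((n + 1 : ℕ) : ℝ) * s) / ‖b‖) :=
        mul_le_mul h4 h1 (norm_nonneg _) h5
    _ = _ := by ring

private theorem Ph_dCdiff (z₀ b : ℂ) (n : ℕ) : Differentiable ℂ (dC z₀ b n) := by
  have h1 : Differentiable ℂ (fun z : ℂ => (z - z₀) / b) := by fun_prop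
  have h2 := (Polynomial.differentiable (Polynomial.derivative (Polynomial.Chebyshev.C ℂ (n : ℤ)))).comp h1
  exact h2.div_const b

/-- the series -/
private theorem Ph_ser {z₀ b : ℂ} (hb : b ≠ 0) {y : ℝ} (hy : 0 < y) {a : ℕ → ℂ}
    (ha : ∀ t : ℝ, 0 < t → t < y → ∃ C : ℝ, ∀ n : ℕ, ‖a n‖ ≤ C * Real.exp (-(n * t))) :
    DifferentiableOn ℂ (fun z => ∑' n : ℕ, a (n + 1) / (2 * π * (n + 1)) * dC z₀ b (n + 1) z) (De z₀ b y) ∧
      (∀ (s : ℝ) (n : ℕ), 0 < s → s < y → 1 ≤ n →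
        Fc z₀ b (fun z => ∑' n : ℕ, a (n + 1) / (2 * π * (n + 1)) * dC z₀ b (n + 1) z) s n = a n) ∧
      (∀ s : ℝ, 0 < s → s < y → ∃ u : ℕ → ℝ, Summable u ∧ ∀ (n : ℕ) (z : ℂ), lv z₀ b z ≤ lx b s →
        ‖a (n + 1) / (2 * π * (n + 1)) * dC z₀ b (n + 1) z‖ ≤ u n) := by
  have key : ∀ s : ℝ, 0 < s → s < y → ∃ u : ℕ → ℝ, Summable u ∧ ∀ (n : ℕ) (z : ℂ), lv z₀ b z ≤ lx b s →
        ‖a (n + 1) / (2 * π * (n + 1)) * dC z₀ b (n + 1) z‖ ≤ u n := by
    intro s hs hsy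
    obtain ⟨C, hC⟩ := ha ((s + y) / 2) (by linarith) (by linarith)
    refine ⟨_, Ph_summ (C := C / ‖b‖) (t := (s + y) / 2) (s := s) (by linarith), fun n z hz => ?_⟩
    exact Ph_term hb hs.le (hC (n + 1)) hz
  refine ⟨?_, ?_, key⟩
  · intro z hz
    -- choose a smaller ellipse
    have h1 : ∃ s : ℝ, 0 < s ∧ s < y ∧ z ∈ De z₀ b s := by
      obtain ⟨ζ, h1, -, -, rfl⟩ := exists_E hb z₀ z
      rw [E_mem_De hb hy.le, abs_of_nonneg h1] at hz
      refine ⟨(ζ.re + y) / 2, by linarith, by linarith, ?_⟩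
      rw [E_mem_De hb (by linarith), abs_of_nonneg h1]
      linarith
    obtain ⟨s, hs, hsy, hzs⟩ := h1
    obtain ⟨u, hu, hub⟩ := key s hs hsy
    have h2 := differentiableOn_tsum_of_summable_norm hu
      (F := fun n z => a (n + 1) / (2 * π * (n + 1)) * dC z₀ b (n + 1) z)
      (fun n => ((Ph_dCdiff z₀ b (n + 1)).const_mul _).differentiableOn) (De_open z₀ b s)
      (fun n z hz => hub n z (le_of_lt hz))
    exact (h2.differentiableAt ((De_open z₀ b s).mem_nhds hzs)).differentiableWithinAt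
  · intro s n hs hsy hn
    obtain ⟨u, hu, hub⟩ := key s hs hsy
    have hs' : |s| < y := by rwa [abs_of_pos hs]
    have hlvE : ∀ t : ℝ, lv z₀ b (E z₀ b (s + t * I)) ≤ lx b s := by
      intro t
      rw [lv_E]
      simp
    -- the bound of `dE * exp`
    have hcb : ∃ K : ℝ, ∀ t ∈ Set.Icc (0 : ℝ) (2 * π), ‖dE b (s + t * I) * exp (-(((n : ℤ) : ℂ) * (s + t * I)))‖ ≤ K := by
      have hc : Continuous (fun t : ℝ => dE b (s + t * I) * exp (-(((n : ℤ) : ℂ) * (s + t * I)))) := by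
        unfold dE
        fun_prop
      exact (isCompact_Icc (a := (0 : ℝ)) (b := 2 * π)).exists_bound_of_continuousOn hc.continuousOn
    obtain ⟨K, hK⟩ := hcb
    have h3 := intervalIntegral.hasSum_integral_of_dominated_convergence (μ := volume) (a := (0 : ℝ)) (b := 2 * π)
      (F := fun (j : ℕ) (t : ℝ) => (a (j + 1) / (2 * π * (j + 1)) * dC z₀ b (j + 1) (E z₀ b (s + t * I))) *
        dE b (s + t * I) * exp (-(((n : ℤ) : ℂ) * (s + t * I))))
      (f := fun t : ℝ => (∑' j : ℕ, a (j + 1) / (2 * π * (j + 1)) * dC z₀ b (j + 1) (E z₀ b (s + t * I))) *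
        dE b (s + t * I) * exp (-(((n : ℤ) : ℂ) * (s + t * I))))
      (fun j _ => u j * K) ?_ ?_ ?_ ?_ ?_
    · have h4 : ∀ j : ℕ, (∫ t in (0 : ℝ)..(2 * π), (a (j + 1) / (2 * π * (j + 1)) * dC z₀ b (j + 1) (E z₀ b (s + t * I))) *
          dE b (s + t * I) * exp (-(((n : ℤ) : ℂ) * (s + t * I)))) = if j = n - 1 then a n else 0 := by
        intro j
        have h5 := Ph_dC (z₀ := z₀) hb s (j := j + 1) (n := n) (by omega) hn
        unfold Fc at h5
        have e : ∀ t : ℝ, (a (j + 1) / (2 * π * (j + 1)) * dC z₀ b (j + 1) (E z₀ b (s + t * I))) *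
          dE b (s + t * I) * exp (-(((n : ℤ) : ℂ) * (s + t * I))) = a (j + 1) / (2 * π * (j + 1)) *
            (dC z₀ b (j + 1) (E z₀ b (s + t * I)) * dE b (s + t * I) * exp (-(((n : ℤ) : ℂ) * (s + t * I)))) := by
          intro t
          ring
        simp only [e]
        rw [intervalIntegral.integral_const_mul, h5]
        by_cases h6 : j = n - 1
        · rw [if_pos h6, if_pos (by omega)]
          have h7 : j + 1 = n := by omega
          rw [h7]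
          have h8 : (2 * π * ((j : ℂ) + 1)) ≠ 0 := by
            have : ((2 * π * ((j : ℝ) + 1) : ℝ) : ℂ) ≠ 0 := by
              rw [Ne, Complex.ofReal_eq_zero]
              positivity
            push_cast at this
            exact this
          have h9 : ((j + 1 : ℕ) : ℂ) = j + 1 := by push_cast; ring
          rw [← h7, h9, div_mul_cancel₀ _ h8]
        · rw [if_neg h6, if_neg (by omega), mul_zero]
      simp only [h4] at h3
      exact h3.unique (hasSum_ite_eq (n - 1) (a n)) |>.trans rfl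
    · intro j
      refine Continuous.aestronglyMeasurable ?_
      exact Ph_cont hb (y := y) (F := fun z => a (j + 1) / (2 * π * (j + 1)) * dC z₀ b (j + 1) z)
        ((Ph_dCdiff z₀ b (j + 1)).const_mul _).continuous.continuousOn hs' n
    · intro j
      refine Eventually.of_forall fun t ht => ?_
      rw [Set.uIoc_of_le (by positivity)] at ht
      rw [mul_assoc, norm_mul]
      have h5 := hub j _ (hlvE t)
      have h6 := hK t ⟨ht.1.le, ht.2⟩
      exact mul_le_mul h5 h6 (norm_nonneg _) ((norm_nonneg _).trans h5)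
    · exact Eventually.of_forall fun t _ => hu.mul_right K
    · exact intervalIntegrable_const
    · refine Eventually.of_forall fun t _ => ?_
      have h5 : Summable (fun j : ℕ => a (j + 1) / (2 * π * (j + 1)) * dC z₀ b (j + 1) (E z₀ b (s + t * I))) :=
        Summable.of_norm_bounded hu fun j => hub j _ (hlvE t)
      exact (h5.hasSum.mul_right _).mul_right _

private theorem Ph_Fc_sub {z₀ b : ℂ} (hb : b ≠ 0) {y : ℝ} {F G : ℂ → ℂ} (hF : ContinuousOn F (De z₀ b y))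
    (hG : ContinuousOn G (De z₀ b y)) {s : ℝ} (hs : |s| < y) (n : ℤ) :
    Fc z₀ b (fun z => F z - G z) s n = Fc z₀ b F s n - Fc z₀ b G s n := by
  unfold Fc
  rw [← intervalIntegral.integral_sub ((Ph_cont hb hF hs n).intervalIntegrable _ _)
    ((Ph_cont hb hG hs n).intervalIntegrable _ _)]
  refine intervalIntegral.integral_congr fun t _ => ?_
  ring

/-- a holomorphic function with vanishing Fourier integrals for `n ≥ 1` is zero -/
private theorem Ph_zero {z₀ b : ℂ} (hb : b ≠ 0) {y : ℝ} (hy : 0 < y) {F : ℂ → ℂ} (hF : DifferentiableOn ℂ F (De z₀ b y))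
    (h : ∀ (s : ℝ) (n : ℕ), 0 < s → s < y → 1 ≤ n → Fc z₀ b F s n = 0) : ∀ z ∈ De z₀ b y, F z = 0 := by
  refine Fc_zero hb hy hF fun s m hs hsy => ?_
  have hs' : |s| < y := by rwa [abs_of_pos hs]
  rcases lt_trichotomy m 0 with hm | hm | hm
  · obtain ⟨n, hn⟩ : ∃ n : ℕ, m = -((n + 1 : ℕ) : ℤ) := ⟨(-m - 1).toNat, by push_cast; omega⟩
    rw [hn, Fc_anti hb hF _ hs', h s (n + 1) hs hsy (by omega), neg_zero]
  · have h2 := Fc_anti (z₀ := z₀) hb hF (0 : ℤ) hs'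
    rw [neg_zero] at h2
    rw [hm]
    exact self_eq_neg.1 h2
  · obtain ⟨n, hn⟩ : ∃ n : ℕ, m = ((n + 1 : ℕ) : ℤ) := ⟨(m - 1).toNat, by push_cast; omega⟩
    rw [hn, h s (n + 1) hs hsy (by omega)]

private theorem Ph_An_sub {z₀ b : ℂ} {x y : ℝ} : An z₀ b x y ⊆ De z₀ b y := fun _ hz => hz.2

/-- the expansion of `A` in the ellipse -/
private theorem Ph_exp {z₀ b : ℂ} (hb : b ≠ 0) {y : ℝ} (hy : 0 < y) {A : ℂ → ℂ} (hA : DifferentiableOn ℂ A (De z₀ b y))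
    {s : ℝ} (hs : 0 < s ∧ s < y) :
    (∀ z ∈ De z₀ b y, A z = ∑' n : ℕ, Fc z₀ b A s (n + 1 : ℕ) / (2 * π * (n + 1)) * dC z₀ b (n + 1) z) ∧
      (∀ t : ℝ, 0 < t → t < y → ∃ u : ℕ → ℝ, Summable u ∧ ∀ (n : ℕ) (z : ℂ), lv z₀ b z ≤ lx b t →
        ‖Fc z₀ b A s (n + 1 : ℕ) / (2 * π * (n + 1)) * dC z₀ b (n + 1) z‖ ≤ u n) := by
  have hs' : |s| < y := by rw [abs_of_pos hs.1]; exact hs.2
  have ha : ∀ t : ℝ, 0 < t → t < y → ∃ C : ℝ, ∀ n : ℕ, ‖Fc z₀ b A s (n : ℤ)‖ ≤ C * Real.exp (-(n * t)) := by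
    intro t ht hty
    obtain ⟨C, hC⟩ := Fc_bound hb le_rfl (hA.mono (Ph_An_sub (x := 0))) ⟨ht, hty⟩
    refine ⟨C, fun n => ?_⟩
    rw [Fc_const_in hb hA n hs' (by rwa [abs_of_pos ht])]
    have := hC (n : ℤ)
    rw [Int.cast_natCast] at this
    exact this
  obtain ⟨h1, h2, h3⟩ := Ph_ser hb hy ha
  refine ⟨?_, h3⟩
  intro z hz
  have h4 := Ph_zero hb hy (hA.sub h1) (by
    intro t n ht hty hn
    have ht' : |t| < y := by rwa [abs_of_pos ht]
    have h5 := Ph_Fc_sub hb hA.continuousOn h1.continuousOn ht' n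
    have h6 := h2 t n ht hty hn
    rw [h6, Fc_const_in hb hA n ht' hs', sub_self] at h5
    exact h5) z hz
  exact sub_eq_zero.1 h4

theorem expA {z₀ b : ℂ} (hb : b ≠ 0) {x y : ℝ} (hx : 0 < x) (hxy : x < y) {F A : ℂ → ℂ} (hF : DifferentiableOn ℂ F (De z₀ b x))
    (hF2 : MemLp F 2 (volume.restrict (De z₀ b x))) (hA : DifferentiableOn ℂ A (De z₀ b y)) {s : ℝ} (hs : 0 < s ∧ s < x) :
    HasSum (fun n : ℕ => Fc z₀ b A s (n + 1 : ℕ) / (2 * π * (n + 1)) * ∫ z in De z₀ b x, conj (F z) * dC z₀ b (n + 1) z)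
      (∫ z in De z₀ b x, conj (F z) * A z) := by
  have hy : 0 < y := hx.trans hxy
  obtain ⟨h1, h2⟩ := Ph_exp hb hy hA ⟨hs.1, hs.2.trans hxy⟩
  obtain ⟨u, hu, hub⟩ := h2 x hx hxy
  have hsub : De z₀ b x ⊆ De z₀ b y := fun z hz => lt_trans hz ((lx_lt hb hx.le hy.le).2 hxy)
  have hfin : IsFiniteMeasure (volume.restrict (De z₀ b x)) :=
    ⟨by rw [Measure.restrict_apply_univ]; exact (De_bdd z₀ b x).measure_lt_top⟩
  have hF1 : Integrable F (volume.restrict (De z₀ b x)) := hF2.integrable one_le_two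
  have hmeas : MeasurableSet (De z₀ b x) := (De_open z₀ b x).measurableSet
  have hFm : AEStronglyMeasurable (fun z => conj (F z)) (volume.restrict (De z₀ b x)) :=
    continuous_conj.comp_aestronglyMeasurable hF1.aestronglyMeasurable
  have h3 := hasSum_integral_of_dominated_convergence (μ := volume.restrict (De z₀ b x))
    (F := fun (n : ℕ) (z : ℂ) => conj (F z) * (Fc z₀ b A s (n + 1 : ℕ) / (2 * π * (n + 1)) * dC z₀ b (n + 1) z))
    (f := fun z => conj (F z) * A z) (fun n z => ‖F z‖ * u n) ?_ ?_ ?_ ?_ ?_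
  · refine h3.congr_fun fun n => ?_
    rw [← integral_const_mul]
    refine integral_congr_ae (Eventually.of_forall fun z => ?_)
    show _ * (conj (F z) * dC z₀ b (n + 1) z) = conj (F z) * (_ * dC z₀ b (n + 1) z)
    ring
  · intro n
    exact hFm.mul (((Ph_dCdiff z₀ b (n + 1)).const_mul _).continuous.aestronglyMeasurable)
  · intro n
    refine (ae_restrict_iff' hmeas).2 (Eventually.of_forall fun z hz => ?_)
    rw [norm_mul, RCLike.norm_conj]
    exact mul_le_mul_of_nonneg_left (hub n z (le_of_lt hz)) (norm_nonneg _)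
  · exact Eventually.of_forall fun z => hu.mul_left _
  · simp only [tsum_mul_left]
    exact hF1.norm.mul_const _
  · refine (ae_restrict_iff' hmeas).2 (Eventually.of_forall fun z hz => ?_)
    have h5 : Summable (fun n : ℕ => Fc z₀ b A s (n + 1 : ℕ) / (2 * π * (n + 1)) * dC z₀ b (n + 1) z) :=
      Summable.of_norm_bounded hu fun n => hub n z (le_of_lt hz)
    have h6 := h5.hasSum
    rw [← h1 z (hsub hz)] at h6
    exact h6.mul_left _

/-- square integrability in the smaller ellipse -/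
private theorem Ph_mem2 {z₀ b : ℂ} (hb : b ≠ 0) {x y : ℝ} (hx : 0 < x) (hxy : x < y) {m : ℂ → ℂ}
    (hm : DifferentiableOn ℂ m (De z₀ b y)) : MemLp m 2 (volume.restrict (De z₀ b x)) := by
  have hy : 0 < y := hx.trans hxy
  have hK : IsCompact {z | lv z₀ b z ≤ lx b x} := by
    refine Metric.isCompact_of_isClosed_isBounded (isClosed_le (lv_cont z₀ b) continuous_const) ?_
    refine (De_bdd z₀ b y).subset fun z hz => ?_
    exact lt_of_le_of_lt hz ((lx_lt hb hx.le hy.le).2 hxy)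
  have hsub : {z | lv z₀ b z ≤ lx b x} ⊆ De z₀ b y := fun z hz =>
    lt_of_le_of_lt hz ((lx_lt hb hx.le hy.le).2 hxy)
  obtain ⟨C, hC⟩ := hK.exists_bound_of_continuousOn (hm.continuousOn.mono hsub)
  have hmeas : MeasurableSet (De z₀ b x) := (De_open z₀ b x).measurableSet
  have hfin : IsFiniteMeasure (volume.restrict (De z₀ b x)) :=
    ⟨by rw [Measure.restrict_apply_univ]; exact (De_bdd z₀ b x).measure_lt_top⟩
  have hs2 : De z₀ b x ⊆ {z | lv z₀ b z ≤ lx b x} := fun z hz => by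
    have h1 : lv z₀ b z < lx b x := hz
    exact h1.le
  refine MemLp.of_bound ?_ C ?_
  · exact (hm.continuousOn.mono (hs2.trans hsub)).aestronglyMeasurable hmeas
  · exact (ae_restrict_iff' hmeas).2 (Eventually.of_forall fun z hz => hC z (hs2 hz))

/-- the algebra of one term -/
private theorem Ph_alg {k q : ℝ} (hk : 0 < k) (hq0 : 0 < q) (hq1 : q < 1) {a mn α : ℂ} {N : ℂ} (hN : N ≠ 0)
    (h : 2 * mn = (k + 1) * a - (k - 1) * conj a * (q : ℂ)) :
    ((k + 1 : ℝ) : ℂ) / 2 * (α / (2 * π * N) * (1 / 2 * conj a * ((1 / q - q : ℝ) : ℂ))) -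
      α / (2 * π * N) * (1 / 2 * conj mn * ((1 / q - q : ℝ) : ℂ)) =
    (1 - (q : ℂ) ^ 2) * α * ((((k - 1) / (k + 1) : ℝ) : ℂ) * mn + (((k - 1) / (k + 1) : ℝ) : ℂ) ^ 2 * q * conj mn) /
      (4 * π * N * (1 - (((k - 1) / (k + 1) : ℝ) : ℂ) ^ 2 * (q : ℂ) ^ 2)) := by
  have hk1 : (k + 1 : ℝ) ≠ 0 := by positivity
  have hk1c : ((k : ℂ) + 1) ≠ 0 := by exact_mod_cast hk1
  have hqc : (q : ℂ) ≠ 0 := by exact_mod_cast hq0.ne'
  have hpi : (π : ℂ) ≠ 0 := by exact_mod_cast Real.pi_pos.ne'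
  have hconj : 2 * conj mn = (k + 1) * conj a - (k - 1) * a * (q : ℂ) := by
    have h2 := congrArg conj h
    simp only [map_mul, map_sub, map_add, Complex.conj_ofReal, Complex.conj_conj, map_one, map_ofNat] at h2
    exact h2
  obtain ⟨l, hl⟩ : ∃ l : ℝ, l = (k - 1) / (k + 1) := ⟨_, rfl⟩
  have hlk : l * (k + 1) = k - 1 := by rw [hl]; field_simp
  have hlkc : (l : ℂ) * (k + 1) = k - 1 := by exact_mod_cast hlk
  have hX : 1 - l ^ 2 * q ^ 2 ≠ 0 := by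
    have h1 : q ^ 2 < 1 := by nlinarith
    have h2 : l ^ 2 ≤ 1 := by
      have h3 : l ^ 2 * (k + 1) ^ 2 = (k - 1) ^ 2 := by rw [← hlk]; ring
      have h4 : (k - 1) ^ 2 ≤ 1 * (k + 1) ^ 2 := by nlinarith
      rw [← h3] at h4
      exact le_of_mul_le_mul_right h4 (by positivity)
    have h5 : l ^ 2 * q ^ 2 ≤ 1 * q ^ 2 := mul_le_mul_of_nonneg_right h2 (sq_nonneg q)
    intro h6
    linarith
  have hXc : 1 - (l : ℂ) ^ 2 * (q : ℂ) ^ 2 ≠ 0 := by exact_mod_cast hX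
  rw [← hl]
  have key : (l : ℂ) * mn + (l : ℂ) ^ 2 * q * conj mn = (k - 1) / 2 * a * (1 - (l : ℂ) ^ 2 * (q : ℂ) ^ 2) := by
    linear_combination (l : ℂ) / 2 * h + (l : ℂ) ^ 2 * q / 2 * hconj + (a / 2 - conj a * q * l / 2 +
      conj a * q * l / 2) * hlkc + (-(conj a * q * l) / 2 + conj a * q * l) * hlkc
  rw [key]
  obtain ⟨X, hXd⟩ : ∃ X : ℂ, X = 1 - (l : ℂ) ^ 2 * (q : ℂ) ^ 2 := ⟨_, rfl⟩
  rw [← hXd] at hXc ⊢
  have hcm : conj mn = ((k + 1) * conj a - (k - 1) * a * (q : ℂ)) / 2 := by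
    rw [← hconj]
    ring
  rw [hcm]
  push_cast
  field_simp
  ring

private theorem Ph_alg2 {q : ℝ} (hq : 0 < q) {α mn l N X μn R1 : ℂ} (hN : N ≠ 0) (hX : X ≠ 0)
    (e2 : μn * R1 * R1 = 1) (e3 : R1 * conj R1 = ((1 / q : ℝ) : ℂ)) :
    π * ((1 - (q : ℂ) ^ 2) * (R1 * α / (2 * π)) * (l * μn * (R1 * mn / (2 * π)) +
      l ^ 2 * (q : ℂ) ^ 2 * conj (R1 * mn / (2 * π))) / (N * X)) =
      (1 - (q : ℂ) ^ 2) * α * (l * mn + l ^ 2 * q * conj mn) / (4 * π * N * X) := by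
  have hqc : (q : ℂ) ≠ 0 := by exact_mod_cast hq.ne'
  have hpi : (π : ℂ) ≠ 0 := by exact_mod_cast Real.pi_pos.ne'
  have e3' : R1 * conj R1 * q = 1 := by
    rw [e3]
    push_cast
    field_simp
  have h1 : conj (R1 * mn / (2 * π)) = conj R1 * conj mn / (2 * π) := by
    rw [map_div₀, map_mul, map_mul, Complex.conj_ofReal, map_ofNat]
  rw [h1]
  have h2 : π * ((1 - (q : ℂ) ^ 2) * (R1 * α / (2 * π)) * (l * μn * (R1 * mn / (2 * π)) +
      l ^ 2 * (q : ℂ) ^ 2 * (conj R1 * conj mn / (2 * π))) / (N * X)) =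
      (1 - (q : ℂ) ^ 2) * α * (l * (μn * R1 * R1) * mn + l ^ 2 * q * (R1 * conj R1 * q) * conj mn) / (4 * π * N * X) := by
    field_simp
    ring
  rw [h2, e2, e3', mul_one, mul_one]

theorem main_id {z₀ b : ℂ} (hb : b ≠ 0) {k x y : ℝ} (hk : 0 < k) (hx : 0 < x) (hxy : x < y) {Fi m A : ℂ → ℂ}
    (hFi : DifferentiableOn ℂ Fi (De z₀ b x)) (hFi2 : MemLp Fi 2 (volume.restrict (De z₀ b x)))
    (hm : DifferentiableOn ℂ m (De z₀ b y)) (hA : DifferentiableOn ℂ A (De z₀ b y))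
    (hrel : ∀ (n : ℕ) (s : ℝ), 1 ≤ n → 0 < s → s < x →
      2 * Fc z₀ b m s n = (k + 1) * Fc z₀ b Fi s n - (k - 1) * conj (Fc z₀ b Fi s n) * exp (-(2 * n * x)))
    {ρ : ℝ} (hρ : Real.exp (-x) < ρ ∧ ρ < 1) :
    ((k + 1 : ℝ) : ℂ) / 2 * ∫ z in De z₀ b x, conj (Fi z) * A z = (∫ z in De z₀ b x, conj (m z) * A z) +
      RR z₀ (‖b‖ * Real.exp x) (b ^ 2 / ((‖b‖ * Real.exp x : ℝ) : ℂ) ^ 2) ((k - 1) / (k + 1)) A m ρ := by
  have hy : 0 < y := hx.trans hxy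
  have hsub : De z₀ b x ⊆ De z₀ b y := fun z hz => lt_trans hz ((lx_lt hb hx.le hy.le).2 hxy)
  have hs : 0 < x / 2 ∧ x / 2 < x := ⟨by linarith, by linarith⟩
  have hm2 := Ph_mem2 hb hx hxy hm
  have hmx := hm.mono hsub
  have hAx := hA.mono hsub
  have H1 := expA hb hx hxy hFi hFi2 hA hs
  have H2 := expA hb hx hxy hmx hm2 hA hs
  have H := (H1.mul_left (((k + 1 : ℝ) : ℂ) / 2)).sub H2
  obtain ⟨r, hr⟩ : ∃ r : ℝ, r = ‖b‖ * Real.exp x := ⟨_, rfl⟩
  obtain ⟨μ, hμ⟩ : ∃ μ : ℂ, μ = b ^ 2 / (r : ℂ) ^ 2 := ⟨_, rfl⟩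
  obtain ⟨l, hl⟩ : ∃ l : ℝ, l = (k - 1) / (k + 1) := ⟨_, rfl⟩
  have hnb : 0 < ‖b‖ := norm_pos_iff.2 hb
  have hrp : 0 < r := by rw [hr]; exact mul_pos hnb (Real.exp_pos x)
  have hrc : (r : ℂ) ≠ 0 := by exact_mod_cast hrp.ne'
  have hμn : ‖μ‖ = Real.exp (-(2 * x)) := by rw [hμ, hr]; exact mu_norm hb x
  have hterm : ∀ n : ℕ, ((k + 1 : ℝ) : ℂ) / 2 * (Fc z₀ b A (x / 2) (n + 1 : ℕ) / (2 * π * (n + 1)) *
      ∫ z in De z₀ b x, conj (Fi z) * dC z₀ b (n + 1) z) -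
      Fc z₀ b A (x / 2) (n + 1 : ℕ) / (2 * π * (n + 1)) * ∫ z in De z₀ b x, conj (m z) * dC z₀ b (n + 1) z =
      π * rt l μ (fc z₀ r μ A ρ (n + 1)) (fc z₀ r μ m ρ (n + 1)) (n + 1) := by
    intro n
    rw [moment hb hx hFi hFi2 (Nat.succ_le_succ (Nat.zero_le n)) hs,
      moment hb hx hmx hm2 (Nat.succ_le_succ (Nat.zero_le n)) hs]
    have hf1 := fc_Fc z₀ hb hx hAx (n + 1) hs hρ
    have hf2 := fc_Fc z₀ hb hx hmx (n + 1) hs hρ
    rw [← hr, ← hμ] at hf1 hf2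
    rw [hf1, hf2]
    have hrl := hrel (n + 1) (x / 2) (by omega) hs.1 hs.2
    obtain ⟨q, hq⟩ : ∃ q : ℝ, q = Real.exp (-(2 * ((n + 1 : ℕ) : ℝ) * x)) := ⟨_, rfl⟩
    have hq0 : 0 < q := by rw [hq]; exact Real.exp_pos _
    have hn0 : (0 : ℝ) < ((n + 1 : ℕ) : ℝ) := by positivity
    have hq1 : q < 1 := by
      rw [hq]
      refine Real.exp_lt_one_iff.2 ?_
      have : 0 < 2 * ((n + 1 : ℕ) : ℝ) * x := by positivity
      linarith
    have hqi : Real.exp (2 * ((n + 1 : ℕ) : ℝ) * x) = 1 / q := by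
      rw [hq, Real.exp_neg, one_div, inv_inv]
    have hqc : exp (-(2 * ((n + 1 : ℕ) : ℂ) * (x : ℂ))) = ((q : ℝ) : ℂ) := by
      rw [hq]
      push_cast
      rfl
    rw [hqc] at hrl
    rw [hqi, ← hq]
    have hN : (2 * π * ((n : ℂ) + 1)) = 2 * π * ((n + 1 : ℕ) : ℂ) := by push_cast; ring
    rw [hN]
    have hNc : ((n + 1 : ℕ) : ℂ) ≠ 0 := by exact_mod_cast (Nat.succ_ne_zero n)
    rw [Ph_alg hk hq0 hq1 hNc hrl, ← hl]
    unfold rt
    have hμq : ‖μ‖ ^ (2 * (n + 1)) = q ^ 2 := by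
      rw [hμn, hq, ← Real.exp_nat_mul, ← Real.exp_nat_mul]
      congr 1
      push_cast
      ring
    have hμqc : (‖μ‖ : ℂ) ^ (2 * (n + 1)) = (q : ℂ) ^ 2 := by exact_mod_cast hμq
    rw [hμq, hμqc]
    have e2 : μ ^ (n + 1) * ((r : ℂ) / b) ^ (n + 1) * ((r : ℂ) / b) ^ (n + 1) = 1 := by
      rw [← mul_pow, ← mul_pow, hμ]
      have : b ^ 2 / (r : ℂ) ^ 2 * (r / b) * (r / b) = 1 := by
        field_simp
      rw [this, one_pow]
    have e3 : ((r : ℂ) / b) ^ (n + 1) * conj (((r : ℂ) / b) ^ (n + 1)) = ((1 / q : ℝ) : ℂ) := by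
      rw [Complex.mul_conj, Complex.normSq_eq_norm_sq, norm_pow, norm_div, Complex.norm_real, Real.norm_of_nonneg hrp.le]
      have h5 : r / ‖b‖ = Real.exp x := by
        rw [hr]
        field_simp
      rw [h5, ← hqi, ← Real.exp_nat_mul, ← Real.exp_nat_mul]
      congr 2
      push_cast
      ring
    have hl2 : l ^ 2 ≤ 1 := by
      have hlk : l * (k + 1) = k - 1 := by rw [hl]; field_simp
      have h3 : l ^ 2 * (k + 1) ^ 2 = (k - 1) ^ 2 := by rw [← hlk]; ring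
      have h4 : (k - 1) ^ 2 ≤ 1 * (k + 1) ^ 2 := by nlinarith
      rw [← h3] at h4
      exact le_of_mul_le_mul_right h4 (by positivity)
    have hX : 1 - l ^ 2 * q ^ 2 ≠ 0 := by
      have h1 : q ^ 2 < 1 := by nlinarith
      have h5 : l ^ 2 * q ^ 2 ≤ 1 * q ^ 2 := mul_le_mul_of_nonneg_right hl2 (sq_nonneg q)
      intro h6
      linarith
    have hXc : 1 - (l : ℂ) ^ 2 * (q : ℂ) ^ 2 ≠ 0 := by exact_mod_cast hX
    have hfin := Ph_alg2 hq0 (α := Fc z₀ b A (x / 2) (n + 1 : ℕ)) (mn := Fc z₀ b m (x / 2) (n + 1 : ℕ)) (l := (l : ℂ))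
      hNc hXc e2 e3
    rw [← hfin]
    have c1 : ((1 - q ^ 2 : ℝ) : ℂ) = 1 - (q : ℂ) ^ 2 := by push_cast; rfl
    have c2 : ((1 - l ^ 2 * q ^ 2 : ℝ) : ℂ) = 1 - (l : ℂ) ^ 2 * (q : ℂ) ^ 2 := by push_cast; rfl
    rw [c1, c2]
  have HR := H.congr_fun (fun n => (hterm n).symm)
  have hRR : RR z₀ r μ l A m ρ = ((k + 1 : ℝ) : ℂ) / 2 * (∫ z in De z₀ b x, conj (Fi z) * A z) -
      ∫ z in De z₀ b x, conj (m z) * A z := by
    unfold RR
    rw [← tsum_mul_left]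
    exact HR.tsum_eq
  rw [← hr, ← hμ, ← hl, hRR]
  ring

/-- if the background field vanishes, so does the inner field -/
theorem main_zero {z₀ b : ℂ} (hb : b ≠ 0) {k x : ℝ} (hk : 0 < k) (hx : 0 < x) {Fi m : ℂ → ℂ}
    (hFi : DifferentiableOn ℂ Fi (De z₀ b x)) (h0 : ∀ z ∈ De z₀ b x, m z = 0)
    (hrel : ∀ (n : ℕ) (s : ℝ), 1 ≤ n → 0 < s → s < x →
      2 * Fc z₀ b m s n = (k + 1) * Fc z₀ b Fi s n - (k - 1) * conj (Fc z₀ b Fi s n) * exp (-(2 * n * x))) :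
    ∀ z ∈ De z₀ b x, Fi z = 0 := by
  refine Ph_zero hb hx hFi fun s n hs hsx hn => ?_
  have hs' : |s| < x := by rwa [abs_of_pos hs]
  have h1 : Fc z₀ b m s n = 0 := by
    unfold Fc
    have e : ∀ t : ℝ, m (E z₀ b (s + t * I)) * dE b (s + t * I) * exp (-(((n : ℤ) : ℂ) * (s + t * I))) = 0 := by
      intro t
      rw [h0 _ (Ph_mem hb hs' t)]
      ring
    simp only [e]
    simp
  have h2 := hrel n s hn hs hsx
  rw [h1, mul_zero] at h2
  set a := Fc z₀ b Fi s (n : ℤ) with ha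
  have h3 : ((k : ℂ) + 1) * a = (k - 1) * conj a * exp (-(2 * n * x)) := (sub_eq_zero.1 h2.symm)
  have h4 := congrArg norm h3
  rw [norm_mul, norm_mul, norm_mul, RCLike.norm_conj] at h4
  have e1 : ‖((k : ℂ) + 1)‖ = k + 1 := by
    rw [show ((k : ℂ) + 1) = ((k + 1 : ℝ) : ℂ) by push_cast; ring, Complex.norm_real, Real.norm_eq_abs,
      abs_of_pos (by linarith)]
  have e2 : ‖((k : ℂ) - 1)‖ = |k - 1| := by
    rw [show ((k : ℂ) - 1) = ((k - 1 : ℝ) : ℂ) by push_cast; ring, Complex.norm_real, Real.norm_eq_abs]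
  have e3 : ‖exp (-(2 * (n : ℂ) * x))‖ ≤ 1 := by
    rw [Complex.norm_exp, Real.exp_le_one_iff]
    have e : (-(2 * (n : ℂ) * x)).re = -(2 * n * x) := by
      simp
    rw [e]
    have : 0 ≤ 2 * (n : ℝ) * x := by positivity
    linarith
  rw [e1, e2] at h4
  have h5 : |k - 1| < k + 1 := by
    rw [abs_lt]
    constructor <;> linarith
  have h6 : |k - 1| * ‖a‖ * ‖exp (-(2 * (n : ℂ) * x))‖ ≤ |k - 1| * ‖a‖ * 1 :=
    mul_le_mul_of_nonneg_left e3 (by positivity)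
  rw [← h4, mul_one] at h6
  by_contra hne
  have h7 : 0 < ‖a‖ := norm_pos_iff.2 hne
  have h8 : |k - 1| * ‖a‖ < (k + 1) * ‖a‖ := mul_lt_mul_of_pos_right h5 h7
  linarith

end EW1
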