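import Pool.Agent.H1.EW.Gm
import Pool.Agent.H1.EW.Fe

/-!
# EW: the analytic core: no two ellipses of the parameter set satisfy the identity, for small `l`
-/

set_option autoImplicit false

namespace EW1

open Complex Set Filter Topology MeasureTheory
open scoped ComplexConjugate ContDiff Real

theorem dd_symm (c₁ : ℂ) (r₁ : ℝ) (μ₁ c₂ : ℂ) (r₂ : ℝ) (μ₂ : ℂ) : dd c₁ r₁ μ₁ c₂ r₂ μ₂ = dd c₂ r₂ μ₂ c₁ r₁ μ₁ := by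
  unfold dd
  rw [norm_sub_rev c₁ c₂, abs_sub_comm r₁ r₂, norm_sub_rev μ₁ μ₂]

/-- the identity which two solutions with the same data satisfy -/
def Idn (c₁ : ℂ) (r₁ : ℝ) (μ₁ c₂ : ℂ) (r₂ : ℝ) (μ₂ : ℂ) (l ρ : ℝ) (A m : ℂ → ℂ) : Prop :=
  (∫ z in Dp c₁ r₁ μ₁ 1, conj (m z) * A z) + RR c₁ r₁ μ₁ l A m ρ =
    (∫ z in Dp c₂ r₂ μ₂ 1, conj (m z) * A z) + RR c₂ r₂ μ₂ l A m ρ

theorem core_thm {r₀ R μ₀ ρ : ℝ} (hr₀ : 0 < r₀) (hR : r₀ ≤ R) (h0 : 0 ≤ μ₀) (h1 : μ₀ < ρ ^ 2) (hρ : 0 < ρ) (hρ1 : ρ < 1) :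
    ∃ ε : ℝ, 0 < ε ∧ ∀ (c₁ : ℂ) (r₁ : ℝ) (μ₁ c₂ : ℂ) (r₂ : ℝ) (μ₂ : ℂ), PS r₀ R μ₀ c₁ r₁ μ₁ → PS r₀ R μ₀ c₂ r₂ μ₂ →
      0 < dd c₁ r₁ μ₁ c₂ r₂ μ₂ → μ₁ ≠ 0 → μ₂ ≠ 0 → ∀ l : ℝ, |l| < ε →
      ∀ (N : Set ℂ) (m : ℂ → ℂ), IsOpen N → {z | ‖vv c₁ r₁ μ₁ z‖ ≤ 1} ⊆ N → {z | ‖vv c₂ r₂ μ₂ z‖ ≤ 1} ⊆ N →
      DifferentiableOn ℂ m N →
      Idn c₁ r₁ μ₁ c₂ r₂ μ₂ l ρ (fun z => aa c₁ r₁ μ₁ c₂ r₂ μ₂ z * m z) m →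
      ∀ z ∈ Dp c₁ r₁ μ₁ 1, m z = 0 := by
  have hμ1 : μ₀ < 1 := h1.trans (by nlinarith)
  set σ₀ : ℝ := (ρ ^ 2 + μ₀) / (ρ * (1 + μ₀)) with hσ₀
  have hden : 0 < ρ * (1 + μ₀) := by positivity
  have hσ₀1 : σ₀ < 1 := by
    rw [hσ₀, div_lt_one hden]
    nlinarith [mul_pos (sub_pos.2 hρ1) (show 0 < ρ - μ₀ by nlinarith)]
  have hσ₀0 : 0 < σ₀ := by rw [hσ₀]; positivity
  set σ : ℝ := (σ₀ + 1) / 2 with hσ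
  have hσ1 : σ < 1 := by rw [hσ]; linarith
  have hσ0 : 0 < σ := by rw [hσ]; linarith
  have hσσ : σ₀ < σ := by rw [hσ]; linarith
  obtain ⟨Ca, hCa, haa⟩ := aa_le hr₀ hR h0 hμ1
  obtain ⟨C3, hC3, h3⟩ := F3 hr₀ hR h0 hμ1 hσ0 hσ1
  obtain ⟨Cr, hCr, hr⟩ := RR_le (R := R) hr₀ h0 h1 hρ hρ1 hσσ
  obtain ⟨Cl, δ₁, hCl, hδ₁, hl⟩ := RR_lip hr₀ hR h0 h1 hρ hρ1 hσσ
  set K : ℝ := Cl * Ca * C3 ^ 2 + 2 * (Cr * Ca * C3 ^ 2) / δ₁ with hK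
  have hKp : 0 < K := by rw [hK]; positivity
  refine ⟨min (1 / 2) (1 / (2 * K)), by positivity, ?_⟩
  intro c₁ r₁ μ₁ c₂ r₂ μ₂ hp₁ hp₂ hd hμ₁ hμ₂ l hlε N m hN hN₁ hN₂ hm hid
  have hl2 : l ^ 2 ≤ 1 / 4 := by
    have : |l| ≤ 1 / 2 := (hlε.trans_le (min_le_left _ _)).le
    rw [← sq_abs]
    nlinarith [abs_nonneg l]
  have hlK : |l| * K < 1 := by
    have : |l| < 1 / (2 * K) := hlε.trans_le (min_le_right _ _)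
    rw [lt_div_iff₀ (by positivity)] at this
    linarith
  have hr₁ : 0 < r₁ := hr₀.trans_le hp₁.2.1
  have hr₂ : 0 < r₂ := hr₀.trans_le hp₂.2.1
  have hn₁ : ‖μ₁‖ < 1 := hp₁.2.2.2.trans_lt hμ1
  have hn₂ : ‖μ₂‖ < 1 := hp₂.2.2.2.trans_lt hμ1
  set d := dd c₁ r₁ μ₁ c₂ r₂ μ₂ with hdd
  set A : ℂ → ℂ := fun z => aa c₁ r₁ μ₁ c₂ r₂ μ₂ z * m z with hA
  set NNv := NN c₁ r₁ μ₁ c₂ r₂ μ₂ m with hNN
  have hNN0 : 0 ≤ NNv := NN_nonneg _ _ _ _ _ _ _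
  -- bounds for `m`
  have hm₁ : ∀ z ∈ Dp c₁ r₁ μ₁ σ, ‖m z‖ ≤ C3 * Real.sqrt NNv / d := fun z hz => by
    rw [le_div_iff₀ hd]
    have := h3 c₁ r₁ μ₁ c₂ r₂ μ₂ hp₁ hp₂ hd hμ₁ N m hN hN₁ hN₂ hm z hz
    rw [mul_comm]
    exact this
  have hm₂ : ∀ z ∈ Dp c₂ r₂ μ₂ σ, ‖m z‖ ≤ C3 * Real.sqrt NNv / d := fun z hz => by
    rw [le_div_iff₀ hd]
    have h5 : 0 < dd c₂ r₂ μ₂ c₁ r₁ μ₁ := by rw [dd_symm]; exact hd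
    have := h3 c₂ r₂ μ₂ c₁ r₁ μ₁ hp₂ hp₁ h5 hμ₂ N m hN hN₂ hN₁ hm z hz
    rw [dd_symm c₂, NN_symm c₂] at this
    rw [mul_comm]
    exact this
  have hball₁ : ∀ z ∈ Dp c₁ r₁ μ₁ σ, ‖z‖ ≤ 3 * R := fun z hz => by
    have h5 : ‖vv c₁ r₁ μ₁ z‖ < σ := hz
    exact Dp_sub hr₀ hμ1 hp₁ (by linarith)
  have hball₂ : ∀ z ∈ Dp c₂ r₂ μ₂ σ, ‖z‖ ≤ 3 * R := fun z hz => by
    have h5 : ‖vv c₂ r₂ μ₂ z‖ < σ := hz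
    exact Dp_sub hr₀ hμ1 hp₂ (by linarith)
  have hA₁ : ∀ z ∈ Dp c₁ r₁ μ₁ σ, ‖A z‖ ≤ Ca * (C3 * Real.sqrt NNv) := fun z hz => by
    have h5 := haa c₁ r₁ μ₁ c₂ r₂ μ₂ hp₁ hp₂ z (hball₁ z hz)
    have h6 := hm₁ z hz
    calc ‖A z‖ = ‖aa c₁ r₁ μ₁ c₂ r₂ μ₂ z‖ * ‖m z‖ := norm_mul _ _
      _ ≤ (Ca * d) * (C3 * Real.sqrt NNv / d) := mul_le_mul h5 h6 (norm_nonneg _) (by positivity)
      _ = Ca * (C3 * Real.sqrt NNv) := by field_simp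
  have hA₂ : ∀ z ∈ Dp c₂ r₂ μ₂ σ, ‖A z‖ ≤ Ca * (C3 * Real.sqrt NNv) := fun z hz => by
    have h5 := haa c₁ r₁ μ₁ c₂ r₂ μ₂ hp₁ hp₂ z (hball₂ z hz)
    have h6 := hm₂ z hz
    calc ‖A z‖ = ‖aa c₁ r₁ μ₁ c₂ r₂ μ₂ z‖ * ‖m z‖ := norm_mul _ _
      _ ≤ (Ca * d) * (C3 * Real.sqrt NNv / d) := mul_le_mul h5 h6 (norm_nonneg _) (by positivity)
      _ = Ca * (C3 * Real.sqrt NNv) := by field_simp
  -- `NN` is at most the difference of the error forms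
  have hNNle : NNv ≤ ‖RR c₁ r₁ μ₁ l A m ρ - RR c₂ r₂ μ₂ l A m ρ‖ := by
    have h5 := NN_id hr₁ hr₂ hn₁ hn₂ hN hN₁ hN₂ hm
    have h6 : (∫ z in Dp c₁ r₁ μ₁ 1, conj (m z) * (aa c₁ r₁ μ₁ c₂ r₂ μ₂ z * m z)) -
        (∫ z in Dp c₂ r₂ μ₂ 1, conj (m z) * (aa c₁ r₁ μ₁ c₂ r₂ μ₂ z * m z)) =
        -(RR c₁ r₁ μ₁ l A m ρ - RR c₂ r₂ μ₂ l A m ρ) := by
      have h7 : (∫ z in Dp c₁ r₁ μ₁ 1, conj (m z) * A z) + RR c₁ r₁ μ₁ l A m ρ =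
        (∫ z in Dp c₂ r₂ μ₂ 1, conj (m z) * A z) + RR c₂ r₂ μ₂ l A m ρ := hid
      simp only [hA] at h7 ⊢
      linear_combination h7
    rw [hNN, h5, h6]
    exact (le_abs_self _).trans ((abs_re_le_norm _).trans (by rw [norm_neg]))
  have hsq : Real.sqrt NNv * Real.sqrt NNv = NNv := Real.mul_self_sqrt hNN0
  have hle : ‖RR c₁ r₁ μ₁ l A m ρ - RR c₂ r₂ μ₂ l A m ρ‖ ≤ |l| * K * NNv := by
    rcases le_or_gt d δ₁ with hδ | hδ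
    · have hAd : DifferentiableOn ℂ A (Dp c₁ r₁ μ₁ σ) := by
        have h7 : Dp c₁ r₁ μ₁ σ ⊆ N := fun z hz => hN₁ (le_of_lt (lt_trans hz hσ1))
        refine DifferentiableOn.mul ?_ (hm.mono h7)
        unfold aa
        fun_prop
      have hmd : DifferentiableOn ℂ m (Dp c₁ r₁ μ₁ σ) := hm.mono fun z hz => hN₁ (le_of_lt (lt_trans hz hσ1))
      have h7 := hl c₁ r₁ μ₁ c₂ r₂ μ₂ hp₁ hp₂ hδ l hl2 A m (Ca * (C3 * Real.sqrt NNv)) (C3 * Real.sqrt NNv / d) hAd hmd hA₁ hm₁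
      refine h7.trans ?_
      have h8 : Cl * |l| * (Ca * (C3 * Real.sqrt NNv)) * (C3 * Real.sqrt NNv / d) * d = |l| * (Cl * Ca * C3 ^ 2) * NNv := by
        have h80 : C3 * Real.sqrt NNv / d * d = C3 * Real.sqrt NNv := div_mul_cancel₀ _ hd.ne'
        calc Cl * |l| * (Ca * (C3 * Real.sqrt NNv)) * (C3 * Real.sqrt NNv / d) * d
            = Cl * |l| * (Ca * (C3 * Real.sqrt NNv)) * (C3 * Real.sqrt NNv / d * d) := by ring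
          _ = |l| * (Cl * Ca * C3 ^ 2) * (Real.sqrt NNv * Real.sqrt NNv) := by rw [h80]; ring
          _ = |l| * (Cl * Ca * C3 ^ 2) * NNv := by rw [hsq]
      rw [h8]
      have h9 : Cl * Ca * C3 ^ 2 ≤ K := by
        rw [hK]
        have : 0 < 2 * (Cr * Ca * C3 ^ 2) / δ₁ := by positivity
        linarith
      gcongr
    · have h7 := (hr c₁ r₁ μ₁ hp₁ l hl2 A m (Ca * (C3 * Real.sqrt NNv)) (C3 * Real.sqrt NNv / d) hA₁ hm₁).2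
      have h8 := (hr c₂ r₂ μ₂ hp₂ l hl2 A m (Ca * (C3 * Real.sqrt NNv)) (C3 * Real.sqrt NNv / d) hA₂ hm₂).2
      have h9 : Cr * |l| * (Ca * (C3 * Real.sqrt NNv)) * (C3 * Real.sqrt NNv / d) = |l| * (Cr * Ca * C3 ^ 2 / d) * NNv := by
        calc Cr * |l| * (Ca * (C3 * Real.sqrt NNv)) * (C3 * Real.sqrt NNv / d)
            = |l| * (Cr * Ca * C3 ^ 2 / d) * (Real.sqrt NNv * Real.sqrt NNv) := by ring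
          _ = |l| * (Cr * Ca * C3 ^ 2 / d) * NNv := by rw [hsq]
      rw [h9] at h7 h8
      have h10 : Cr * Ca * C3 ^ 2 / d ≤ Cr * Ca * C3 ^ 2 / δ₁ := by gcongr
      calc ‖RR c₁ r₁ μ₁ l A m ρ - RR c₂ r₂ μ₂ l A m ρ‖ ≤ ‖RR c₁ r₁ μ₁ l A m ρ‖ + ‖RR c₂ r₂ μ₂ l A m ρ‖ := norm_sub_le _ _
        _ ≤ |l| * (Cr * Ca * C3 ^ 2 / d) * NNv + |l| * (Cr * Ca * C3 ^ 2 / d) * NNv := add_le_add h7 h8
        _ = |l| * (2 * (Cr * Ca * C3 ^ 2 / d)) * NNv := by ring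
        _ ≤ |l| * K * NNv := by
            have h11 : 2 * (Cr * Ca * C3 ^ 2 / d) ≤ K := by
              rw [hK]
              have : 0 < Cl * Ca * C3 ^ 2 := by positivity
              have h12 : 2 * (Cr * Ca * C3 ^ 2) / δ₁ = 2 * (Cr * Ca * C3 ^ 2 / δ₁) := by ring
              linarith
            gcongr
  have hz : NNv = 0 := by
    have h5 := hNNle.trans hle
    by_contra hne
    have hpos : 0 < NNv := lt_of_le_of_ne hNN0 (Ne.symm hne)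
    nlinarith
  intro z hz1
  have hz2 : ‖vv c₁ r₁ μ₁ z‖ < 1 := hz1
  obtain ⟨τ, hτ1, hτ2⟩ := exists_between hz2
  obtain ⟨C4, hC4, h4⟩ := F3 hr₀ hR h0 hμ1 ((norm_nonneg _).trans_lt hτ1) hτ2
  have h5 := h4 c₁ r₁ μ₁ c₂ r₂ μ₂ hp₁ hp₂ hd hμ₁ N m hN hN₁ hN₂ hm z hτ1
  rw [← hNN, hz, Real.sqrt_zero, mul_zero] at h5
  have h6 : ‖m z‖ ≤ 0 := by
    by_contra hcon
    push Not at hcon
    have : 0 < d * ‖m z‖ := mul_pos hd hcon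
    linarith
  exact norm_le_zero_iff.1 h6

end EW1
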