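import Pool.Agent.H1.EW.T
import Pool.Agent.H1.EW.Fa
import Pool.Agent.H1.EW.Pf
import Pool.Agent.H1.EW.Pg
import Pool.Agent.H1.EW.Ph
import Pool.Agent.H1.ED.T2

/-!
# EW: the partial differential equation part: two ellipses with the same data satisfy the identity; the theorem
-/

set_option autoImplicit false

namespace EW1

open Complex Set Filter Topology MeasureTheory MD12 ED1
open scoped ComplexConjugate ContDiff Real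

/-- the radius of the ellipse `De z₀ b x` -/
noncomputable def pr (b : ℂ) (x : ℝ) : ℝ := ‖b‖ * Real.exp x

/-- the parameter `μ` of the ellipse `De z₀ b x` -/
noncomputable def pm (b : ℂ) (x : ℝ) : ℂ := b ^ 2 / ((pr b x : ℝ) : ℂ) ^ 2

theorem pr_pos {b : ℂ} (hb : b ≠ 0) (x : ℝ) : 0 < pr b x := mul_pos (norm_pos_iff.2 hb) (Real.exp_pos x)

theorem pm_norm {b : ℂ} (hb : b ≠ 0) (x : ℝ) : ‖pm b x‖ = Real.exp (-(2 * x)) := mu_norm hb x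

theorem De_p (z₀ : ℂ) {b : ℂ} (hb : b ≠ 0) {x : ℝ} (hx : 0 < x) : De z₀ b x = Dp z₀ (pr b x) (pm b x) 1 := De_Dp z₀ hb hx

theorem cDe_p (z₀ : ℂ) {b : ℂ} (hb : b ≠ 0) {x : ℝ} (hx : 0 < x) :
    {z | lv z₀ b z ≤ lx b x} = {z | ‖vv z₀ (pr b x) (pm b x) z‖ ≤ 1} := cDe_cDp z₀ hb hx

/-- two ellipses with the same data: the identity -/
theorem pde_id {Ω : Set ℂ} (hΩo : IsOpen Ω) (hΩb : Bornology.IsBounded Ω) (hΩc : IsPreconnected Ω)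
    (hσ : μH[1] (frontier Ω) < ⊤) {k : ℝ} (hk : 0 < k) (hk1 : k ≠ 1)
    {z₀ b : ℂ} (hb : b ≠ 0) {x : ℝ} (hx : 0 < x)
    (hD : {z | lv z₀ b z ≤ lx b x} ⊆ Ω) {z₁ c : ℂ} (hc : c ≠ 0) {x' : ℝ} (hx' : 0 < x')
    (hD' : {z | lv z₁ c z ≤ lx c x'} ⊆ Ω)
    {g u₁ u₂ : ℂ → ℝ} {G₁ G₂ : ℂ → ℂ} (hg : MemLp g 2 (μH[1].restrict (frontier Ω)))
    (h₁ : SolvesC Ω (MD12.cond k (De z₀ b x)) g u₁ G₁) (h₂ : SolvesC Ω (MD12.cond k (De z₁ c x')) g u₂ G₂)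
    (ht : SameTrace Ω u₁ u₂ G₁ G₂) {ρ : ℝ} (hρ : Real.exp (-x) < ρ) (hρ' : Real.exp (-x') < ρ) (hρ1 : ρ < 1) :
    ∃ M : ℂ → ℂ, DifferentiableOn ℂ M Ω ∧
      (∀ A : ℂ → ℂ, DifferentiableOn ℂ A Ω → Idn z₀ (pr b x) (pm b x) z₁ (pr c x') (pm c x') ((k - 1) / (k + 1)) ρ A M) ∧
      ((∀ z ∈ Dp z₀ (pr b x) (pm b x) 1, M z = 0) → g =ᵐ[μH[1].restrict (frontier Ω)] 0) := by
  obtain ⟨y, hy, hyΩ⟩ := Dd hb hx.le hΩo hD
  obtain ⟨y', hy', hyΩ'⟩ := Dd hc hx'.le hΩo hD'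
  obtain ⟨Fi, Fo, hF⟩ := deep' hΩo hk hb hx hy hyΩ h₁
  obtain ⟨Fi', Fo', hF'⟩ := deep' hΩo hk hc hx' hy' hyΩ' h₂
  obtain ⟨M, hM, hr1, hr2⟩ := common hΩo hΩb hΩc hyΩ hyΩ' h₁ h₂ ht hF hF'
  have hk0 : ((k + 1 : ℝ) : ℂ) / 2 ≠ 0 := by
    have : (0 : ℝ) < k + 1 := by linarith
    have h2 : ((k + 1 : ℝ) : ℂ) ≠ 0 := by exact_mod_cast this.ne'
    exact div_ne_zero h2 two_ne_zero
  refine ⟨M, hM, fun A hA => ?_, fun h0 => ?_⟩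
  · have hO := Oid hΩo hΩb hk1 hb hc hx hy hx' hy' hyΩ hyΩ' h₁ h₂ ht hA
    have e1 : ∫ z in De z₀ b x, G₁ z * A z = ∫ z in De z₀ b x, conj (Fi z) * A z := by
      refine setIntegral_congr_ae (De_open z₀ b x).measurableSet ?_
      have h3 := hF.ei
      rw [ae_restrict_iff' (De_open z₀ b x).measurableSet] at h3
      filter_upwards [h3] with w hw hwD
      rw [hw hwD]
    have e2 : ∫ z in De z₁ c x', G₂ z * A z = ∫ z in De z₁ c x', conj (Fi' z) * A z := by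
      refine setIntegral_congr_ae (De_open z₁ c x').measurableSet ?_
      have h3 := hF'.ei
      rw [ae_restrict_iff' (De_open z₁ c x').measurableSet] at h3
      filter_upwards [h3] with w hw hwD
      rw [hw hwD]
    have i1 := main_id hb hk hx hy hF.di hF.fi2 (hM.mono hyΩ) (hA.mono hyΩ) hr1 ⟨hρ, hρ1⟩
    have i2 := main_id hc hk hx' hy' hF'.di hF'.fi2 (hM.mono hyΩ') (hA.mono hyΩ') hr2 ⟨hρ', hρ1⟩
    unfold Idn
    rw [← De_p z₀ hb hx, ← De_p z₁ hc hx']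
    have i1' : ((k + 1 : ℝ) : ℂ) / 2 * ∫ z in De z₀ b x, conj (Fi z) * A z = (∫ z in De z₀ b x, conj (M z) * A z) +
      RR z₀ (pr b x) (pm b x) ((k - 1) / (k + 1)) A M ρ := i1
    have i2' : ((k + 1 : ℝ) : ℂ) / 2 * ∫ z in De z₁ c x', conj (Fi' z) * A z = (∫ z in De z₁ c x', conj (M z) * A z) +
      RR z₁ (pr c x') (pm c x') ((k - 1) / (k + 1)) A M ρ := i2
    rw [← i1', ← i2', ← e1, ← e2, hO]
  · rw [← De_p z₀ hb hx] at h0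
    have hF0 := main_zero hb hk hx hF.di h0 hr1
    have hG0 : ∀ᵐ z ∂volume.restrict (De z₀ b x), G₁ z = 0 := by
      have h3 := hF.ei
      rw [ae_restrict_iff' (De_open z₀ b x).measurableSet] at h3 ⊢
      filter_upwards [h3] with w hw hwD
      rw [hw hwD, hF0 w hwD, map_zero]
    have hxΩ : De z₀ b x ⊆ Ω := fun z hz => hD (le_of_lt (show lv z₀ b z < lx b x from hz))
    exact Fg hΩo hΩb hΩc hσ (De_open z₀ b x) (De_nonempty hb hx) hxΩ hg h₁ hG0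

/-- the theorem for the parameters of the family -/
theorem main3 {r₀ R μ₀ : ℝ} (hr₀ : 0 < r₀) (hR : r₀ ≤ R) (h0 : 0 ≤ μ₀) (h1 : μ₀ < 1) :
    ∃ ε : ℝ, 0 < ε ∧ ∀ k : ℝ, 0 < k → k ≠ 1 → |k - 1| < ε → ∀ Ω : Set ℂ, IsOpen Ω → Bornology.IsBounded Ω → IsPreconnected Ω →
      μH[1] (frontier Ω) < ⊤ → ∀ (z₀ b z₁ c : ℂ) (x x' : ℝ), b ≠ 0 → c ≠ 0 → 0 < x → 0 < x' →
      PS r₀ R μ₀ z₀ (pr b x) (pm b x) → PS r₀ R μ₀ z₁ (pr c x') (pm c x') →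
      {z | lv z₀ b z ≤ lx b x} ⊆ Ω → {z | lv z₁ c z ≤ lx c x'} ⊆ Ω →
      ∀ (g u₁ u₂ : ℂ → ℝ) (G₁ G₂ : ℂ → ℂ), MemLp g 2 (μH[1].restrict (frontier Ω)) →
      ¬ g =ᵐ[μH[1].restrict (frontier Ω)] 0 →
      SolvesC Ω (MD12.cond k (De z₀ b x)) g u₁ G₁ → SolvesC Ω (MD12.cond k (De z₁ c x')) g u₂ G₂ → SameTrace Ω u₁ u₂ G₁ G₂ →
      De z₀ b x = De z₁ c x' := by
  set ρ : ℝ := Real.sqrt ((1 + μ₀) / 2) with hρd
  have hρ2 : ρ ^ 2 = (1 + μ₀) / 2 := Real.sq_sqrt (by linarith)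
  have hρ0 : 0 < ρ := Real.sqrt_pos.2 (by linarith)
  have hρ1 : ρ < 1 := by nlinarith
  have hμρ : μ₀ < ρ ^ 2 := by rw [hρ2]; linarith
  obtain ⟨ε, hε, hcore⟩ := core_thm hr₀ hR h0 hμρ hρ0 hρ1
  refine ⟨ε, hε, ?_⟩
  intro k hk hk1 hkε Ω hΩo hΩb hΩc hσ z₀ b z₁ c x x' hb hc hx hx' hp hp' hD hD' g u₁ u₂ G₁ G₂ hg hg0 h₁ h₂ ht
  have hex : ∀ t : ℝ, Real.exp (-(2 * t)) ≤ μ₀ → Real.exp (-t) < ρ := by
    intro t ht
    have e : Real.exp (-(2 * t)) = Real.exp (-t) ^ 2 := by rw [← Real.exp_nat_mul]; congr 1; push_cast; ring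
    rw [e] at ht
    exact lt_of_pow_lt_pow_left₀ 2 hρ0.le (ht.trans_lt hμρ)
  have hρx : Real.exp (-x) < ρ := hex x (by rw [← pm_norm hb x]; exact hp.2.2.2)
  have hρx' : Real.exp (-x') < ρ := hex x' (by rw [← pm_norm hc x']; exact hp'.2.2.2)
  obtain ⟨M, hM, hid, hz⟩ := pde_id hΩo hΩb hΩc hσ hk hk1 hb hx hD hc hx' hD' hg h₁ h₂ ht hρx hρx' hρ1
  have hne : ∀ {b : ℂ}, b ≠ 0 → ∀ x : ℝ, pm b x ≠ 0 := by
    intro b hb x h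
    have h2 := pm_norm hb x
    rw [h, norm_zero] at h2
    exact (Real.exp_pos _).ne h2
  have hdd : ¬ 0 < dd z₀ (pr b x) (pm b x) z₁ (pr c x') (pm c x') := by
    intro hd
    have hl : |(k - 1) / (k + 1)| < ε := by
      rw [abs_div, abs_of_pos (by linarith : (0 : ℝ) < k + 1), div_lt_iff₀ (by linarith)]
      nlinarith [abs_nonneg (k - 1)]
    have hA : DifferentiableOn ℂ (fun z => aa z₀ (pr b x) (pm b x) z₁ (pr c x') (pm c x') z * M z) Ω := by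
      refine DifferentiableOn.mul ?_ hM
      unfold aa
      fun_prop
    rw [cDe_p z₀ hb hx] at hD
    rw [cDe_p z₁ hc hx'] at hD'
    exact hg0 (hz (hcore z₀ (pr b x) (pm b x) z₁ (pr c x') (pm c x') hp hp' hd (hne hb x) (hne hc x') _ hl Ω M hΩo hD hD' hM
      (hid _ hA)))
  have h5 : dd z₀ (pr b x) (pm b x) z₁ (pr c x') (pm c x') ≤ 0 := not_lt.1 hdd
  unfold dd at h5
  have h6 : ‖z₀ - z₁‖ = 0 := by linarith [norm_nonneg (z₀ - z₁), abs_nonneg (pr b x - pr c x'), norm_nonneg (pm b x - pm c x')]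
  have h7 : |pr b x - pr c x'| = 0 := by linarith [norm_nonneg (z₀ - z₁), abs_nonneg (pr b x - pr c x'), norm_nonneg (pm b x - pm c x')]
  have h8 : ‖pm b x - pm c x'‖ = 0 := by linarith [norm_nonneg (z₀ - z₁), abs_nonneg (pr b x - pr c x'), norm_nonneg (pm b x - pm c x')]
  rw [De_p z₀ hb hx, De_p z₁ hc hx', sub_eq_zero.1 (norm_eq_zero.1 h6), sub_eq_zero.1 (abs_eq_zero.1 h7),
    sub_eq_zero.1 (norm_eq_zero.1 h8)]

end EW1
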